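import Pool.Agent.Lib.MP_1acd66_nt.Tw.MainB

/-!
Asymptotics for the pairs with small first vector.
-/

namespace Pool.Agent.Lib.MP_1acd66_nt.Tw

open Finset MeasureTheory

variable {M : (Fin 3 → ℝ) → (Fin 4 → ℝ) → ℝ} {f : (Fin 3 → ℤ) → (Fin 4 → ℤ) → ℝ}

theorem regB_est (hM : IsLocalNorm ℝ M) {S : ℕ} {f0 f1 : ℝ} (hf : Tame f S f0 f1)
    (h01 : f0 ≤ f1) : ∃ kmin kmax : ℝ, 0 < kmin ∧ ∀ ε : ℝ, 0 < ε → ε ≤ 1 →
      ∃ κ : ℝ, kmin ≤ κ ∧ κ ≤ kmax ∧ ∃ K : ℝ, 0 < K ∧ ∀ R : ℝ, 1 ≤ R → ∀ B : ℝ, 1 ≤ B →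
        (regB M f B R).Finite ∧
        κ / (1 + ε) * (B * Real.log R) - ε * (B * (1 + Real.log R)) -
          K * (B + √B * (R * √R) + R ^ 3) ≤ ((regB M f B R).ncard : ℝ) ∧
        ((regB M f B R).ncard : ℝ) ≤ (1 + ε) * κ * (B * Real.log R) +
          ε * (B * (1 + Real.log R)) + K * (B + √B * (R * √R) + R ^ 3) := by
  classical
  obtain ⟨c0, C', hc0, hC', hb⟩ := hM.bound
  have hf0 := hf.pos
  have hf1 : 0 < f1 := lt_of_lt_of_le hf0 h01
  obtain ⟨C, hC, hmain⟩ := main_sumB hM hf0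
  have hcE := cE_pos
  have hk := hM.kap_pos
  set Z1 := 1 / (c0 * f0) with hZ1
  have hZ1p : 0 < Z1 := by positivity
  refine ⟨kap (volume : Measure (Fin 3 → ℝ)) (Phi M) / (144 * f1),
    kap (volume : Measure (Fin 3 → ℝ)) (Phi M) / f0, by positivity, ?_⟩
  intro ε hε hε1
  -- the choice of parameters
  set τ := √(ε / (4 * (2 * C + 32 * cE * Z1))) with hτdef
  have hτ : 0 < τ := Real.sqrt_pos.2 (by positivity)
  have hτ2 : (2 * C + 32 * cE * Z1) * τ ^ 2 ≤ ε / 4 := by
    rw [hτdef, Real.sq_sqrt (by positivity)]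
    apply le_of_eq
    field_simp
  obtain ⟨P, hP⟩ := exists_nat_ge (4 * (2 * C + 165888 * (4 / τ ^ 2 + 1) * Z1) / ε + 1)
  have hPpos' : (0:ℝ) < P := by
    have : 0 ≤ 4 * (2 * C + 165888 * (4 / τ ^ 2 + 1) * Z1) / ε := by positivity
    linarith
  have hPpos : 0 < P := by exact_mod_cast hPpos'
  have hP2 : (2 * C + 165888 * (4 / τ ^ 2 + 1) * Z1) / P ≤ ε / 4 := by
    rw [div_le_iff₀ hPpos']
    have h1 : 4 * (2 * C + 165888 * (4 / τ ^ 2 + 1) * Z1) / ε ≤ P := by linarith
    rw [div_le_iff₀ hε] at h1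
    linarith
  obtain ⟨q0, hq0, hSq0, hcls⟩ := hf.exists_approx h01 hε
  set q := q0 * (P + 2).factorial with hq
  have hq2 : 2 ≤ q := by
    have h1 : 2 ≤ (P + 2).factorial := by
      have := Nat.self_le_factorial (P + 2)
      omega
    calc 2 ≤ 1 * (P + 2).factorial := by omega
      _ ≤ q := Nat.mul_le_mul_right _ hq0
  have hqpos : 0 < q := by omega
  have hPq : ∀ p : ℕ, p.Prime → p < P → p ∣ q := by
    intro p hp hpP
    exact Dvd.dvd.mul_left ((Nat.dvd_factorial hp.pos (by omega))) _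
  obtain ⟨g, hg1, hg2⟩ := hcls q hqpos (Dvd.intro _ rfl)
  obtain ⟨K, hK, hmain'⟩ := hmain τ hτ P hPpos q hq2 hPq g (fun ξ η => (hg1 ξ η).1) (ε / 8)
    (by positivity)
  obtain ⟨hk1, hk2⟩ := kapB_bounds hM hf0 hq2 hg1
  refine ⟨kapB M q g, hk1, hk2, 2 * K + 32 * cE * (Z1 + √Z1) + 108, by positivity, ?_⟩
  intro R hR B hB
  have hB0 : 0 < B := by linarith
  have hL : 0 ≤ Real.log R := Real.log_nonneg hR
  set L := Real.log R with hLdef
  set Z := Z1 * B with hZ
  have hZp : 0 < Z := by positivity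
  have hsqZ : √Z = √Z1 * √B := by rw [hZ, Real.sqrt_mul hZ1p.le]
  -- the size of the second vector
  have hsize : ∀ x y, Prim x → y ≠ 0 → Inc x y → ∀ t : ℝ, f0 ≤ t →
      M (castv x) (castv y) * t ≤ B → nrm x * nrm y ^ 2 ≤ Z := by
    intro x y hx hy hxy t ht hle
    have h1 := (hb (castv x) (castv y) (castv_ne_zero hx.ne_zero) (castv_ne_zero hy)
      (inc_castv hxy)).1
    rw [norm_castv, norm_castv] at h1
    have h2 : 0 ≤ nrm x * nrm y ^ 2 := by
      have := nrm_nonneg x
      positivity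
    rw [hZ, hZ1, div_mul_eq_mul_div, one_mul, le_div_iff₀ (by positivity)]
    calc nrm x * nrm y ^ 2 * (c0 * f0) = (c0 * (nrm x * nrm y ^ 2)) * f0 := by ring
      _ ≤ (c0 * (nrm x * nrm y ^ 2)) * t := by gcongr
      _ ≤ M (castv x) (castv y) * t := by
          have : 0 ≤ t := by linarith
          gcongr
      _ ≤ B := hle
  have hmem : ∀ p ∈ regB M f B R, nrm p.1 ≤ R ∧ nrm p.1 * nrm p.2 ^ 2 ≤ Z := by
    rintro p ⟨⟨a1, a2, a3, a4, a5⟩, a6⟩
    exact ⟨a6, hsize _ _ a1 a2.ne_zero a3 _ (hf.bd _ _ (a1.pm S) (a2.pm S) a3).1 a5⟩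
  have hfin : (regB M f B R).Finite := by
    refine Set.Finite.subset (bx 3 R ×ˢ bx 4 (√Z)).finite_toSet ?_
    intro p hp
    obtain ⟨h1, h2⟩ := hmem p hp
    obtain ⟨⟨a1, a2, _⟩, _⟩ := hp
    rw [mem_coe, mem_product, mem_bx, mem_bx]
    refine ⟨⟨a1.ne_zero, h1⟩, a2.ne_zero, ?_⟩
    apply Real.le_sqrt_of_sq_le
    have := one_le_nrm a1.ne_zero
    nlinarith [sq_nonneg (nrm p.2)]
  refine ⟨hfin, ?_⟩
  set F := hfin.toFinset with hF
  have hFm : ∀ p, p ∈ F ↔ p ∈ regB M f B R := fun p => hfin.mem_toFinset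
  have hcard : ((regB M f B R).ncard : ℝ) = F.card := by
    rw [Set.ncard_eq_toFinset_card _ hfin]
  rw [hcard]
  have hRR : 0 ≤ R * √R := by
    have : 0 ≤ R := by linarith
    positivity
  have hsB : 0 ≤ √B := Real.sqrt_nonneg _
  have hsZ1 : 0 ≤ √Z1 := Real.sqrt_nonneg _
  have hR3 : 0 ≤ R ^ 3 := by
    have : 0 ≤ R := by linarith
    positivity
  have hBL : 0 ≤ B * (1 + L) := by positivity
  constructor
  · -- lower bound
    set b := B / (1 + ε) with hb'
    have hbp : 0 < b := by positivity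
    have hbB : b ≤ B := div_le_self hB0.le (by linarith)
    obtain ⟨hfinS, hest⟩ := hmain' R hR b hbp
    have hx1 : ∀ x ∈ SR τ R, ((FS M g q x b).ncard : ℝ) ≤
        ((F.filter (fun p => p.1 = x)).card : ℝ) + 4 +
          384 * (4 / τ ^ 2 + 1) / P * Z * (1 / nrm x ^ 3) := by
      intro x hx
      obtain ⟨⟨hx0, hxR⟩, hxp, hxl⟩ := mem_SR.1 hx
      have hn : 0 < nrm x := lt_of_lt_of_le one_pos (one_le_nrm hx0)
      have hfx := hfinS x hx
      rw [Set.ncard_eq_toFinset_card _ hfx]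
      set G := hfx.toFinset with hG
      have hGm : ∀ y, y ∈ G ↔ y ∈ FS M g q x b := fun y => hfx.mem_toFinset
      have hGle : ∀ y ∈ G, M (castv x) (castv y) * g (rsd q x) (rsd q y) ≤ B := fun y hy =>
        ((hGm y).1 hy).2.2.2.trans hbB
      have s1 := card_filter_add_card_filter_not (s := G) (fun y => Prim y)
      have s2 := card_filter_add_card_filter_not (s := G.filter (fun y => Prim y))
        (fun y => qf y ≠ 0)
      have c1 : ((G.filter (fun y => Prim y)).filter (fun y => qf y ≠ 0)).card ≤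
          (F.filter (fun p => p.1 = x)).card := by
        refine card_le_card_of_injOn (fun y => (x, y)) ?_ ?_
        · intro y hy
          rw [mem_coe, mem_filter, mem_filter] at hy
          obtain ⟨⟨h1, h2⟩, h3⟩ := hy
          obtain ⟨g1, g2, g3, g4⟩ := (hGm y).1 h1
          rw [mem_coe, mem_filter]
          refine ⟨(hFm _).2 ⟨⟨hxp, h2, g2, h3, ?_⟩, hxR⟩, rfl⟩
          have h4 := (hg2 x y (hxp.pm q) g3 g2).1
          have h5 := hM.pos (castv x) (castv y) (castv_ne_zero hx0) (castv_ne_zero g1)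
            (inc_castv g2)
          simp only
          calc M (castv x) (castv y) * f x y
              ≤ M (castv x) (castv y) * ((1 + ε) * g (rsd q x) (rsd q y)) := by gcongr
            _ = (1 + ε) * (M (castv x) (castv y) * g (rsd q x) (rsd q y)) := by ring
            _ ≤ (1 + ε) * b := by gcongr
            _ = B := by rw [hb']; field_simp
        · intro y _ z _ h
          exact congrArg Prod.snd h
      have c2 : ((G.filter (fun y => Prim y)).filter (fun y => ¬ qf y ≠ 0)).card ≤ 4 := by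
        refine deg_fib hx0 _ ?_
        intro y hy
        rw [mem_filter, mem_filter] at hy
        obtain ⟨⟨h1, h2⟩, h3⟩ := hy
        push Not at h3
        exact ⟨h2, ((hGm y).1 h1).2.1, h3⟩
      have c3 : ((G.filter (fun y => ¬ Prim y)).card : ℝ) ≤
          384 * (4 / τ ^ 2 + 1) / P * Z * (1 / nrm x ^ 3) := by
        refine (lat_count_div hxp (Y := √(Z / nrm x)) (Real.sqrt_nonneg _) hτ hxl hPpos _ ?_).trans
          (le_of_eq ?_)
        · intro y hy
          rw [mem_filter] at hy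
          obtain ⟨h1, h2⟩ := hy
          obtain ⟨g1, g2, g3, g4⟩ := (hGm y).1 h1
          refine ⟨g2, g1, ?_, ?_⟩
          · apply Real.le_sqrt_of_sq_le
            rw [le_div_iff₀ hn]
            have := hsize x y hxp g1 g2 _ (hg1 _ _).1 (hGle y h1)
            linarith
          · rw [prim_iff_prime] at h2
            push Not at h2
            obtain ⟨p, hp, hpy⟩ := h2
            refine ⟨p, ?_, hpy⟩
            by_contra hcon
            push Not at hcon
            obtain ⟨i, hi⟩ := g3 p hp (hPq p hp hcon)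
            exact hi (hpy i)
        · rw [Real.sq_sqrt (show 0 ≤ Z / nrm x by positivity)]
          field_simp
      have c1' : (((G.filter (fun y => Prim y)).filter (fun y => qf y ≠ 0)).card : ℝ) ≤
          ((F.filter (fun p => p.1 = x)).card : ℝ) := by exact_mod_cast c1
      have c2' : (((G.filter (fun y => Prim y)).filter (fun y => ¬ qf y ≠ 0)).card : ℝ) ≤ 4 := by
        exact_mod_cast c2
      have s1' : ((G.filter (fun y => Prim y)).card : ℝ) + ((G.filter (fun y => ¬ Prim y)).card : ℝ) =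
          G.card := by exact_mod_cast s1
      have s2' : (((G.filter (fun y => Prim y)).filter (fun y => qf y ≠ 0)).card : ℝ) +
          (((G.filter (fun y => Prim y)).filter (fun y => ¬ qf y ≠ 0)).card : ℝ) =
          (G.filter (fun y => Prim y)).card := by exact_mod_cast s2
      linarith
    have hsum := sum_le_sum hx1
    rw [sum_add_distrib, sum_add_distrib, ← mul_sum, sum_const, nsmul_eq_mul] at hsum
    have hSsub : SR τ R ⊆ bx 3 R := fun x hx => mem_bx.2 (mem_SR.1 hx).1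
    have hF1 : ∑ x ∈ SR τ R, ((F.filter (fun p => p.1 = x)).card : ℝ) ≤ F.card := by
      have h1 : ∑ x ∈ SR τ R, (F.filter (fun p => p.1 = x)).card ≤ F.card := by
        rw [← card_biUnion]
        · apply card_le_card
          intro p hp
          obtain ⟨x, _, hx⟩ := mem_biUnion.1 hp
          exact (mem_filter.1 hx).1
        · intro x _ x' _ hxx'
          refine disjoint_left.2 ?_
          intro p hp hp'
          exact hxx' ((mem_filter.1 hp).2.symm.trans (mem_filter.1 hp').2)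
      exact_mod_cast h1
    have h3 := sum3_bx hR _ hSsub
    have h4 : ((SR τ R).card : ℝ) ≤ (3 * R) ^ 3 :=
      le_trans (by exact_mod_cast card_le_card hSsub) (card_bx hR 3)
    have h5 := (abs_le.1 hest).1
    have h6 : 384 * (4 / τ ^ 2 + 1) / P * Z * ∑ x ∈ SR τ R, 1 / nrm x ^ 3 ≤
        (165888 * (4 / τ ^ 2 + 1) * Z1) / P * (B * (1 + L)) := by
      calc 384 * (4 / τ ^ 2 + 1) / P * Z * ∑ x ∈ SR τ R, 1 / nrm x ^ 3
          ≤ 384 * (4 / τ ^ 2 + 1) / P * Z * (432 * (1 + L)) := by gcongr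
        _ = _ := by rw [hZ]; ring
    have h7 : (C * (τ ^ 2 + 1 / P) + ε / 8) * (b * (1 + L)) ≤
        (C * (τ ^ 2 + 1 / P) + ε / 8) * (B * (1 + L)) := by gcongr
    have h8 : K * (b + R ^ 3) ≤ K * (B + R ^ 3) := by gcongr
    have h9 : kapB M q g * (b * L) = kapB M q g / (1 + ε) * (B * L) := by
      rw [hb']; ring
    have h10 : (C * (τ ^ 2 + 1 / P) + ε / 8) + (165888 * (4 / τ ^ 2 + 1) * Z1) / P ≤ ε := by
      have e1 : (2 * C + 165888 * (4 / τ ^ 2 + 1) * Z1) / P =
        2 * C * (1 / P) + (165888 * (4 / τ ^ 2 + 1) * Z1) / P := by ring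
      rw [e1] at hP2
      have : 0 ≤ C * (1 / (P:ℝ)) := by positivity
      have : 0 ≤ 32 * cE * Z1 * τ ^ 2 := by positivity
      have : 0 ≤ C * τ ^ 2 := by positivity
      linarith
    have h11 := mul_le_mul_of_nonneg_right h10 hBL
    have h12 : 0 ≤ 32 * cE * (Z1 + √Z1) * (B + √B * (R * √R) + R ^ 3) := by positivity
    have h13 : 0 ≤ K * (√B * (R * √R)) := by positivity
    have h14 : 0 ≤ √B * (R * √R) := by positivity
    have h15 : ((SR τ R).card : ℝ) * 4 ≤ 108 * R ^ 3 := by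
      rw [mul_pow] at h4; linarith
    have h16 : 0 ≤ K * (B + R ^ 3) := by positivity
    linarith
  · -- upper bound
    set b := (1 + ε) * B with hb'
    have hbp : 0 < b := by positivity
    obtain ⟨hfinS, hest⟩ := hmain' R hR b hbp
    have hsplit := card_filter_add_card_filter_not (s := F) (fun p => lam p.1 ≤ τ * nrm p.1)
    have hU := unb_pairs hZp hR hτ (F.filter (fun p => lam p.1 ≤ τ * nrm p.1)) (by
      intro p hp
      obtain ⟨h1, h2⟩ := mem_filter.1 hp
      have h3 := (hFm p).1 h1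
      obtain ⟨h4, h5⟩ := hmem p h3
      obtain ⟨⟨a1, a2, a3, _⟩, _⟩ := h3
      exact ⟨a1, a3, a2.ne_zero, h4, h2, h5⟩)
    have hV : ((F.filter (fun p => ¬ lam p.1 ≤ τ * nrm p.1)).card : ℝ) ≤
        ∑ x ∈ SR τ R, ((FS M g q x b).ncard : ℝ) := by
      rw [card_eq_sum_card_fiberwise (f := Prod.fst) (t := SR τ R)]
      · push_cast
        refine sum_le_sum fun x hx => ?_
        have hfx := hfinS x hx
        rw [Set.ncard_eq_toFinset_card _ hfx]
        have h0 : ((F.filter (fun p => ¬ lam p.1 ≤ τ * nrm p.1)).filter (fun p => p.1 = x)).card ≤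
            hfx.toFinset.card := by
          refine card_le_card_of_injOn Prod.snd ?_ ?_
          · intro p hp
            rw [mem_coe, mem_filter, mem_filter] at hp
            obtain ⟨⟨h1, _⟩, rfl⟩ := hp
            obtain ⟨⟨a1, a2, a3, a4, a5⟩, _⟩ := (hFm p).1 h1
            rw [mem_coe, Set.Finite.mem_toFinset]
            refine ⟨a2.ne_zero, a3, a2.pm q, ?_⟩
            have h4 := (hg2 p.1 p.2 (a1.pm q) (a2.pm q) a3).2
            have h5 := hM.pos (castv p.1) (castv p.2) (castv_ne_zero a1.ne_zero)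
              (castv_ne_zero a2.ne_zero) (inc_castv a3)
            calc M (castv p.1) (castv p.2) * g (rsd q p.1) (rsd q p.2)
                ≤ M (castv p.1) (castv p.2) * ((1 + ε) * f p.1 p.2) := by gcongr
              _ = (1 + ε) * (M (castv p.1) (castv p.2) * f p.1 p.2) := by ring
              _ ≤ (1 + ε) * B := by gcongr
          · intro p hp p' hp' h
            rw [mem_coe, mem_filter] at hp hp'
            exact Prod.ext (hp.2.trans hp'.2.symm) h
        exact_mod_cast h0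
      · intro p hp
        rw [mem_coe, mem_filter] at hp
        obtain ⟨h1, h2⟩ := hp
        obtain ⟨⟨a1, _⟩, a6⟩ := (hFm p).1 h1
        push Not at h2
        exact mem_SR.2 ⟨⟨a1.ne_zero, a6⟩, a1, h2.le⟩
    have h5 := (abs_le.1 hest).2
    have hsplit' : ((F.filter (fun p => lam p.1 ≤ τ * nrm p.1)).card : ℝ) +
        ((F.filter (fun p => ¬ lam p.1 ≤ τ * nrm p.1)).card : ℝ) = F.card := by
      exact_mod_cast hsplit
    have h7 : (C * (τ ^ 2 + 1 / P) + ε / 8) * (b * (1 + L)) ≤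
        (C * (τ ^ 2 + 1 / P) + ε / 8) * (2 * (B * (1 + L))) := by
      apply mul_le_mul_of_nonneg_left _ (by positivity)
      have e1 := mul_le_mul_of_nonneg_right hε1 hBL
      rw [hb']
      linarith
    have h8 : K * (b + R ^ 3) ≤ K * (2 * B + R ^ 3) := by
      apply mul_le_mul_of_nonneg_left _ hK.le
      have e1 := mul_le_mul_of_nonneg_right hε1 hB0.le
      rw [hb']
      linarith
    have h9 : kapB M q g * (b * L) = (1 + ε) * kapB M q g * (B * L) := by
      rw [hb']; ring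
    have h10 : 2 * (C * (τ ^ 2 + 1 / P) + ε / 8) + 32 * cE * Z1 * τ ^ 2 ≤ ε := by
      have e1 : (2 * C + 165888 * (4 / τ ^ 2 + 1) * Z1) / P =
        2 * C * (1 / P) + (165888 * (4 / τ ^ 2 + 1) * Z1) / P := by ring
      rw [e1] at hP2
      have : 0 ≤ (165888 * (4 / τ ^ 2 + 1) * Z1) / (P:ℝ) := by positivity
      have : 0 ≤ 32 * cE * Z1 * τ ^ 2 := by positivity
      have : 0 ≤ C * (1 / (P:ℝ)) := by positivity
      have : 0 ≤ C * τ ^ 2 := by positivity
      linarith
    have h11 := mul_le_mul_of_nonneg_right h10 hBL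
    have hU' : 32 * cE * (Z * (τ ^ 2 * (1 + L) + 1) + √Z * (R * √R)) =
        32 * cE * Z1 * τ ^ 2 * (B * (1 + L)) + 32 * cE * Z1 * B +
          32 * cE * √Z1 * (√B * (R * √R)) := by
      rw [hsqZ, hZ]; ring
    rw [hU'] at hU
    have h12 : 0 ≤ 32 * cE * Z1 * (√B * (R * √R) + R ^ 3) := by positivity
    have h13 : 0 ≤ 32 * cE * √Z1 * (B + R ^ 3) := by positivity
    have h14 : 0 ≤ K * (√B * (R * √R)) := by positivity
    have h15 : 0 ≤ √B * (R * √R) := by positivity
    have h16 : 0 ≤ K * R ^ 3 := by positivity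
    linarith

end Pool.Agent.Lib.MP_1acd66_nt.Tw
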