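import Pool.Agent.Lib.MP_1acd66_nt.Tw.RegionA
import Pool.Agent.Lib.MP_1acd66_nt.Tw.RegionB
import Pool.Agent.Lib.MP_1acd66_nt.MainSum

/-!
Asymptotics for the primitive incident pairs.
-/

namespace Pool.Agent.Lib.MP_1acd66_nt.Tw

open Filter Topology

theorem lim_of_est {g : ℝ → ℝ} {a b : ℝ} (ha : 0 ≤ a) (hab : a ≤ b)
    (h : ∀ ε : ℝ, 0 < ε → ε ≤ 1 / 2 → ∃ κ : ℝ, a ≤ κ ∧ κ ≤ b ∧ ∃ K : ℝ, 0 < K ∧ ∀ R : ℝ, 1 ≤ R →
      κ * (1 - ε) / (1 + ε) * (R ^ 3 * Real.log R) - ε * (R ^ 3 * (1 + Real.log R)) -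
        K * R ^ 3 ≤ g R ∧
      g R ≤ (1 + ε) * κ * (R ^ 3 * Real.log R) + ε * (R ^ 3 * (1 + Real.log R)) + K * R ^ 3) :
    ∃ κ : ℝ, a ≤ κ ∧ κ ≤ b ∧ Tendsto (fun R => g R / (R ^ 3 * Real.log R)) atTop (𝓝 κ) := by
  refine MP_1acd66_nt.exists_lim_of_approx ?_
  intro δ hδ
  have hb : 0 ≤ b := ha.trans hab
  set ε := min (1 / 2) (δ / (2 * b + 3)) with hε
  have hεp : 0 < ε := lt_min (by norm_num) (by positivity)
  have hε2 : ε ≤ 1 / 2 := min_le_left _ _
  have hεδ : ε * (2 * b + 3) ≤ δ := by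
    have : ε ≤ δ / (2 * b + 3) := min_le_right _ _
    calc ε * (2 * b + 3) ≤ δ / (2 * b + 3) * (2 * b + 3) := by gcongr
      _ = δ := by field_simp
  obtain ⟨κ, h1, h2, K, hK, hR⟩ := h ε hεp hε2
  refine ⟨κ, h1, h2, ?_⟩
  have hκ : 0 ≤ κ := ha.trans h1
  have hlog := Real.tendsto_log_atTop.eventually_ge_atTop (max 1 (K / ε))
  filter_upwards [hlog, eventually_ge_atTop (1:ℝ)] with R hL hR1
  have hL1 : 1 ≤ Real.log R := (le_max_left _ _).trans hL
  have hLK : K / ε ≤ Real.log R := (le_max_right _ _).trans hL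
  obtain ⟨g1, g2⟩ := hR R hR1
  have hR0 : 0 < R := by linarith
  set L := Real.log R with hLdef
  set X := R ^ 3 with hX
  have hXp : 0 < X := by positivity
  have hXL : 0 < X * L := by positivity
  have hKX : K * X ≤ ε * (X * L) := by
    rw [div_le_iff₀ hεp] at hLK
    nlinarith
  have h3 : ε * (X * (1 + L)) ≤ 2 * ε * (X * L) := by
    have : X * (1 + L) ≤ 2 * (X * L) := by nlinarith
    nlinarith
  have hκε : κ * ε ≤ b * ε := mul_le_mul_of_nonneg_right h2 hεp.le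
  rw [abs_le]
  constructor
  · have e1 : κ * (1 - 2 * ε) ≤ κ * (1 - ε) / (1 + ε) := by
      rw [le_div_iff₀ (by linarith)]
      have : 0 ≤ κ * ε ^ 2 := by positivity
      nlinarith
    have e2 : (κ * (1 - 2 * ε) - 3 * ε) * (X * L) ≤ g R := by
      have e3 : κ * (1 - 2 * ε) * (X * L) ≤ κ * (1 - ε) / (1 + ε) * (X * L) :=
        mul_le_mul_of_nonneg_right e1 hXL.le
      nlinarith
    have e4 : κ * (1 - 2 * ε) - 3 * ε ≤ g R / (X * L) := by
      rw [le_div_iff₀ hXL]; exact e2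
    nlinarith
  · have e2 : g R ≤ (κ * (1 + ε) + 3 * ε) * (X * L) := by nlinarith
    have e4 : g R / (X * L) ≤ κ * (1 + ε) + 3 * ε := by
      rw [div_le_iff₀ hXL]; exact e2
    nlinarith

variable {M : (Fin 3 → ℝ) → (Fin 4 → ℝ) → ℝ} {f : (Fin 3 → ℤ) → (Fin 4 → ℤ) → ℝ}

theorem pairSet_eq (B R : ℝ) : pairSet M f B = regB M f B R ∪ regA M f B R := by
  ext p
  constructor
  · intro h
    rcases le_or_gt (nrm p.1) R with h1 | h1
    · exact Or.inl ⟨h, h1⟩
    · exact Or.inr ⟨h, h1⟩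
  · rintro (h | h)
    · exact h.1
    · exact h.1

theorem disj_reg (B R : ℝ) : Disjoint (regB M f B R) (regA M f B R) := by
  rw [Set.disjoint_left]
  intro p h1 h2
  exact absurd h1.2 (not_le.2 h2.2)

/-- the asymptotic formula for primitive incident pairs -/
theorem pairs_asym (hM : IsLocalNorm ℝ M) {S : ℕ} {f0 f1 : ℝ} (hf : Tame f S f0 f1)
    (h01 : f0 ≤ f1) : (∀ B : ℝ, (pairSet M f B).Finite) ∧ ∃ c : ℝ, 0 < c ∧
      Tendsto (fun B => ((pairSet M f B).ncard : ℝ) / (B * Real.log B)) atTop (𝓝 c) := by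
  obtain ⟨CU, hCU, hupper⟩ := regA_upper hM hf
  obtain ⟨kmin, kmax, hkmin, hB⟩ := regB_est hM hf h01
  have hfinB : ∀ R : ℝ, 1 ≤ R → (regB M f (R ^ 3) R).Finite := by
    intro R hR
    obtain ⟨κ, _, _, K, _, h⟩ := hB 1 one_pos le_rfl
    exact (h R hR (R ^ 3) (one_le_pow₀ hR)).1
  have hfinR : ∀ R : ℝ, 1 ≤ R → (pairSet M f (R ^ 3)).Finite := by
    intro R hR
    rw [pairSet_eq (R ^ 3) R]
    exact (hfinB R hR).union (hupper R hR).1
  have hcb : ∀ B : ℝ, 0 < B → (B ^ ((1:ℝ) / 3)) ^ 3 = B := by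
    intro B hB
    rw [← Real.rpow_natCast, ← Real.rpow_mul hB.le]
    norm_num
  have hfin : ∀ B : ℝ, (pairSet M f B).Finite := by
    intro B
    refine (hfinR (max 1 B) (le_max_left _ _)).subset ?_
    rintro p ⟨a1, a2, a3, a4, a5⟩
    refine ⟨a1, a2, a3, a4, a5.trans ?_⟩
    have h1 : B ≤ max 1 B := le_max_right _ _
    have h2 : max 1 B ≤ (max 1 B) ^ 3 := le_self_pow₀ (le_max_left _ _) (by norm_num)
    exact h1.trans h2
  refine ⟨hfin, ?_⟩
  -- small first vectors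
  have hkk : kmin ≤ kmax := by
    obtain ⟨κ, h1, h2, _⟩ := hB 1 one_pos le_rfl
    exact h1.trans h2
  obtain ⟨cB, hcB1, hcB2, hcB3⟩ := lim_of_est (g := fun R => ((regB M f (R ^ 3) R).ncard : ℝ))
    hkmin.le hkk (by
    intro ε hε hε2
    obtain ⟨κ, h1, h2, K, hK, h⟩ := hB ε hε (by linarith)
    have hκ : 0 < κ := lt_of_lt_of_le hkmin h1
    refine ⟨κ, h1, h2, 3 * K, by positivity, ?_⟩
    intro R hR
    have hR0 : 0 < R := by linarith
    have hL : 0 ≤ Real.log R := Real.log_nonneg hR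
    obtain ⟨_, g1, g2⟩ := h R hR (R ^ 3) (one_le_pow₀ hR)
    have e1 : √(R ^ 3) * (R * √R) = R ^ 3 := by
      have e2 : R * √R = √(R ^ 3) := by
        rw [show R ^ 3 = R ^ 2 * R by ring, Real.sqrt_mul (by positivity), Real.sqrt_sq hR0.le]
      rw [e2, Real.mul_self_sqrt (by positivity)]
    rw [e1] at g1 g2
    constructor
    · refine le_trans ?_ g1
      have e3 : κ * (1 - ε) / (1 + ε) * (R ^ 3 * Real.log R) ≤ κ / (1 + ε) * (R ^ 3 * Real.log R) := by
        have : 0 ≤ R ^ 3 * Real.log R := by positivity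
        apply mul_le_mul_of_nonneg_right _ this
        have : κ * (1 - ε) ≤ κ := by nlinarith
        gcongr
      have e4 : K * (R ^ 3 + R ^ 3 + R ^ 3) = 3 * K * R ^ 3 := by ring
      rw [e4]
      linarith
    · refine g2.trans ?_
      have e4 : K * (R ^ 3 + R ^ 3 + R ^ 3) = 3 * K * R ^ 3 := by ring
      rw [e4])
  -- large first vectors
  obtain ⟨cA, hcA1, _, hcA3⟩ := lim_of_est (g := fun R => ((regA M f (R ^ 3) R).ncard : ℝ))
    (a := 0) (b := 3 * (2 * CU + 3)) le_rfl (by positivity) (by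
    intro ε hε hε2
    obtain ⟨κ, hκ, K, hK, h⟩ := regA_est hM hf h01 hε (by linarith)
    refine ⟨κ, hκ, ?_, K, hK, h⟩
    -- evaluate at a large argument
    have hlog := Real.tendsto_log_atTop.eventually_ge_atTop (max 1 K)
    obtain ⟨R, hL, hR1⟩ := (hlog.and (eventually_ge_atTop (1:ℝ))).exists
    have hR0 : 0 < R := by linarith
    obtain ⟨g1, _⟩ := h R hR1
    have g2 := (hupper R hR1).2
    have hL1 : 1 ≤ Real.log R := (le_max_left _ _).trans hL
    have hLK : K ≤ Real.log R := (le_max_right _ _).trans hL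
    set L := Real.log R with hLdef
    set X := R ^ 3 with hX
    have hXp : 0 < X := by positivity
    have hXL : 0 < X * L := by positivity
    have e0 : X * (1 + L) ≤ 2 * (X * L) := by nlinarith
    have e1 : K * X ≤ X * L := by nlinarith
    have e2 : κ * (1 - ε) / (1 + ε) * (X * L) ≤ (2 * CU + 2 * ε + 1) * (X * L) := by nlinarith
    have e3 : κ * (1 - ε) / (1 + ε) ≤ 2 * CU + 2 * ε + 1 := le_of_mul_le_mul_right e2 hXL
    rw [div_le_iff₀ (by linarith)] at e3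
    nlinarith)
  have hsum : Tendsto (fun R => ((pairSet M f (R ^ 3)).ncard : ℝ) / (R ^ 3 * Real.log R)) atTop
      (𝓝 (cB + cA)) := by
    refine (hcB3.add hcA3).congr' ?_
    filter_upwards [eventually_ge_atTop (1:ℝ)] with R hR
    rw [pairSet_eq (R ^ 3) R, Set.ncard_union_eq (disj_reg _ _) (hfinB R hR) (hupper R hR).1]
    push_cast
    rw [add_div]
  refine ⟨(cB + cA) / 3, by linarith, ?_⟩
  have hcomp : Tendsto (fun B : ℝ => B ^ ((1:ℝ) / 3)) atTop atTop :=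
    tendsto_rpow_atTop (by norm_num)
  have h1 := (hsum.comp hcomp).div_const 3
  refine h1.congr' ?_
  filter_upwards [eventually_gt_atTop (0:ℝ)] with B hB0
  simp only [Function.comp]
  rw [hcb B hB0, Real.log_rpow hB0, div_div]
  congr 1
  ring

end Pool.Agent.Lib.MP_1acd66_nt.Tw
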