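import Pool.Agent.Lib.MP_1acd66_nt.Tw.LogSums

/-!
Upper bounds for the number of incident pairs, summing over the first vector.
-/

namespace Pool.Agent.Lib.MP_1acd66_nt.Tw

open Finset

/-- pairs of integral vectors -/
abbrev XY := (Fin 3 → ℤ) × (Fin 4 → ℤ)

theorem card_pairs_le [DecidableEq (Fin 3 → ℤ)] (P : Finset XY) (g : (Fin 3 → ℤ) → ℝ)
    (h : ∀ x ∈ P.image Prod.fst, ∀ S : Finset (Fin 4 → ℤ), (∀ y ∈ S, (x, y) ∈ P) →
      (S.card : ℝ) ≤ g x) : (P.card : ℝ) ≤ ∑ x ∈ P.image Prod.fst, g x := by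
  classical
  rw [card_eq_sum_card_fiberwise (f := Prod.fst) (t := P.image Prod.fst)
    (fun q hq => mem_image_of_mem _ hq)]
  push_cast
  refine sum_le_sum fun x hx => ?_
  have h1 : (P.filter (fun q => q.1 = x)).card = ((P.filter (fun q => q.1 = x)).image Prod.snd).card := by
    rw [card_image_of_injOn]
    intro a ha b hb hab
    exact Prod.ext ((mem_filter.1 ha).2.trans (mem_filter.1 hb).2.symm) hab
  rw [h1]
  apply h x hx
  intro y hy
  obtain ⟨q, hq, rfl⟩ := mem_image.1 hy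
  obtain ⟨hq1, rfl⟩ := mem_filter.1 hq
  exact hq1

/-- a constant -/
noncomputable def cE : ℝ := 192 * (8 * (24 * cD + 216) + 432)

theorem cE_pos : 0 < cE := by
  have := cD_pos
  unfold cE; positivity

theorem fiber_bound {x : Fin 3 → ℤ} (hx : Prim x) {Z : ℝ} (hZ : 0 < Z) (S : Finset (Fin 4 → ℤ))
    (hS : ∀ y ∈ S, Inc x y ∧ y ≠ 0 ∧ nrm x * nrm y ^ 2 ≤ Z) :
    (S.card : ℝ) ≤ 192 * (√Z * (1 / lam x * (1 / √(nrm x))) + Z * (1 / nrm x ^ 3)) := by
  have hn : 0 < nrm x := lt_of_lt_of_le one_pos (one_le_nrm hx.ne_zero)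
  have h1 := (lat_count hx (Y := √(Z / nrm x)) (Real.sqrt_nonneg _) S (by
    intro y hy
    obtain ⟨a, b, c⟩ := hS y hy
    refine ⟨a, b, ?_⟩
    apply Real.le_sqrt_of_sq_le
    rw [le_div_iff₀ hn]
    linarith)).1
  refine h1.trans (le_of_eq ?_)
  rw [Real.sq_sqrt (by positivity), Real.sqrt_div hZ.le]
  have hl := one_le_lam hx
  have hs : 0 < √(nrm x) := Real.sqrt_pos.2 hn
  field_simp

/-- all pairs -/
theorem pairs_bound {Z R R1 : ℝ} (hZ : 0 < Z) (hR1 : 1 ≤ R1) (hR : R1 ≤ R) (P : Finset XY)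
    (hP : ∀ q ∈ P, Prim q.1 ∧ Inc q.1 q.2 ∧ q.2 ≠ 0 ∧ R1 ≤ nrm q.1 ∧ nrm q.1 ≤ R ∧
      nrm q.1 * nrm q.2 ^ 2 ≤ Z) :
    (P.card : ℝ) ≤ cE * (Z * (1 + Real.log (R / R1)) + √Z * (R * √R)) := by
  classical
  have hcD := cD_pos
  have hP' : ∀ x ∈ P.image Prod.fst, Prim x ∧ R1 ≤ nrm x ∧ nrm x ≤ R := by
    intro x hx
    obtain ⟨q, hq, rfl⟩ := mem_image.1 hx
    obtain ⟨a1, _, _, a4, a5, _⟩ := hP q hq
    exact ⟨a1, a4, a5⟩
  have h0 := card_pairs_le P (fun x => 192 * (√Z * (1 / lam x * (1 / √(nrm x))) + Z * (1 / nrm x ^ 3)))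
    (by
      intro x hx S hS
      refine fiber_bound (hP' x hx).1 hZ S fun y hy => ?_
      obtain ⟨_, a2, a3, _, _, a6⟩ := hP _ (hS y hy)
      exact ⟨a2, a3, a6⟩)
  refine h0.trans ?_
  rw [← mul_sum, sum_add_distrib, ← mul_sum, ← mul_sum]
  have h1 := lam_sum_sqrt (R := R) (P.image Prod.fst) (fun x hx => ⟨(hP' x hx).1, (hP' x hx).2.2⟩)
    (by linarith)
  have h2 := log_sum3 hR1 hR (P.image Prod.fst) (fun x hx => (hP' x hx).2)
  have hlog : 0 ≤ Real.log (R / R1) := Real.log_nonneg (by rw [one_le_div (by linarith)]; exact hR)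
  have hsZ : 0 ≤ √Z := Real.sqrt_nonneg _
  have hRR : 0 ≤ R * √R := by have : 0 ≤ R := by linarith
                              positivity
  calc 192 * (√Z * ∑ x ∈ P.image Prod.fst, 1 / lam x * (1 / √(nrm x)) +
      Z * ∑ x ∈ P.image Prod.fst, 1 / nrm x ^ 3)
      ≤ 192 * (√Z * (8 * (24 * cD + 216) * (R * √R)) + Z * (432 * (1 + Real.log (R / R1)))) := by
        gcongr
    _ ≤ cE * (Z * (1 + Real.log (R / R1)) + √Z * (R * √R)) := by
        unfold cE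
        have a1 : 0 ≤ √Z * (R * √R) := by positivity
        have a2 : 0 ≤ Z * (1 + Real.log (R / R1)) := by positivity
        have a3 : 0 ≤ 24 * cD + 216 := by positivity
        nlinarith [mul_nonneg a3 a2]

/-- unbalanced pairs -/
theorem unb_pairs {Z R τ : ℝ} (hZ : 0 < Z) (hR : 1 ≤ R) (hτ : 0 < τ) (P : Finset XY)
    (hP : ∀ q ∈ P, Prim q.1 ∧ Inc q.1 q.2 ∧ q.2 ≠ 0 ∧ nrm q.1 ≤ R ∧ lam q.1 ≤ τ * nrm q.1 ∧
      nrm q.1 * nrm q.2 ^ 2 ≤ Z) :
    (P.card : ℝ) ≤ 32 * cE * (Z * (τ ^ 2 * (1 + Real.log R) + 1) + √Z * (R * √R)) := by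
  classical
  have hcD := cD_pos
  have hP' : ∀ x ∈ P.image Prod.fst, Prim x ∧ nrm x ≤ R ∧ lam x ≤ τ * nrm x := by
    intro x hx
    obtain ⟨q, hq, rfl⟩ := mem_image.1 hx
    obtain ⟨a1, _, _, a4, a5, _⟩ := hP q hq
    exact ⟨a1, a4, a5⟩
  have h0 := card_pairs_le P (fun x => 192 * (√Z * (1 / lam x * (1 / √(nrm x))) + Z * (1 / nrm x ^ 3)))
    (by
      intro x hx S hS
      refine fiber_bound (hP' x hx).1 hZ S fun y hy => ?_
      obtain ⟨_, a2, a3, _, _, a6⟩ := hP _ (hS y hy)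
      exact ⟨a2, a3, a6⟩)
  refine h0.trans ?_
  rw [← mul_sum, sum_add_distrib, ← mul_sum, ← mul_sum]
  have h1 := lam_sum_sqrt (R := R) (P.image Prod.fst) (fun x hx => ⟨(hP' x hx).1, (hP' x hx).2.1⟩)
    (by linarith)
  have h2 := unb_sum hR hτ (P.image Prod.fst) (fun x hx => ⟨(hP' x hx).1, (hP' x hx).2.1⟩)
    (fun x hx => (hP' x hx).2.2)
  have hlog : 0 ≤ Real.log R := Real.log_nonneg hR
  have hsZ : 0 ≤ √Z := Real.sqrt_nonneg _
  have hRR : 0 ≤ R * √R := by have : 0 ≤ R := by linarith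
                              positivity
  calc 192 * (√Z * ∑ x ∈ P.image Prod.fst, 1 / lam x * (1 / √(nrm x)) +
      Z * ∑ x ∈ P.image Prod.fst, 1 / nrm x ^ 3)
      ≤ 192 * (√Z * (8 * (24 * cD + 216) * (R * √R)) +
        Z * (32 * (8 * cD + 216) * (τ ^ 2 * (1 + Real.log R) + 1))) := by
        gcongr
    _ ≤ 32 * cE * (Z * (τ ^ 2 * (1 + Real.log R) + 1) + √Z * (R * √R)) := by
        unfold cE
        have a1 : 0 ≤ √Z * (R * √R) := by positivity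
        have a2 : 0 ≤ Z * (τ ^ 2 * (1 + Real.log R) + 1) := by positivity
        have a3 : 0 ≤ cD * (√Z * (R * √R)) := by positivity
        have a4 : 0 ≤ cD * (Z * (τ ^ 2 * (1 + Real.log R) + 1)) := by positivity
        nlinarith

/-- pairs with a small second vector -/
theorem small_pairs {Y A : ℝ} (hY : 1 ≤ Y) (hA : 0 < A) (P : Finset XY)
    (hP : ∀ q ∈ P, Prim q.1 ∧ Inc q.1 q.2 ∧ q.2 ≠ 0 ∧ nrm q.1 ≤ A * nrm q.2 ∧ nrm q.2 ≤ Y) :
    (P.card : ℝ) ≤ cE * ((A + A ^ 2) * Y ^ 3) := by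
  classical
  have hcD := cD_pos
  have hP' : ∀ x ∈ P.image Prod.fst, Prim x ∧ nrm x ≤ A * Y := by
    intro x hx
    obtain ⟨q, hq, rfl⟩ := mem_image.1 hx
    obtain ⟨a1, _, _, a4, a5⟩ := hP q hq
    exact ⟨a1, a4.trans (mul_le_mul_of_nonneg_left a5 hA.le)⟩
  have h0 := card_pairs_le P (fun x => 192 * (Y * (1 / lam x) + Y ^ 2 * (1 / nrm x ^ 2)))
    (by
      intro x hx S hS
      refine ((lat_count (hP' x hx).1 (Y := Y) (by linarith) S fun y hy => ?_).1).trans (le_of_eq ?_)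
      · obtain ⟨_, a2, a3, _, a5⟩ := hP _ (hS y hy)
        exact ⟨a2, a3, a5⟩
      · ring)
  refine h0.trans ?_
  rw [← mul_sum, sum_add_distrib, ← mul_sum, ← mul_sum]
  have h1 := lam_sum (R := A * Y) (P.image Prod.fst) hP' (by positivity)
  have h2 := sum_inv_sq_nrm (R := A * Y) (by positivity) (P.image Prod.fst)
    (fun x hx => ⟨(hP' x hx).1.ne_zero, (hP' x hx).2⟩)
  calc 192 * (Y * ∑ x ∈ P.image Prod.fst, 1 / lam x + Y ^ 2 * ∑ x ∈ P.image Prod.fst, 1 / nrm x ^ 2)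
      ≤ 192 * (Y * (8 * (24 * cD + 216) * (A * Y) ^ 2) + Y ^ 2 * (432 * (A * Y))) := by gcongr
    _ ≤ cE * ((A + A ^ 2) * Y ^ 3) := by
        unfold cE
        have a1 : 0 ≤ A * Y ^ 3 := by positivity
        have a2 : 0 ≤ A ^ 2 * Y ^ 3 := by positivity
        have a3 : 0 ≤ cD * (A * Y ^ 3) := by positivity
        nlinarith

theorem sum_inv_sq_tail {P : ℕ} (hP : 0 < P) (M : ℕ) : ∑ n ∈ Icc P M, 1 / (n : ℝ) ^ 2 ≤ 2 / (P : ℝ) := by
  have h : ∀ k : ℕ, ∑ n ∈ Icc P (P + k), 1 / (n : ℝ) ^ 2 ≤ 2 / P - 2 / ((P : ℝ) + k + 1) := by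
    intro k
    have hP' : (0:ℝ) < P := by exact_mod_cast hP
    have hP1 : (1:ℝ) ≤ P := by exact_mod_cast hP
    induction k with
    | zero =>
      simp only [add_zero, Icc_self, sum_singleton, Nat.cast_zero]
      rw [div_sub_div _ _ (by positivity) (by positivity), div_le_div_iff₀ (by positivity)
          (by positivity)]
      nlinarith
    | succ k ih =>
      rw [← add_assoc, sum_Icc_succ_top (by omega)]
      have h1 : 1 / (((P + k + 1 : ℕ) : ℝ)) ^ 2 ≤ 2 / ((P : ℝ) + k + 1) -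
          2 / ((P : ℝ) + ((k + 1 : ℕ) : ℝ) + 1) := by
        push_cast
        have hk : (0 : ℝ) ≤ k := Nat.cast_nonneg k
        rw [div_sub_div _ _ (by positivity) (by positivity), div_le_div_iff₀ (by positivity)
          (by positivity)]
        nlinarith
      linarith
  by_cases hM : P ≤ M
  · obtain ⟨k, rfl⟩ : ∃ k, M = P + k := ⟨M - P, by omega⟩
    have := h k
    have h2 : 0 ≤ 2 / ((P : ℝ) + k + 1) := by positivity
    linarith
  · rw [Icc_eq_empty hM, sum_empty]; positivity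

/-- points of a balanced lattice which are divisible by a large number -/
theorem lat_count_div {x : Fin 3 → ℤ} (hx : Prim x) {Y τ : ℝ} (hY : 0 ≤ Y) (hτ : 0 < τ)
    (hlam : τ * nrm x ≤ lam x) {P : ℕ} (hP : 0 < P) (S : Finset (Fin 4 → ℤ))
    (hS : ∀ y ∈ S, Inc x y ∧ y ≠ 0 ∧ nrm y ≤ Y ∧ ∃ p : ℕ, P ≤ p ∧ ∀ i, (p : ℤ) ∣ y i) :
    (S.card : ℝ) ≤ 384 * (4 / τ ^ 2 + 1) / P * (Y ^ 2 / nrm x ^ 2) := by
  classical
  have hn : 0 < nrm x := lt_of_lt_of_le one_pos (one_le_nrm hx.ne_zero)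
  have hl := one_le_lam hx
  set M := ⌊Y⌋₊ with hM
  have hsub : S ⊆ (Icc P M).biUnion (fun p => S.filter (fun y => ∀ i, (p : ℤ) ∣ y i)) := by
    intro y hy
    obtain ⟨h1, h2, h3, p, hp, hpd⟩ := hS y hy
    refine mem_biUnion.2 ⟨p, mem_Icc.2 ⟨hp, Nat.le_floor ?_⟩, mem_filter.2 ⟨hy, hpd⟩⟩
    obtain ⟨i, hi⟩ := Function.ne_iff.1 h2
    have h4 : (p : ℤ) ≤ |y i| := by
      have := Int.le_of_dvd (abs_pos.2 hi) ((dvd_abs _ _).2 (hpd i))
      exact this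
    have h5 : (p : ℝ) ≤ |((y i : ℤ) : ℝ)| := by exact_mod_cast h4
    exact h5.trans ((abs_le_nrm y i).trans h3)
  have hone : ∀ p ∈ Icc P M, ((S.filter (fun y => ∀ i, (p : ℤ) ∣ y i)).card : ℝ) ≤
      192 * (4 / τ ^ 2 + 1) * (Y ^ 2 / nrm x ^ 2) * (1 / (p : ℝ) ^ 2) := by
    intro p hp
    obtain ⟨hp1, _⟩ := mem_Icc.1 hp
    have hp0 : (0 : ℝ) < p := by exact_mod_cast (by omega : 0 < p)
    have hpz : (p : ℤ) ≠ 0 := by exact_mod_cast (by omega : p ≠ 0)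
    set Sp := S.filter (fun y => ∀ i, (p : ℤ) ∣ y i) with hSp
    -- divide by p
    set D : (Fin 4 → ℤ) → Fin 4 → ℤ := fun y i => y i / p with hD
    have hDy : ∀ y ∈ Sp, y = (p : ℤ) • D y := by
      intro y hy
      obtain ⟨_, h2⟩ := mem_filter.1 hy
      funext i
      simp only [hD, Pi.smul_apply, smul_eq_mul]
      exact (Int.mul_ediv_cancel' (h2 i)).symm
    have hinj : Set.InjOn D Sp := by
      intro a ha b hb hab
      rw [hDy a ha, hDy b hb, hab]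
    have hnum := lat_count hx (Y := Y / p) (by positivity) (Sp.image D) (by
      intro y' hy'
      obtain ⟨y, hy, rfl⟩ := mem_image.1 hy'
      have hy2 := hDy y hy
      obtain ⟨h1, h2, h3, _⟩ := hS y (mem_filter.1 hy).1
      refine ⟨?_, ?_, ?_⟩
      · obtain ⟨i1, i2⟩ := h1
        rw [hy2] at i1 i2
        simp only [Pi.smul_apply, smul_eq_mul] at i1 i2
        constructor
        · apply mul_left_cancel₀ hpz
          rw [mul_zero, ← i1]; ring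
        · apply mul_left_cancel₀ hpz
          rw [mul_zero, ← i2]; ring
      · intro h0
        apply h2
        rw [hy2, h0, smul_zero]
      · rw [hy2, nrm_smul_int] at h3
        rw [le_div_iff₀ hp0]
        have : |(((p : ℤ)) : ℝ)| = p := by simp
        rw [this] at h3
        linarith)
    rw [card_image_of_injOn hinj] at hnum
    obtain ⟨n1, n2⟩ := hnum
    rcases Sp.eq_empty_or_nonempty with hemp | hne
    · rw [hemp, card_empty, Nat.cast_zero]; positivity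
    · have h4 := n2 (hne.image D)
      set t := Y / p with ht
      have ht0 : 0 ≤ t := by positivity
      have h5 : t / lam x ≤ 4 / τ ^ 2 * (t ^ 2 / nrm x ^ 2) := by
        calc t / lam x ≤ t / lam x * (4 * t / lam x) := by
              apply le_mul_of_one_le_right (by positivity)
              rw [one_le_div (by linarith)]; exact h4
          _ = 4 * t ^ 2 / lam x ^ 2 := by field_simp
          _ ≤ 4 * t ^ 2 / (τ * nrm x) ^ 2 := by gcongr
          _ = _ := by field_simp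
      calc (Sp.card : ℝ) ≤ 192 * (t / lam x + t ^ 2 / nrm x ^ 2) := n1
        _ ≤ 192 * (4 / τ ^ 2 * (t ^ 2 / nrm x ^ 2) + t ^ 2 / nrm x ^ 2) := by gcongr
        _ = _ := by rw [ht]; field_simp
  calc (S.card : ℝ) ≤ ((∑ p ∈ Icc P M, (S.filter (fun y => ∀ i, (p : ℤ) ∣ y i)).card : ℕ) : ℝ) := by
        exact_mod_cast (card_le_card hsub).trans card_biUnion_le
    _ = ∑ p ∈ Icc P M, ((S.filter (fun y => ∀ i, (p : ℤ) ∣ y i)).card : ℝ) := by push_cast; rfl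
    _ ≤ ∑ p ∈ Icc P M, 192 * (4 / τ ^ 2 + 1) * (Y ^ 2 / nrm x ^ 2) * (1 / (p : ℝ) ^ 2) :=
        sum_le_sum hone
    _ = 192 * (4 / τ ^ 2 + 1) * (Y ^ 2 / nrm x ^ 2) * ∑ p ∈ Icc P M, 1 / (p : ℝ) ^ 2 := by
        rw [mul_sum]
    _ ≤ 192 * (4 / τ ^ 2 + 1) * (Y ^ 2 / nrm x ^ 2) * (2 / P) := by
        have := sum_inv_sq_tail hP M
        gcongr
    _ = _ := by ring

/-- balanced pairs with second vector divisible by a large number -/
theorem div_pairs {Z R τ : ℝ} (hZ : 0 < Z) (hR : 1 ≤ R) (hτ : 0 < τ) {N : ℕ} (hN : 0 < N)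
    (P : Finset XY)
    (hP : ∀ q ∈ P, Prim q.1 ∧ Inc q.1 q.2 ∧ q.2 ≠ 0 ∧ nrm q.1 ≤ R ∧ τ * nrm q.1 ≤ lam q.1 ∧
      nrm q.1 * nrm q.2 ^ 2 ≤ Z ∧ ∃ p : ℕ, N ≤ p ∧ ∀ i, (p : ℤ) ∣ q.2 i) :
    (P.card : ℝ) ≤ 165888 * (4 / τ ^ 2 + 1) / N * (Z * (1 + Real.log R)) := by
  classical
  have hP' : ∀ x ∈ P.image Prod.fst, Prim x ∧ nrm x ≤ R ∧ τ * nrm x ≤ lam x := by
    intro x hx
    obtain ⟨q, hq, rfl⟩ := mem_image.1 hx
    obtain ⟨a1, _, _, a4, a5, _⟩ := hP q hq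
    exact ⟨a1, a4, a5⟩
  have h0 := card_pairs_le P (fun x => 384 * (4 / τ ^ 2 + 1) / N * Z * (1 / nrm x ^ 3))
    (by
      intro x hx S hS
      obtain ⟨b1, b2, b3⟩ := hP' x hx
      have hn : 0 < nrm x := lt_of_lt_of_le one_pos (one_le_nrm b1.ne_zero)
      refine (lat_count_div b1 (Y := √(Z / nrm x)) (Real.sqrt_nonneg _) hτ b3 hN S ?_).trans
        (le_of_eq ?_)
      · intro y hy
        obtain ⟨_, a2, a3, _, _, a6, a7⟩ := hP _ (hS y hy)
        refine ⟨a2, a3, ?_, a7⟩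
        apply Real.le_sqrt_of_sq_le
        rw [le_div_iff₀ hn]
        linarith
      · rw [Real.sq_sqrt (by positivity)]
        field_simp)
  refine h0.trans ?_
  rw [← mul_sum]
  have h2 := log_sum3 (R1 := 1) le_rfl hR (P.image Prod.fst)
    (fun x hx => ⟨one_le_nrm (hP' x hx).1.ne_zero, (hP' x hx).2.1⟩)
  rw [div_one] at h2
  calc 384 * (4 / τ ^ 2 + 1) / N * Z * ∑ x ∈ P.image Prod.fst, 1 / nrm x ^ 3
      ≤ 384 * (4 / τ ^ 2 + 1) / N * Z * (432 * (1 + Real.log R)) := by gcongr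
    _ = _ := by ring

end Pool.Agent.Lib.MP_1acd66_nt.Tw
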