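import Pool.Agent.Lib.MP_1acd66_nt.Tw.Phi
import Pool.Agent.Lib.MP_1acd66_nt.Tw.Pairs

/-!
The number of incident vectors in a residue class for a balanced vector.
-/

namespace Pool.Agent.Lib.MP_1acd66_nt.Tw

open MeasureTheory Metric Set Filter Topology

/-- incidence modulo `q` -/
def IncMod (q : ℕ) (x : Fin 3 → ℤ) (y : Fin 4 → ℤ) : Prop :=
  (q : ℤ) ∣ x 0 * y 0 + x 1 * y 1 + x 2 * y 2 ∧ (q : ℤ) ∣ x 0 * y 1 + x 1 * y 2 + x 2 * y 3

/-- congruence modulo `q` -/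
def Cg {n : ℕ} (q : ℕ) (x y : Fin n → ℤ) : Prop := ∀ i, (q : ℤ) ∣ x i - y i

theorem Cg.refl {n q : ℕ} (x : Fin n → ℤ) : Cg q x x := fun i => by rw [sub_self]; exact dvd_zero _

theorem Cg.symm {n q : ℕ} {x y : Fin n → ℤ} (h : Cg q x y) : Cg q y x := fun i => by
  rw [← neg_sub]; exact (dvd_neg).2 (h i)

theorem Cg.trans {n q : ℕ} {x y z : Fin n → ℤ} (h : Cg q x y) (h' : Cg q y z) : Cg q x z :=
  fun i => by
    have := dvd_add (h i) (h' i)
    rwa [sub_add_sub_cancel] at this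

theorem IncMod.congr {q : ℕ} {x x' : Fin 3 → ℤ} {y y' : Fin 4 → ℤ} (h : IncMod q x y)
    (hx : Cg q x x') (hy : Cg q y y') : IncMod q x' y' := by
  obtain ⟨⟨a, ha⟩, b, hb⟩ := h
  choose u hu using hx
  choose v hv using hy
  constructor
  · refine ⟨a - (u 0 * y 0 + x 0 * v 0 - q * u 0 * v 0 + (u 1 * y 1 + x 1 * v 1 - q * u 1 * v 1) +
      (u 2 * y 2 + x 2 * v 2 - q * u 2 * v 2)), ?_⟩
    have e0 : x' 0 = x 0 - q * u 0 := by linarith [hu 0]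
    have e1 : x' 1 = x 1 - q * u 1 := by linarith [hu 1]
    have e2 : x' 2 = x 2 - q * u 2 := by linarith [hu 2]
    have f0 : y' 0 = y 0 - q * v 0 := by linarith [hv 0]
    have f1 : y' 1 = y 1 - q * v 1 := by linarith [hv 1]
    have f2 : y' 2 = y 2 - q * v 2 := by linarith [hv 2]
    rw [e0, e1, e2, f0, f1, f2]
    linear_combination ha
  · refine ⟨b - (u 0 * y 1 + x 0 * v 1 - q * u 0 * v 1 + (u 1 * y 2 + x 1 * v 2 - q * u 1 * v 2) +
      (u 2 * y 3 + x 2 * v 3 - q * u 2 * v 3)), ?_⟩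
    have e0 : x' 0 = x 0 - q * u 0 := by linarith [hu 0]
    have e1 : x' 1 = x 1 - q * u 1 := by linarith [hu 1]
    have e2 : x' 2 = x 2 - q * u 2 := by linarith [hu 2]
    have f1 : y' 1 = y 1 - q * v 1 := by linarith [hv 1]
    have f2 : y' 2 = y 2 - q * v 2 := by linarith [hv 2]
    have f3 : y' 3 = y 3 - q * v 3 := by linarith [hv 3]
    rw [e0, e1, e2, f1, f2, f3]
    linear_combination hb

theorem Inc.incMod {q : ℕ} {x : Fin 3 → ℤ} {y : Fin 4 → ℤ} (h : Inc x y) : IncMod q x y := by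
  obtain ⟨h1, h2⟩ := h
  exact ⟨by rw [h1]; exact dvd_zero _, by rw [h2]; exact dvd_zero _⟩

/-- lifting of incident residues -/
theorem exists_lift {q : ℕ} {x : Fin 3 → ℤ} (hx : Prim x) {y : Fin 4 → ℤ} (h : IncMod q x y) :
    ∃ y', Inc x y' ∧ Cg q y' y := by
  obtain ⟨⟨b0, h0⟩, b1, h1⟩ := h
  obtain ⟨w, hw⟩ := hx.pl
  have e0 : pl x 0 = x 2 ^ 2 := rfl
  have e2 : pl x 2 = x 1 ^ 2 - x 0 * x 2 := rfl
  have e5 : pl x 5 = x 0 ^ 2 := rfl
  rw [e0, e2, e5] at hw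
  set v : Fin 4 → ℤ := ![w 2 * (x 0 * b0 - x 1 * b1), w 2 * (x 0 * b1) + w 1 * (x 1 * b0 - x 2 * b1),
    w 0 * (x 2 * b0) + w 1 * (x 1 * b1 - x 0 * b0), w 0 * (x 2 * b1 - x 1 * b0)] with hv
  have v0 : v 0 = w 2 * (x 0 * b0 - x 1 * b1) := rfl
  have v1 : v 1 = w 2 * (x 0 * b1) + w 1 * (x 1 * b0 - x 2 * b1) := rfl
  have v2 : v 2 = w 0 * (x 2 * b0) + w 1 * (x 1 * b1 - x 0 * b0) := rfl
  have v3 : v 3 = w 0 * (x 2 * b1 - x 1 * b0) := rfl
  refine ⟨fun i => y i - q * v i, ⟨?_, ?_⟩, fun i => ⟨-v i, by ring⟩⟩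
  · simp only [v0, v1, v2]
    linear_combination h0 - (q * b0) * hw
  · simp only [v1, v2, v3]
    linear_combination h1 - (q * b1) * hw

theorem IsBas.cmb_eq_zero {x : Fin 3 → ℤ} (hx : Prim x) {Z : Fin 2 → Fin 4 → ℤ} (h : IsBas x Z)
    {a : Fin 2 → ℤ} (ha : cmb a Z = 0) : a = 0 := by
  obtain ⟨h0, h1, e, he, hpk⟩ := h
  obtain ⟨i, hi⟩ := exists_pl_ne_zero hx.ne_zero
  have k0 : pk (cmb a Z) (Z 1) i = a 0 * pk (Z 0) (Z 1) i := by
    fin_cases i <;> simp [pk, cmb] <;> ring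
  have k1 : pk (Z 0) (cmb a Z) i = a 1 * pk (Z 0) (Z 1) i := by
    fin_cases i <;> simp [pk, cmb] <;> ring
  have z0 : pk (0 : Fin 4 → ℤ) (Z 1) i = 0 := by fin_cases i <;> simp [pk]
  have z1 : pk (Z 0) (0 : Fin 4 → ℤ) i = 0 := by fin_cases i <;> simp [pk]
  rw [ha, z0, hpk] at k0
  rw [ha, z1, hpk] at k1
  have hne : e * pl x i ≠ 0 := mul_ne_zero he.ne_zero hi
  funext j
  fin_cases j
  · rcases mul_eq_zero.1 k0.symm with h | h
    · exact h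
    · exact absurd h hne
  · rcases mul_eq_zero.1 k1.symm with h | h
    · exact h
    · exact absurd h hne

theorem IsBas.exists_cmb {x : Fin 3 → ℤ} (hx : Prim x) {Z : Fin 2 → Fin 4 → ℤ} (h : IsBas x Z)
    {y : Fin 4 → ℤ} (hy : Inc x y) : ∃ a : Fin 2 → ℤ, y = cmb a Z := by
  obtain ⟨a, ha⟩ := h.comb hx hy
  exact ⟨a, funext ha⟩

/-- congruences in terms of the coefficients -/
theorem IsBas.cg_iff {x : Fin 3 → ℤ} (hx : Prim x) {Z : Fin 2 → Fin 4 → ℤ} (h : IsBas x Z)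
    {q : ℕ} (hq : 0 < q) (a b : Fin 2 → ℤ) : Cg q (cmb a Z) (cmb b Z) ↔ Cg q a b := by
  have hq' : (q : ℤ) ≠ 0 := by exact_mod_cast hq.ne'
  constructor
  · intro hc
    choose w hw using hc
    have hw' : ∀ j, (a 0 * Z 0 j + a 1 * Z 1 j) - (b 0 * Z 0 j + b 1 * Z 1 j) = q * w j := hw
    have hinc : Inc x w := by
      obtain ⟨⟨i1, i2⟩, ⟨j1, j2⟩, _⟩ := h
      constructor
      · apply mul_left_cancel₀ hq'
        rw [mul_zero]
        linear_combination (-(x 0)) * hw' 0 - (x 1) * hw' 1 - (x 2) * hw' 2 +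
          (a 0 - b 0) * i1 + (a 1 - b 1) * j1
      · apply mul_left_cancel₀ hq'
        rw [mul_zero]
        linear_combination (-(x 0)) * hw' 1 - (x 1) * hw' 2 - (x 2) * hw' 3 +
          (a 0 - b 0) * i2 + (a 1 - b 1) * j2
    obtain ⟨c, hc⟩ := h.exists_cmb hx hinc
    have hz : cmb (fun i => a i - b i - q * c i) Z = 0 := by
      funext j
      have h1 := hw' j
      have h2 : w j = c 0 * Z 0 j + c 1 * Z 1 j := by rw [hc]; rfl
      rw [h2] at h1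
      simp only [cmb, Pi.zero_apply]
      linear_combination h1
    have h0 := h.cmb_eq_zero hx hz
    intro i
    have := congrFun h0 i
    simp only [Pi.zero_apply] at this
    exact ⟨c i, by linarith⟩
  · intro hc j
    obtain ⟨u, hu⟩ := hc 0
    obtain ⟨v, hv⟩ := hc 1
    refine ⟨u * Z 0 j + v * Z 1 j, ?_⟩
    simp only [cmb]
    linear_combination (Z 0 j) * hu + (Z 1 j) * hv

/-- real frame of an integral frame -/
def cZ (Z : Fin 2 → Fin 4 → ℤ) : Fin 2 → Fin 4 → ℝ := fun i j => (Z i j : ℝ)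

theorem castv_cmb (a : Fin 2 → ℤ) (Z : Fin 2 → Fin 4 → ℤ) :
    castv (cmb a Z) = cmb (castv a) (cZ Z) := by
  funext j
  simp [castv, cmb, cZ]

theorem IsBas.isFr {x : Fin 3 → ℤ} {Z : Fin 2 → Fin 4 → ℤ} (h : IsBas x Z) :
    IsFr (castv x) (cZ Z) := by
  obtain ⟨h0, h1, e, he, hpk⟩ := h
  refine ⟨inc_castv h0, inc_castv h1, (e : ℝ), ?_, ?_⟩
  · rcases Int.isUnit_iff.1 he with rfl | rfl <;> simp
  · intro i
    have h2 : ((pk (Z 0) (Z 1) i : ℤ) : ℝ) = ((e * pl x i : ℤ) : ℝ) := by rw [hpk]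
    have h3 : ((pk (Z 0) (Z 1) i : ℤ) : ℝ) = pk (cZ Z 0) (cZ Z 1) i := by
      fin_cases i <;> simp [pk, cZ]
    have h4 : ((pl x i : ℤ) : ℝ) = pl (castv x) i := by
      fin_cases i <;> simp [pl, castv]
    rw [← h3, h2, Int.cast_mul, h4]

/-- the incident vectors in a residue class of bounded height -/
def fibSet (M : (Fin 3 → ℝ) → (Fin 4 → ℝ) → ℝ) (x : Fin 3 → ℤ) (q : ℕ) (η : Fin 4 → ℤ) (B : ℝ) :
    Set (Fin 4 → ℤ) := {y | y ≠ 0 ∧ Inc x y ∧ Cg q y η ∧ M (castv x) (castv y) ≤ B}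

theorem fibSet_eq (M : (Fin 3 → ℝ) → (Fin 4 → ℝ) → ℝ) {x : Fin 3 → ℤ} (hx : Prim x)
    {Z : Fin 2 → Fin 4 → ℤ} (h : IsBas x Z) {q : ℕ} (hq : 0 < q) {α : Fin 2 → ℤ} (B : ℝ) :
    fibSet M x q (cmb α Z) B = (fun a => cmb a Z) '' (clsSet (FZ M (castv x) (cZ Z)) q α B) := by
  ext y
  constructor
  · rintro ⟨h1, h2, h3, h4⟩
    obtain ⟨a, rfl⟩ := h.exists_cmb hx h2
    refine ⟨a, ⟨?_, (h.cg_iff hx hq a α).1 h3, ?_⟩, rfl⟩
    · rintro rfl
      apply h1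
      funext j; simp [cmb]
    · unfold FZ
      rw [← castv_cmb]; exact h4
  · rintro ⟨a, ⟨h1, h2, h3⟩, rfl⟩
    refine ⟨?_, h.1.comb h.2.1 _ _, (h.cg_iff hx hq a α).2 h2, ?_⟩
    · intro h0
      exact h1 (h.cmb_eq_zero hx h0)
    · unfold FZ at h3
      rw [← castv_cmb] at h3; exact h3

theorem IsBas.cmb_injective {x : Fin 3 → ℤ} (hx : Prim x) {Z : Fin 2 → Fin 4 → ℤ} (h : IsBas x Z) :
    Function.Injective (fun a : Fin 2 → ℤ => cmb a Z) := by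
  intro a b hab
  have hz : cmb (fun i => a i - b i) Z = 0 := by
    funext j
    have := congrFun hab j
    simp only [cmb, Pi.zero_apply] at this ⊢
    linear_combination this
  have := h.cmb_eq_zero hx hz
  funext i
  have h1 := congrFun this i
  simp only [Pi.zero_apply] at h1
  linarith

theorem norm_cZ_rb {x : Fin 3 → ℤ} (hx : Prim x) {τ : ℝ} (hτ : 0 < τ)
    (hlam : τ * nrm x ≤ lam x) : ‖cZ (rb x)‖ ≤ 6 * nrm x / τ := by
  obtain ⟨hbas, hred⟩ := rb_spec hx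
  have hn : 0 < nrm x := lt_of_lt_of_le one_pos (one_le_nrm hx.ne_zero)
  have h1 := hred.len_mul_le
  have h2 := hbas.det2_bounds.2
  have h3 : len (rb x 0) ≤ len (rb x 1) := by
    rw [len, len]; apply Real.sqrt_le_sqrt; exact_mod_cast hred.1
  have h4 : (τ * nrm x) * len (rb x 1) ≤ 6 * nrm x ^ 2 := by
    calc (τ * nrm x) * len (rb x 1) ≤ len (rb x 0) * len (rb x 1) :=
          mul_le_mul_of_nonneg_right hlam (len_nonneg _)
      _ ≤ 2 * det2 (rb x) := h1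
      _ ≤ _ := by linarith
  have h5 : len (rb x 1) ≤ 6 * nrm x / τ := by
    rw [le_div_iff₀ hτ]
    have : (len (rb x 1) * τ) * nrm x ≤ (6 * nrm x) * nrm x := by nlinarith
    exact le_of_mul_le_mul_right this hn
  rw [pi_norm_le_iff_of_nonneg (by positivity)]
  intro i
  have h6 : ‖cZ (rb x) i‖ ≤ len (rb x i) := by
    rw [pi_norm_le_iff_of_nonneg (len_nonneg _)]
    intro j
    exact abs_le_len (rb x i) j
  refine h6.trans ?_
  obtain rfl | rfl : i = 0 ∨ i = 1 := by omega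
  · exact h3.trans h5
  · exact h5

/-- The count for balanced vectors. -/
theorem bal_count {M : (Fin 3 → ℝ) → (Fin 4 → ℝ) → ℝ} (hM : IsLocalNorm ℝ M) {τ ε : ℝ}
    (hτ : 0 < τ) (hε : 0 < ε) : ∃ K : ℝ, 0 < K ∧ ∀ x : Fin 3 → ℤ, Prim x → τ * nrm x ≤ lam x →
      ∀ q : ℕ, 0 < q → ∀ η : Fin 4 → ℤ, IncMod q x η → ∀ B : ℝ, 0 < B →
        (fibSet M x q η B).Finite ∧
        |((fibSet M x q η B).ncard : ℝ) - Phi M (castv x) * (B / (q:ℝ) ^ 2)| ≤
          ε * (B / (nrm x ^ 3 * (q:ℝ) ^ 2)) + K := by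
  obtain ⟨C, hC, hPhi⟩ := hM.Phi_le
  obtain ⟨c, C', hc, hC', hb⟩ := hM.bound
  set ε' := min 1 (ε / (2 * C)) with hε'
  have hε'p : 0 < ε' := by positivity
  have hε'1 : ε' ≤ 1 := min_le_left _ _
  have hε'2 : 2 * ε' * C ≤ ε := by
    calc 2 * ε' * C ≤ 2 * (ε / (2 * C)) * C := by
          have := min_le_right 1 (ε / (2 * C))
          gcongr
      _ = ε := by field_simp
  obtain ⟨δ, hδ, hδ2, hmod⟩ := hM.modulus hε'p
  set δ' := δ * τ ^ 2 / 288 with hδ'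
  have hδ'p : 0 < δ' := by positivity
  refine ⟨3 * (2 * (1 / δ' + 1)) ^ 2, by positivity, ?_⟩
  intro x hx hlam q hq η hinc B hB
  have hq' : (0:ℝ) < q := by exact_mod_cast hq
  obtain ⟨y0, hy0, hyη⟩ := exists_lift hx hinc
  obtain ⟨hbas, hred⟩ := rb_spec hx
  obtain ⟨α, rfl⟩ := hbas.exists_cmb hx hy0
  have hx0 : castv x ≠ 0 := castv_ne_zero hx.ne_zero
  have hfr := hbas.isFr
  have hn : 0 < nrm x := lt_of_lt_of_le one_pos (one_le_nrm hx.ne_zero)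
  have hZ := norm_cZ_rb hx hτ hlam
  have hZn := hfr.norm_pos hx0
  have e1 : fibSet M x q η B = fibSet M x q (cmb α (rb x)) B := by
    ext y
    simp only [fibSet, mem_ofPred_eq]
    constructor
    · rintro ⟨h1, h2, h3, h4⟩
      exact ⟨h1, h2, h3.trans hyη.symm, h4⟩
    · rintro ⟨h1, h2, h3, h4⟩
      exact ⟨h1, h2, h3.trans hyη, h4⟩
  rw [e1, fibSet_eq M hx hbas hq]
  have hVeq : (volume : Measure (Fin 2 → ℝ)).real (sub (FZ M (castv x) (cZ (rb x))) 1) =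
      Phi M (castv x) := (Phi_eq hx0 hfr).symm
  have hcc := class_count (n := 2) two_pos (F := FZ M (castv x) (cZ (rb x)))
    (fun a ha s hs => hM.FZ_hom hx0 hfr ha hs)
    (c := c * ‖castv x‖ ^ 5 / (16 * ‖cZ (rb x)‖ ^ 2))
    (by have : 0 < ‖castv x‖ := norm_pos_iff.2 hx0
        positivity)
    (fun a ha => FZ_lower hc (fun x y hx hy h => (hb x y hx hy h).1) hx0 hfr ha)
    hε'p hε'1 hδ'p (fun a b ha hab => FZ_modulus hδ hmod hx0 hfr ha (by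
      rw [norm_castv]
      calc 8 * ‖cZ (rb x)‖ ^ 2 * δ' ≤ 8 * (6 * nrm x / τ) ^ 2 * δ' := by gcongr
        _ = δ * nrm x ^ 2 := by rw [hδ']; field_simp; norm_num) hab)
    (Vm := C / nrm x ^ 3) (by rw [hVeq]; exact hPhi _ hx0) hq α hB
  rw [hVeq] at hcc
  obtain ⟨h1, h2⟩ := hcc
  refine ⟨h1.image _, ?_⟩
  rw [Set.ncard_image_of_injective _ (hbas.cmb_injective hx)]
  refine h2.trans ?_
  have : 2 * ε' * (C / nrm x ^ 3) * (B / (q:ℝ) ^ 2) ≤ ε * (B / (nrm x ^ 3 * (q:ℝ) ^ 2)) := by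
    calc 2 * ε' * (C / nrm x ^ 3) * (B / (q:ℝ) ^ 2) = (2 * ε' * C) * (B / (nrm x ^ 3 * (q:ℝ) ^ 2)) := by
          field_simp
      _ ≤ _ := by gcongr
  linarith

end Pool.Agent.Lib.MP_1acd66_nt.Tw
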