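import Pool.Agent.Lib.MP_1acd66_nt.Tw.Lat

/-!
Integral bases of the lattices of vectors incident with a primitive vector.
-/

namespace Pool.Agent.Lib.MP_1acd66_nt.Tw

open Finset

theorem prim_of_prime {n : ℕ} {x : Fin n → ℤ}
    (h : ∀ p : ℕ, p.Prime → ∃ i, ¬ (p : ℤ) ∣ x i) : Prim x := by
  set I : Ideal ℤ := Ideal.span (Set.range x) with hI
  have hx : ∀ i, x i ∈ I := fun i => Ideal.subset_span ⟨i, rfl⟩
  obtain ⟨g, hg⟩ := (IsPrincipalIdealRing.principal I).principal
  have hg' : I = Ideal.span {g} := hg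
  have hdvd : ∀ i, g ∣ x i := by
    intro i
    have := hx i
    rw [hg'] at this
    exact Ideal.mem_span_singleton.1 this
  have hu : g.natAbs = 1 := by
    by_contra hne
    obtain ⟨p, hp, hpd⟩ := Nat.exists_prime_and_dvd hne
    obtain ⟨i, hi⟩ := h p hp
    exact hi ((Int.natCast_dvd.2 hpd).trans (hdvd i))
  have h1 : (1 : ℤ) ∈ I := by
    rw [hg', Ideal.mem_span_singleton]
    exact Int.natAbs_dvd_natAbs.1 (by rw [hu]; exact one_dvd _)
  rw [hI, Ideal.mem_span_range_iff_exists_fun] at h1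
  exact h1

theorem Prim.not_dvd {n : ℕ} {x : Fin n → ℤ} (h : Prim x) {p : ℕ} (hp : p.Prime) :
    ∃ i, ¬ (p : ℤ) ∣ x i := by
  obtain ⟨a, ha⟩ := h
  by_contra hcon
  push Not at hcon
  have h1 : (p : ℤ) ∣ ∑ i, a i * x i := Finset.dvd_sum fun i _ => (hcon i).mul_left _
  rw [ha] at h1
  have h2 : p ∣ 1 := by exact_mod_cast h1
  exact hp.one_lt.ne' (Nat.dvd_one.1 h2)

theorem prim_iff_prime {n : ℕ} {x : Fin n → ℤ} :
    Prim x ↔ ∀ p : ℕ, p.Prime → ∃ i, ¬ (p : ℤ) ∣ x i :=
  ⟨fun h _ hp => h.not_dvd hp, prim_of_prime⟩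

theorem Prim.ne_zero {n : ℕ} {x : Fin n → ℤ} (h : Prim x) : x ≠ 0 := by
  obtain ⟨a, ha⟩ := h
  rintro rfl
  simp at ha

theorem Prim.neg {n : ℕ} {x : Fin n → ℤ} (h : Prim x) : Prim (-x) := by
  obtain ⟨a, ha⟩ := h
  exact ⟨-a, by simpa using ha⟩

/-- the Plücker coordinates of a primitive vector are coprime -/
theorem Prim.pl {x : Fin 3 → ℤ} (h : Prim x) :
    ∃ w : Fin 3 → ℤ, w 0 * pl x 0 + w 1 * pl x 2 + w 2 * pl x 5 = 1 := by
  have h1 : Prim ![x 2 ^ 2, x 1 ^ 2 - x 0 * x 2, x 0 ^ 2] := by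
    apply prim_of_prime
    intro p hp
    have hp' : Prime (p : ℤ) := Nat.prime_iff_prime_int.1 hp
    by_contra hcon
    push Not at hcon
    have h2 : (p : ℤ) ∣ x 2 := hp'.dvd_of_dvd_pow (hcon 0)
    have h0 : (p : ℤ) ∣ x 0 := hp'.dvd_of_dvd_pow (hcon 2)
    have h1' : (p : ℤ) ∣ x 1 ^ 2 - x 0 * x 2 := hcon 1
    have h1 : (p : ℤ) ∣ x 1 := by
      apply hp'.dvd_of_dvd_pow (n := 2)
      have : x 1 ^ 2 = (x 1 ^ 2 - x 0 * x 2) + x 0 * x 2 := by ring
      rw [this]
      exact dvd_add h1' (h0.mul_right _)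
    obtain ⟨i, hi⟩ := h.not_dvd hp
    fin_cases i
    · exact hi h0
    · exact hi h1
    · exact hi h2
  obtain ⟨w, hw⟩ := h1
  refine ⟨w, ?_⟩
  rw [Fin.sum_univ_three] at hw
  exact hw

/-- the index of a pair of incident vectors -/
theorem exists_index {x : Fin 3 → ℤ} (hx : Prim x) {a b : Fin 4 → ℤ} (ha : Inc x a)
    (hb : Inc x b) : ∃ c : ℤ, ∀ i, pk a b i = c * pl x i := by
  obtain ⟨w, hw⟩ := hx.pl
  refine ⟨w 0 * pk a b 0 + w 1 * pk a b 2 + w 2 * pk a b 5, ?_⟩
  intro i
  obtain ⟨h1, h2, h3⟩ := pk_prop ha hb i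
  linear_combination (-(pk a b i)) * hw + (w 0) * h2 + (w 1) * h3 + (w 2) * h1

section

variable {K : Type*} [CommRing K]

theorem pk_add_left (a a' b : Fin 4 → K) (s : K) (i : Fin 6) :
    pk (a + s • a') b i = pk a b i + s * pk a' b i := by
  fin_cases i <;> simp [pk] <;> ring

theorem pk_add_right (a b b' : Fin 4 → K) (s : K) (i : Fin 6) :
    pk a (b + s • b') i = pk a b i + s * pk a b' i := by
  fin_cases i <;> simp [pk] <;> ring

theorem pk_swap (a b : Fin 4 → K) (i : Fin 6) : pk b a i = - pk a b i := by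
  fin_cases i <;> simp [pk] <;> ring

theorem pk_self (a : Fin 4 → K) (i : Fin 6) : pk a a i = 0 := by
  fin_cases i <;> simp [pk] <;> ring

theorem pk_comb (a b : Fin 4 → K) (s t s' t' : K) (i : Fin 6) :
    pk (fun j => s * a j + t * b j) (fun j => s' * a j + t' * b j) i =
      (s * t' - t * s') * pk a b i := by
  fin_cases i <;> simp [pk] <;> ring

theorem Inc.comb {x : Fin 3 → K} {a b : Fin 4 → K} (ha : Inc x a) (hb : Inc x b) (s t : K) :
    Inc x (fun j => s * a j + t * b j) := by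
  obtain ⟨a1, a2⟩ := ha
  obtain ⟨b1, b2⟩ := hb
  constructor
  · linear_combination s * a1 + t * b1
  · linear_combination s * a2 + t * b2

theorem Inc.add_smul {x : Fin 3 → K} {a b : Fin 4 → K} (ha : Inc x a) (hb : Inc x b) (t : K) :
    Inc x (a + t • b) := by
  obtain ⟨a1, a2⟩ := ha
  obtain ⟨b1, b2⟩ := hb
  constructor
  · simp only [Pi.add_apply, Pi.smul_apply, smul_eq_mul]
    linear_combination a1 + t * b1
  · simp only [Pi.add_apply, Pi.smul_apply, smul_eq_mul]
    linear_combination a2 + t * b2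

end

theorem pk_zero_pair' {K : Type*} [CommRing K] {a b : Fin 4 → K} (h : ∀ i, pk a b i = 0)
    (j k : Fin 4) : a j * b k = a k * b j := by
  have h0 : a 0 * b 1 - a 1 * b 0 = 0 := h 0
  have h1 : a 0 * b 2 - a 2 * b 0 = 0 := h 1
  have h2 : a 0 * b 3 - a 3 * b 0 = 0 := h 2
  have h3 : a 1 * b 2 - a 2 * b 1 = 0 := h 3
  have h4 : a 1 * b 3 - a 3 * b 1 = 0 := h 4
  have h5 : a 2 * b 3 - a 3 * b 2 = 0 := h 5
  fin_cases j <;> fin_cases k
  · rfl
  · change a 0 * b 1 = a 1 * b 0
    linear_combination h0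
  · change a 0 * b 2 = a 2 * b 0
    linear_combination h1
  · change a 0 * b 3 = a 3 * b 0
    linear_combination h2
  · change a 1 * b 0 = a 0 * b 1
    linear_combination -h0
  · rfl
  · change a 1 * b 2 = a 2 * b 1
    linear_combination h3
  · change a 1 * b 3 = a 3 * b 1
    linear_combination h4
  · change a 2 * b 0 = a 0 * b 2
    linear_combination -h1
  · change a 2 * b 1 = a 1 * b 2
    linear_combination -h3
  · rfl
  · change a 2 * b 3 = a 3 * b 2
    linear_combination h5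
  · change a 3 * b 0 = a 0 * b 3
    linear_combination -h2
  · change a 3 * b 1 = a 1 * b 3
    linear_combination -h4
  · change a 3 * b 2 = a 2 * b 3
    linear_combination -h5
  · rfl

/-- Cramer's rule in a plane -/
theorem comb_eq {K : Type*} [CommRing K] [IsDomain K] {a b y : Fin 4 → K} {P : Fin 6 → K}
    {s t e : K} (hne : ∃ i, pk a b i ≠ 0) (h0 : ∀ i, pk y b i = s * P i)
    (h1 : ∀ i, pk a y i = t * P i) (h2 : ∀ i, pk a b i = e * P i) (j : Fin 4) :
    e * y j = s * a j + t * b j := by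
  set z : Fin 4 → K := e • y + (-s) • a + (-t) • b with hz
  have k1 : ∀ i, pk z b i = 0 := by
    intro i
    rw [hz, pk_add_left, pk_add_left, pk_self]
    have : pk (e • y) b i = e * pk y b i := by
      have := pk_add_left 0 y b e i
      rw [zero_add] at this
      rw [this]
      have h3 : pk 0 b i = 0 := by fin_cases i <;> simp [pk]
      rw [h3, zero_add]
    rw [this, h0, h2]; ring
  have k2 : ∀ i, pk a z i = 0 := by
    intro i
    rw [hz, pk_add_right, pk_add_right, pk_self]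
    have : pk a (e • y) i = e * pk a y i := by
      have := pk_add_right a 0 y e i
      rw [zero_add] at this
      rw [this]
      have h3 : pk a 0 i = 0 := by fin_cases i <;> simp [pk]
      rw [h3, zero_add]
    rw [this, h1, h2]; ring
  have hz0 : ∀ j, z j = 0 := by
    intro j
    by_contra hj
    obtain ⟨i, hi⟩ := hne
    apply hi
    rw [show pk a b i = a (ix i).1 * b (ix i).2 - a (ix i).2 * b (ix i).1 by fin_cases i <;> rfl]
    have e1 := pk_zero_pair' k1 j (ix i).1
    have e2 := pk_zero_pair' k1 j (ix i).2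
    have e3 := pk_zero_pair' k2 (ix i).1 j
    have e4 := pk_zero_pair' k2 (ix i).2 j
    have : z j * z j * (a (ix i).1 * b (ix i).2 - a (ix i).2 * b (ix i).1) = 0 := by
      linear_combination (b (ix i).2 * z j) * e3 - (b (ix i).1 * z j) * e4
        + (a j * z (ix i).1) * e2 - (a j * z (ix i).2) * e1
    rcases mul_eq_zero.1 this with h | h
    · exact absurd (mul_self_eq_zero.1 h) hj
    · exact h
  have := hz0 j
  rw [hz] at this
  simp only [Pi.add_apply, Pi.smul_apply, smul_eq_mul] at this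
  linear_combination this

end Pool.Agent.Lib.MP_1acd66_nt.Tw
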