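import Pool.Agent.Lib.MP_1acd66_nt.Tw.Basis

/-!
Existence of reduced integral bases of the lattices of vectors incident with a primitive vector.
-/

namespace Pool.Agent.Lib.MP_1acd66_nt.Tw

open Finset

section

variable {K : Type*} [CommRing K]

/-- explicit incident vectors -/
def va (x : Fin 3 → K) : Fin 4 → K := ![x 1 ^ 2 - x 0 * x 2, -(x 0 * x 1), x 0 ^ 2, 0]

/-- explicit incident vectors -/
def vb (x : Fin 3 → K) : Fin 4 → K := ![x 1 * x 2, -(x 0 * x 2), 0, x 0 ^ 2]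

/-- explicit incident vectors -/
def vc (x : Fin 3 → K) : Fin 4 → K := ![x 2 ^ 2, 0, -(x 0 * x 2), x 0 * x 1]

/-- explicit incident vectors -/
def vd (x : Fin 3 → K) : Fin 4 → K := ![0, x 2 ^ 2, -(x 1 * x 2), x 1 ^ 2 - x 0 * x 2]

theorem inc_va (x : Fin 3 → K) : Inc x (va x) := by
  constructor <;> simp [va] <;> ring

theorem inc_vb (x : Fin 3 → K) : Inc x (vb x) := by
  constructor <;> simp [vb] <;> ring

theorem inc_vc (x : Fin 3 → K) : Inc x (vc x) := by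
  constructor <;> simp [vc] <;> ring

theorem inc_vd (x : Fin 3 → K) : Inc x (vd x) := by
  constructor <;> simp [vd] <;> ring

theorem pk_va_vb (x : Fin 3 → K) (i : Fin 6) : pk (va x) (vb x) i = pl x 5 * pl x i := by
  fin_cases i <;> simp [pk, va, vb, pl] <;> ring

theorem pk_vc_vd (x : Fin 3 → K) (i : Fin 6) : pk (vc x) (vd x) i = pl x 0 * pl x i := by
  fin_cases i <;> simp [pk, vc, vd, pl] <;> ring

theorem pk_va_vd (x : Fin 3 → K) (i : Fin 6) : pk (va x) (vd x) i = pl x 2 * pl x i := by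
  fin_cases i <;> simp [pk, va, vd, pl] <;> ring

end

/-- an integral basis of the lattice of vectors incident with `x` -/
def IsBas (x : Fin 3 → ℤ) (Z : Fin 2 → Fin 4 → ℤ) : Prop :=
  Inc x (Z 0) ∧ Inc x (Z 1) ∧ ∃ e : ℤ, IsUnit e ∧ ∀ i, pk (Z 0) (Z 1) i = e * pl x i

theorem pl_ne_zero_int {x : Fin 3 → ℤ} (hx : x ≠ 0) : pl x 5 ≠ 0 ∨ pl x 0 ≠ 0 ∨ pl x 2 ≠ 0 := by
  by_contra h
  push Not at h
  obtain ⟨h5, h0, h2⟩ := h
  have e0 : x 2 ^ 2 = 0 := h0
  have e5 : x 0 ^ 2 = 0 := h5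
  have e2 : x 1 ^ 2 - x 0 * x 2 = 0 := h2
  have hx0 : x 0 = 0 := pow_eq_zero_iff two_ne_zero |>.1 e5
  have hx2 : x 2 = 0 := pow_eq_zero_iff two_ne_zero |>.1 e0
  rw [hx0, zero_mul, sub_zero] at e2
  have hx1 : x 1 = 0 := pow_eq_zero_iff two_ne_zero |>.1 e2
  apply hx
  funext i
  fin_cases i
  · exact hx0
  · exact hx1
  · exact hx2

theorem exists_pl_ne_zero {x : Fin 3 → ℤ} (hx : x ≠ 0) : ∃ i, pl x i ≠ 0 := by
  rcases pl_ne_zero_int hx with h | h | h
  exacts [⟨_, h⟩, ⟨_, h⟩, ⟨_, h⟩]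

theorem IsBas.comb {x : Fin 3 → ℤ} (hx : Prim x) {Z : Fin 2 → Fin 4 → ℤ} (h : IsBas x Z)
    {y : Fin 4 → ℤ} (hy : Inc x y) : ∃ a : Fin 2 → ℤ, ∀ j, y j = a 0 * Z 0 j + a 1 * Z 1 j := by
  obtain ⟨h0, h1, e, he, hpk⟩ := h
  obtain ⟨s, hs⟩ := exists_index hx hy h1
  obtain ⟨t, ht⟩ := exists_index hx h0 hy
  obtain ⟨i, hi⟩ := exists_pl_ne_zero hx.ne_zero
  have hne : ∃ i, pk (Z 0) (Z 1) i ≠ 0 := ⟨i, by
    rw [hpk]; exact mul_ne_zero he.ne_zero hi⟩
  have key := comb_eq hne hs ht hpk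
  have he2 : e * e = 1 := by
    rcases Int.isUnit_iff.1 he with rfl | rfl <;> norm_num
  refine ⟨![e * s, e * t], ?_⟩
  intro j
  have := key j
  simp only [Matrix.cons_val_zero, Matrix.cons_val_one]
  linear_combination e * this - (y j) * he2

theorem exists_bas {x : Fin 3 → ℤ} (hx : Prim x) : ∃ Z, IsBas x Z := by
  classical
  -- the positive indices
  set S : Set ℕ := {n | n ≠ 0 ∧ ∃ a b, Inc x a ∧ Inc x b ∧ ∀ i, pk a b i = n * pl x i} with hS
  have hSne : S.Nonempty := by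
    have key : ∀ (a b : Fin 4 → ℤ) (c : ℤ), c ≠ 0 → Inc x a → Inc x b →
        (∀ i, pk a b i = c * pl x i) → S.Nonempty := by
      intro a b c hc ha hb hpk
      refine ⟨c.natAbs, Int.natAbs_ne_zero.2 hc, ?_⟩
      rcases Int.natAbs_eq c with h | h
      · exact ⟨a, b, ha, hb, fun i => by rw [hpk i]; congr 1⟩
      · refine ⟨b, a, hb, ha, fun i => ?_⟩
        rw [pk_swap, hpk i]
        have : (c.natAbs : ℤ) = -c := by omega
        rw [this]; ring
    rcases pl_ne_zero_int hx.ne_zero with h | h | h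
    · exact key _ _ _ h (inc_va x) (inc_vb x) (pk_va_vb x)
    · exact key _ _ _ h (inc_vc x) (inc_vd x) (pk_vc_vd x)
    · exact key _ _ _ h (inc_va x) (inc_vd x) (pk_va_vd x)
  obtain ⟨hn0, a, b, ha, hb, hab⟩ := Nat.sInf_mem hSne
  set n := sInf S with hn
  have hnpos : (0 : ℤ) < n := by exact_mod_cast Nat.pos_of_ne_zero hn0
  have hmin : ∀ (a' b' : Fin 4 → ℤ) (r : ℤ), 0 < r → r < n → Inc x a' → Inc x b' →
      ¬ ∀ i, pk a' b' i = r * pl x i := by
    intro a' b' r hr0 hrn ha' hb' hpk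
    have hmem : r.toNat ∈ S := by
      refine ⟨by omega, a', b', ha', hb', ?_⟩
      intro i
      rw [hpk i, Int.toNat_of_nonneg hr0.le]
    have := Nat.sInf_le hmem
    rw [← hn] at this
    omega
  obtain ⟨i0, hi0⟩ := exists_pl_ne_zero hx.ne_zero
  have hne : ∃ i, pk a b i ≠ 0 := ⟨i0, by rw [hab]; exact mul_ne_zero (by omega) hi0⟩
  -- every incident vector is a combination
  have hcomb : ∀ y, Inc x y → ∃ s t : ℤ, y = fun j => s * a j + t * b j := by
    intro y hy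
    obtain ⟨s, hs⟩ := exists_index hx hy hb
    obtain ⟨t, ht⟩ := exists_index hx ha hy
    have hns : (n : ℤ) ∣ s := by
      by_contra hnd
      have h1 : 0 ≤ s % n := Int.emod_nonneg _ hnpos.ne'
      have h2 : s % n < n := Int.emod_lt_of_pos _ hnpos
      have h3 : s % n ≠ 0 := fun h => hnd (Int.dvd_of_emod_eq_zero h)
      refine hmin (y + (-(s / n)) • a) b (s % n) (by omega) h2 (hy.add_smul ha _) hb ?_
      intro i
      rw [pk_add_left, hs, hab]
      have := Int.emod_add_mul_ediv s n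
      linear_combination (-(pl x i)) * this
    have hnt : (n : ℤ) ∣ t := by
      by_contra hnd
      have h1 : 0 ≤ t % n := Int.emod_nonneg _ hnpos.ne'
      have h2 : t % n < n := Int.emod_lt_of_pos _ hnpos
      have h3 : t % n ≠ 0 := fun h => hnd (Int.dvd_of_emod_eq_zero h)
      refine hmin a (y + (-(t / n)) • b) (t % n) (by omega) h2 ha (hy.add_smul hb _) ?_
      intro i
      rw [pk_add_right, ht, hab]
      have := Int.emod_add_mul_ediv t n
      linear_combination (-(pl x i)) * this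
    obtain ⟨s', rfl⟩ := hns
    obtain ⟨t', rfl⟩ := hnt
    refine ⟨s', t', ?_⟩
    funext j
    have := comb_eq hne hs ht hab j
    have h2 : (n : ℤ) * (y j - (s' * a j + t' * b j)) = 0 := by linear_combination this
    rcases mul_eq_zero.1 h2 with h3 | h3
    · omega
    · linarith
  have hdvd : ∀ y z (c : ℤ), Inc x y → Inc x z → (∀ i, pk y z i = c * pl x i) → (n : ℤ) ∣ c := by
    intro y z c hy hz hpk
    obtain ⟨s, t, rfl⟩ := hcomb y hy
    obtain ⟨s', t', rfl⟩ := hcomb z hz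
    have h1 := hpk i0
    rw [pk_comb, hab] at h1
    have h2 : ((s * t' - t * s') * n - c) * pl x i0 = 0 := by linear_combination h1
    rcases mul_eq_zero.1 h2 with h3 | h3
    · exact ⟨s * t' - t * s', by linarith⟩
    · exact absurd h3 hi0
  obtain ⟨w, hw⟩ := hx.pl
  have d5 := hdvd _ _ _ (inc_va x) (inc_vb x) (pk_va_vb x)
  have d0 := hdvd _ _ _ (inc_vc x) (inc_vd x) (pk_vc_vd x)
  have d2 := hdvd _ _ _ (inc_va x) (inc_vd x) (pk_va_vd x)
  have d1 : (n : ℤ) ∣ 1 := by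
    rw [← hw]
    exact dvd_add (dvd_add (d0.mul_left _) (d2.mul_left _)) (d5.mul_left _)
  have hu : IsUnit (n : ℤ) := isUnit_of_dvd_one d1
  exact ⟨![a, b], ha, hb, n, hu, hab⟩

/-- change of basis -/
theorem IsBas.rowOp {x : Fin 3 → ℤ} {Z : Fin 2 → Fin 4 → ℤ} (h : IsBas x Z)
    {g : Matrix (Fin 2) (Fin 2) ℤ} (hg : IsUnit g.det) : IsBas x (MP_1acd66_nt.rowOp g Z) := by
  obtain ⟨h0, h1, e, he, hpk⟩ := h
  refine ⟨h0.comb h1 _ _, h0.comb h1 _ _, g.det * e, hg.mul he, ?_⟩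
  intro i
  have := pk_comb (Z 0) (Z 1) (g 0 0) (g 0 1) (g 1 0) (g 1 1) i
  change pk (fun j => g 0 0 * Z 0 j + g 0 1 * Z 1 j) (fun j => g 1 0 * Z 0 j + g 1 1 * Z 1 j) i = _
  rw [this, hpk, Matrix.det_fin_two]
  ring

theorem exists_redbas {x : Fin 3 → ℤ} (hx : Prim x) : ∃ Z : FrZ 4, IsBas x Z ∧ IsReduced Z := by
  obtain ⟨Z, hZ⟩ := exists_bas hx
  obtain ⟨g, hg, hr⟩ := exists_reduced Z
  exact ⟨_, hZ.rowOp hg, hr⟩

theorem gram_eq_pk {K : Type*} [CommRing K] (Z : Fin 2 → Fin 4 → K) :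
    gram Z = ∑ i, pk (Z 0) (Z 1) i ^ 2 := by
  simp only [gram, dot, Fin.sum_univ_four, Fin.sum_univ_six]
  simp [pk]
  ring

theorem IsBas.gram_eq {x : Fin 3 → ℤ} {Z : Fin 2 → Fin 4 → ℤ} (h : IsBas x Z) :
    gram Z = ∑ i, pl x i ^ 2 := by
  obtain ⟨h0, h1, e, he, hpk⟩ := h
  rw [gram_eq_pk]
  refine Finset.sum_congr rfl fun i _ => ?_
  rw [hpk]
  rcases Int.isUnit_iff.1 he with rfl | rfl <;> ring

end Pool.Agent.Lib.MP_1acd66_nt.Tw
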