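import Pool.Agent.Lib.MP_1acd66_nt.Tw.SmallA
import Pool.Agent.Lib.MP_a17b09_nt.Divisor

/-!
Vectors of which the values of the quadrics have an additional large prime divisor.
-/

namespace Pool.Agent.Lib.MP_1acd66_nt.Tw

open Finset

theorem log_le_add {A R : ℝ} (hA : 1 ≤ A) (hR : 1 ≤ R) :
    Real.log (A * R) = Real.log A + Real.log R :=
  Real.log_mul (by positivity) (by positivity)

/-- fibres over the modulus -/
theorem card_fib_fst {D : Finset CY} (t : Finset ℕ) (ht : ∀ p ∈ D, p.1 ∈ t) (w : ℕ → ℝ)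
    (h : ∀ c ∈ t, ∀ S : Finset (Fin 4 → ℤ), (∀ y ∈ S, (c, y) ∈ D) → (S.card : ℝ) ≤ w c) :
    (D.card : ℝ) ≤ ∑ c ∈ t, w c := by
  classical
  refine card_le_fib D Prod.fst t ht w ?_
  intro c hc
  have hcard : ((D.filter (fun a => a.1 = c)).image Prod.snd).card =
      (D.filter (fun a => a.1 = c)).card := by
    apply card_image_of_injOn
    intro a ha b hb hab
    have ha1 := (mem_filter.1 (mem_coe.1 ha)).2
    have hb1 := (mem_filter.1 (mem_coe.1 hb)).2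
    exact Prod.ext (ha1.trans hb1.symm) hab
  rw [← hcard]
  refine h c hc _ ?_
  intro y hy
  obtain ⟨a, ha, rfl⟩ := mem_image.1 hy
  obtain ⟨ha1, ha2⟩ := mem_filter.1 ha
  rw [← ha2]
  exact ha1

/-- vectors that are large -/
theorem bigA3 {Z1 : ℝ} (hZ1 : 0 < Z1) {A R t : ℝ} (hA : 1 ≤ A) (hR : 1 ≤ R) (ht : 1 ≤ t)
    (htR : t ^ 4 ≤ R) (D : Finset CY)
    (hD : ∀ p ∈ D, 0 < p.1 ∧ (p.1:ℝ) ≤ A * R ∧ (∀ j, (p.1:ℤ) ∣ qf p.2 j) ∧ PrimMod p.1 p.2 ∧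
      p.2 ≠ 0 ∧ R * p.1 < nrm (qf p.2) ∧ nrm (qf p.2) * nrm p.2 ^ 2 ≤ Z1 * p.1 * R ^ 3 ∧
      R / t ≤ nrm p.2) :
    (D.card : ℝ) ≤ coneC (√Z1) * Z1 * (R ^ 3 * (1 + Real.log A + 4 * Real.log t)) +
      coneC (√Z1) * Z1 ^ 2 * R ^ 3 := by
  classical
  have hR0 : 0 < R := by linarith
  have ht0 : 0 < t := by linarith
  have hA0 : 0 < A := by linarith
  have hC := coneC_pos (Real.sqrt_nonneg Z1)
  have hfib : ∀ c : ℕ, 0 < c → ∀ S : Finset (Fin 4 → ℤ), (∀ y ∈ S, (c, y) ∈ D) →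
      (S.card : ℝ) ≤ coneC (√Z1) * Z1 * (R ^ 3 / c) ∧
      (S.card : ℝ) ≤ coneC (√Z1) * Z1 ^ 2 * (R ^ 2 * t ^ 4) := by
    intro c hc S hS
    have h := coneA hZ1 hR0 rfl hc S (by
      intro y hy
      obtain ⟨a1, a2, a3, a4, a5, a6, a7, a8⟩ := hD _ (hS y hy)
      exact ⟨a3, a4, a5, a6, a7⟩)
    refine ⟨h.1, (h.2.1 (R / t) (by positivity) ?_).trans (le_of_eq ?_)⟩
    · intro y hy
      exact (hD _ (hS y hy)).2.2.2.2.2.2.2
    · field_simp
  have hsplit := card_filter_add_card_filter_not (s := D) (fun p => (p.1:ℝ) ≤ R / t ^ 4)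
  have h1 : ((D.filter (fun p => (p.1:ℝ) ≤ R / t ^ 4)).card : ℝ) ≤
      coneC (√Z1) * Z1 ^ 2 * R ^ 3 := by
    have hf := card_fib_fst (D := D.filter (fun p => (p.1:ℝ) ≤ R / t ^ 4))
      ((D.filter (fun p => (p.1:ℝ) ≤ R / t ^ 4)).image Prod.fst)
      (fun p hp => mem_image.2 ⟨p, hp, rfl⟩)
      (fun _ => coneC (√Z1) * Z1 ^ 2 * (R ^ 2 * t ^ 4)) (by
        intro c hc S hS
        obtain ⟨p, hp, rfl⟩ := mem_image.1 hc
        exact (hfib p.1 (hD p (mem_filter.1 hp).1).1 S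
          fun y hy => (mem_filter.1 (hS y hy)).1).2)
    rw [sum_const, nsmul_eq_mul] at hf
    have hc := card_Icc_nat_le (L := R / t ^ 4) (by positivity)
      ((D.filter (fun p => (p.1:ℝ) ≤ R / t ^ 4)).image Prod.fst) (by
        intro c hc
        obtain ⟨p, hp, rfl⟩ := mem_image.1 hc
        obtain ⟨hp1, hp2⟩ := mem_filter.1 hp
        exact ⟨(hD p hp1).1, hp2⟩)
    refine hf.trans ?_
    calc _ ≤ (R / t ^ 4) * (coneC (√Z1) * Z1 ^ 2 * (R ^ 2 * t ^ 4)) := by gcongr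
      _ = _ := by field_simp
  have h2 : ((D.filter (fun p => ¬ (p.1:ℝ) ≤ R / t ^ 4)).card : ℝ) ≤
      coneC (√Z1) * Z1 * (R ^ 3 * (1 + Real.log A + 4 * Real.log t)) := by
    have hf := card_fib_fst (D := D.filter (fun p => ¬ (p.1:ℝ) ≤ R / t ^ 4))
      ((D.filter (fun p => ¬ (p.1:ℝ) ≤ R / t ^ 4)).image Prod.fst)
      (fun p hp => mem_image.2 ⟨p, hp, rfl⟩)
      (fun c => coneC (√Z1) * Z1 * (R ^ 3 / c)) (by
        intro c hc S hS
        obtain ⟨p, hp, rfl⟩ := mem_image.1 hc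
        exact (hfib p.1 (hD p (mem_filter.1 hp).1).1 S
          fun y hy => (mem_filter.1 (hS y hy)).1).1)
    refine hf.trans ?_
    have hs := sum_inv_le (u := R / t ^ 4) (v := A * R) (by
        rw [le_div_iff₀ (by positivity), one_mul]; exact htR) (by
        rw [div_le_iff₀ (by positivity)]
        have : 1 ≤ t ^ 4 := one_le_pow₀ ht
        calc R = 1 * R * 1 := by ring
          _ ≤ A * R * t ^ 4 := by gcongr)
      ((D.filter (fun p => ¬ (p.1:ℝ) ≤ R / t ^ 4)).image Prod.fst) (by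
        intro c hc
        obtain ⟨p, hp, rfl⟩ := mem_image.1 hc
        obtain ⟨hp1, hp2⟩ := mem_filter.1 hp
        push Not at hp2
        exact ⟨hp2.le, (hD p hp1).2.1⟩)
    have hlog : Real.log (A * R / (R / t ^ 4)) = Real.log A + 4 * Real.log t := by
      have : A * R / (R / t ^ 4) = A * t ^ 4 := by field_simp
      rw [this, Real.log_mul (by positivity) (by positivity), Real.log_pow]
      push_cast; ring
    rw [hlog] at hs
    calc ∑ c ∈ (D.filter (fun p => ¬ (p.1:ℝ) ≤ R / t ^ 4)).image Prod.fst,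
          coneC (√Z1) * Z1 * (R ^ 3 / (c:ℝ))
        = coneC (√Z1) * Z1 * R ^ 3 *
          ∑ c ∈ (D.filter (fun p => ¬ (p.1:ℝ) ≤ R / t ^ 4)).image Prod.fst, 1 / (c:ℝ) := by
          rw [mul_sum]
          refine sum_congr rfl fun c _ => ?_
          ring
      _ ≤ coneC (√Z1) * Z1 * R ^ 3 * (1 + (Real.log A + 4 * Real.log t)) := by gcongr
      _ = _ := by ring
  have h3 : ((D.filter (fun p => (p.1:ℝ) ≤ R / t ^ 4)).card : ℝ) +
      ((D.filter (fun p => ¬ (p.1:ℝ) ≤ R / t ^ 4)).card : ℝ) = D.card := by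
    exact_mod_cast hsplit
  linarith

/-- the quadrics are large compared with the vector -/
theorem bigA1 {Z1 : ℝ} (hZ1 : 0 < Z1) {A R : ℝ} (hA : 1 ≤ A) (hR : 1 ≤ R) {P : ℕ} (hP : 0 < P)
    (D : Finset CY)
    (hD : ∀ p ∈ D, 0 < p.1 ∧ (p.1:ℝ) ≤ A * R ∧ PrimMod p.1 p.2 ∧
      p.2 ≠ 0 ∧ nrm (qf p.2) * nrm p.2 ^ 2 ≤ Z1 * p.1 * R ^ 3 ∧
      ∃ l : ℕ, l.Prime ∧ P ≤ l ∧ (∀ j, ((l * p.1 : ℕ):ℤ) ∣ qf p.2 j) ∧
        ((l * p.1 : ℕ) : ℝ) * nrm p.2 < nrm (qf p.2)) :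
    (D.card : ℝ) ≤ coneC 1 * Z1 * 2 / P * (R ^ 3 * (1 + Real.log A + Real.log R)) := by
  classical
  have hR0 : 0 < R := by linarith
  have hA0 : 0 < A := by linarith
  have hC := coneC_pos (zero_le_one (α := ℝ))
  have hP' : (0:ℝ) < P := by exact_mod_cast hP
  have hf := card_fib_fst (D := D) (D.image Prod.fst)
    (fun p hp => mem_image.2 ⟨p, hp, rfl⟩)
    (fun c => coneC 1 * Z1 * 2 / P * (R ^ 3 * (1 / c))) (by
      intro c hc S hS
      obtain ⟨p, hp, rfl⟩ := mem_image.1 hc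
      have hc0 := (hD p hp).1
      have hc0' : (0:ℝ) < p.1 := by exact_mod_cast hc0
      -- choose the primes
      have hch : ∀ y : Fin 4 → ℤ, ∃ l : ℕ, y ∈ S → l.Prime ∧ P ≤ l ∧
          (∀ j, ((l * p.1 : ℕ):ℤ) ∣ qf y j) ∧ ((l * p.1 : ℕ) : ℝ) * nrm y < nrm (qf y) := by
        intro y
        by_cases hy : y ∈ S
        · obtain ⟨_, _, _, _, _, l, h1, h2, h3, h4⟩ := hD _ (hS y hy)
          exact ⟨l, fun _ => ⟨h1, h2, h3, h4⟩⟩
        · exact ⟨0, fun h => absurd h hy⟩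
      choose l hl using hch
      have h1 := card_le_fib S l (S.image l) (fun y hy => mem_image_of_mem _ hy)
        (fun n => coneC 1 * Z1 * (R ^ 3 / p.1) * (1 / (n:ℝ) ^ 2)) (by
          intro n hn
          obtain ⟨y0, hy0, rfl⟩ := mem_image.1 hn
          refine coneA' hZ1 (by positivity) (hl y0 hy0).1 hc0 _ ?_
          intro y hy
          obtain ⟨hy1, hy2⟩ := mem_filter.1 hy
          obtain ⟨b1, b2, b3, b4⟩ := hl y hy1
          rw [hy2] at b1 b2 b3 b4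
          obtain ⟨a1, a2, a3, a4, a5, _⟩ := hD _ (hS y hy1)
          exact ⟨b3, a3, a4, b4, a5⟩)
      refine h1.trans ?_
      rw [← mul_sum]
      have h2 : ∑ n ∈ S.image l, 1 / (n:ℝ) ^ 2 ≤ (2:ℝ) / (P:ℝ) := by
        refine le_trans (sum_le_sum_of_subset_of_nonneg (t := Icc P ((S.image l).sup id)) ?_
          fun _ _ _ => by positivity) (sum_inv_sq_tail hP _)
        intro n hn
        obtain ⟨y, hy, rfl⟩ := mem_image.1 hn
        exact mem_Icc.2 ⟨(hl y hy).2.1, le_sup (f := id) hn⟩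
      calc coneC 1 * Z1 * (R ^ 3 / p.1) * ∑ n ∈ S.image l, 1 / (n:ℝ) ^ 2
          ≤ coneC 1 * Z1 * (R ^ 3 / p.1) * (2 / P) := by gcongr
        _ = _ := by ring)
  refine hf.trans ?_
  rw [← mul_sum, ← mul_sum]
  have hs := sum_inv_le (u := 1) (v := A * R) le_rfl (by nlinarith)
    (D.image Prod.fst) (by
      intro c hc
      obtain ⟨p, hp, rfl⟩ := mem_image.1 hc
      obtain ⟨a1, a2, _⟩ := hD p hp
      exact ⟨by exact_mod_cast a1, a2⟩)
  rw [div_one, log_le_add hA hR] at hs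
  have hs' : ∑ c ∈ D.image Prod.fst, 1 / (c:ℝ) ≤ 1 + Real.log A + Real.log R := by linarith
  gcongr

/-- short vectors of which the quadrics have an additional divisor -/
theorem bigA2 {δ : ℝ} (hδ : 0 < δ) : ∃ K : ℝ, 0 < K ∧ ∀ R t : ℝ, 1 ≤ R → 1 ≤ t → t ≤ R →
    R ^ δ ≤ t → ∀ D : Finset CY, (∀ p ∈ D, 0 < p.1 ∧ p.2 ≠ 0 ∧ qf p.2 ≠ 0 ∧
      nrm p.2 ≤ R / t ∧ ∃ l : ℕ, 0 < l ∧ (∀ j, ((l * p.1 : ℕ):ℤ) ∣ qf p.2 j) ∧
        nrm (qf p.2) ≤ ((l * p.1 : ℕ) : ℝ) * nrm p.2) → (D.card : ℝ) ≤ K * R ^ 3 := by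
  classical
  obtain ⟨C, hC1, hC⟩ := MP_a17b09_nt.card_divisors_le δ hδ
  have hC0 : 0 < C := by linarith
  have hcE := cE_pos
  refine ⟨C * 2 ^ δ * (cE * 2), by positivity, ?_⟩
  intro R t hR ht htR hRt D hD
  have hR0 : 0 < R := by linarith
  have ht0 : 0 < t := by linarith
  have hY : 1 ≤ R / t := by rw [le_div_iff₀ ht0, one_mul]; exact htR
  -- the primitive vector
  have hch : ∀ y : Fin 4 → ℤ, ∃ x : Fin 3 → ℤ, qf y ≠ 0 → ∃ g : ℕ, 0 < g ∧ Prim x ∧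
      qf y = (g:ℤ) • x := by
    intro y
    by_cases hy : qf y = 0
    · exact ⟨0, fun h => absurd hy h⟩
    · obtain ⟨g, z, hg, hz, he⟩ := exists_prim hy
      exact ⟨z, fun _ => ⟨g, hg, hz, he⟩⟩
  choose xv hxv using hch
  have hf := card_le_fib D Prod.snd (D.image Prod.snd) (fun p hp => mem_image.2 ⟨p, hp, rfl⟩)
    (fun _ => C * (2 * R ^ 2) ^ δ) (by
      intro y hy
      obtain ⟨p, hp, rfl⟩ := mem_image.1 hy
      obtain ⟨a1, a2, a3, a4, a5⟩ := hD p hp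
      obtain ⟨j, hj⟩ : ∃ j, qf p.2 j ≠ 0 := Function.ne_iff.1 a3
      have hN : 0 < (qf p.2 j).natAbs := Int.natAbs_pos.2 hj
      have hcard : ((D.filter (fun a => a.2 = p.2)).image Prod.fst).card =
          (D.filter (fun a => a.2 = p.2)).card := by
        apply card_image_of_injOn
        intro a ha b hb hab
        have ha1 := (mem_filter.1 (mem_coe.1 ha)).2
        have hb1 := (mem_filter.1 (mem_coe.1 hb)).2
        exact Prod.ext hab (ha1.trans hb1.symm)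
      rw [← hcard]
      have h1 : ((D.filter (fun a => a.2 = p.2)).image Prod.fst).card ≤
          (qf p.2 j).natAbs.divisors.card := by
        apply card_le_card
        intro c hc
        obtain ⟨a, ha, rfl⟩ := mem_image.1 hc
        obtain ⟨ha1, ha2⟩ := mem_filter.1 ha
        obtain ⟨_, _, _, _, l, hl0, hl, _⟩ := hD a ha1
        rw [Nat.mem_divisors]
        refine ⟨?_, hN.ne'⟩
        rw [← Int.natCast_dvd_natCast]
        have h2 := hl j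
        rw [ha2] at h2
        exact (Int.natCast_dvd_natCast.2 (Dvd.intro_left l rfl)).trans ((Int.dvd_natAbs).2 h2)
      have h2 : ((qf p.2 j).natAbs : ℝ) ≤ 2 * R ^ 2 := by
        rw [Nat.cast_natAbs, Int.cast_abs]
        have h3 := abs_le_nrm (qf p.2) j
        have h4 := nrm_qf_le p.2
        have h5 : nrm p.2 ≤ R := a4.trans (div_le_self hR0.le ht)
        have h6 := nrm_nonneg p.2
        nlinarith
      calc (((D.filter (fun a => a.2 = p.2)).image Prod.fst).card : ℝ)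
          ≤ ((qf p.2 j).natAbs.divisors.card : ℝ) := by exact_mod_cast h1
        _ ≤ C * ((qf p.2 j).natAbs : ℝ) ^ δ := hC _ hN
        _ ≤ C * (2 * R ^ 2) ^ δ := by gcongr)
  rw [sum_const, nsmul_eq_mul] at hf
  have hp : ((D.image Prod.snd).card : ℝ) ≤ cE * ((1 + 1 ^ 2) * (R / t) ^ 3) := by
    have hcard : ((D.image Prod.snd).image (fun y => (xv y, y))).card = (D.image Prod.snd).card :=
      card_image_of_injective _ fun a b h => congrArg Prod.snd h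
    rw [← hcard]
    refine small_pairs hY one_pos _ ?_
    intro q hq
    obtain ⟨y, hy, rfl⟩ := mem_image.1 hq
    obtain ⟨p, hp, rfl⟩ := mem_image.1 hy
    obtain ⟨a1, a2, a3, a4, l, hl0, hl, hle⟩ := hD p hp
    obtain ⟨g, hg, hx, hgx⟩ := hxv p.2 a3
    have hi := inc_qf p.2
    have hg' : (g:ℤ) ≠ 0 := by exact_mod_cast hg.ne'
    refine ⟨hx, ?_, a2, ?_, a4⟩
    · rw [hgx] at hi
      obtain ⟨i1, i2⟩ := hi
      simp only [Pi.smul_apply, smul_eq_mul] at i1 i2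
      constructor
      · have : (g:ℤ) * (xv p.2 0 * p.2 0 + xv p.2 1 * p.2 1 + xv p.2 2 * p.2 2) = 0 := by
          linear_combination i1
        exact (mul_eq_zero.1 this).resolve_left hg'
      · have : (g:ℤ) * (xv p.2 0 * p.2 1 + xv p.2 1 * p.2 2 + xv p.2 2 * p.2 3) = 0 := by
          linear_combination i2
        exact (mul_eq_zero.1 this).resolve_left hg'
    · simp only
      -- the divisor divides the content
      have hdv : ((l * p.1 : ℕ):ℤ) ∣ (g:ℤ) := by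
        obtain ⟨b, hb⟩ := hx
        have : (g:ℤ) = ∑ i, b i * qf p.2 i := by
          rw [hgx]
          simp only [Pi.smul_apply, smul_eq_mul]
          calc (g:ℤ) = g * ∑ i, b i * xv p.2 i := by rw [hb, mul_one]
            _ = _ := by rw [mul_sum]; refine sum_congr rfl fun i _ => ?_; ring
        rw [this]
        exact Finset.dvd_sum fun i _ => (hl i).mul_left _
      have hle2 : l * p.1 ≤ g := Nat.le_of_dvd hg (Int.natCast_dvd_natCast.1 hdv)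
      have hle3 : ((l * p.1 : ℕ) : ℝ) ≤ g := by exact_mod_cast hle2
      rw [hgx, nrm_smul_int, Int.cast_natCast, abs_of_nonneg (by positivity)] at hle
      have hm : 0 < l * p.1 := Nat.mul_pos hl0 a1
      have hm' : (0:ℝ) < ((l * p.1 : ℕ) : ℝ) := by exact_mod_cast hm
      have h7 : ((l * p.1 : ℕ) : ℝ) * nrm (xv p.2) ≤ ((l * p.1 : ℕ) : ℝ) * nrm p.2 := by
        refine le_trans ?_ hle
        have := nrm_nonneg (xv p.2)
        gcongr
      rw [one_mul]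
      exact le_of_mul_le_mul_left h7 hm'
  have hpow : (2 * R ^ 2) ^ δ = 2 ^ δ * (R ^ δ) ^ 2 := by
    rw [Real.mul_rpow (by norm_num) (by positivity), ← Real.rpow_natCast R 2,
      ← Real.rpow_mul hR0.le, ← Real.rpow_natCast (R ^ δ) 2, ← Real.rpow_mul hR0.le, mul_comm (δ)]
  have hR3 : 0 ≤ R ^ 3 := by positivity
  calc (D.card : ℝ) ≤ _ := hf
    _ ≤ (cE * ((1 + 1 ^ 2) * (R / t) ^ 3)) * (C * (2 * R ^ 2) ^ δ) := by gcongr
    _ = (cE * ((1 + 1 ^ 2) * (R / t) ^ 3)) * (C * (2 ^ δ * (R ^ δ) ^ 2)) := by rw [hpow]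
    _ ≤ (cE * ((1 + 1 ^ 2) * (R / t) ^ 3)) * (C * (2 ^ δ * t ^ 2)) := by
        have : 0 ≤ R ^ δ := by positivity
        gcongr
    _ = C * 2 ^ δ * (cE * 2) * R ^ 3 * (1 / t) := by field_simp; ring
    _ ≤ C * 2 ^ δ * (cE * 2) * R ^ 3 * 1 := by
        have : 1 / t ≤ 1 := by rw [div_le_one ht0]; exact ht
        gcongr
    _ = _ := by ring

/-- the pairs with an additional large prime -/
theorem bigA {Z1 : ℝ} (hZ1 : 0 < Z1) : ∃ C : ℝ, 0 < C ∧ ∀ A : ℝ, 1 ≤ A → ∀ δ : ℝ, 0 < δ →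
    δ ≤ 1 / 4 → ∃ K : ℝ, 0 < K ∧ ∀ P : ℕ, 0 < P → ∀ R : ℝ, 1 ≤ R → ∀ D : Finset CY,
    (∀ p ∈ D, 0 < p.1 ∧ (p.1:ℝ) ≤ A * R ∧ (∀ j, (p.1:ℤ) ∣ qf p.2 j) ∧ PrimMod p.1 p.2 ∧
      p.2 ≠ 0 ∧ R * p.1 < nrm (qf p.2) ∧ nrm (qf p.2) * nrm p.2 ^ 2 ≤ Z1 * p.1 * R ^ 3 ∧
      ∃ l : ℕ, l.Prime ∧ P ≤ l ∧ (∀ j, ((l * p.1 : ℕ):ℤ) ∣ qf p.2 j)) →
    (D.card : ℝ) ≤ C * (1 / P + δ) * (R ^ 3 * (1 + Real.log R)) + K * R ^ 3 := by
  classical
  have hC1 := coneC_pos (zero_le_one (α := ℝ))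
  have hC3 := coneC_pos (Real.sqrt_nonneg Z1)
  refine ⟨coneC 1 * Z1 * 2 + 4 * (coneC (√Z1) * Z1), by positivity, ?_⟩
  intro A hA δ hδ hδ4
  obtain ⟨K2, hK2, h2⟩ := bigA2 hδ
  have hlA : 0 ≤ Real.log A := Real.log_nonneg hA
  refine ⟨coneC 1 * Z1 * 2 * Real.log A + coneC (√Z1) * Z1 * (1 + Real.log A) +
    coneC (√Z1) * Z1 ^ 2 + K2, by positivity, ?_⟩
  intro P hP R hR D hD
  have hR0 : 0 < R := by linarith
  have hP' : (1:ℝ) ≤ P := by exact_mod_cast hP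
  have hP0 : (0:ℝ) < P := by linarith
  have hL : 0 ≤ Real.log R := Real.log_nonneg hR
  set t := R ^ δ with ht
  have ht1 : 1 ≤ t := Real.one_le_rpow hR hδ.le
  have ht0 : 0 < t := by linarith
  have ht4 : t ^ 4 ≤ R := by
    rw [ht, ← Real.rpow_natCast, ← Real.rpow_mul hR0.le]
    calc R ^ (δ * ((4:ℕ):ℝ)) ≤ R ^ (1:ℝ) := by
          apply Real.rpow_le_rpow_of_exponent_le hR
          push_cast; linarith
      _ = R := Real.rpow_one R
  have htR : t ≤ R := by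
    calc t = R ^ δ := rfl
      _ ≤ R ^ (1:ℝ) := Real.rpow_le_rpow_of_exponent_le hR (by linarith)
      _ = R := Real.rpow_one R
  have hlt : Real.log t = δ * Real.log R := by rw [ht, Real.log_rpow hR0]
  have s1 := card_filter_add_card_filter_not (s := D) (fun p => R / t ≤ nrm p.2)
  have s2 := card_filter_add_card_filter_not (s := D.filter (fun p => ¬ R / t ≤ nrm p.2))
    (fun p => ∃ l : ℕ, l.Prime ∧ P ≤ l ∧ (∀ j, ((l * p.1 : ℕ):ℤ) ∣ qf p.2 j) ∧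
        ((l * p.1 : ℕ) : ℝ) * nrm p.2 < nrm (qf p.2))
  have c3 := bigA3 hZ1 hA hR ht1 ht4 (D.filter (fun p => R / t ≤ nrm p.2)) (by
    intro p hp
    obtain ⟨hp1, hp2⟩ := mem_filter.1 hp
    obtain ⟨a1, a2, a3, a4, a5, a6, a7, _⟩ := hD p hp1
    exact ⟨a1, a2, a3, a4, a5, a6, a7, hp2⟩)
  have c1 := bigA1 hZ1 hA hR hP ((D.filter (fun p => ¬ R / t ≤ nrm p.2)).filter
    (fun p => ∃ l : ℕ, l.Prime ∧ P ≤ l ∧ (∀ j, ((l * p.1 : ℕ):ℤ) ∣ qf p.2 j) ∧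
        ((l * p.1 : ℕ) : ℝ) * nrm p.2 < nrm (qf p.2))) (by
    intro p hp
    obtain ⟨hp1, hp2⟩ := mem_filter.1 hp
    obtain ⟨hp3, hp4⟩ := mem_filter.1 hp1
    obtain ⟨a1, a2, a3, a4, a5, a6, a7, _⟩ := hD p hp3
    exact ⟨a1, a2, a4, a5, a7, hp2⟩)
  have c2 := h2 R t hR ht1 htR le_rfl ((D.filter (fun p => ¬ R / t ≤ nrm p.2)).filter
    (fun p => ¬ ∃ l : ℕ, l.Prime ∧ P ≤ l ∧ (∀ j, ((l * p.1 : ℕ):ℤ) ∣ qf p.2 j) ∧
        ((l * p.1 : ℕ) : ℝ) * nrm p.2 < nrm (qf p.2))) (by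
    intro p hp
    obtain ⟨hp1, hp2⟩ := mem_filter.1 hp
    obtain ⟨hp3, hp4⟩ := mem_filter.1 hp1
    obtain ⟨a1, a2, a3, a4, a5, a6, a7, l, l1, l2, l3⟩ := hD p hp3
    push Not at hp2 hp4
    refine ⟨a1, a5, ?_, hp4.le, l, l1.pos, l3, hp2 l l1 l2 l3⟩
    intro h0
    rw [h0] at a6
    have h1 : nrm (0 : Fin 3 → ℤ) = 0 := by
      have := nrm_smul_int (0:ℤ) (0 : Fin 3 → ℤ)
      simpa using this
    rw [h1] at a6
    have : (0:ℝ) ≤ R * p.1 := by positivity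
    linarith)
  rw [hlt] at c3
  have s1' : ((D.filter (fun p => R / t ≤ nrm p.2)).card : ℝ) +
      ((D.filter (fun p => ¬ R / t ≤ nrm p.2)).card : ℝ) = D.card := by exact_mod_cast s1
  have s2' : (((D.filter (fun p => ¬ R / t ≤ nrm p.2)).filter
    (fun p => ∃ l : ℕ, l.Prime ∧ P ≤ l ∧ (∀ j, ((l * p.1 : ℕ):ℤ) ∣ qf p.2 j) ∧
        ((l * p.1 : ℕ) : ℝ) * nrm p.2 < nrm (qf p.2))).card : ℝ) +
      (((D.filter (fun p => ¬ R / t ≤ nrm p.2)).filter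
    (fun p => ¬ ∃ l : ℕ, l.Prime ∧ P ≤ l ∧ (∀ j, ((l * p.1 : ℕ):ℤ) ∣ qf p.2 j) ∧
        ((l * p.1 : ℕ) : ℝ) * nrm p.2 < nrm (qf p.2))).card : ℝ) =
      ((D.filter (fun p => ¬ R / t ≤ nrm p.2)).card : ℝ) := by exact_mod_cast s2
  have hR3 : 0 ≤ R ^ 3 := by positivity
  have e1 : coneC 1 * Z1 * 2 / P * (R ^ 3 * (1 + Real.log A + Real.log R)) ≤
      coneC 1 * Z1 * 2 * (1 / P) * (R ^ 3 * (1 + Real.log R)) +
        coneC 1 * Z1 * 2 * Real.log A * R ^ 3 := by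
    have : coneC 1 * Z1 * 2 / P * (R ^ 3 * (1 + Real.log A + Real.log R)) =
      coneC 1 * Z1 * 2 * (1 / P) * (R ^ 3 * (1 + Real.log R)) +
        coneC 1 * Z1 * 2 * Real.log A * R ^ 3 * (1 / P) := by ring
    rw [this]
    have h1 : 1 / (P:ℝ) ≤ 1 := by rw [div_le_one hP0]; exact hP'
    have h2 : 0 ≤ coneC 1 * Z1 * 2 * Real.log A * R ^ 3 := by positivity
    nlinarith
  have e3 : coneC (√Z1) * Z1 * (R ^ 3 * (1 + Real.log A + 4 * (δ * Real.log R))) ≤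
      4 * (coneC (√Z1) * Z1) * δ * (R ^ 3 * (1 + Real.log R)) +
        coneC (√Z1) * Z1 * (1 + Real.log A) * R ^ 3 := by
    have h2 : 0 ≤ 4 * (coneC (√Z1) * Z1) * δ * R ^ 3 := by positivity
    nlinarith
  have e4 : 0 ≤ coneC 1 * Z1 * 2 * δ * (R ^ 3 * (1 + Real.log R)) := by positivity
  have e5 : 0 ≤ 4 * (coneC (√Z1) * Z1) * (1 / P) * (R ^ 3 * (1 + Real.log R)) := by positivity
  nlinarith

end Pool.Agent.Lib.MP_1acd66_nt.Tw
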