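import Pool.Agent.Lib.MP_1acd66_nt.Tw.Real

/-!
The number of integral vectors in a residue class in a sublevel set of a homogeneous function.
-/

namespace Pool.Agent.Lib.MP_1acd66_nt.Tw

open MeasureTheory Metric Set

variable {n : ℕ}

/-- the real points congruent to `y0` modulo `m` -/
def latv (m : ℕ) (y0 : Fin n → ℤ) : Set (Fin n → ℝ) :=
  {y | ∃ z : Fin n → ℤ, ∀ i, y i = (y0 i : ℝ) + m * (z i : ℝ)}

/-- the tile -/
def tilev (n m : ℕ) : Set (Fin n → ℝ) := Set.pi Set.univ (fun _ => Set.Ico (0:ℝ) m)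

theorem mem_tilev {m : ℕ} {y : Fin n → ℝ} : y ∈ tilev n m ↔ ∀ i, 0 ≤ y i ∧ y i < m := by
  simp only [tilev, Set.mem_pi, Set.mem_univ, true_implies, Set.mem_Ico]

theorem tiling_latv {m : ℕ} (hm : 0 < m) (y0 : Fin n → ℤ) :
    Tiling (volume : Measure (Fin n → ℝ)) (latv m y0) (tilev n m) ((m:ℝ) ^ n) m where
  meas := MeasurableSet.univ_pi fun _ => measurableSet_Ico
  vol := by
    rw [tilev, volume_pi_pi]
    simp only [Real.volume_Ico, sub_zero, Finset.prod_const, Finset.card_univ, Fintype.card_fin]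
    rw [ENNReal.ofReal_pow (by positivity)]
  vpos := by positivity
  rpos := by exact_mod_cast hm
  bdd := by
    intro x hx
    rw [mem_tilev] at hx
    rw [pi_norm_le_iff_of_nonneg (by positivity)]
    intro i
    rw [Real.norm_eq_abs, abs_of_nonneg (hx i).1]
    exact (hx i).2.le
  cover := by
    intro y
    have hm' : (0:ℝ) < m := by exact_mod_cast hm
    refine ⟨fun i => (y0 i : ℝ) + m * ((⌊(y i - y0 i) / m⌋ : ℤ) : ℝ),
      ⟨fun i => ⌊(y i - y0 i) / m⌋, fun i => rfl⟩, ?_⟩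
    rw [mem_tilev]
    intro i
    have h1 := Int.floor_le ((y i - y0 i) / m)
    have h2 := Int.lt_floor_add_one ((y i - y0 i) / m)
    rw [le_div_iff₀ hm'] at h1
    rw [div_lt_iff₀ hm'] at h2
    simp only [Pi.sub_apply]
    constructor
    · linarith
    · linarith
  disj := by
    rintro x ⟨z, hz⟩ x' ⟨z', hz'⟩ y hy hy'
    rw [mem_tilev] at hy hy'
    funext i
    have hm' : (0:ℝ) < m := by exact_mod_cast hm
    have h1 := hy i
    have h2 := hy' i
    simp only [Pi.sub_apply] at h1 h2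
    have e1 := hz i
    have e2 := hz' i
    have e3 : (m:ℝ) * ((z i : ℝ) - z' i) = x i - x' i := by rw [e1, e2]; ring
    have h3 : (m:ℝ) * (((z i - z' i : ℤ)) : ℝ) < m * 1 := by
      push_cast
      rw [e3]; linarith [h1.1, h1.2, h2.1, h2.2]
    have h4 : (m:ℝ) * (-1) < (m:ℝ) * (((z i - z' i : ℤ)) : ℝ) := by
      push_cast
      rw [e3]; linarith [h1.1, h1.2, h2.1, h2.2]
    have h5 := lt_of_mul_lt_mul_left h3 hm'.le
    have h6 := lt_of_mul_lt_mul_left h4 hm'.le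
    have h7 : z i - z' i < 1 := by exact_mod_cast h5
    have h8 : -1 < z i - z' i := by exact_mod_cast h6
    have h9 : z i = z' i := by omega
    rw [hz i, hz' i, h9]

theorem mem_latv_castv {m : ℕ} {y y0 : Fin n → ℤ} :
    castv y ∈ latv m y0 ↔ ∀ i, (m : ℤ) ∣ y i - y0 i := by
  constructor
  · rintro ⟨z, hz⟩ i
    refine ⟨z i, ?_⟩
    have h1 := hz i
    simp only [castv] at h1
    have h2 : ((y i - y0 i : ℤ) : ℝ) = ((m * z i : ℤ) : ℝ) := by
      push_cast; linarith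
    exact_mod_cast h2
  · intro h
    choose z hz using h
    refine ⟨z, fun i => ?_⟩
    simp only [castv]
    have h2 : ((y i - y0 i : ℤ) : ℝ) = ((m * z i : ℤ) : ℝ) := by rw [hz i]
    push_cast at h2
    linarith

/-- integral vectors in a residue class and a sublevel set -/
def clsSet (F : (Fin n → ℝ) → ℝ) (m : ℕ) (y0 : Fin n → ℤ) (Y : ℝ) : Set (Fin n → ℤ) :=
  {y | y ≠ 0 ∧ (∀ i, (m : ℤ) ∣ y i - y0 i) ∧ F (castv y) ≤ Y}

theorem image_clsSet (F : (Fin n → ℝ) → ℝ) (m : ℕ) (y0 : Fin n → ℤ) (Y : ℝ) :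
    castv '' (clsSet F m y0 Y) = latv m y0 ∩ sub F Y := by
  ext y
  constructor
  · rintro ⟨z, ⟨h1, h2, h3⟩, rfl⟩
    exact ⟨mem_latv_castv.2 h2, castv_ne_zero h1, h3⟩
  · rintro ⟨hy, hy0, hFy⟩
    obtain ⟨z, hz⟩ := hy
    have e : castv (fun i => y0 i + m * z i) = y := by
      funext i
      simp only [castv, hz i]
      push_cast; rfl
    refine ⟨fun i => y0 i + m * z i, ⟨?_, ?_, ?_⟩, e⟩
    · intro h0
      apply hy0
      rw [← e, h0]
      funext i
      simp [castv]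
    · intro i
      exact ⟨z i, by ring⟩
    · rw [e]; exact hFy

theorem class_count (hn : 0 < n) {F : (Fin n → ℝ) → ℝ}
    (hhom : ∀ x, x ≠ 0 → ∀ s : ℝ, 0 < s → F (s • x) = s ^ n * F x) {c : ℝ}
    (hc : 0 < c) (hFc : ∀ x, x ≠ 0 → c * ‖x‖ ^ n ≤ F x) {ε δ : ℝ} (hε : 0 < ε) (hε1 : ε ≤ 1)
    (hδ : 0 < δ)
    (hmod : ∀ x y, x ≠ 0 → ‖y - x‖ ≤ δ * ‖x‖ → y ≠ 0 ∧ F y ≤ (1 + ε) * F x ∧ F x ≤ (1 + ε) * F y)
    {Vm : ℝ} (hV : (volume : Measure (Fin n → ℝ)).real (sub F 1) ≤ Vm)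
    {m : ℕ} (hm : 0 < m) (y0 : Fin n → ℤ) {Y : ℝ} (hY : 0 < Y) :
    (clsSet F m y0 Y).Finite ∧
    |((clsSet F m y0 Y).ncard : ℝ) -
      (volume : Measure (Fin n → ℝ)).real (sub F 1) * (Y / (m:ℝ) ^ n)| ≤
      2 * ε * Vm * (Y / (m:ℝ) ^ n) + 3 * (2 * (1 / δ + 1)) ^ n := by
  have hm' : (0:ℝ) < m := by exact_mod_cast hm
  have hfin : (clsSet F m y0 Y).Finite := by
    have h1 := (tiling_latv hm y0).finite_sub F hn hc hFc Y
    rw [← image_clsSet] at h1
    exact h1.of_finite_image castv_injective.injOn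
  refine ⟨hfin, ?_⟩
  obtain ⟨h1, h2⟩ := (tiling_latv hm y0).count F (D := n) (by simp) hn hhom hc hFc hε hδ hmod hY
  have hcard : (latv m y0 ∩ sub F Y).ncard = (clsSet F m y0 Y).ncard := by
    rw [← image_clsSet, Set.ncard_image_of_injective _ castv_injective]
  rw [hcard] at h1 h2
  set N : ℝ := ((clsSet F m y0 Y).ncard : ℝ) with hN
  set V := (volume : Measure (Fin n → ℝ)).real (sub F 1) with hVdef
  have hV0 : 0 ≤ V := measureReal_nonneg
  have hball : (volume : Measure (Fin n → ℝ)).real (closedBall 0 ((m:ℝ) / δ + m)) =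
      (m:ℝ) ^ n * (2 * (1 / δ + 1)) ^ n := by
    rw [Measure.real, Real.volume_pi_closedBall _ (by positivity), ENNReal.toReal_ofReal (by positivity),
      Fintype.card_fin, ← mul_pow]
    congr 1
    field_simp
  rw [hball] at h1 h2
  set K := (2 * (1 / δ + 1)) ^ n with hK
  have hKp : 0 ≤ K := by positivity
  have hmn : 0 < (m:ℝ) ^ n := by positivity
  have hN0 : 0 ≤ N := Nat.cast_nonneg _
  -- divide by m ^ n
  set y := Y / (m:ℝ) ^ n with hy
  have hy0 : 0 < y := by positivity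
  have hYy : Y = (m:ℝ) ^ n * y := by rw [hy]; field_simp
  rw [hYy] at h1 h2
  have g1 : N ≤ (1 + ε) * (y * V) + K := by
    have : (m:ℝ) ^ n * N ≤ (m:ℝ) ^ n * ((1 + ε) * (y * V) + K) := by linarith
    exact le_of_mul_le_mul_left this hmn
  have g2 : y * V ≤ (1 + ε) * (N + K) := by
    have : (m:ℝ) ^ n * (y * V) ≤ (m:ℝ) ^ n * ((1 + ε) * (N + K)) := by linarith
    exact le_of_mul_le_mul_left this hmn
  have hyV : y * V ≤ y * Vm := mul_le_mul_of_nonneg_left hV hy0.le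
  have hyV0 : 0 ≤ y * V := by positivity
  rw [abs_le]
  constructor
  · have h3 : y * V - N ≤ ε * N + (1 + ε) * K := by linarith
    have h4 : ε * N ≤ ε * ((1 + ε) * (y * V) + K) := mul_le_mul_of_nonneg_left g1 hε.le
    have h5 : ε * ((1 + ε) * (y * V)) ≤ ε * (2 * (y * Vm)) := by
      apply mul_le_mul_of_nonneg_left _ hε.le
      nlinarith
    have h6 : ε * K ≤ K := by nlinarith
    nlinarith
  · have h3 : N - y * V ≤ ε * (y * V) + K := by linarith
    have h4 : ε * (y * V) ≤ ε * (y * Vm) := mul_le_mul_of_nonneg_left hyV hε.le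
    have h5 : 0 ≤ ε * (y * Vm) := by
      have : 0 ≤ y * Vm := hyV0.trans hyV
      positivity
    linarith

end Pool.Agent.Lib.MP_1acd66_nt.Tw
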