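import Mathlib

/-!
The sum of the inverses of the integers coprime to a given one.
-/

namespace Pool.Agent.Lib.MP_1acd66_nt.Tw

open Finset

theorem count_cop {q : ℕ} (hq : 0 < q) (N : ℕ) :
    |(((Icc 1 N).filter (fun n => q.Coprime n)).card : ℝ) - (q.totient : ℝ) / q * N| ≤ q := by
  have hq' : (0:ℝ) < q := by exact_mod_cast hq
  have ht1 : (q.totient : ℝ) / q ≤ 1 := by
    rw [div_le_one hq']; exact_mod_cast Nat.totient_le q
  have ht0 : 0 ≤ (q.totient : ℝ) / q := by positivity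
  induction N using Nat.strong_induction_on with
  | _ N ih =>
    by_cases h : N < q
    · have h1 : ((Icc 1 N).filter (fun n => q.Coprime n)).card ≤ N := by
        refine (card_filter_le _ _).trans ?_
        rw [Nat.card_Icc]; omega
      have h1' : (((Icc 1 N).filter (fun n => q.Coprime n)).card : ℝ) ≤ N := by exact_mod_cast h1
      have h2 : (N:ℝ) ≤ q := by exact_mod_cast h.le
      have h3 : (0:ℝ) ≤ N := by positivity
      have h4 : (q.totient : ℝ) / q * N ≤ N := by nlinarith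
      have h5 : 0 ≤ (q.totient : ℝ) / q * N := by positivity
      have h6 : (0:ℝ) ≤ ((Icc 1 N).filter (fun n => q.Coprime n)).card := by positivity
      rw [abs_le]; constructor <;> linarith
    · push Not at h
      obtain ⟨M, rfl⟩ : ∃ M, N = M + q := ⟨N - q, by omega⟩
      have h1 := ih M (by omega)
      have h2 : ((Icc 1 (M + q)).filter (fun n => q.Coprime n)).card =
          ((Icc 1 M).filter (fun n => q.Coprime n)).card + q.totient := by
        have e : Icc 1 (M + q) = Icc 1 M ∪ Ico (M + 1) (M + 1 + q) := by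
          ext n; simp only [mem_Icc, mem_union, mem_Ico]; omega
        rw [e, filter_union, card_union_of_disjoint, Nat.filter_coprime_Ico_eq_totient]
        rw [disjoint_left]
        intro n hn hn'
        simp only [mem_filter, mem_Icc, mem_Ico] at hn hn'
        omega
      rw [h2]
      push_cast
      have h3 : (q.totient : ℝ) / q * (M + q) = (q.totient : ℝ) / q * M + q.totient := by
        field_simp
      rw [h3]
      have h4 : (((Icc 1 M).filter (fun n => q.Coprime n)).card : ℝ) + q.totient -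
          ((q.totient : ℝ) / q * M + q.totient) =
          (((Icc 1 M).filter (fun n => q.Coprime n)).card : ℝ) - (q.totient : ℝ) / q * M := by ring
      rw [h4]
      exact h1

theorem abel_inv (a : ℕ → ℝ) {S : ℝ} (hS : ∀ N, |∑ n ∈ Icc 1 N, a n| ≤ S) (k : ℕ) :
    |∑ n ∈ Icc 1 (k + 1), a n * (1 / (n:ℝ)) - (∑ n ∈ Icc 1 (k + 1), a n) / ((k + 1 : ℕ) : ℝ)| ≤
      S * (1 - 1 / ((k + 1 : ℕ) : ℝ)) := by
  induction k with
  | zero => simp
  | succ k ih =>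
    have u1 : ∑ n ∈ Icc 1 (k + 1 + 1), a n * (1 / (n:ℝ)) = ∑ n ∈ Icc 1 (k + 1), a n * (1 / (n:ℝ)) +
        a (k + 1 + 1) * (1 / ((k + 1 + 1 : ℕ) : ℝ)) := sum_Icc_succ_top (by omega) _
    have u2 : ∑ n ∈ Icc 1 (k + 1 + 1), a n = ∑ n ∈ Icc 1 (k + 1), a n + a (k + 1 + 1) :=
      sum_Icc_succ_top (by omega) _
    rw [u1, u2]
    set X := ∑ n ∈ Icc 1 (k + 1), a n * (1 / (n:ℝ)) with hX
    set Y := ∑ n ∈ Icc 1 (k + 1), a n with hY
    have hk : (0:ℝ) < ((k + 1 : ℕ) : ℝ) := by positivity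
    have hk2 : (0:ℝ) < ((k + 1 + 1 : ℕ) : ℝ) := by positivity
    have e : X + a (k + 1 + 1) * (1 / ((k + 1 + 1 : ℕ) : ℝ)) -
        (Y + a (k + 1 + 1)) / ((k + 1 + 1 : ℕ) : ℝ) = (X - Y / ((k + 1 : ℕ) : ℝ)) +
          Y * (1 / ((k + 1 : ℕ) : ℝ) - 1 / ((k + 1 + 1 : ℕ) : ℝ)) := by ring
    rw [e]
    have hd : 0 ≤ 1 / ((k + 1 : ℕ) : ℝ) - 1 / ((k + 1 + 1 : ℕ) : ℝ) := by
      rw [sub_nonneg]
      apply one_div_le_one_div_of_le hk
      push_cast; linarith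
    refine (abs_add_le _ _).trans ?_
    rw [abs_mul, abs_of_nonneg hd]
    have h1 := mul_le_mul_of_nonneg_right (hS (k + 1)) hd
    nlinarith

theorem cop_sum {q : ℕ} (hq : 0 < q) {R : ℝ} (hR : 1 ≤ R) :
    |∑ n ∈ (Icc 1 ⌊R⌋₊).filter (fun n => q.Coprime n), 1 / (n:ℝ) -
      (q.totient : ℝ) / q * Real.log R| ≤ 2 * q + 1 := by
  have hq' : (0:ℝ) < q := by exact_mod_cast hq
  have ht1 : (q.totient : ℝ) / q ≤ 1 := by
    rw [div_le_one hq']; exact_mod_cast Nat.totient_le q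
  have ht0 : 0 ≤ (q.totient : ℝ) / q := by positivity
  set ρ := (q.totient : ℝ) / q with hρ
  set a : ℕ → ℝ := fun n => (if q.Coprime n then 1 else 0) - ρ with ha
  have hA : ∀ N, |∑ n ∈ Icc 1 N, a n| ≤ q := by
    intro N
    have h1 : ∑ n ∈ Icc 1 N, a n = (((Icc 1 N).filter (fun n => q.Coprime n)).card : ℝ) - ρ * N := by
      rw [ha, sum_sub_distrib, sum_const, Nat.card_Icc, Nat.add_sub_cancel, nsmul_eq_mul,
        sum_ite, sum_const_zero, add_zero, sum_const, nsmul_eq_mul, mul_one, mul_comm (N:ℝ)]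
    rw [h1]
    exact count_cop hq N
  obtain ⟨k, hk⟩ : ∃ k, ⌊R⌋₊ = k + 1 := ⟨⌊R⌋₊ - 1, by
    have : 1 ≤ ⌊R⌋₊ := Nat.le_floor (by exact_mod_cast hR)
    omega⟩
  have h1 := abel_inv a hA k
  have h2 := hA (k + 1)
  have hk1 : (1:ℝ) ≤ ((k + 1 : ℕ) : ℝ) := by push_cast; linarith [(Nat.cast_nonneg k : (0:ℝ) ≤ k)]
  have h3 : |(∑ n ∈ Icc 1 (k + 1), a n) / ((k + 1 : ℕ) : ℝ)| ≤ q * (1 / ((k + 1 : ℕ) : ℝ)) := by
    rw [abs_div, abs_of_pos (show (0:ℝ) < ((k + 1 : ℕ) : ℝ) by linarith), div_eq_mul_one_div]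
    have : 0 ≤ 1 / ((k + 1 : ℕ) : ℝ) := by positivity
    gcongr
  have h4 : |∑ n ∈ Icc 1 (k + 1), a n * (1 / (n:ℝ))| ≤ q := by
    have : ∑ n ∈ Icc 1 (k + 1), a n * (1 / (n:ℝ)) = (∑ n ∈ Icc 1 (k + 1), a n * (1 / (n:ℝ)) -
        (∑ n ∈ Icc 1 (k + 1), a n) / ((k + 1 : ℕ) : ℝ)) +
        (∑ n ∈ Icc 1 (k + 1), a n) / ((k + 1 : ℕ) : ℝ) := by ring
    rw [this]
    refine (abs_add_le _ _).trans ?_
    nlinarith
  have h5 : ∑ n ∈ Icc 1 (k + 1), a n * (1 / (n:ℝ)) =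
      ∑ n ∈ (Icc 1 ⌊R⌋₊).filter (fun n => q.Coprime n), 1 / (n:ℝ) -
        ρ * ∑ n ∈ Icc 1 (k + 1), 1 / (n:ℝ) := by
    rw [hk, sum_filter, mul_sum, ← sum_sub_distrib]
    refine sum_congr rfl fun n _ => ?_
    simp only [ha]
    by_cases h : q.Coprime n
    · rw [if_pos h, if_pos h]; ring
    · rw [if_neg h, if_neg h]; ring
  have hH : ∑ n ∈ Icc 1 (k + 1), 1 / (n:ℝ) = ((harmonic ⌊R⌋₊ : ℚ) : ℝ) := by
    rw [hk, harmonic_eq_sum_Icc]
    push_cast
    refine sum_congr rfl fun n _ => one_div _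
  have h6 := harmonic_floor_le_one_add_log R hR
  have h7 := log_le_harmonic_floor R (by linarith)
  rw [h5, hH] at h4
  have h8 : |ρ * ((harmonic ⌊R⌋₊ : ℚ) : ℝ) - ρ * Real.log R| ≤ 1 := by
    rw [← mul_sub, abs_mul, abs_of_nonneg ht0, abs_of_nonneg (by linarith)]
    nlinarith
  have h9 : ∑ n ∈ (Icc 1 ⌊R⌋₊).filter (fun n => q.Coprime n), 1 / (n:ℝ) - ρ * Real.log R =
      (∑ n ∈ (Icc 1 ⌊R⌋₊).filter (fun n => q.Coprime n), 1 / (n:ℝ) -
        ρ * ((harmonic ⌊R⌋₊ : ℚ) : ℝ)) + (ρ * ((harmonic ⌊R⌋₊ : ℚ) : ℝ) - ρ * Real.log R) := by ring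
  rw [h9]
  refine (abs_add_le _ _).trans ?_
  linarith

end Pool.Agent.Lib.MP_1acd66_nt.Tw
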