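import Pool.Agent.Lib.MP_1acd66_nt.Tw.BigA
import Pool.Agent.Lib.MP_1acd66_nt.Tw.CopSum

/-!
Residue classes for the vectors with given content.
-/

namespace Pool.Agent.Lib.MP_1acd66_nt.Tw

open Finset

/-- the content of an integral vector -/
def ctn (x : Fin 3 → ℤ) : ℕ := Nat.gcd (x 0).natAbs (Nat.gcd (x 1).natAbs (x 2).natAbs)

theorem dvd_ctn {x : Fin 3 → ℤ} {n : ℕ} : n ∣ ctn x ↔ ∀ j, (n:ℤ) ∣ x j := by
  unfold ctn
  rw [Nat.dvd_gcd_iff, Nat.dvd_gcd_iff, ← Int.natCast_dvd_natCast, ← Int.natCast_dvd_natCast,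
    ← Int.natCast_dvd_natCast, Int.dvd_natAbs, Int.dvd_natAbs, Int.dvd_natAbs]
  constructor
  · rintro ⟨h0, h1, h2⟩ j
    fin_cases j
    · exact h0
    · exact h1
    · exact h2
  · intro h
    exact ⟨h 0, h 1, h 2⟩

/-- the part of the content of the quadrics seen modulo `Q` -/
def gq (Q : ℕ) (y : Fin 4 → ℤ) : ℕ := Nat.gcd Q (ctn (qf y))

theorem dvd_gq {Q n : ℕ} {y : Fin 4 → ℤ} : n ∣ gq Q y ↔ n ∣ Q ∧ ∀ j, (n:ℤ) ∣ qf y j := by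
  unfold gq
  rw [Nat.dvd_gcd_iff, dvd_ctn]

theorem gq_dvd (Q : ℕ) (y : Fin 4 → ℤ) : gq Q y ∣ Q := Nat.gcd_dvd_left _ _

theorem gq_dvd_qf (Q : ℕ) (y : Fin 4 → ℤ) (j : Fin 3) : ((gq Q y : ℕ) : ℤ) ∣ qf y j :=
  (dvd_gq.1 dvd_rfl).2 j

theorem gq_pos {Q : ℕ} (hQ : 0 < Q) (y : Fin 4 → ℤ) : 0 < gq Q y :=
  Nat.gcd_pos_of_pos_left _ hQ

theorem gq_congr {Q : ℕ} {y y' : Fin 4 → ℤ} (h : Cg Q y y') : gq Q y = gq Q y' := by
  apply Nat.dvd_antisymm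
  · rw [dvd_gq]
    exact ⟨gq_dvd Q y, dvd_qf_congr (h.of_dvd (gq_dvd Q y)) (gq_dvd_qf Q y)⟩
  · rw [dvd_gq]
    exact ⟨gq_dvd Q y', dvd_qf_congr (h.symm.of_dvd (gq_dvd Q y')) (gq_dvd_qf Q y')⟩

/-- the quadrics are compatible with congruences -/
theorem qf_cg {m : ℕ} {y y' : Fin 4 → ℤ} (hy : Cg m y y') : Cg m (qf y) (qf y') := by
  obtain ⟨a, ha⟩ := hy 0
  obtain ⟨b, hb⟩ := hy 1
  obtain ⟨c, hc⟩ := hy 2
  obtain ⟨d, hd⟩ := hy 3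
  have e0 : y' 0 = y 0 - m * a := by linarith
  have e1 : y' 1 = y 1 - m * b := by linarith
  have e2 : y' 2 = y 2 - m * c := by linarith
  have e3 : y' 3 = y 3 - m * d := by linarith
  intro j
  fin_cases j
  · change (m:ℤ) ∣ (y 1 * y 3 - y 2 ^ 2) - (y' 1 * y' 3 - y' 2 ^ 2)
    rw [e1, e2, e3]
    exact ⟨y 1 * d + y 3 * b - m * b * d - 2 * y 2 * c + m * c ^ 2, by ring⟩
  · change (m:ℤ) ∣ (y 1 * y 2 - y 0 * y 3) - (y' 1 * y' 2 - y' 0 * y' 3)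
    rw [e0, e1, e2, e3]
    exact ⟨y 1 * c + y 2 * b - m * b * c - y 0 * d - y 3 * a + m * a * d, by ring⟩
  · change (m:ℤ) ∣ (y 0 * y 2 - y 1 ^ 2) - (y' 0 * y' 2 - y' 1 ^ 2)
    rw [e0, e1, e2]
    exact ⟨y 0 * c + y 2 * a - m * a * c - 2 * y 1 * b + m * b ^ 2, by ring⟩

/-- the quadrics without their content at the small primes -/
def wv (Q : ℕ) (y : Fin 4 → ℤ) : Fin 3 → ℤ := fun j => qf y j / (gq Q y : ℕ)

theorem gq_smul_wv {Q : ℕ} (_hQ : 0 < Q) (y : Fin 4 → ℤ) : qf y = ((gq Q y : ℕ):ℤ) • wv Q y := by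
  funext j
  simp only [wv, Pi.smul_apply, smul_eq_mul]
  exact (Int.mul_ediv_cancel' (gq_dvd_qf Q y j)).symm

theorem wv_congr {q Q : ℕ} (hQ : 0 < Q) {y y' : Fin 4 → ℤ} (h : Cg Q y y')
    (hq : gq Q y * q ∣ Q) : Cg q (wv Q y) (wv Q y') := by
  intro j
  have h1 := qf_cg h j
  have e1 := congrFun (gq_smul_wv hQ y) j
  have e2 := congrFun (gq_smul_wv hQ y') j
  rw [← gq_congr h] at e2
  simp only [Pi.smul_apply, smul_eq_mul] at e1 e2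
  rw [e1, e2, ← mul_sub] at h1
  have h2 : ((gq Q y : ℕ):ℤ) * (q:ℤ) ∣ ((gq Q y : ℕ):ℤ) * (wv Q y j - wv Q y' j) := by
    refine dvd_trans ?_ h1
    exact_mod_cast hq
  have h3 : ((gq Q y : ℕ):ℤ) ≠ 0 := by exact_mod_cast (gq_pos hQ y).ne'
  exact (mul_dvd_mul_iff_left h3).1 h2

/-- good residue classes -/
noncomputable def EQ (q Q : ℕ) : Finset (Fin 4 → ℤ) := by
  classical
  exact (BQ Q 4).filter fun η => PM q η ∧ gq Q η * q ∣ Q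

theorem mem_EQ {q Q : ℕ} {η : Fin 4 → ℤ} :
    η ∈ EQ q Q ↔ η ∈ BQ Q 4 ∧ PM q η ∧ gq Q η * q ∣ Q := by
  classical
  unfold EQ
  rw [mem_filter]

/-- the approximation of the finite part of the height -/
noncomputable def hA (g : (Fin 3 → ℤ) → (Fin 4 → ℤ) → ℝ) (q Q : ℕ) (η : Fin 4 → ℤ) : ℝ :=
  g (rsd q (wv Q η)) (rsd q η)

theorem rsd_congr {n q : ℕ} (hq : 0 < q) {x x' : Fin n → ℤ} (h : Cg q x x') :
    rsd q x = rsd q x' :=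
  (rsd_eq_iff (rsd_mem hq x')).2 (h.trans (cg_rsd x'))

theorem rsd_mem_EQ {q Q : ℕ} (hqQ : q ∣ Q) (hQ : 0 < Q) {y : Fin 4 → ℤ} :
    rsd Q y ∈ EQ q Q ↔ PM q y ∧ gq Q y * q ∣ Q := by
  rw [mem_EQ, ← gq_congr (cg_rsd (q := Q) y)]
  constructor
  · rintro ⟨_, h2, h3⟩
    exact ⟨h2.congr ((cg_rsd (q := Q) y).symm.of_dvd hqQ), h3⟩
  · rintro ⟨h2, h3⟩
    exact ⟨rsd_mem hQ y, h2.congr ((cg_rsd (q := Q) y).of_dvd hqQ), h3⟩

/-- approximation of the finite part of the height -/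
theorem hA_approx {f : (Fin 3 → ℤ) → (Fin 4 → ℤ) → ℝ} {S : ℕ} {f0 f1 : ℝ} (hf : Tame f S f0 f1)
    {q Q : ℕ} (hq : 0 < q) (hSq : S ∣ q) (hqQ : q ∣ Q) (hQ : 0 < Q)
    {g : (Fin 3 → ℤ) → (Fin 4 → ℤ) → ℝ} {ε : ℝ} (hg : ClassApprox f q g f0 f1 ε)
    {x : Fin 3 → ℤ} {y : Fin 4 → ℤ} (hx : PM q x) (hy : PM q y) (hgood : gq Q y * q ∣ Q)
    (hxy : Inc x y) {c2 : ℕ} (hc2 : q.Coprime c2) (he : qf y = ((gq Q y * c2 : ℕ):ℤ) • x) :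
    f x y ≤ (1 + ε) * hA g q Q (rsd Q y) ∧ hA g q Q (rsd Q y) ≤ (1 + ε) * f x y := by
  have h1 : f ((c2:ℤ) • x) ((1:ℤ) • y) = f x y := by
    refine hf.unit x y (hx.of_dvd hSq) (hy.of_dvd hSq) hxy c2 1 ?_ isCoprime_one_left
    rw [Nat.isCoprime_iff_coprime]
    exact (Nat.Coprime.coprime_dvd_left hSq hc2).symm
  rw [one_smul] at h1
  have h2 : (c2:ℤ) • x = wv Q y := by
    have h3 := gq_smul_wv hQ y
    rw [he] at h3
    have h4 : ((gq Q y : ℕ):ℤ) ≠ 0 := by exact_mod_cast (gq_pos hQ y).ne'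
    funext j
    have h5 := congrFun h3 j
    simp only [Pi.smul_apply, smul_eq_mul] at h5 ⊢
    push_cast at h5
    apply mul_left_cancel₀ h4
    linarith
  have h3 : PM q ((c2:ℤ) • x) := by
    intro p hp hpq
    obtain ⟨i, hi⟩ := hx p hp hpq
    refine ⟨i, fun hcon => ?_⟩
    simp only [Pi.smul_apply, smul_eq_mul] at hcon
    rcases Int.Prime.dvd_mul' hp hcon with h | h
    · have h6 : p ∣ c2 := Int.natCast_dvd_natCast.1 h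
      exact Nat.not_coprime_of_dvd_of_dvd hp.one_lt hpq h6 hc2
    · exact hi h
  have h4 : Inc ((c2:ℤ) • x) y := by
    obtain ⟨i1, i2⟩ := hxy
    constructor
    · simp only [Pi.smul_apply, smul_eq_mul]
      linear_combination (c2:ℤ) * i1
    · simp only [Pi.smul_apply, smul_eq_mul]
      linear_combination (c2:ℤ) * i2
  have h5 := hg.2 ((c2:ℤ) • x) y h3 hy h4
  have h6 : hA g q Q (rsd Q y) = g (rsd q ((c2:ℤ) • x)) (rsd q y) := by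
    unfold hA
    have e1 : rsd q (wv Q (rsd Q y)) = rsd q ((c2:ℤ) • x) := by
      rw [h2]
      refine (rsd_congr hq (wv_congr hQ (cg_rsd y) hgood)).symm
    have e2 : rsd q (rsd Q y) = rsd q y := (rsd_congr hq ((cg_rsd (q := Q) y).of_dvd hqQ)).symm
    rw [e1, e2]
  rw [h6, ← h1]
  exact h5

theorem exists_crt {n Q c : ℕ} (h : Q.Coprime c) (η j : Fin n → ℤ) :
    ∃ z : Fin n → ℤ, Cg Q z η ∧ Cg c z j := by
  obtain ⟨u, v, huv⟩ := (Nat.isCoprime_iff_coprime.2 h)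
  refine ⟨fun i => η i * (v * c) + j i * (u * Q), fun i => ⟨-(η i * u) + j i * u, ?_⟩,
    fun i => ⟨η i * v - j i * v, ?_⟩⟩
  · linear_combination η i * huv
  · linear_combination j i * huv

theorem cg_mul_iff {n Q c : ℕ} (h : Q.Coprime c) {y z η j : Fin n → ℤ} (h1 : Cg Q z η)
    (h2 : Cg c z j) : Cg (Q * c) y z ↔ Cg Q y η ∧ Cg c y j := by
  constructor
  · intro hy
    exact ⟨(hy.of_dvd (Dvd.intro _ rfl)).trans h1, (hy.of_dvd (Dvd.intro_left _ rfl)).trans h2⟩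
  · rintro ⟨h3, h4⟩ i
    have a1 := (h3.trans h1.symm) i
    have a2 := (h4.trans h2.symm) i
    push_cast
    exact (Nat.isCoprime_iff_coprime.2 h).mul_dvd a1 a2

theorem J_sub_BQ {c : ℕ} {j : Fin 4 → ℤ} (h : j ∈ J c) : j ∈ BQ c 4 := by
  unfold J at h
  rw [mem_resSet] at h
  exact mem_BQ.2 h.1

theorem rsd_mem_J {c : ℕ} (hc : 0 < c) {y : Fin 4 → ℤ} :
    rsd c y ∈ J c ↔ (∀ j, (c:ℤ) ∣ qf y j) ∧ PrimMod c y := by
  have hc' : (0:ℤ) < c := by exact_mod_cast hc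
  unfold J
  rw [mem_resSet]
  constructor
  · rintro ⟨_, h1, h2⟩
    exact ⟨dvd_qf_congr (cg_rsd (q := c) y).symm h1, h2.congr dvd_rfl (cg_rsd (q := c) y).symm⟩
  · rintro ⟨h1, h2⟩
    exact ⟨fun i => ⟨Int.emod_nonneg _ hc'.ne', Int.emod_lt_of_pos _ hc'⟩,
      dvd_qf_congr (cg_rsd y) h1, h2.congr dvd_rfl (cg_rsd y)⟩

/-- the vectors counted -/
def TA (M : (Fin 3 → ℝ) → (Fin 4 → ℝ) → ℝ) (T : ℝ) (g : (Fin 3 → ℤ) → (Fin 4 → ℤ) → ℝ)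
    (q Q c2 : ℕ) (b : ℝ) : Set (Fin 4 → ℤ) :=
  {y | y ≠ 0 ∧ rsd Q y ∈ EQ q Q ∧ rsd c2 y ∈ J c2 ∧
    FT M T (castv y) ≤ (gq Q (rsd Q y) : ℕ) * c2 * b / hA g q Q (rsd Q y)}

/-- the density of the good classes -/
noncomputable def WA (g : (Fin 3 → ℤ) → (Fin 4 → ℤ) → ℝ) (q Q : ℕ) : ℝ :=
  ∑ η ∈ EQ q Q, (gq Q η : ℕ) / (hA g q Q η * (Q:ℝ) ^ 4)

theorem WA_nonneg {g : (Fin 3 → ℤ) → (Fin 4 → ℤ) → ℝ} {q Q : ℕ} {f0 f1 : ℝ} (hf0 : 0 < f0)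
    (hg : ∀ ξ η, f0 ≤ g ξ η ∧ g ξ η ≤ f1) : 0 ≤ WA g q Q := by
  unfold WA
  refine sum_nonneg fun η _ => ?_
  have : 0 < hA g q Q η := lt_of_lt_of_le hf0 (hg _ _).1
  positivity

theorem TA_count {M : (Fin 3 → ℝ) → (Fin 4 → ℝ) → ℝ} {T : ℝ} {ε K : ℝ}
    (hcls : ∀ m : ℕ, 0 < m → ∀ y0 : Fin 4 → ℤ, ∀ Y : ℝ, 0 < Y →
      (clsSet (FT M T) m y0 Y).Finite ∧
      |((clsSet (FT M T) m y0 Y).ncard : ℝ) - VT M T * (Y / (m:ℝ) ^ 4)| ≤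
        ε * (Y / (m:ℝ) ^ 4) + K)
    {g : (Fin 3 → ℤ) → (Fin 4 → ℤ) → ℝ} {f0 f1 : ℝ} (hf0 : 0 < f0)
    (hg : ∀ ξ η, f0 ≤ g ξ η ∧ g ξ η ≤ f1) {q Q : ℕ} (hQ : 0 < Q) {c : ℕ} (hc : 0 < c)
    (hcop : Q.Coprime c) {b : ℝ} (hb : 0 < b) :
    (TA M T g q Q c b).Finite ∧
    |((TA M T g q Q c b).ncard : ℝ) - VT M T * (WA g q Q * b * ((J c).card / (c:ℝ) ^ 3))| ≤
      ε * (WA g q Q * b * ((J c).card / (c:ℝ) ^ 3)) + K * ((EQ q Q).card * (J c).card) := by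
  classical
  have hQ' : (0:ℝ) < Q := by exact_mod_cast hQ
  have hc' : (0:ℝ) < c := by exact_mod_cast hc
  have hQc : 0 < Q * c := Nat.mul_pos hQ hc
  have hch : ∀ p : (Fin 4 → ℤ) × (Fin 4 → ℤ), ∃ z : Fin 4 → ℤ, Cg Q z p.1 ∧ Cg c z p.2 :=
    fun p => exists_crt hcop p.1 p.2
  choose z hz1 hz2 using hch
  set Yf : (Fin 4 → ℤ) → ℝ := fun η => (gq Q η : ℕ) * c * b / hA g q Q η with hYf
  have hYp : ∀ η, 0 < Yf η := by
    intro η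
    have h1 : 0 < hA g q Q η := lt_of_lt_of_le hf0 (hg _ _).1
    have h2 : (0:ℝ) < (gq Q η : ℕ) := by exact_mod_cast gq_pos hQ η
    rw [hYf]; positivity
  set I := EQ q Q ×ˢ J c with hI
  have hmem : ∀ y, y ∈ TA M T g q Q c b ↔ ∃ p ∈ I, y ∈ clsSet (FT M T) (Q * c) (z p) (Yf p.1) ∧
      (rsd Q y, rsd c y) = p := by
    intro y
    constructor
    · rintro ⟨h1, h2, h3, h4⟩
      refine ⟨(rsd Q y, rsd c y), mem_product.2 ⟨h2, h3⟩, ⟨h1, ?_, h4⟩, rfl⟩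
      exact (cg_mul_iff hcop (hz1 _) (hz2 _)).2 ⟨cg_rsd y, cg_rsd y⟩
    · rintro ⟨p, hp, ⟨h1, _, h3⟩, rfl⟩
      obtain ⟨p1, p2⟩ := mem_product.1 hp
      exact ⟨h1, p1, p2, h3⟩
  have hcls' : ∀ p ∈ I, ∀ y, y ∈ clsSet (FT M T) (Q * c) (z p) (Yf p.1) →
      (rsd Q y, rsd c y) = p := by
    rintro p hp y ⟨_, h2, _⟩
    obtain ⟨p1, p2⟩ := mem_product.1 hp
    obtain ⟨h3, h4⟩ := (cg_mul_iff hcop (hz1 p) (hz2 p)).1 h2
    exact Prod.ext ((rsd_eq_iff (mem_EQ.1 p1).1).2 h3) ((rsd_eq_iff (J_sub_BQ p2)).2 h4)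
  have hfin : (TA M T g q Q c b).Finite := by
    refine Set.Finite.subset (s := ⋃ p ∈ I, clsSet (FT M T) (Q * c) (z p) (Yf p.1)) ?_ ?_
    · exact Set.Finite.biUnion I.finite_toSet fun p _ => (hcls _ hQc _ _ (hYp _)).1
    · intro y hy
      obtain ⟨p, hp, h1, _⟩ := (hmem y).1 hy
      exact Set.mem_biUnion hp h1
  refine ⟨hfin, ?_⟩
  have hcard : ((TA M T g q Q c b).ncard : ℝ) =
      ∑ p ∈ I, ((clsSet (FT M T) (Q * c) (z p) (Yf p.1)).ncard : ℝ) := by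
    rw [Set.ncard_eq_toFinset_card _ hfin, card_eq_sum_card_fiberwise
      (f := fun y => (rsd Q y, rsd c y)) (t := I)]
    · push_cast
      refine sum_congr rfl fun p hp => ?_
      congr 1
      rw [← Set.ncard_coe_finset]
      congr 1
      ext y
      rw [mem_coe, mem_filter, Set.Finite.mem_toFinset, hmem]
      constructor
      · rintro ⟨⟨p', _, h2, h3⟩, h4⟩
        rw [h3] at h4
        rw [← h4]
        exact h2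
      · intro hy
        have h5 := hcls' p hp y hy
        exact ⟨⟨p, hp, hy, h5⟩, h5⟩
    · intro y hy
      rw [mem_coe, Set.Finite.mem_toFinset, hmem] at hy
      obtain ⟨p, hp, _, h3⟩ := hy
      rw [mem_coe]
      simp only
      rw [h3]
      exact hp
  have hsum : ∀ a : ℝ, a * (WA g q Q * b * ((J c).card / (c:ℝ) ^ 3)) =
      ∑ p ∈ I, a * (Yf p.1 / ((Q * c : ℕ) : ℝ) ^ 4) := by
    intro a
    have hterm : ∀ η : Fin 4 → ℤ, Yf η / ((Q * c : ℕ) : ℝ) ^ 4 =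
        ((gq Q η : ℕ) / (hA g q Q η * (Q:ℝ) ^ 4)) * (b * (1 / (c:ℝ) ^ 3)) := by
      intro η
      have h1 : 0 < hA g q Q η := lt_of_lt_of_le hf0 (hg _ _).1
      rw [hYf]
      push_cast
      field_simp
    rw [hI, sum_product]
    have h2 : ∀ η ∈ EQ q Q, ∑ y ∈ J c, a * (Yf ((η, y) : (Fin 4 → ℤ) × (Fin 4 → ℤ)).1 /
        ((Q * c : ℕ) : ℝ) ^ 4) = ((gq Q η : ℕ) / (hA g q Q η * (Q:ℝ) ^ 4)) *
          (a * (b * ((J c).card / (c:ℝ) ^ 3))) := by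
      intro η _
      change ∑ _y ∈ J c, a * (Yf η / ((Q * c : ℕ) : ℝ) ^ 4) = _
      rw [sum_const, nsmul_eq_mul, hterm]
      ring
    rw [sum_congr rfl h2, ← sum_mul, WA]
    ring
  rw [hcard, hsum, hsum, ← sum_sub_distrib]
  refine (abs_sum_le_sum_abs _ _).trans ?_
  refine (sum_le_sum fun p _ => (hcls (Q * c) hQc (z p) (Yf p.1) (hYp _)).2).trans ?_
  rw [sum_add_distrib, sum_const, nsmul_eq_mul, hI, card_product]
  push_cast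
  linarith

end Pool.Agent.Lib.MP_1acd66_nt.Tw
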