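import Pool.Agent.Lib.MP_1acd66_nt.Tw.Mesh

/-!
Counting integral points above the cone over the twisted cubic.
-/

namespace Pool.Agent.Lib.MP_1acd66_nt.Tw

open Finset

/-- the sup norm of an integral vector -/
noncomputable def nrm {n : ℕ} (x : Fin n → ℤ) : ℝ := ‖(fun i => ((x i : ℤ) : ℝ))‖

theorem nrm_nonneg {n : ℕ} (x : Fin n → ℤ) : 0 ≤ nrm x := norm_nonneg _

theorem abs_le_nrm {n : ℕ} (x : Fin n → ℤ) (i : Fin n) : |((x i : ℤ) : ℝ)| ≤ nrm x :=
  norm_le_pi_norm (fun i => ((x i : ℤ) : ℝ)) i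

theorem nrm_le {n : ℕ} {x : Fin n → ℤ} {R : ℝ} (hR : 0 ≤ R) (h : ∀ i, |((x i : ℤ) : ℝ)| ≤ R) :
    nrm x ≤ R := (pi_norm_le_iff_of_nonneg hR).2 h

theorem exists_eq_nrm {n : ℕ} (hn : 0 < n) (x : Fin n → ℤ) : ∃ i, |((x i : ℤ) : ℝ)| = nrm x := by
  have : Nonempty (Fin n) := ⟨⟨0, hn⟩⟩
  obtain ⟨i, _, hi⟩ := exists_max_image univ (fun i => |((x i : ℤ) : ℝ)|) univ_nonempty
  exact ⟨i, le_antisymm (abs_le_nrm x i) (nrm_le (abs_nonneg _) fun j => hi j (mem_univ j))⟩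

theorem one_le_nrm {n : ℕ} {x : Fin n → ℤ} (hx : x ≠ 0) : 1 ≤ nrm x := by
  obtain ⟨i, hi⟩ := Function.ne_iff.1 hx
  refine le_trans ?_ (abs_le_nrm x i)
  have : 1 ≤ |x i| := Int.one_le_abs hi
  exact_mod_cast this

theorem nrm_qf_le (y : Fin 4 → ℤ) : nrm (qf y) ≤ 2 * nrm y ^ 2 := by
  refine nrm_le (by have := nrm_nonneg y; positivity) ?_
  have key : ∀ a b c d : Fin 4, |((y a : ℝ) * y b - (y c : ℝ) * y d)| ≤ 2 * nrm y ^ 2 := by
    intro a b c d
    have h1 : |(y a : ℝ) * y b| ≤ nrm y ^ 2 := by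
      rw [abs_mul, sq]
      exact mul_le_mul (abs_le_nrm y a) (abs_le_nrm y b) (abs_nonneg _) (nrm_nonneg y)
    have h2 : |(y c : ℝ) * y d| ≤ nrm y ^ 2 := by
      rw [abs_mul, sq]
      exact mul_le_mul (abs_le_nrm y c) (abs_le_nrm y d) (abs_nonneg _) (nrm_nonneg y)
    calc |(y a : ℝ) * y b - (y c : ℝ) * y d| ≤ |(y a : ℝ) * y b| + |(y c : ℝ) * y d| :=
          abs_sub _ _
      _ ≤ 2 * nrm y ^ 2 := by linarith
  intro j
  fin_cases j
  · change |((qf y 0 : ℤ) : ℝ)| ≤ _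
    rw [qf_zero]
    have := key 1 3 2 2
    push_cast
    rw [sq (y 2 : ℝ)]
    exact this
  · change |((qf y 1 : ℤ) : ℝ)| ≤ _
    rw [qf_one]
    have := key 1 2 0 3
    push_cast
    exact this
  · change |((qf y 2 : ℤ) : ℝ)| ≤ _
    rw [qf_two]
    have := key 0 2 1 1
    push_cast
    rw [sq (y 1 : ℝ)]
    exact this

theorem exists_lev {t : ℝ} (ht : 1 ≤ t) : ∃ k : ℕ, (2 : ℝ) ^ k / 2 < t ∧ t ≤ 2 ^ k := by
  classical
  have hex : ∃ k : ℕ, t ≤ 2 ^ k := by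
    obtain ⟨k, hk⟩ := pow_unbounded_of_one_lt t (by norm_num : (1 : ℝ) < 2)
    exact ⟨k, hk.le⟩
  refine ⟨Nat.find hex, ?_, Nat.find_spec hex⟩
  rcases Nat.eq_zero_or_pos (Nat.find hex) with h | h
  · rw [h]; norm_num; linarith
  · have h1 := Nat.find_min hex (m := Nat.find hex - 1) (by omega)
    push Not at h1
    have h2 : (2 : ℝ) ^ (Nat.find hex) = 2 ^ (Nat.find hex - 1) * 2 := by
      rw [← pow_succ, Nat.sub_add_cancel h]
    rw [h2]
    linarith

/-- the level of a vector -/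
noncomputable def lev {n : ℕ} (y : Fin n → ℤ) : ℕ :=
  if h : 1 ≤ nrm y then (exists_lev h).choose else 0

theorem lev_spec {n : ℕ} {y : Fin n → ℤ} (hy : y ≠ 0) :
    (2 : ℝ) ^ lev y / 2 < nrm y ∧ nrm y ≤ 2 ^ lev y := by
  have h := one_le_nrm hy
  unfold lev
  rw [dif_pos h]
  exact (exists_lev h).choose_spec

theorem dy_sum_min {t : ℝ} (ht : 0 < t) (K : ℕ) :
    ∑ k ∈ range K, min ((16 : ℝ) ^ k) (t ^ 2 / 16 ^ k) ≤ 3 * t := by
  set g : ℕ → ℝ := fun k => (34 / 15) * t * (16 ^ k / (t + 16 ^ k)) with hg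
  have h1 : ∀ k, min ((16 : ℝ) ^ k) (t ^ 2 / 16 ^ k) ≤ g (k + 1) - g k := by
    intro k
    set a : ℝ := (16 : ℝ) ^ k with ha
    have ha0 : 0 < a := by positivity
    have e : g (k + 1) - g k = 34 * t ^ 2 * a / ((t + 16 * a) * (t + a)) := by
      simp only [hg, pow_succ]
      rw [← ha]
      field_simp
      ring
    rw [e, le_div_iff₀ (by positivity)]
    rcases le_total a t with h | h
    · calc min a (t ^ 2 / a) * ((t + 16 * a) * (t + a)) ≤ a * ((17 * t) * (2 * t)) := by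
            gcongr
            · exact min_le_left _ _
            · linarith
            · linarith
        _ = 34 * t ^ 2 * a := by ring
    · calc min a (t ^ 2 / a) * ((t + 16 * a) * (t + a)) ≤ (t ^ 2 / a) * ((17 * a) * (2 * a)) := by
            gcongr
            · exact min_le_right _ _
            · linarith
            · linarith
        _ = 34 * t ^ 2 * a := by field_simp; ring
  calc ∑ k ∈ range K, min ((16 : ℝ) ^ k) (t ^ 2 / 16 ^ k) ≤ ∑ k ∈ range K, (g (k + 1) - g k) :=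
        sum_le_sum fun k _ => h1 k
    _ = g K - g 0 := sum_range_sub g K
    _ ≤ g K := by
        have : 0 ≤ g 0 := by simp only [hg]; positivity
        linarith
    _ ≤ 34 / 15 * t * 1 := by
        simp only [hg]
        gcongr
        rw [div_le_one (by positivity)]
        linarith
    _ ≤ 3 * t := by linarith

theorem dy_sum_tail {X : ℝ} (hX : 0 < X) (K : ℕ) :
    ∑ k ∈ (range K).filter (fun k => X ≤ (16 : ℝ) ^ k), (1 / 16 ^ k : ℝ) ≤ 3 / X := by
  rw [sum_filter]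
  set g : ℕ → ℝ := fun k => (34 / 15) / X * (16 ^ k / (X + 16 ^ k)) with hg
  have h1 : ∀ k, (if X ≤ (16 : ℝ) ^ k then (1 / 16 ^ k : ℝ) else 0) ≤ g (k + 1) - g k := by
    intro k
    set a : ℝ := (16 : ℝ) ^ k with ha
    have ha0 : 0 < a := by positivity
    have e : g (k + 1) - g k = 34 * a / ((X + 16 * a) * (X + a)) := by
      simp only [hg, pow_succ]
      rw [← ha]
      field_simp
      ring
    rw [e]
    split_ifs with h
    · rw [le_div_iff₀ (by positivity)]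
      calc 1 / a * ((X + 16 * a) * (X + a)) ≤ 1 / a * ((17 * a) * (2 * a)) := by
            gcongr
            · linarith
            · linarith
        _ = 34 * a := by field_simp; ring
    · positivity
  calc ∑ k ∈ range K, (if X ≤ (16 : ℝ) ^ k then (1 / 16 ^ k : ℝ) else 0)
      ≤ ∑ k ∈ range K, (g (k + 1) - g k) := sum_le_sum fun k _ => h1 k
    _ = g K - g 0 := sum_range_sub g K
    _ ≤ g K := by
        have : 0 ≤ g 0 := by simp only [hg]; positivity
        linarith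
    _ ≤ 34 / 15 / X * 1 := by
        simp only [hg]
        gcongr
        rw [div_le_one (by positivity)]
        linarith
    _ ≤ 3 / X := by
        rw [mul_one, div_div, div_le_div_iff₀ (by positivity) hX]
        nlinarith

/-- The bound at one level. -/
theorem level_bound {m : ℕ} (hm : 0 < m) {A c Z : ℝ} (hA : 0 ≤ A) (hmc : (m : ℝ) ≤ A * c)
    (hZ : 0 < Z) (k : ℕ) (r : Fin 4 → ℤ) (S : Finset (Fin 4 → ℤ))
    (hS : ∀ y ∈ S, (∀ i, (m : ℤ) ∣ y i - r i) ∧ y ≠ 0 ∧ lev y = k ∧ c * nrm y < nrm (qf y) ∧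
      nrm (qf y) * nrm y ^ 2 ≤ Z) :
    (S.card : ℝ) ≤ 64 * ((2 + 4 * A) * (16 + 4 * A)) ^ 2 / (m : ℝ) ^ 4 *
      min ((16 : ℝ) ^ k) ((4 * Z) ^ 2 / 16 ^ k) := by
  classical
  have hm' : (0 : ℝ) < m := by exact_mod_cast hm
  rcases S.eq_empty_or_nonempty with rfl | ⟨y, hy⟩
  · rw [card_empty, Nat.cast_zero]
    positivity
  set Y : ℝ := 2 ^ k with hY
  have hY0 : 0 < Y := by positivity
  have hY16 : (16 : ℝ) ^ k = Y ^ 4 := by
    rw [hY, ← pow_mul, mul_comm, pow_mul]; norm_num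
  set δ : ℝ := min 1 (4 * Z / Y ^ 4) with hδ
  have hδ0 : 0 < δ := lt_min one_pos (by positivity)
  have hδ1 : δ ≤ 1 := min_le_left _ _
  -- bounds for a member
  have hmem : ∀ y ∈ S, Y / 2 < nrm y ∧ nrm y ≤ Y ∧ nrm (qf y) ≤ 4 * Z / Y ^ 2 := by
    intro y hy
    obtain ⟨_, hy0, hl, _, hz⟩ := hS y hy
    obtain ⟨h1, h2⟩ := lev_spec hy0
    rw [hl, ← hY] at h1 h2
    refine ⟨h1, h2, ?_⟩
    rw [le_div_iff₀ (by positivity)]
    have h3 : Y ^ 2 ≤ 4 * nrm y ^ 2 := by nlinarith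
    calc nrm (qf y) * Y ^ 2 ≤ nrm (qf y) * (4 * nrm y ^ 2) := by
          have := nrm_nonneg (qf y)
          gcongr
      _ = 4 * (nrm (qf y) * nrm y ^ 2) := by ring
      _ ≤ 4 * Z := by linarith
  have hc : c ≤ 4 * (δ * Y) := by
    obtain ⟨h1, h2, h3⟩ := hmem y hy
    obtain ⟨_, hy0, _, h4, _⟩ := hS y hy
    rcases le_total c 0 with hc0 | hc0
    · have : 0 ≤ 4 * (δ * Y) := by positivity
      linarith
    have h5 : c * (Y / 2) ≤ nrm (qf y) := by
      have : c * (Y / 2) ≤ c * nrm y := by gcongr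
      linarith
    have h6 : c * (Y / 2) ≤ 2 * Y ^ 2 := by
      have h7 := nrm_qf_le y
      have h8 : nrm y ^ 2 ≤ Y ^ 2 := by
        have := nrm_nonneg y
        gcongr
      linarith
    have h7 : c * (Y / 2) ≤ 4 * Z / Y ^ 2 := h5.trans h3
    have e1 : c ≤ 4 * Y := by
      have : c * Y ≤ 4 * Y * Y := by nlinarith
      exact le_of_mul_le_mul_right this hY0
    have e2 : c ≤ 4 * (4 * Z / Y ^ 4 * Y) := by
      rw [le_div_iff₀ (by positivity)] at h7
      have e3 : 4 * (4 * Z / Y ^ 4 * Y) = 16 * Z / Y ^ 3 := by field_simp; ring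
      rw [e3, le_div_iff₀ (by positivity)]
      nlinarith
    rcases min_choice 1 (4 * Z / Y ^ 4) with h8 | h8
    · rw [hδ, h8, one_mul]; exact e1
    · rw [hδ, h8]; exact e2
  have hmY : (m : ℝ) ≤ 4 * A * (δ * Y) := by
    calc (m : ℝ) ≤ A * c := hmc
      _ ≤ A * (4 * (δ * Y)) := by gcongr
      _ = 4 * A * (δ * Y) := by ring
  have h1 := mesh hm (A := 4 * A) (by positivity) hmY hδ0 hδ1 hY0 r S (by
    intro y hy
    obtain ⟨h1, h2, h3⟩ := hmem y hy
    obtain ⟨h4, _, _, _, _⟩ := hS y hy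
    refine ⟨h4, fun i => (abs_le_nrm y i).trans h2, ?_, ?_⟩
    · obtain ⟨i, hi⟩ := exists_eq_nrm (by norm_num) y
      exact ⟨i, by rw [hi]; exact h1⟩
    · intro h8 j
      have h9 : δ = 4 * Z / Y ^ 4 := by
        rcases min_choice 1 (4 * Z / Y ^ 4) with h | h
        · rw [hδ, h] at h8; norm_num at h8
        · rw [hδ, h]
      refine (abs_le_nrm (qf y) j).trans (h3.trans (le_of_eq ?_))
      rw [h9]
      field_simp)
  refine h1.trans (le_of_eq ?_)
  have h2 : δ ^ 2 * Y ^ 4 = min ((16 : ℝ) ^ k) ((4 * Z) ^ 2 / 16 ^ k) := by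
    rw [hY16]
    rcases le_total 1 (4 * Z / Y ^ 4) with h | h
    · rw [hδ, min_eq_left h, min_eq_left]
      · ring
      · rw [le_div_iff₀ (by positivity)]
        rw [one_le_div (by positivity)] at h
        nlinarith [pow_pos hY0 4]
    · rw [hδ, min_eq_right h, min_eq_right]
      · field_simp
      · rw [div_le_iff₀ (by positivity)]
        rw [div_le_one (by positivity)] at h
        nlinarith [pow_pos hY0 4]
  rw [← h2]
  field_simp

/-- The constant of the next theorem. -/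
noncomputable def coneC (A : ℝ) : ℝ := 3072 * ((2 + 4 * A) * (16 + 4 * A)) ^ 2

theorem coneC_pos {A : ℝ} (hA : 0 ≤ A) : 0 < coneC A := by
  unfold coneC
  positivity

/-- The number of integral points in a set of residue classes above the cone. -/
theorem cone_bound {m : ℕ} (hm : 0 < m) {A c Z : ℝ} (hA : 0 ≤ A) (hmc : (m : ℝ) ≤ A * c)
    (hZ : 0 < Z) (R : Finset (Fin 4 → ℤ)) (S : Finset (Fin 4 → ℤ))
    (hS : ∀ y ∈ S, (∃ r ∈ R, ∀ i, (m : ℤ) ∣ y i - r i) ∧ y ≠ 0 ∧ c * nrm y < nrm (qf y) ∧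
      nrm (qf y) * nrm y ^ 2 ≤ Z) :
    (S.card : ℝ) ≤ coneC A * (R.card / (m : ℝ) ^ 4) * Z ∧
      ∀ Y1 : ℝ, 0 < Y1 → (∀ y ∈ S, Y1 ≤ nrm y) →
        (S.card : ℝ) ≤ coneC A * (R.card / (m : ℝ) ^ 4) * (Z ^ 2 / Y1 ^ 4) := by
  classical
  have hm' : (0 : ℝ) < m := by exact_mod_cast hm
  set D : ℝ := 64 * ((2 + 4 * A) * (16 + 4 * A)) ^ 2 / (m : ℝ) ^ 4 with hD
  have hD0 : 0 < D := by positivity
  obtain ⟨K, hK⟩ : ∃ K : ℕ, ∀ y ∈ S, lev y < K :=
    ⟨(S.sup lev) + 1, fun y hy => Nat.lt_succ_of_le (le_sup (f := lev) hy)⟩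
  have hlevel : ∀ k, ((S.filter (fun y => lev y = k)).card : ℝ) ≤
      R.card * (D * min ((16 : ℝ) ^ k) ((4 * Z) ^ 2 / 16 ^ k)) := by
    intro k
    have h1 : S.filter (fun y => lev y = k) ⊆ R.biUnion (fun r =>
        S.filter (fun y => lev y = k ∧ ∀ i, (m : ℤ) ∣ y i - r i)) := by
      intro y hy
      rw [mem_filter] at hy
      obtain ⟨⟨r, hr, hyr⟩, _⟩ := hS y hy.1
      rw [mem_biUnion]
      exact ⟨r, hr, mem_filter.2 ⟨hy.1, hy.2, hyr⟩⟩
    calc ((S.filter (fun y => lev y = k)).card : ℝ)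
        ≤ ((∑ r ∈ R, (S.filter (fun y => lev y = k ∧ ∀ i, (m : ℤ) ∣ y i - r i)).card : ℕ) : ℝ) := by
          exact_mod_cast (card_le_card h1).trans card_biUnion_le
      _ = ∑ r ∈ R, ((S.filter (fun y => lev y = k ∧ ∀ i, (m : ℤ) ∣ y i - r i)).card : ℝ) := by
          push_cast; rfl
      _ ≤ ∑ _r ∈ R, (D * min ((16 : ℝ) ^ k) ((4 * Z) ^ 2 / 16 ^ k)) := by
          refine sum_le_sum fun r _ => ?_
          refine level_bound hm hA hmc hZ k r _ ?_
          intro y hy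
          rw [mem_filter] at hy
          obtain ⟨_, h2, h3, h4⟩ := hS y hy.1
          exact ⟨hy.2.2, h2, hy.2.1, h3, h4⟩
      _ = _ := by rw [sum_const, nsmul_eq_mul]
  have hfib : ∀ T : Finset ℕ, (∀ y ∈ S, lev y ∈ T) →
      (S.card : ℝ) ≤ ∑ k ∈ T, R.card * (D * min ((16 : ℝ) ^ k) ((4 * Z) ^ 2 / 16 ^ k)) := by
    intro T hT
    rw [card_eq_sum_card_fiberwise (f := lev) (t := T) (fun y hy => hT y hy)]
    push_cast
    exact sum_le_sum fun k _ => hlevel k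
  constructor
  · refine (hfib (range K) fun y hy => mem_range.2 (hK y hy)).trans ?_
    rw [← mul_sum, ← mul_sum]
    have h1 := dy_sum_min (t := 4 * Z) (by linarith) K
    calc (R.card : ℝ) * (D * ∑ k ∈ range K, min ((16 : ℝ) ^ k) ((4 * Z) ^ 2 / 16 ^ k))
        ≤ R.card * (D * (3 * (4 * Z))) := by gcongr
      _ ≤ coneC A * (R.card / (m : ℝ) ^ 4) * Z := by
          rw [hD, coneC]
          have h2 : (R.card : ℝ) * (64 * ((2 + 4 * A) * (16 + 4 * A)) ^ 2 / (m : ℝ) ^ 4 *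
              (3 * (4 * Z))) = 768 * (((2 + 4 * A) * (16 + 4 * A)) ^ 2 *
                (R.card / (m : ℝ) ^ 4) * Z) := by ring
          have h3 : 3072 * ((2 + 4 * A) * (16 + 4 * A)) ^ 2 * (R.card / (m : ℝ) ^ 4) * Z =
              3072 * (((2 + 4 * A) * (16 + 4 * A)) ^ 2 * (R.card / (m : ℝ) ^ 4) * Z) := by ring
          rw [h2, h3]
          have : 0 ≤ ((2 + 4 * A) * (16 + 4 * A)) ^ 2 * (R.card / (m : ℝ) ^ 4) * Z := by positivity
          linarith
  · intro Y1 hY1 hSY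
    have hX : 0 < Y1 ^ 4 := by positivity
    refine (hfib ((range K).filter (fun k => Y1 ^ 4 ≤ (16 : ℝ) ^ k)) ?_).trans ?_
    · intro y hy
      rw [mem_filter, mem_range]
      refine ⟨hK y hy, ?_⟩
      have h1 := (lev_spec (hS y hy).2.1).2
      have h2 : Y1 ≤ 2 ^ lev y := (hSY y hy).trans h1
      have h3 : ((16 : ℝ)) ^ lev y = (2 ^ lev y) ^ 4 := by
        rw [← pow_mul, mul_comm, pow_mul]; norm_num
      rw [h3]
      gcongr
    · rw [← mul_sum, ← mul_sum]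
      have h1 := dy_sum_tail hX K
      calc (R.card : ℝ) * (D * ∑ k ∈ (range K).filter (fun k => Y1 ^ 4 ≤ (16 : ℝ) ^ k),
          min ((16 : ℝ) ^ k) ((4 * Z) ^ 2 / 16 ^ k))
          ≤ R.card * (D * ∑ k ∈ (range K).filter (fun k => Y1 ^ 4 ≤ (16 : ℝ) ^ k),
            (4 * Z) ^ 2 * (1 / 16 ^ k)) := by
            gcongr with k hk
            refine (min_le_right _ _).trans (le_of_eq ?_)
            ring
        _ ≤ R.card * (D * ((4 * Z) ^ 2 * (3 / Y1 ^ 4))) := by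
            rw [← mul_sum]
            gcongr
        _ = coneC A * (R.card / (m : ℝ) ^ 4) * (Z ^ 2 / Y1 ^ 4) := by
            rw [hD, coneC]
            ring

end Pool.Agent.Lib.MP_1acd66_nt.Tw
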