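import Pool.Agent.Lib.MP_1acd66_nt.Tw.ResB

/-!
Upper bounds for the vectors with given content.
-/

namespace Pool.Agent.Lib.MP_1acd66_nt.Tw

open Finset

theorem PM.primMod {m : ℕ} {y : Fin 4 → ℤ} (h : PM m y) : PrimMod m y := by
  by_cases hy : y = 0
  · have h1 : m = 1 := by
      by_contra hm
      obtain ⟨p, hp, hpm⟩ := Nat.exists_prime_and_dvd hm
      obtain ⟨i, hi⟩ := h p hp hpm
      exact hi (by rw [hy]; exact dvd_zero _)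
    subst h1
    exact ⟨0, by push_cast; exact one_dvd _⟩
  · obtain ⟨g, z, hg, hz, rfl⟩ := exists_prim hy
    obtain ⟨u, v, huv⟩ := isCoprime_of_pm h (g := (g:ℤ)) (fun i => ⟨z i, rfl⟩)
    obtain ⟨b, hb⟩ := hz
    refine ⟨fun i => u * b i, ⟨-v, ?_⟩⟩
    have h1 : ∑ i, u * b i * ((g:ℤ) • z) i = (u * g) * ∑ i, b i * z i := by
      rw [mul_sum]
      refine sum_congr rfl fun i _ => ?_
      simp only [Pi.smul_apply, smul_eq_mul]; ring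
    rw [h1, hb]
    linear_combination huv

theorem PrimMod.pm {m : ℕ} {y : Fin 4 → ℤ} (h : PrimMod m y) : PM m y := by
  intro p hp hpm
  by_contra hcon
  push Not at hcon
  obtain ⟨a, ha⟩ := h
  have h1 : (p:ℤ) ∣ ∑ i, a i * y i := Finset.dvd_sum fun i _ => (hcon i).mul_left _
  have h2 : (p:ℤ) ∣ (∑ i, a i * y i) - 1 := (Int.natCast_dvd_natCast.2 hpm).trans ha
  have h3 : (p:ℤ) ∣ 1 := by
    have := dvd_sub h1 h2
    rwa [sub_sub_cancel] at this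
  have h4 : p ∣ 1 := by exact_mod_cast h3
  exact hp.one_lt.ne' (Nat.dvd_one.1 h4)

theorem PrimMod.congr {m m' : ℕ} {y y' : Fin 4 → ℤ} (h : PrimMod m y) (hm : m ∣ m')
    (hy : Cg m' y y') : PrimMod m y' :=
  (h.pm.congr fun i => (Int.natCast_dvd_natCast.2 hm).trans (hy i)).primMod

theorem dvd_qf_congr {m : ℕ} {y y' : Fin 4 → ℤ} (hy : Cg m y y') (h : ∀ j, (m:ℤ) ∣ qf y j) (j) :
    (m:ℤ) ∣ qf y' j := by
  obtain ⟨a, ha⟩ := hy 0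
  obtain ⟨b, hb⟩ := hy 1
  obtain ⟨c, hc⟩ := hy 2
  obtain ⟨d, hd⟩ := hy 3
  have e0 : y' 0 = y 0 - m * a := by linarith
  have e1 : y' 1 = y 1 - m * b := by linarith
  have e2 : y' 2 = y 2 - m * c := by linarith
  have e3 : y' 3 = y 3 - m * d := by linarith
  obtain ⟨u, hu⟩ := h j
  fin_cases j
  · have hu' : y 1 * y 3 - y 2 ^ 2 = m * u := hu
    change (m:ℤ) ∣ y' 1 * y' 3 - y' 2 ^ 2
    rw [e1, e2, e3]
    exact ⟨u - y 1 * d - y 3 * b + m * b * d + 2 * y 2 * c - m * c ^ 2, by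
      linear_combination hu'⟩
  · have hu' : y 1 * y 2 - y 0 * y 3 = m * u := hu
    change (m:ℤ) ∣ y' 1 * y' 2 - y' 0 * y' 3
    rw [e0, e1, e2, e3]
    exact ⟨u - y 1 * c - y 2 * b + m * b * c + y 0 * d + y 3 * a - m * a * d, by
      linear_combination hu'⟩
  · have hu' : y 0 * y 2 - y 1 ^ 2 = m * u := hu
    change (m:ℤ) ∣ y' 0 * y' 2 - y' 1 ^ 2
    rw [e0, e1, e2]
    exact ⟨u - y 0 * c - y 2 * a + m * a * c + 2 * y 1 * b - m * b ^ 2, by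
      linear_combination hu'⟩

theorem mem_J2_of {p c : ℕ} (hp : 0 < p) (hc : 0 < c) {y : Fin 4 → ℤ}
    (hq : ∀ j, ((p * c : ℕ) : ℤ) ∣ qf y j) (h : PrimMod c y) :
    ∃ r ∈ J2 p c, ∀ i, ((p * c : ℕ) : ℤ) ∣ y i - r i := by
  have hpc : 0 < p * c := Nat.mul_pos hp hc
  have hm' : (0 : ℤ) < (p * c : ℕ) := by exact_mod_cast hpc
  refine ⟨rsd (p * c) y, ?_, cg_rsd y⟩
  unfold J2
  rw [mem_resSet]
  refine ⟨fun i => ⟨Int.emod_nonneg _ hm'.ne', Int.emod_lt_of_pos _ hm'⟩,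
    dvd_qf_congr (cg_rsd y) hq, h.congr (Dvd.intro_left _ rfl) (cg_rsd y)⟩

/-- vectors of given content -/
theorem coneA {Z1 B R : ℝ} (hZ1 : 0 < Z1) (hR : 0 < R) (hRB : R ^ 3 = B) {c : ℕ}
    (hc : 0 < c) (S : Finset (Fin 4 → ℤ))
    (hS : ∀ y ∈ S, (∀ j, (c:ℤ) ∣ qf y j) ∧ PrimMod c y ∧ y ≠ 0 ∧ R * c < nrm (qf y) ∧
      nrm (qf y) * nrm y ^ 2 ≤ Z1 * c * B) :
    (S.card : ℝ) ≤ coneC (√Z1) * Z1 * (B / c) ∧
    (∀ Y1 : ℝ, 0 < Y1 → (∀ y ∈ S, Y1 ≤ nrm y) →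
      (S.card : ℝ) ≤ coneC (√Z1) * Z1 ^ 2 * (B ^ 2 / Y1 ^ 4)) ∧
    (∀ y ∈ S, nrm y ^ 2 ≤ Z1 * R ^ 2 ∧ (c:ℝ) ≤ 2 * Z1 * R) := by
  have hc' : (0:ℝ) < c := by exact_mod_cast hc
  have hB : 0 < B := by rw [← hRB]; positivity
  have hsZ : 0 < √Z1 := Real.sqrt_pos.2 hZ1
  have hsq : √Z1 ^ 2 = Z1 := Real.sq_sqrt hZ1.le
  have hy2 : ∀ y ∈ S, nrm y ^ 2 ≤ Z1 * R ^ 2 := by
    intro y hy
    obtain ⟨_, _, h3, h4, h5⟩ := hS y hy
    have hn : 0 < nrm y := lt_of_lt_of_le one_pos (one_le_nrm h3)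
    have h6 : (R * c) * nrm y ^ 2 ≤ (R * c) * (Z1 * R ^ 2) := by
      calc (R * c) * nrm y ^ 2 ≤ nrm (qf y) * nrm y ^ 2 := by gcongr
        _ ≤ Z1 * c * B := h5
        _ = _ := by rw [← hRB]; ring
    exact le_of_mul_le_mul_left h6 (by positivity)
  have hcone := cone_bound hc (A := √Z1) (c := c / √Z1) (Z := Z1 * c * B) hsZ.le
    (by rw [mul_div_cancel₀ _ hsZ.ne']) (by positivity) (J c) S (by
      intro y hy
      obtain ⟨h1, h2, h3, h4, h5⟩ := hS y hy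
      refine ⟨mem_J_of hc h1 h2, h3, ?_, h5⟩
      have h6 : nrm y ≤ √Z1 * R := by
        apply le_of_sq_le_sq _ (by positivity)
        rw [mul_pow, hsq]; exact hy2 y hy
      calc c / √Z1 * nrm y ≤ c / √Z1 * (√Z1 * R) := by gcongr
        _ = R * c := by field_simp
        _ < nrm (qf y) := h4)
  have hJ := (card_J hc).2
  have hJ2 : ((J c).card : ℝ) / (c:ℝ) ^ 4 ≤ 1 / (c:ℝ) ^ 2 := by
    rw [div_le_div_iff₀ (by positivity) (by positivity)]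
    calc ((J c).card : ℝ) * (c:ℝ) ^ 2 ≤ (c:ℝ) ^ 2 * (c:ℝ) ^ 2 := by gcongr
      _ = _ := by ring
  have hcC := coneC_pos hsZ.le
  refine ⟨?_, ?_, ?_⟩
  · refine hcone.1.trans ?_
    calc coneC (√Z1) * ((J c).card / (c:ℝ) ^ 4) * (Z1 * c * B)
        ≤ coneC (√Z1) * (1 / (c:ℝ) ^ 2) * (Z1 * c * B) := by gcongr
      _ = _ := by field_simp
  · intro Y1 hY1 hSY
    refine (hcone.2 Y1 hY1 hSY).trans ?_
    calc coneC (√Z1) * ((J c).card / (c:ℝ) ^ 4) * ((Z1 * c * B) ^ 2 / Y1 ^ 4)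
        ≤ coneC (√Z1) * (1 / (c:ℝ) ^ 2) * ((Z1 * c * B) ^ 2 / Y1 ^ 4) := by gcongr
      _ = _ := by field_simp
  · intro y hy
    have h1 := hy2 y hy
    refine ⟨h1, ?_⟩
    obtain ⟨_, _, _, h4, _⟩ := hS y hy
    have h5 := nrm_qf_le y
    have h6 : R * c ≤ R * (2 * Z1 * R) := by nlinarith
    exact le_of_mul_le_mul_left h6 hR

/-- vectors of which the quadrics have an additional prime divisor -/
theorem coneA' {Z1 B : ℝ} (hZ1 : 0 < Z1) (hB : 0 < B) {p c : ℕ} (hp : p.Prime)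
    (hc : 0 < c) (S : Finset (Fin 4 → ℤ))
    (hS : ∀ y ∈ S, (∀ j, ((p * c : ℕ):ℤ) ∣ qf y j) ∧ PrimMod c y ∧ y ≠ 0 ∧
      ((p * c : ℕ) : ℝ) * nrm y < nrm (qf y) ∧ nrm (qf y) * nrm y ^ 2 ≤ Z1 * c * B) :
    (S.card : ℝ) ≤ coneC 1 * Z1 * (B / c) * (1 / (p:ℝ) ^ 2) := by
  have hc' : (0:ℝ) < c := by exact_mod_cast hc
  have hp' : (0:ℝ) < p := by exact_mod_cast hp.pos
  have hpc : 0 < p * c := Nat.mul_pos hp.pos hc
  have hpc' : (0:ℝ) < ((p * c : ℕ) : ℝ) := by exact_mod_cast hpc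
  have hcone := cone_bound hpc (A := 1) (c := ((p * c : ℕ) : ℝ)) (Z := Z1 * c * B) zero_le_one
    (by rw [one_mul]) (by positivity) (J2 p c) S (by
      intro y hy
      obtain ⟨h1, h2, h3, h4, h5⟩ := hS y hy
      exact ⟨mem_J2_of hp.pos hc h1 h2, h3, h4, h5⟩)
  have hJ := card_J2 hp hc
  have hJ2 : ((J2 p c).card : ℝ) / ((p * c : ℕ) : ℝ) ^ 4 ≤ 1 / ((p * c : ℕ) : ℝ) ^ 2 := by
    rw [div_le_div_iff₀ (by positivity) (by positivity)]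
    calc ((J2 p c).card : ℝ) * ((p * c : ℕ) : ℝ) ^ 2
        ≤ ((p * c : ℕ) : ℝ) ^ 2 * ((p * c : ℕ) : ℝ) ^ 2 := by gcongr
      _ = _ := by ring
  have hcC := coneC_pos (zero_le_one (α := ℝ))
  refine hcone.1.trans ?_
  calc coneC 1 * ((J2 p c).card / ((p * c : ℕ) : ℝ) ^ 4) * (Z1 * c * B)
      ≤ coneC 1 * (1 / ((p * c : ℕ) : ℝ) ^ 2) * (Z1 * c * B) := by gcongr
    _ = _ := by push_cast; field_simp

/-- harmonic sums -/
theorem sum_inv_Icc {a : ℕ} (ha : 0 < a) (k : ℕ) :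
    ∑ n ∈ Icc a (a + k), 1 / (n:ℝ) ≤ 1 / a + Real.log (((a + k : ℕ) : ℝ) / a) := by
  have ha' : (0:ℝ) < a := by exact_mod_cast ha
  induction k with
  | zero =>
    simp [div_self ha'.ne']
  | succ k ih =>
    rw [← add_assoc, sum_Icc_succ_top (by omega)]
    have hpos : (0:ℝ) < ((a + k : ℕ) : ℝ) := by positivity
    have hpos' : (0:ℝ) < ((a + k + 1 : ℕ) : ℝ) := by positivity
    have h1 := Real.one_sub_inv_le_log_of_pos (show 0 < ((a + k + 1 : ℕ) : ℝ) / ((a + k : ℕ) : ℝ) by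
      positivity)
    have h2 : 1 - (((a + k + 1 : ℕ) : ℝ) / ((a + k : ℕ) : ℝ))⁻¹ = 1 / ((a + k + 1 : ℕ) : ℝ) := by
      rw [inv_div, eq_div_iff hpos'.ne', sub_mul, div_mul_cancel₀ _ hpos'.ne', one_mul]
      push_cast; ring
    rw [h2] at h1
    have h3 : Real.log (((a + k + 1 : ℕ) : ℝ) / a) = Real.log (((a + k : ℕ) : ℝ) / a) +
        Real.log (((a + k + 1 : ℕ) : ℝ) / ((a + k : ℕ) : ℝ)) := by
      rw [← Real.log_mul (by positivity) (by positivity)]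
      congr 1
      field_simp
    rw [h3]
    linarith

theorem sum_inv_le {u v : ℝ} (hu : 1 ≤ u) (huv : u ≤ v) (F : Finset ℕ)
    (hF : ∀ n ∈ F, u ≤ n ∧ (n:ℝ) ≤ v) : ∑ n ∈ F, 1 / (n:ℝ) ≤ 1 + Real.log (v / u) := by
  have hlog : 0 ≤ Real.log (v / u) := Real.log_nonneg (by rw [one_le_div (by linarith)]; exact huv)
  have hsub : F ⊆ Icc ⌈u⌉₊ ⌊v⌋₊ := fun n hn =>
    mem_Icc.2 ⟨Nat.ceil_le.2 (hF n hn).1, Nat.le_floor (hF n hn).2⟩
  refine (sum_le_sum_of_subset_of_nonneg hsub fun _ _ _ => by positivity).trans ?_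
  have ha : 0 < ⌈u⌉₊ := Nat.ceil_pos.2 (by linarith)
  have ha' : (1:ℝ) ≤ (⌈u⌉₊ : ℝ) := by exact_mod_cast ha
  by_cases h : ⌈u⌉₊ ≤ ⌊v⌋₊
  · obtain ⟨k, hk⟩ : ∃ k, ⌊v⌋₊ = ⌈u⌉₊ + k := ⟨⌊v⌋₊ - ⌈u⌉₊, by omega⟩
    rw [hk]
    refine (sum_inv_Icc ha k).trans (add_le_add ?_ ?_)
    · rw [div_le_one (by linarith)]; exact ha'
    · apply Real.log_le_log (by positivity)
      rw [← hk]
      have h1 : (⌊v⌋₊ : ℝ) ≤ v := Nat.floor_le (by linarith)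
      have h2 : u ≤ (⌈u⌉₊ : ℝ) := Nat.le_ceil u
      have hv0 : 0 ≤ v := by linarith
      have hu0 : 0 < u := by linarith
      gcongr
  · rw [Icc_eq_empty h, sum_empty]; linarith

theorem sum_inv_dvd_le {v : ℝ} (hv : 1 ≤ v) {d : ℕ} (hd : 0 < d) (F : Finset ℕ)
    (hF : ∀ n ∈ F, 0 < n ∧ (n:ℝ) ≤ v ∧ d ∣ n) :
    ∑ n ∈ F, 1 / (n:ℝ) ≤ 1 / d * (1 + Real.log v) := by
  classical
  have hd' : (0:ℝ) < d := by exact_mod_cast hd
  have hd1 : (1:ℝ) ≤ d := by exact_mod_cast hd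
  have hinj : Set.InjOn (fun n => n / d) (F : Set ℕ) := by
    intro a ha b hb hab
    have e1 := Nat.mul_div_cancel' (hF a ha).2.2
    have e2 := Nat.mul_div_cancel' (hF b hb).2.2
    simp only at hab
    rw [← e1, ← e2, hab]
  have h1 : ∑ n ∈ F, 1 / (n:ℝ) = 1 / d * ∑ n ∈ F.image (fun n => n / d), 1 / (n:ℝ) := by
    rw [sum_image hinj, mul_sum]
    refine sum_congr rfl fun n hn => ?_
    have e1 := Nat.mul_div_cancel' (hF n hn).2.2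
    have e2 : (n:ℝ) = d * ((n / d : ℕ) : ℝ) := by exact_mod_cast e1.symm
    rw [e2]
    field_simp
  rw [h1]
  apply mul_le_mul_of_nonneg_left _ (by positivity)
  have h2 := sum_inv_le (u := 1) (v := v) le_rfl hv (F.image (fun n => n / d)) (by
    intro m hm
    obtain ⟨n, hn, rfl⟩ := mem_image.1 hm
    obtain ⟨h0, h1, h2⟩ := hF n hn
    have e1 := Nat.mul_div_cancel' h2
    have h3 : 0 < n / d := Nat.div_pos (Nat.le_of_dvd h0 h2) hd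
    refine ⟨by exact_mod_cast h3, ?_⟩
    have h4 : ((n / d : ℕ) : ℝ) ≤ n := by exact_mod_cast Nat.div_le_self n d
    linarith)
  rwa [div_one] at h2

end Pool.Agent.Lib.MP_1acd66_nt.Tw
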