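import Pool.Agent.Lib.MP_1acd66_nt.Tw.Statement

/-!
Basic facts on incident pairs.
-/

namespace Pool.Agent.Lib.MP_1acd66_nt.Tw

section

variable {K : Type*} [CommRing K]

theorem qf_zero (y : Fin 4 → K) : qf y 0 = y 1 * y 3 - y 2 ^ 2 := rfl

theorem qf_one (y : Fin 4 → K) : qf y 1 = y 1 * y 2 - y 0 * y 3 := rfl

theorem qf_two (y : Fin 4 → K) : qf y 2 = y 0 * y 2 - y 1 ^ 2 := rfl

theorem inc_qf (y : Fin 4 → K) : Inc (qf y) y := by
  constructor
  · rw [qf_zero, qf_one, qf_two]; ring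
  · rw [qf_zero, qf_one, qf_two]; ring

theorem Inc.smul {x : Fin 3 → K} {y : Fin 4 → K} (h : Inc x y) (s t : K) :
    Inc (s • x) (t • y) := by
  obtain ⟨h1, h2⟩ := h
  constructor
  · simp only [Pi.smul_apply, smul_eq_mul]
    linear_combination s * t * h1
  · simp only [Pi.smul_apply, smul_eq_mul]
    linear_combination s * t * h2

theorem qf_smul (t : K) (y : Fin 4 → K) : qf (t • y) = t ^ 2 • qf y := by
  funext i
  fin_cases i <;> simp [qf] <;> ring

/-- incident pairs are proportional to the quadrics -/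
theorem Inc.prop {x : Fin 3 → K} {y : Fin 4 → K} (h : Inc x y) (i j : Fin 3) :
    x i * qf y j = x j * qf y i := by
  obtain ⟨h1, h2⟩ := h
  have h01 : x 0 * qf y 1 = x 1 * qf y 0 := by
    rw [qf_zero, qf_one]
    linear_combination (y 2) * h2 - (y 3) * h1
  have h02 : x 0 * qf y 2 = x 2 * qf y 0 := by
    rw [qf_zero, qf_two]
    linear_combination (y 2) * h1 - (y 1) * h2
  have h12 : x 1 * qf y 2 = x 2 * qf y 1 := by
    rw [qf_one, qf_two]
    linear_combination (y 0) * h2 - (y 1) * h1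
  fin_cases i <;> fin_cases j
  · rfl
  · exact h01
  · exact h02
  · exact h01.symm
  · rfl
  · exact h12
  · exact h02.symm
  · exact h12.symm
  · rfl

end

/-- The primitivity of an integral vector. -/
def Prim {n : ℕ} (x : Fin n → ℤ) : Prop := ∃ a : Fin n → ℤ, ∑ i, a i * x i = 1

/-- Primitive incident pairs: the quadrics are a multiple of `x`. -/
theorem Inc.exists_mul {x : Fin 3 → ℤ} {y : Fin 4 → ℤ} (h : Inc x y) (hx : Prim x) :
    ∃ c : ℤ, qf y = c • x := by
  obtain ⟨a, ha⟩ := hx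
  refine ⟨∑ i, a i * qf y i, ?_⟩
  funext j
  rw [Pi.smul_apply, smul_eq_mul, Finset.sum_mul]
  calc qf y j = (∑ i, a i * x i) * qf y j := by rw [ha, one_mul]
    _ = ∑ i, a i * qf y i * x j := by
        rw [Finset.sum_mul]
        refine Finset.sum_congr rfl fun i _ => ?_
        have := h.prop i j
        linear_combination a i * this

/-- degenerate vectors -/
theorem degenerate_form {y : Fin 4 → ℤ} (hy : y ≠ 0) (h : qf y = 0) :
    ∃ s u t : ℤ, IsCoprime s u ∧ t ≠ 0 ∧ y 0 = t * s ^ 3 ∧ y 1 = t * s ^ 2 * u ∧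
      y 2 = t * s * u ^ 2 ∧ y 3 = t * u ^ 3 := by
  have h0 : y 1 * y 3 - y 2 ^ 2 = 0 := congrFun h 0
  have h1 : y 1 * y 2 - y 0 * y 3 = 0 := congrFun h 1
  have h2 : y 0 * y 2 - y 1 ^ 2 = 0 := congrFun h 2
  by_cases hz : y 0 = 0 ∧ y 1 = 0
  · obtain ⟨hz0, hz1⟩ := hz
    rw [hz1] at h0
    have hz2 : y 2 = 0 := by
      have : y 2 ^ 2 = 0 := by linarith
      exact pow_eq_zero_iff (two_ne_zero) |>.1 this
    refine ⟨0, 1, y 3, isCoprime_zero_left.2 isUnit_one, ?_, by simp [hz0], by simp [hz1],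
      by simp [hz2], by simp⟩
    intro h3
    apply hy
    funext i
    fin_cases i
    · exact hz0
    · exact hz1
    · exact hz2
    · exact h3
  · have hg : Int.gcd (y 0) (y 1) ≠ 0 := by
      intro h3
      exact hz (Int.gcd_eq_zero_iff.1 h3)
    obtain ⟨g, s, u, hgpos, hcop, hs, hu⟩ : ∃ g s u : ℤ, g ≠ 0 ∧ IsCoprime s u ∧
        y 0 = g * s ∧ y 1 = g * u := by
      obtain ⟨s, u, hsu, h3, h4⟩ := Int.exists_gcd_one (Nat.pos_of_ne_zero hg)
      refine ⟨(Int.gcd (y 0) (y 1) : ℤ), s, u, by exact_mod_cast hg,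
        Int.isCoprime_iff_gcd_eq_one.2 hsu, ?_, ?_⟩
      · rw [mul_comm]; exact h3
      · rw [mul_comm]; exact h4
    rw [hs, hu] at h2 h1
    rw [hu] at h0
    -- s y2 = g u^2
    have h3 : s * y 2 = g * u ^ 2 := by
      have : g * (s * y 2 - g * u ^ 2) = 0 := by linear_combination h2
      rcases mul_eq_zero.1 this with h4 | h4
      · exact absurd h4 hgpos
      · linarith
    -- u y2 = s y3
    have h4 : u * y 2 = s * y 3 := by
      have : g * (u * y 2 - s * y 3) = 0 := by linear_combination h1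
      rcases mul_eq_zero.1 this with h5 | h5
      · exact absurd h5 hgpos
      · linarith
    have hs0 : s ≠ 0 := by
      intro h5
      rw [h5, zero_mul] at h3
      have h6 : u = 0 := by
        rcases mul_eq_zero.1 h3.symm with h7 | h7
        · exact absurd h7 hgpos
        · exact pow_eq_zero_iff (two_ne_zero) |>.1 h7
      rw [h5, h6] at hcop
      exact not_isCoprime_zero_zero hcop
    have h5 : s ∣ g := by
      have h6 : s ∣ g * u ^ 2 := ⟨y 2, h3.symm⟩
      exact (hcop.pow_right (n := 2)).dvd_of_dvd_mul_right h6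
    obtain ⟨g', hg'⟩ := h5
    have h6 : y 2 = g' * u ^ 2 := by
      have : s * (y 2 - g' * u ^ 2) = 0 := by rw [hg'] at h3; linear_combination h3
      rcases mul_eq_zero.1 this with h7 | h7
      · exact absurd h7 hs0
      · linarith
    have h7 : s * y 3 = g' * u ^ 3 := by rw [← h4, h6]; ring
    have h8 : s ∣ g' := by
      have h9 : s ∣ g' * u ^ 3 := ⟨y 3, h7.symm⟩
      exact (hcop.pow_right (n := 3)).dvd_of_dvd_mul_right h9
    obtain ⟨t, ht⟩ := h8
    refine ⟨s, u, t, hcop, ?_, ?_, ?_, ?_, ?_⟩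
    · intro h9
      rw [h9, mul_zero] at ht
      rw [ht, mul_zero] at hg'
      exact hgpos hg'
    · rw [hs, hg', ht]; ring
    · rw [hu, hg', ht]; ring
    · rw [h6, ht]; ring
    · have : s * (y 3 - t * u ^ 3) = 0 := by rw [ht] at h7; linear_combination h7
      rcases mul_eq_zero.1 this with h9 | h9
      · exact absurd h9 hs0
      · linarith

/-- binary quadratic forms with a given zero -/
theorem quad_zero {x : Fin 3 → ℤ} {s u : ℤ} (hc : IsCoprime s u)
    (h : x 0 * s ^ 2 + x 1 * s * u + x 2 * u ^ 2 = 0) :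
    ∃ w v : ℤ, x 0 = -w * u ∧ x 1 = s * w - u * v ∧ x 2 = s * v := by
  have h1 : s ∣ x 2 := by
    have h2 : s ∣ x 2 * u ^ 2 := ⟨-(x 0 * s + x 1 * u), by linear_combination h⟩
    exact (hc.pow_right (n := 2)).dvd_of_dvd_mul_right h2
  obtain ⟨v, hv⟩ := h1
  by_cases hs : s = 0
  · subst hs
    have hu : u * u = 1 := by
      have h3 : IsUnit u := isCoprime_zero_left.1 hc
      exact Int.isUnit_mul_self h3
    refine ⟨-x 0 * u, -u * x 1, ?_, ?_, ?_⟩
    · linear_combination (-x 0) * hu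
    · linear_combination (-x 1) * hu
    · rw [hv]; ring
  · have h2 : x 0 * s + u * (x 1 + v * u) = 0 := by
      have : s * (x 0 * s + u * (x 1 + v * u)) = 0 := by rw [hv] at h; linear_combination h
      rcases mul_eq_zero.1 this with h3 | h3
      · exact absurd h3 hs
      · exact h3
    have h3 : s ∣ x 1 + v * u := by
      have h4 : s ∣ (x 1 + v * u) * u := ⟨-x 0, by linear_combination h2⟩
      exact hc.dvd_of_dvd_mul_right h4
    obtain ⟨w, hw⟩ := h3
    refine ⟨w, v, ?_, by linear_combination hw, hv⟩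
    have : s * (x 0 + w * u) = 0 := by rw [hw] at h2; linear_combination h2
    rcases mul_eq_zero.1 this with h4 | h4
    · exact absurd h4 hs
    · linarith

end Pool.Agent.Lib.MP_1acd66_nt.Tw
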