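import Pool.Agent.Lib.MP_1acd66_nt.Tw.Short

/-!
The number of primitive vectors `x` with a short incident vector, degenerate case.
-/

namespace Pool.Agent.Lib.MP_1acd66_nt.Tw

open Finset

theorem wv_count_aux {s u : ℤ} {m : ℕ} (hm : 0 < m) (hs : s.natAbs = m) {X : ℝ}
    (P : Finset (ℤ × ℤ))
    (hP : ∀ q ∈ P, |((q.1 * u : ℤ) : ℝ)| ≤ X ∧ |((s * q.2 : ℤ) : ℝ)| ≤ X ∧
      |((s * q.1 - u * q.2 : ℤ) : ℝ)| ≤ X ∧ q ≠ 0) :
    (P.card : ℝ) ≤ 9 * X ^ 2 / (m : ℝ) ^ 2 := by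
  classical
  have hm' : (0 : ℝ) < m := by exact_mod_cast hm
  have hs' : |(s : ℝ)| = m := by
    rw [← hs, Nat.cast_natAbs, Int.cast_abs]
  rcases P.eq_empty_or_nonempty with rfl | ⟨q0, hq0⟩
  · rw [card_empty, Nat.cast_zero]; positivity
  have hX : (m : ℝ) ≤ X := by
    obtain ⟨h1, h2, h3, h4⟩ := hP q0 hq0
    by_cases hv : q0.2 = 0
    · have hw : q0.1 ≠ 0 := fun hw => h4 (Prod.ext hw hv)
      rw [hv, mul_zero, sub_zero] at h3
      push_cast at h3
      rw [abs_mul, hs'] at h3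
      have h5 : (1 : ℝ) ≤ |(q0.1 : ℝ)| := by exact_mod_cast Int.one_le_abs hw
      nlinarith
    · push_cast at h2
      rw [abs_mul, hs'] at h2
      have h5 : (1 : ℝ) ≤ |(q0.2 : ℝ)| := by exact_mod_cast Int.one_le_abs hv
      nlinarith
  have hX0 : 0 < X := lt_of_lt_of_le hm' hX
  have hV : ((P.image Prod.snd).card : ℝ) ≤ 2 * (X / m) + 1 := by
    apply card_int_abs_le _ (by positivity)
    intro v hv
    obtain ⟨q, hq, rfl⟩ := mem_image.1 hv
    have h2 := (hP q hq).2.1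
    push_cast at h2
    rw [abs_mul, hs'] at h2
    rw [le_div_iff₀ hm']
    linarith
  have hW : ∀ v ∈ P.image Prod.snd, ((P.filter (fun q => q.2 = v)).card : ℝ) ≤ 2 * (X / m) + 1 := by
    intro v _
    have h1 : (P.filter (fun q => q.2 = v)).card = ((P.filter (fun q => q.2 = v)).image Prod.fst).card := by
      rw [card_image_of_injOn]
      intro a ha b hb hab
      have ha' := (mem_filter.1 ha).2
      have hb' := (mem_filter.1 hb).2
      exact Prod.ext hab (ha'.trans hb'.symm)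
    rw [h1]
    apply card_int_le _ (by positivity)
    intro a ha b hb
    obtain ⟨q, hq, rfl⟩ := mem_image.1 ha
    obtain ⟨q', hq', rfl⟩ := mem_image.1 hb
    rw [mem_filter] at hq hq'
    have h2 := (hP q hq.1).2.2.1
    have h3 := (hP q' hq'.1).2.2.1
    rw [hq.2] at h2
    rw [hq'.2] at h3
    push_cast at h2 h3
    have h4 : |(s : ℝ) * ((q.1 : ℝ) - q'.1)| ≤ 2 * X := by
      have : (s : ℝ) * ((q.1 : ℝ) - q'.1) = (s * q.1 - u * v) - (s * q'.1 - u * v) := by ring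
      rw [this]
      refine (abs_sub _ _).trans ?_
      linarith
    rw [abs_mul, hs'] at h4
    push_cast
    refine (le_abs_self _).trans ?_
    have e : 2 * (X / m) = 2 * X / m := by ring
    rw [e, le_div_iff₀ hm']
    linarith
  have h1 : (P.card : ℝ) = ∑ v ∈ P.image Prod.snd, ((P.filter (fun q => q.2 = v)).card : ℝ) := by
    rw [card_eq_sum_card_fiberwise (f := Prod.snd) (t := P.image Prod.snd)
      (fun q hq => mem_image_of_mem _ hq)]
    push_cast
    rfl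
  have hXm : 1 ≤ X / m := by rw [one_le_div hm']; exact hX
  calc (P.card : ℝ) = ∑ v ∈ P.image Prod.snd, ((P.filter (fun q => q.2 = v)).card : ℝ) := h1
    _ ≤ ∑ _v ∈ P.image Prod.snd, (2 * (X / m) + 1) := sum_le_sum hW
    _ = ((P.image Prod.snd).card : ℝ) * (2 * (X / m) + 1) := by rw [sum_const, nsmul_eq_mul]
    _ ≤ (2 * (X / m) + 1) * (2 * (X / m) + 1) := by gcongr
    _ ≤ (3 * (X / m)) * (3 * (X / m)) := by gcongr <;> linarith
    _ = _ := by ring

theorem wv_count {s u : ℤ} {m : ℕ} (hm : 0 < m) (hs : s.natAbs = m ∨ u.natAbs = m) {X : ℝ}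
    (P : Finset (ℤ × ℤ))
    (hP : ∀ q ∈ P, |((q.1 * u : ℤ) : ℝ)| ≤ X ∧ |((s * q.2 : ℤ) : ℝ)| ≤ X ∧
      |((s * q.1 - u * q.2 : ℤ) : ℝ)| ≤ X ∧ q ≠ 0) :
    (P.card : ℝ) ≤ 9 * X ^ 2 / (m : ℝ) ^ 2 := by
  classical
  rcases hs with hs | hs
  · exact wv_count_aux hm hs P hP
  · have h1 : P.card = (P.image Prod.swap).card := by
      rw [card_image_of_injective _ Prod.swap_injective]
    rw [h1]
    apply wv_count_aux (s := u) (u := s) hm hs
    intro q hq
    obtain ⟨q', hq', rfl⟩ := mem_image.1 hq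
    obtain ⟨a1, a2, a3, a4⟩ := hP q' hq'
    refine ⟨?_, ?_, ?_, ?_⟩
    · rw [Prod.fst_swap, mul_comm]; exact a2
    · rw [Prod.snd_swap, mul_comm]; exact a1
    · rw [Prod.fst_swap, Prod.snd_swap]
      have : ((u * q'.2 - s * q'.1 : ℤ) : ℝ) = -((s * q'.1 - u * q'.2 : ℤ) : ℝ) := by
        push_cast; ring
      rw [this, abs_neg]; exact a3
    · intro h
      apply a4
      rw [← Prod.swap_swap q', h]
      rfl

/-- the pairs with maximum `n` -/
noncomputable def Qn (n : ℕ) : Finset (ℤ × ℤ) :=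
  (({-(n:ℤ), (n:ℤ)} : Finset ℤ) ×ˢ Icc (-(n:ℤ)) n) ∪ (Icc (-(n:ℤ)) n ×ˢ ({-(n:ℤ), (n:ℤ)} : Finset ℤ))

theorem card_Qn {n : ℕ} (hn : 0 < n) : ((Qn n).card : ℝ) ≤ 12 * n := by
  have h1 : (Qn n).card ≤ 12 * n := by
    unfold Qn
    refine (card_union_le _ _).trans ?_
    rw [card_product, card_product]
    have h2 : ({-(n:ℤ), (n:ℤ)} : Finset ℤ).card ≤ 2 := card_le_two
    have h3 : (Icc (-(n:ℤ)) n).card = 2 * n + 1 := by
      rw [Int.card_Icc]; omega
    rw [h3]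
    nlinarith
  exact_mod_cast h1

theorem mem_Qn {n : ℕ} {s u : ℤ} (h : max s.natAbs u.natAbs = n) : (s, u) ∈ Qn n := by
  unfold Qn
  rw [mem_union, mem_product, mem_product, mem_insert, mem_singleton, mem_Icc, mem_insert,
    mem_singleton, mem_Icc]
  simp only
  rcases max_choice s.natAbs u.natAbs with h1 | h1
  · left
    have := le_max_right s.natAbs u.natAbs
    omega
  · right
    have := le_max_left s.natAbs u.natAbs
    omega

theorem sum_inv_sq_le (N : ℕ) : ∑ n ∈ Icc 1 N, 1 / (n : ℝ) ^ 2 ≤ 2 := by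
  have h : ∀ N : ℕ, ∑ n ∈ Icc 1 (N + 1), 1 / (n : ℝ) ^ 2 ≤ 2 - 1 / ((N : ℝ) + 1) := by
    intro N
    induction N with
    | zero => simp; norm_num
    | succ k ih =>
      rw [sum_Icc_succ_top (by omega)]
      have h1 : 1 / (((k + 1 + 1 : ℕ) : ℝ)) ^ 2 ≤ 1 / ((k : ℝ) + 1) - 1 / (((k + 1 : ℕ) : ℝ) + 1) := by
        push_cast
        have hk : (0 : ℝ) ≤ k := Nat.cast_nonneg k
        rw [div_sub_div _ _ (by positivity) (by positivity), div_le_div_iff₀ (by positivity)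
          (by positivity)]
        nlinarith
      linarith
  rcases Nat.eq_zero_or_pos N with rfl | hN
  · simp
  · obtain ⟨M, rfl⟩ : ∃ M, N = M + 1 := ⟨N - 1, by omega⟩
    have := h M
    have h2 : 0 ≤ 1 / ((M : ℝ) + 1) := by positivity
    linarith

/-- the parameters of a degenerate pair -/
theorem deg_params {x : Fin 3 → ℤ} {z : Fin 4 → ℤ} (hz : z ≠ 0) (hinc : Inc x z)
    (hq : qf z = 0) : ∃ s u w v : ℤ, 0 < max s.natAbs u.natAbs ∧
      ((max s.natAbs u.natAbs : ℕ) : ℝ) ^ 3 ≤ nrm z ∧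
      (x 0 = -w * u ∧ x 1 = s * w - u * v ∧ x 2 = s * v) := by
  obtain ⟨s, u, t, hcop, ht, h0, h1, h2, h3⟩ := degenerate_form hz hq
  obtain ⟨i1, i2⟩ := hinc
  rw [h0, h1, h2] at i1
  rw [h1, h2, h3] at i2
  have e1 : t * s * (x 0 * s ^ 2 + x 1 * s * u + x 2 * u ^ 2) = 0 := by linear_combination i1
  have e2 : t * u * (x 0 * s ^ 2 + x 1 * s * u + x 2 * u ^ 2) = 0 := by linear_combination i2
  have hQ : x 0 * s ^ 2 + x 1 * s * u + x 2 * u ^ 2 = 0 := by
    by_contra hne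
    rcases mul_eq_zero.1 e1 with h | h
    · rcases mul_eq_zero.1 e2 with h' | h'
      · have hs : s = 0 := by
          rcases mul_eq_zero.1 h with h4 | h4
          · exact absurd h4 ht
          · exact h4
        have hu : u = 0 := by
          rcases mul_eq_zero.1 h' with h4 | h4
          · exact absurd h4 ht
          · exact h4
        rw [hs, hu] at hcop
        exact not_isCoprime_zero_zero hcop
      · exact hne h'
    · exact hne h
  obtain ⟨w, v, g0, g1, g2⟩ := quad_zero hcop hQ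
  have ht1 : (1 : ℝ) ≤ |(t : ℝ)| := by exact_mod_cast Int.one_le_abs ht
  refine ⟨s, u, w, v, ?_, ?_, g0, g1, g2⟩
  · by_contra hcon
    have hcon : max s.natAbs u.natAbs = 0 := by omega
    have hs : s = 0 := by
      have := le_max_left s.natAbs u.natAbs
      omega
    have hu : u = 0 := by
      have := le_max_right s.natAbs u.natAbs
      omega
    rw [hs, hu] at hcop
    exact not_isCoprime_zero_zero hcop
  · rcases max_choice s.natAbs u.natAbs with h | h
    · rw [h, Nat.cast_natAbs, Int.cast_abs]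
      refine le_trans ?_ (abs_le_nrm z 0)
      rw [h0]
      push_cast
      rw [abs_mul, abs_pow]
      have : 0 ≤ |(s : ℝ)| ^ 3 := by positivity
      nlinarith
    · rw [h, Nat.cast_natAbs, Int.cast_abs]
      refine le_trans ?_ (abs_le_nrm z 3)
      rw [h3]
      push_cast
      rw [abs_mul, abs_pow]
      have : 0 ≤ |(u : ℝ)| ^ 3 := by positivity
      nlinarith

/-- degenerate pairs: there is a parameter `m` -/
theorem deg_main {X : ℝ} (T : Finset (Fin 3 → ℤ)) (z : (Fin 3 → ℤ) → Fin 4 → ℤ)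
    (hT : ∀ x ∈ T, x ≠ 0 ∧ nrm x ≤ X ∧ z x ≠ 0 ∧ Inc x (z x) ∧ qf (z x) = 0) :
    ∃ m : (Fin 3 → ℤ) → ℕ, (∀ x ∈ T, 0 < m x ∧ (m x : ℝ) ^ 3 ≤ nrm (z x)) ∧
      ∀ n, 0 < n → ((T.filter (fun x => m x = n)).card : ℝ) ≤ 108 * X ^ 2 / n := by
  classical
  have hex : ∀ x ∈ T, ∃ s u w v : ℤ, 0 < max s.natAbs u.natAbs ∧
      ((max s.natAbs u.natAbs : ℕ) : ℝ) ^ 3 ≤ nrm (z x) ∧
      (x 0 = -w * u ∧ x 1 = s * w - u * v ∧ x 2 = s * v) :=
    fun x hx => deg_params (hT x hx).2.2.1 (hT x hx).2.2.2.1 (hT x hx).2.2.2.2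
  choose! s u w v h1 h2 h3 using hex
  refine ⟨fun x => max (s x).natAbs (u x).natAbs, fun x hx => ⟨h1 x hx, h2 x hx⟩, ?_⟩
  intro n hn
  have hn' : (0 : ℝ) < n := by exact_mod_cast hn
  set Tn := T.filter (fun x => max (s x).natAbs (u x).natAbs = n) with hTn
  have hmaps : ∀ x ∈ Tn, (s x, u x) ∈ Qn n := fun x hx => mem_Qn (mem_filter.1 hx).2
  have hfib : ∀ q ∈ Qn n, ((Tn.filter (fun x => (s x, u x) = q)).card : ℝ) ≤
      9 * X ^ 2 / (n : ℝ) ^ 2 := by
    intro q _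
    set Tq := Tn.filter (fun x => (s x, u x) = q) with hTq
    rcases Tq.eq_empty_or_nonempty with hemp | ⟨x0, hx0⟩
    · rw [hemp, card_empty, Nat.cast_zero]; positivity
    have hmem : ∀ x ∈ Tq, x ∈ T ∧ max (s x).natAbs (u x).natAbs = n ∧ s x = q.1 ∧ u x = q.2 := by
      intro x hx
      rw [hTq, mem_filter, hTn, mem_filter] at hx
      exact ⟨hx.1.1, hx.1.2, congrArg Prod.fst hx.2, congrArg Prod.snd hx.2⟩
    have hinj : Set.InjOn (fun x => (w x, v x)) Tq := by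
      intro a ha b hb hab
      obtain ⟨a1, _, a2, a3⟩ := hmem a ha
      obtain ⟨b1, _, b2, b3⟩ := hmem b hb
      obtain ⟨ga0, ga1, ga2⟩ := h3 a a1
      obtain ⟨gb0, gb1, gb2⟩ := h3 b b1
      rw [a2, a3] at ga1
      rw [b2, b3] at gb1
      rw [a3] at ga0
      rw [a2] at ga2
      rw [b3] at gb0
      rw [b2] at gb2
      simp only [Prod.mk.injEq] at hab
      funext j
      fin_cases j
      · change a 0 = b 0
        rw [ga0, gb0, hab.1]
      · change a 1 = b 1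
        rw [ga1, gb1, hab.1, hab.2]
      · change a 2 = b 2
        rw [ga2, gb2, hab.2]
    rw [← card_image_of_injOn hinj]
    have hmax : q.1.natAbs = n ∨ q.2.natAbs = n := by
      obtain ⟨_, a1, a2, a3⟩ := hmem x0 hx0
      rw [a2, a3] at a1
      rcases max_choice q.1.natAbs q.2.natAbs with h | h
      · left; rw [← h, a1]
      · right; rw [← h, a1]
    apply wv_count hn hmax
    intro p hp
    obtain ⟨x, hx, rfl⟩ := mem_image.1 hp
    obtain ⟨a1, _, a2, a3⟩ := hmem x hx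
    obtain ⟨g0, g1, g2⟩ := h3 x a1
    rw [a3] at g0
    rw [a2, a3] at g1
    rw [a2] at g2
    obtain ⟨hx0, hxX, _⟩ := hT x a1
    have k0 := (abs_le_nrm x 0).trans hxX
    have k1 := (abs_le_nrm x 1).trans hxX
    have k2 := (abs_le_nrm x 2).trans hxX
    refine ⟨?_, ?_, ?_, ?_⟩
    · have : ((w x * q.2 : ℤ) : ℝ) = -((x 0 : ℤ) : ℝ) := by rw [g0]; push_cast; ring
      rw [this, abs_neg]; exact k0
    · rw [← g2]; exact k2
    · rw [← g1]; exact k1
    · intro h0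
      rw [Prod.mk_eq_zero] at h0
      apply hx0
      funext j
      fin_cases j
      · change x 0 = 0
        rw [g0, h0.1]; ring
      · change x 1 = 0
        rw [g1, h0.1, h0.2]; ring
      · change x 2 = 0
        rw [g2, h0.2]; ring
  calc (Tn.card : ℝ) = ∑ q ∈ Qn n, ((Tn.filter (fun x => (s x, u x) = q)).card : ℝ) := by
        rw [card_eq_sum_card_fiberwise (f := fun x => (s x, u x)) (t := Qn n) hmaps]
        push_cast
        rfl
    _ ≤ ∑ _q ∈ Qn n, 9 * X ^ 2 / (n : ℝ) ^ 2 := sum_le_sum hfib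
    _ = ((Qn n).card : ℝ) * (9 * X ^ 2 / (n : ℝ) ^ 2) := by rw [sum_const, nsmul_eq_mul]
    _ ≤ (12 * n) * (9 * X ^ 2 / (n : ℝ) ^ 2) := by
        have := card_Qn hn
        gcongr
    _ = _ := by field_simp; ring

theorem deg_sum {X : ℝ} (T : Finset (Fin 3 → ℤ)) (z : (Fin 3 → ℤ) → Fin 4 → ℤ)
    (hT : ∀ x ∈ T, x ≠ 0 ∧ nrm x ≤ X ∧ z x ≠ 0 ∧ Inc x (z x) ∧ qf (z x) = 0) :
    ∑ x ∈ T, 1 / nrm (z x) ≤ 216 * X ^ 2 := by
  classical
  obtain ⟨m, h1, h2⟩ := deg_main T z hT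
  set M := T.sup m with hM
  have hmaps : ∀ x ∈ T, m x ∈ Icc 1 M := fun x hx =>
    mem_Icc.2 ⟨(h1 x hx).1, le_sup (f := m) hx⟩
  rw [← sum_fiberwise_of_maps_to hmaps]
  calc ∑ n ∈ Icc 1 M, ∑ x ∈ T with m x = n, 1 / nrm (z x)
      ≤ ∑ n ∈ Icc 1 M, (108 * X ^ 2) * (1 / (n : ℝ) ^ 2) := by
        refine sum_le_sum fun n hn => ?_
        obtain ⟨hn1, _⟩ := mem_Icc.1 hn
        have hn' : (1 : ℝ) ≤ n := by exact_mod_cast hn1
        have hn0 : (0 : ℝ) < n := by linarith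
        calc ∑ x ∈ T with m x = n, 1 / nrm (z x) ≤ ∑ x ∈ T with m x = n, 1 / (n : ℝ) ^ 3 := by
              refine sum_le_sum fun x hx => ?_
              rw [mem_filter] at hx
              have := (h1 x hx.1).2
              rw [hx.2] at this
              exact one_div_le_one_div_of_le (by positivity) this
          _ = ((T.filter (fun x => m x = n)).card : ℝ) * (1 / (n : ℝ) ^ 3) := by
              rw [sum_const, nsmul_eq_mul]
          _ ≤ (108 * X ^ 2 / n) * (1 / (n : ℝ) ^ 3) := by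
              have := h2 n (by omega)
              gcongr
          _ = (108 * X ^ 2) * (1 / (n : ℝ) ^ 4) := by field_simp
          _ ≤ (108 * X ^ 2) * (1 / (n : ℝ) ^ 2) := by
              have : 1 / (n : ℝ) ^ 4 ≤ 1 / (n : ℝ) ^ 2 := by
                apply one_div_le_one_div_of_le (by positivity)
                exact pow_le_pow_right₀ hn' (by norm_num)
              gcongr
    _ = (108 * X ^ 2) * ∑ n ∈ Icc 1 M, 1 / (n : ℝ) ^ 2 := by rw [mul_sum]
    _ ≤ (108 * X ^ 2) * 2 := by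
        have := sum_inv_sq_le M
        gcongr
    _ = _ := by ring

theorem deg_card {X L : ℝ} (T : Finset (Fin 3 → ℤ)) (z : (Fin 3 → ℤ) → Fin 4 → ℤ)
    (hT : ∀ x ∈ T, x ≠ 0 ∧ nrm x ≤ X ∧ z x ≠ 0 ∧ Inc x (z x) ∧ qf (z x) = 0)
    (hTL : ∀ x ∈ T, nrm (z x) ≤ L) : (T.card : ℝ) ≤ 108 * X ^ 2 * √L := by
  classical
  obtain ⟨m, h1, h2⟩ := deg_main T z hT
  set M := ⌊√L⌋₊ with hM
  have hmaps : ∀ x ∈ T, m x ∈ Icc 1 M := fun x hx => by
    obtain ⟨a1, a2⟩ := h1 x hx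
    refine mem_Icc.2 ⟨a1, Nat.le_floor ?_⟩
    apply Real.le_sqrt_of_sq_le
    have h3 : (1 : ℝ) ≤ m x := by exact_mod_cast a1
    have h4 : (m x : ℝ) ^ 2 ≤ (m x : ℝ) ^ 3 := pow_le_pow_right₀ h3 (by norm_num)
    linarith [hTL x hx]
  rw [card_eq_sum_card_fiberwise (f := m) (t := Icc 1 M) hmaps]
  push_cast
  calc ∑ n ∈ Icc 1 M, ((T.filter (fun x => m x = n)).card : ℝ) ≤ ∑ _n ∈ Icc 1 M, 108 * X ^ 2 := by
        refine sum_le_sum fun n hn => ?_
        obtain ⟨hn1, _⟩ := mem_Icc.1 hn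
        have hn' : (1 : ℝ) ≤ n := by exact_mod_cast hn1
        refine (h2 n (by omega)).trans ?_
        rw [div_le_iff₀ (by linarith)]
        have : 0 ≤ 108 * X ^ 2 := by positivity
        nlinarith
    _ = (M : ℝ) * (108 * X ^ 2) := by
        rw [sum_const, Nat.card_Icc, nsmul_eq_mul, Nat.add_sub_cancel]
    _ ≤ √L * (108 * X ^ 2) := by
        have := Nat.floor_le (Real.sqrt_nonneg L)
        gcongr
    _ = _ := by ring

end Pool.Agent.Lib.MP_1acd66_nt.Tw
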