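import Pool.Agent.Lib.MP_1acd66_nt.Tw.ConeA

/-!
The height as a function of the second vector.
-/

namespace Pool.Agent.Lib.MP_1acd66_nt.Tw

open MeasureTheory Metric Set Filter Topology

open Classical in
/-- the height as a function of the second vector -/
noncomputable def FF (M : (Fin 3 → ℝ) → (Fin 4 → ℝ) → ℝ) (y : Fin 4 → ℝ) : ℝ :=
  if qf y = 0 then 0 else M (qf y) y

/-- truncation near the cone -/
noncomputable def FT (M : (Fin 3 → ℝ) → (Fin 4 → ℝ) → ℝ) (T : ℝ) (y : Fin 4 → ℝ) : ℝ :=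
  max (FF M y) ((‖y‖ / T) ^ 4)

variable {M : (Fin 3 → ℝ) → (Fin 4 → ℝ) → ℝ}

theorem FF_eq {y : Fin 4 → ℝ} (h : qf y ≠ 0) : FF M y = M (qf y) y := if_neg h

theorem FF_zero {y : Fin 4 → ℝ} (h : qf y = 0) : FF M y = 0 := if_pos h

theorem FF_nonneg (hM : IsLocalNorm ℝ M) {y : Fin 4 → ℝ} (hy : y ≠ 0) : 0 ≤ FF M y := by
  by_cases h : qf y = 0
  · rw [FF_zero h]
  · rw [FF_eq h]; exact (hM.pos _ _ h hy (inc_qf y)).le

theorem FF_hom (hM : IsLocalNorm ℝ M) {y : Fin 4 → ℝ} (hy : y ≠ 0) {s : ℝ} (hs : 0 < s) :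
    FF M (s • y) = s ^ 4 * FF M y := by
  by_cases h : qf y = 0
  · rw [FF_zero h, FF_zero, mul_zero]
    rw [qf_smul, h, smul_zero]
  · have h' : qf (s • y) ≠ 0 := by
      rw [qf_smul]; exact smul_ne_zero (by positivity) h
    rw [FF_eq h, FF_eq h', qf_smul, hM.hom h hy (inc_qf y) (by positivity) hs]
    ring

theorem FF_upper {C : ℝ} (hC : 0 < C)
    (hb : ∀ x y, x ≠ 0 → y ≠ 0 → Inc x y → M x y ≤ C * (‖x‖ * ‖y‖ ^ 2)) {y : Fin 4 → ℝ}
    (hy : y ≠ 0) : FF M y ≤ C * (‖qf y‖ * ‖y‖ ^ 2) := by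
  by_cases h : qf y = 0
  · rw [FF_zero h]; positivity
  · rw [FF_eq h]; exact hb _ _ h hy (inc_qf y)

theorem continuous_qf : Continuous (fun y : Fin 4 → ℝ => qf y) := by
  refine continuous_pi fun j => ?_
  fin_cases j <;> simp [qf] <;> fun_prop

theorem continuousOn_FF (hM : IsLocalNorm ℝ M) : ContinuousOn (FF M) {0}ᶜ := by
  obtain ⟨c, C, hc, hC, hb⟩ := hM.bound
  intro y hy
  have hy : y ≠ 0 := hy
  apply ContinuousAt.continuousWithinAt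
  by_cases h : qf y = 0
  · rw [ContinuousAt, FF_zero h]
    have h1 : Tendsto (fun y : Fin 4 → ℝ => C * (‖qf y‖ * ‖y‖ ^ 2)) (𝓝 y) (𝓝 (C * (‖qf y‖ * ‖y‖ ^ 2))) :=
      (continuous_const.mul ((continuous_qf.norm).mul (continuous_norm.pow 2))).continuousAt
    rw [h, norm_zero, zero_mul, mul_zero] at h1
    refine squeeze_zero' ?_ ?_ h1
    · filter_upwards [(isOpen_compl_singleton (x := (0 : Fin 4 → ℝ))).mem_nhds hy] with z hz
      exact FF_nonneg hM hz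
    · filter_upwards [(isOpen_compl_singleton (x := (0 : Fin 4 → ℝ))).mem_nhds hy] with z hz
      exact FF_upper hC (fun x y hx hy h => (hb x y hx hy h).2) hz
  · have hopen : IsOpen {z : Fin 4 → ℝ | qf z ≠ 0 ∧ z ≠ 0} :=
      (isOpen_compl_singleton.preimage continuous_qf).inter isOpen_compl_singleton
    have h1 : ContinuousOn (fun z : Fin 4 → ℝ => M (qf z) z) {z | qf z ≠ 0 ∧ z ≠ 0} := by
      have h2 : ContinuousOn (fun z : Fin 4 → ℝ => ((qf z, z) : XYR)) {z | qf z ≠ 0 ∧ z ≠ 0} :=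
        (continuous_qf.prodMk continuous_id).continuousOn
      exact hM.cont.comp h2 fun z hz => ⟨hz.1, hz.2, inc_qf z⟩
    have h2 := h1.continuousAt (hopen.mem_nhds ⟨h, hy⟩)
    refine h2.congr ?_
    filter_upwards [hopen.mem_nhds (show y ∈ {z : Fin 4 → ℝ | qf z ≠ 0 ∧ z ≠ 0} from ⟨h, hy⟩)] with z hz
    exact (FF_eq hz.1).symm

theorem continuousOn_FT (hM : IsLocalNorm ℝ M) (T : ℝ) : ContinuousOn (FT M T) {0}ᶜ := by
  unfold FT
  have h2 : ContinuousOn (fun y : Fin 4 → ℝ => (‖y‖ / T) ^ 4) {0}ᶜ := by fun_prop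
  exact ContinuousOn.sup (continuousOn_FF hM) h2

theorem FT_hom (hM : IsLocalNorm ℝ M) (T : ℝ) {y : Fin 4 → ℝ} (hy : y ≠ 0) {s : ℝ} (hs : 0 < s) :
    FT M T (s • y) = s ^ 4 * FT M T y := by
  unfold FT
  rw [FF_hom hM hy hs, norm_smul, Real.norm_eq_abs, abs_of_pos hs, mul_max_of_nonneg _ _ (by positivity)]
  congr 1
  ring

theorem FT_lower {T : ℝ} (y : Fin 4 → ℝ) : (1 / T ^ 4) * ‖y‖ ^ 4 ≤ FT M T y := by
  refine le_trans (le_of_eq ?_) (le_max_right _ _)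
  rw [div_pow]; ring

theorem FF_le_FT {T : ℝ} (y : Fin 4 → ℝ) : FF M y ≤ FT M T y := le_max_left _ _

theorem FT_modulus (hM : IsLocalNorm ℝ M) {T : ℝ} (hT : 0 < T) {ε : ℝ} (hε : 0 < ε) :
    ∃ δ : ℝ, 0 < δ ∧ δ ≤ 1 / 2 ∧ ∀ x y : Fin 4 → ℝ, x ≠ 0 → ‖y - x‖ ≤ δ * ‖x‖ →
      y ≠ 0 ∧ FT M T y ≤ (1 + ε) * FT M T x ∧ FT M T x ≤ (1 + ε) * FT M T y := by
  set c := 1 / (16 * T ^ 4) with hc
  have hcp : 0 < c := by positivity
  obtain ⟨δ, hδ, hδ2, H⟩ := MP_1acd66_nt.modulus (continuousOn_FT hM T) (ε := ε * c) (by positivity)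
  refine ⟨δ, hδ, hδ2, ?_⟩
  intro x y hx hxy
  have hn : 0 < ‖x‖ := norm_pos_iff.2 hx
  have hy0 : y ≠ 0 := by
    rintro rfl
    rw [zero_sub, norm_neg] at hxy
    nlinarith
  set s := ‖x‖⁻¹ with hs
  have hsp : 0 < s := inv_pos.2 hn
  have h1 : ‖s • x‖ = 1 := by
    rw [norm_smul, Real.norm_eq_abs, abs_of_pos hsp, hs, inv_mul_cancel₀ hn.ne']
  have h2 : ‖s • y - s • x‖ ≤ δ := by
    rw [← smul_sub, norm_smul, Real.norm_eq_abs, abs_of_pos hsp, hs, inv_mul_le_iff₀ hn]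
    linarith
  have h3 := H _ _ h1 h2
  have hyn : 1 / 2 ≤ ‖s • y‖ := by
    have : ‖s • x‖ ≤ ‖s • y‖ + ‖s • y - s • x‖ := by
      calc ‖s • x‖ = ‖s • y - (s • y - s • x)‖ := by congr 1; abel
        _ ≤ _ := norm_sub_le _ _
    linarith
  have p1 : c ≤ FT M T (s • x) := by
    refine le_trans ?_ (FT_lower _)
    rw [h1, hc, one_pow, mul_one]
    apply one_div_le_one_div_of_le (by positivity)
    nlinarith [pow_pos hT 4]
  have p2 : c ≤ FT M T (s • y) := by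
    refine le_trans ?_ (FT_lower _)
    have h4 : (1 / 2 : ℝ) ^ 4 ≤ ‖s • y‖ ^ 4 := pow_le_pow_left₀ (by norm_num) hyn 4
    calc c = (1 / T ^ 4) * (1 / 2) ^ 4 := by rw [hc]; field_simp; norm_num
      _ ≤ _ := by gcongr
  rw [FT_hom hM T hx hsp] at h3 p1
  rw [FT_hom hM T hy0 hsp] at h3 p2
  have hs4 : 0 < s ^ 4 := by positivity
  rw [abs_le] at h3
  refine ⟨hy0, ?_, ?_⟩
  · have : s ^ 4 * FT M T y ≤ s ^ 4 * ((1 + ε) * FT M T x) := by nlinarith [h3.2]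
    exact le_of_mul_le_mul_left this hs4
  · have : s ^ 4 * FT M T x ≤ s ^ 4 * ((1 + ε) * FT M T y) := by nlinarith [h3.1]
    exact le_of_mul_le_mul_left this hs4

/-- volume of the truncated body -/
noncomputable def VT (M : (Fin 3 → ℝ) → (Fin 4 → ℝ) → ℝ) (T : ℝ) : ℝ :=
  (volume : Measure (Fin 4 → ℝ)).real (sub (FT M T) 1)

theorem VT_nonneg (T : ℝ) : 0 ≤ VT M T := measureReal_nonneg

theorem FT_class (hM : IsLocalNorm ℝ M) {T : ℝ} (hT : 0 < T) {ε : ℝ} (hε : 0 < ε) :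
    ∃ K : ℝ, 0 < K ∧ ∀ m : ℕ, 0 < m → ∀ y0 : Fin 4 → ℤ, ∀ Y : ℝ, 0 < Y →
      (clsSet (FT M T) m y0 Y).Finite ∧
      |((clsSet (FT M T) m y0 Y).ncard : ℝ) - VT M T * (Y / (m:ℝ) ^ 4)| ≤
        ε * (Y / (m:ℝ) ^ 4) + K := by
  have hV := VT_nonneg (M := M) T
  set ε' := min 1 (ε / (2 * (VT M T + 1))) with hε'
  have hε'p : 0 < ε' := by positivity
  have hε'2 : 2 * ε' * VT M T ≤ ε := by
    calc 2 * ε' * VT M T ≤ 2 * (ε / (2 * (VT M T + 1))) * (VT M T + 1) := by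
          have := min_le_right 1 (ε / (2 * (VT M T + 1)))
          gcongr
          linarith
      _ = ε := by field_simp
  obtain ⟨δ, hδ, _, hmod⟩ := FT_modulus hM hT hε'p
  refine ⟨3 * (2 * (1 / δ + 1)) ^ 4, by positivity, ?_⟩
  intro m hm y0 Y hY
  have hm' : (0:ℝ) < m := by exact_mod_cast hm
  obtain ⟨h1, h2⟩ := class_count (n := 4) (by norm_num) (F := FT M T)
    (fun x hx s hs => FT_hom hM T hx hs) (c := 1 / T ^ 4) (by positivity)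
    (fun x _ => FT_lower x) hε'p (min_le_left _ _) hδ hmod (Vm := VT M T) le_rfl hm y0 hY
  refine ⟨h1, h2.trans ?_⟩
  have : 2 * ε' * VT M T * (Y / (m:ℝ) ^ 4) ≤ ε * (Y / (m:ℝ) ^ 4) := by gcongr
  linarith

end Pool.Agent.Lib.MP_1acd66_nt.Tw
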