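import Pool.Agent.Lib.MP_1acd66_nt.Tw.ResB

/-!
The fibre counts weighted by the finite part.
-/

namespace Pool.Agent.Lib.MP_1acd66_nt.Tw

open Finset MeasureTheory

/-- proportional coprime pairs -/
theorem coprime_prop {s u s' u' : ℤ} (h : IsCoprime s u) (h' : IsCoprime s' u')
    (he : s * u' = s' * u) : (s' = s ∧ u' = u) ∨ (s' = -s ∧ u' = -u) := by
  obtain ⟨a, b, hab⟩ := h
  have e1 : s' = s * (a * s' + b * u') := by linear_combination (-s') * hab - b * he
  have e2 : u' = u * (a * s' + b * u') := by linear_combination (-u') * hab + a * he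
  have hu : IsUnit (a * s' + b * u') :=
    h'.isUnit_of_dvd' (Dvd.intro_left _ e1.symm) (Dvd.intro_left _ e2.symm)
  rcases Int.isUnit_iff.1 hu with h1 | h1
  · left
    rw [h1, mul_one] at e1 e2
    exact ⟨e1, e2⟩
  · right
    rw [h1] at e1 e2
    exact ⟨by linarith, by linarith⟩

/-- the degenerate primitive vectors incident with a given vector -/
theorem deg_fib {x : Fin 3 → ℤ} (hx : x ≠ 0) (D : Finset (Fin 4 → ℤ))
    (hD : ∀ y ∈ D, Prim y ∧ Inc x y ∧ qf y = 0) : D.card ≤ 4 := by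
  classical
  have hex : ∀ y ∈ D, ∃ s u t : ℤ, IsCoprime s u ∧ IsUnit t ∧ y 0 = t * s ^ 3 ∧
      y 1 = t * s ^ 2 * u ∧ y 2 = t * s * u ^ 2 ∧ y 3 = t * u ^ 3 ∧
      x 0 * s ^ 2 + x 1 * (s * u) + x 2 * u ^ 2 = 0 := by
    intro y hy
    obtain ⟨hp, ⟨i1, i2⟩, hq⟩ := hD y hy
    obtain ⟨s, u, t, hcop, ht, h0, h1, h2, h3⟩ := degenerate_form hp.ne_zero hq
    have htu : IsUnit t := by
      obtain ⟨a, ha⟩ := hp
      apply isUnit_of_dvd_one
      rw [← ha, Fin.sum_univ_four, h0, h1, h2, h3]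
      exact ⟨a 0 * s ^ 3 + a 1 * (s ^ 2 * u) + a 2 * (s * u ^ 2) + a 3 * u ^ 3, by ring⟩
    refine ⟨s, u, t, hcop, htu, h0, h1, h2, h3, ?_⟩
    rw [h0, h1, h2] at i1
    rw [h1, h2, h3] at i2
    have e1 : (t * s) * (x 0 * s ^ 2 + x 1 * (s * u) + x 2 * u ^ 2) = 0 := by
      linear_combination i1
    have e2 : (t * u) * (x 0 * s ^ 2 + x 1 * (s * u) + x 2 * u ^ 2) = 0 := by
      linear_combination i2
    by_contra hne
    have hs : s = 0 := by
      rcases mul_eq_zero.1 e1 with h | h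
      · rcases mul_eq_zero.1 h with h4 | h4
        · exact absurd h4 ht
        · exact h4
      · exact absurd h hne
    have hu : u = 0 := by
      rcases mul_eq_zero.1 e2 with h | h
      · rcases mul_eq_zero.1 h with h4 | h4
        · exact absurd h4 ht
        · exact h4
      · exact absurd h hne
    rw [hs, hu] at hcop
    exact not_isCoprime_zero_zero hcop
  choose! s u t hcop ht h0 h1 h2 h3 hQ using hex
  -- proportional parameters give the same vector up to sign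
  have hprop : ∀ y ∈ D, ∀ z ∈ D, s y * u z = s z * u y → z = y ∨ z = -y := by
    intro y hy z hz he
    have key : ∀ e : ℤ, e * e = 1 → s z = e * s y → u z = e * u y → z = y ∨ z = -y := by
      intro e hee hs hu
      have hty := Int.isUnit_iff.1 (ht y hy)
      have htz := Int.isUnit_iff.1 (ht z hz)
      have hz0 : ∀ j, z j = (t z * t y * e) * y j := by
        have hty2 : t y * t y = 1 := Int.isUnit_mul_self (ht y hy)
        intro j
        fin_cases j
        · change z 0 = _ * y 0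
          rw [h0 z hz, h0 y hy, hs]
          linear_combination (t z * e * s y ^ 3) * hee - (t z * e * s y ^ 3) * hty2
        · change z 1 = _ * y 1
          rw [h1 z hz, h1 y hy, hs, hu]
          linear_combination (t z * e * s y ^ 2 * u y) * hee - (t z * e * s y ^ 2 * u y) * hty2
        · change z 2 = _ * y 2
          rw [h2 z hz, h2 y hy, hs, hu]
          linear_combination (t z * e * s y * u y ^ 2) * hee - (t z * e * s y * u y ^ 2) * hty2
        · change z 3 = _ * y 3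
          rw [h3 z hz, h3 y hy, hu]
          linear_combination (t z * e * u y ^ 3) * hee - (t z * e * u y ^ 3) * hty2
      have hunit : IsUnit (t z * t y * e) := by
        have he' : IsUnit e := IsUnit.of_mul_eq_one e hee
        exact ((ht z hz).mul (ht y hy)).mul he'
      rcases Int.isUnit_iff.1 hunit with h4 | h4
      · left
        funext j
        rw [hz0 j, h4, one_mul]
      · right
        funext j
        rw [hz0 j, h4, Pi.neg_apply]; ring
    rcases coprime_prop (hcop y hy) (hcop z hz) he with ⟨h4, h5⟩ | ⟨h4, h5⟩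
    · exact key 1 (by norm_num) (by rw [h4]; ring) (by rw [h5]; ring)
    · exact key (-1) (by norm_num) (by rw [h4]; ring) (by rw [h5]; ring)
  -- three roots
  have hthree : ∀ y ∈ D, ∀ z ∈ D, ∀ w ∈ D, s y * u z = s z * u y ∨ s y * u w = s w * u y ∨
      s z * u w = s w * u z := by
    intro y hy z hz w hw
    set A : Matrix (Fin 3) (Fin 3) ℤ := !![s y ^ 2, s y * u y, u y ^ 2; s z ^ 2, s z * u z, u z ^ 2;
      s w ^ 2, s w * u w, u w ^ 2] with hA
    have hdet : A.det = 0 := by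
      by_contra hne
      apply hx
      have hmul : A.mulVec x = 0 := by
        funext i
        fin_cases i
        · simp [hA, Matrix.mulVec, dotProduct, Fin.sum_univ_three]
          linear_combination hQ y hy
        · simp [hA, Matrix.mulVec, dotProduct, Fin.sum_univ_three]
          linear_combination hQ z hz
        · simp [hA, Matrix.mulVec, dotProduct, Fin.sum_univ_three]
          linear_combination hQ w hw
      exact Matrix.eq_zero_of_mulVec_eq_zero hne hmul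
    have hfac : A.det = (s y * u z - s z * u y) * ((s y * u w - s w * u y) *
        (s z * u w - s w * u z)) := by
      rw [hA, Matrix.det_fin_three]
      simp
      ring
    rw [hfac] at hdet
    rcases mul_eq_zero.1 hdet with h | h
    · left; linarith
    · rcases mul_eq_zero.1 h with h | h
      · right; left; linarith
      · right; right; linarith
  rcases D.eq_empty_or_nonempty with rfl | ⟨y, hy⟩
  · simp
  by_cases hall : ∀ z ∈ D, z = y ∨ z = -y
  · have hsub : D ⊆ ({y, -y} : Finset (Fin 4 → ℤ)) := by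
      intro z hz
      rw [mem_insert, mem_singleton]
      exact hall z hz
    exact (card_le_card hsub).trans (card_le_two.trans (by norm_num))
  · push Not at hall
    obtain ⟨z, hz, hzy, hzy'⟩ := hall
    have hsub : D ⊆ ({y, -y, z, -z} : Finset (Fin 4 → ℤ)) := by
      intro w hw
      simp only [mem_insert, mem_singleton]
      rcases hthree y hy z hz w hw with h | h | h
      · rcases hprop y hy z hz h with h4 | h4
        · exact absurd h4 hzy
        · exact absurd h4 hzy'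
      · rcases hprop y hy w hw h with h4 | h4
        · exact Or.inl h4
        · exact Or.inr (Or.inl h4)
      · rcases hprop z hz w hw h with h4 | h4
        · exact Or.inr (Or.inr (Or.inl h4))
        · exact Or.inr (Or.inr (Or.inr h4))
    exact (card_le_card hsub).trans card_le_four

/-- weights -/
noncomputable def wB (q : ℕ) (g : (Fin 3 → ℤ) → (Fin 4 → ℤ) → ℝ) (ξ : Fin 3 → ℤ) : ℝ :=
  ∑ η ∈ HQ q ξ, 1 / ((q:ℝ) ^ 2 * g ξ η)

theorem HQ_smul {q g : ℕ} {z : Fin 3 → ℤ} (hg : IsCoprime (g : ℤ) (q : ℤ)) :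
    HQ q (rsd q ((g : ℤ) • z)) = HQ q (rsd q z) := by
  classical
  ext η
  rw [mem_HQ, mem_HQ]
  have key : IncMod q (rsd q ((g : ℤ) • z)) η ↔ IncMod q (rsd q z) η := by
    constructor
    · intro h
      have h1 : IncMod q ((g : ℤ) • z) η := h.congr (cg_rsd _).symm (Cg.refl _)
      have h2 : IncMod q z η := by
        obtain ⟨a, b⟩ := h1
        simp only [Pi.smul_apply, smul_eq_mul] at a b
        constructor
        · apply hg.symm.dvd_of_dvd_mul_left
          have e : (g:ℤ) * (z 0 * η 0 + z 1 * η 1 + z 2 * η 2) =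
            g * z 0 * η 0 + g * z 1 * η 1 + g * z 2 * η 2 := by ring
          rw [e]; exact a
        · apply hg.symm.dvd_of_dvd_mul_left
          have e : (g:ℤ) * (z 0 * η 1 + z 1 * η 2 + z 2 * η 3) =
            g * z 0 * η 1 + g * z 1 * η 2 + g * z 2 * η 3 := by ring
          rw [e]; exact b
      exact h2.congr (cg_rsd _) (Cg.refl _)
    · intro h
      have h1 : IncMod q z η := h.congr (cg_rsd _).symm (Cg.refl _)
      have h2 : IncMod q ((g : ℤ) • z) η := by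
        obtain ⟨a, b⟩ := h1
        constructor
        · simp only [Pi.smul_apply, smul_eq_mul]
          have e : g * z 0 * η 0 + g * z 1 * η 1 + g * z 2 * η 2 =
            (g:ℤ) * (z 0 * η 0 + z 1 * η 1 + z 2 * η 2) := by ring
          rw [e]; exact a.mul_left _
        · simp only [Pi.smul_apply, smul_eq_mul]
          have e : g * z 0 * η 1 + g * z 1 * η 2 + g * z 2 * η 3 =
            (g:ℤ) * (z 0 * η 1 + z 1 * η 2 + z 2 * η 3) := by ring
          rw [e]; exact b.mul_left _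
      exact h2.congr (cg_rsd _) (Cg.refl _)
  rw [key]

theorem card_HQ_le' {q : ℕ} (hq : 0 < q) {x : Fin 3 → ℤ} (hx : x ≠ 0) (hpm : PM q x) :
    (HQ q (rsd q x)).card ≤ q ^ 2 := by
  obtain ⟨g, z, hg, hz, rfl⟩ := exists_prim hx
  have hcop : IsCoprime (g : ℤ) (q : ℤ) := isCoprime_of_pm hpm fun i => ⟨z i, rfl⟩
  rw [HQ_smul hcop]
  exact card_HQ_le hq hz (cg_rsd z)

theorem wB_le {q : ℕ} (hq : 0 < q) {g : (Fin 3 → ℤ) → (Fin 4 → ℤ) → ℝ} {f0 : ℝ} (hf0 : 0 < f0)
    (hg : ∀ ξ η, f0 ≤ g ξ η) {x : Fin 3 → ℤ} (hx : x ≠ 0) (hpm : PM q x) :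
    wB q g (rsd q x) ≤ 1 / f0 := by
  have hq' : (0:ℝ) < q := by exact_mod_cast hq
  have h1 : ((HQ q (rsd q x)).card : ℝ) ≤ (q:ℝ) ^ 2 := by exact_mod_cast card_HQ_le' hq hx hpm
  calc wB q g (rsd q x) ≤ ∑ _η ∈ HQ q (rsd q x), 1 / ((q:ℝ) ^ 2 * f0) := by
        refine sum_le_sum fun η _ => ?_
        apply one_div_le_one_div_of_le (by positivity)
        have := hg (rsd q x) η
        gcongr
    _ = ((HQ q (rsd q x)).card : ℝ) * (1 / ((q:ℝ) ^ 2 * f0)) := by rw [sum_const, nsmul_eq_mul]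
    _ ≤ (q:ℝ) ^ 2 * (1 / ((q:ℝ) ^ 2 * f0)) := by gcongr
    _ = 1 / f0 := by field_simp

theorem wB_nonneg {q : ℕ} {g : (Fin 3 → ℤ) → (Fin 4 → ℤ) → ℝ} {f0 : ℝ} (hf0 : 0 < f0)
    (hg : ∀ ξ η, f0 ≤ g ξ η) (ξ : Fin 3 → ℤ) : 0 ≤ wB q g ξ := by
  refine sum_nonneg fun η _ => ?_
  have := hg ξ η
  have : 0 < g ξ η := by linarith
  positivity

theorem wB_ge {q : ℕ} (hq : 2 ≤ q) {g : (Fin 3 → ℤ) → (Fin 4 → ℤ) → ℝ} {f0 f1 : ℝ} (hf0 : 0 < f0)
    (hg : ∀ ξ η, f0 ≤ g ξ η ∧ g ξ η ≤ f1) {ξ : Fin 3 → ℤ} (hpm : PM q ξ) :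
    1 / (12 * f1) ≤ wB q g ξ := by
  have hq' : (0:ℝ) < q := by exact_mod_cast (by omega : 0 < q)
  have h1 := card_HQ_ge hq hpm
  have hf1 : 0 < f1 := by
    have := hg ξ 0
    linarith
  calc 1 / (12 * f1) = ((q:ℝ) ^ 2 / 12) * (1 / ((q:ℝ) ^ 2 * f1)) := by field_simp
    _ ≤ ((HQ q ξ).card : ℝ) * (1 / ((q:ℝ) ^ 2 * f1)) := by gcongr
    _ = ∑ _η ∈ HQ q ξ, 1 / ((q:ℝ) ^ 2 * f1) := by rw [sum_const, nsmul_eq_mul]
    _ ≤ wB q g ξ := by
        refine sum_le_sum fun η _ => ?_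
        obtain ⟨h2, h3⟩ := hg ξ η
        have : 0 < g ξ η := by linarith
        apply one_div_le_one_div_of_le (by positivity)
        gcongr

/-- the fibre weighted by the approximate finite part -/
def FS (M : (Fin 3 → ℝ) → (Fin 4 → ℝ) → ℝ) (g : (Fin 3 → ℤ) → (Fin 4 → ℤ) → ℝ) (q : ℕ)
    (x : Fin 3 → ℤ) (b : ℝ) : Set (Fin 4 → ℤ) :=
  {y | y ≠ 0 ∧ Inc x y ∧ PM q y ∧ M (castv x) (castv y) * g (rsd q x) (rsd q y) ≤ b}

theorem FS_count {M : (Fin 3 → ℝ) → (Fin 4 → ℝ) → ℝ} (hM : IsLocalNorm ℝ M) {τ ε : ℝ}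
    (hτ : 0 < τ) (hε : 0 < ε) {f0 : ℝ} (hf0 : 0 < f0) :
    ∃ K : ℝ, 0 < K ∧ ∀ x : Fin 3 → ℤ, Prim x → τ * nrm x ≤ lam x →
      ∀ q : ℕ, 0 < q → ∀ g : (Fin 3 → ℤ) → (Fin 4 → ℤ) → ℝ, (∀ ξ η, f0 ≤ g ξ η) →
      ∀ b : ℝ, 0 < b → (FS M g q x b).Finite ∧
        |((FS M g q x b).ncard : ℝ) - Phi M (castv x) * wB q g (rsd q x) * b| ≤
          ε * b / nrm x ^ 3 + K * (q:ℝ) ^ 2 := by
  classical
  obtain ⟨K, hK, H⟩ := bal_count hM hτ (ε := ε * f0) (by positivity)
  refine ⟨K, hK, ?_⟩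
  intro x hx hlam q hq g hg b hb
  have hq' : (0:ℝ) < q := by exact_mod_cast hq
  have hn : 0 < nrm x := lt_of_lt_of_le one_pos (one_le_nrm hx.ne_zero)
  set ξ := rsd q x with hξ
  have hgp : ∀ η, 0 < g ξ η := fun η => lt_of_lt_of_le hf0 (hg ξ η)
  have hone : ∀ η ∈ HQ q ξ, (fibSet M x q η (b / g ξ η)).Finite ∧
      |((fibSet M x q η (b / g ξ η)).ncard : ℝ) - Phi M (castv x) * (b / g ξ η / (q:ℝ) ^ 2)| ≤
        ε * f0 * (b / g ξ η / (nrm x ^ 3 * (q:ℝ) ^ 2)) + K := by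
    intro η hη
    obtain ⟨_, h2, _⟩ := mem_HQ.1 hη
    exact H x hx hlam q hq η (h2.congr (cg_rsd x).symm (Cg.refl _)) _ (div_pos hb (hgp η))
  -- the fibre is the disjoint union
  have hfib : ∀ η ∈ HQ q ξ, {y | y ∈ FS M g q x b ∧ rsd q y = η} = fibSet M x q η (b / g ξ η) := by
    intro η hη
    obtain ⟨h1, h2, h3⟩ := mem_HQ.1 hη
    ext y
    simp only [Set.mem_ofPred_eq, FS, fibSet]
    constructor
    · rintro ⟨⟨a1, a2, a3, a4⟩, rfl⟩
      exact ⟨a1, a2, cg_rsd y, by rw [le_div_iff₀ (hgp _)]; exact a4⟩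
    · rintro ⟨a1, a2, a3, a4⟩
      have e : rsd q y = η := (rsd_eq_iff h1).2 a3
      refine ⟨⟨a1, a2, h3.congr a3.symm, ?_⟩, e⟩
      rw [e]
      rwa [le_div_iff₀ (hgp _)] at a4
  have hmaps : ∀ y ∈ FS M g q x b, rsd q y ∈ HQ q ξ := by
    rintro y ⟨_, a2, a3, _⟩
    exact mem_HQ.2 ⟨rsd_mem hq y, a2.incMod.congr (cg_rsd x) (cg_rsd y), a3.congr (cg_rsd y)⟩
  have hfin : (FS M g q x b).Finite := by
    have : FS M g q x b ⊆ ⋃ η ∈ HQ q ξ, fibSet M x q η (b / g ξ η) := by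
      intro y hy
      rw [Set.mem_iUnion₂]
      refine ⟨rsd q y, hmaps y hy, ?_⟩
      rw [← hfib _ (hmaps y hy)]
      exact ⟨hy, rfl⟩
    refine Set.Finite.subset ?_ this
    exact (HQ q ξ).finite_toSet.biUnion fun η hη => (hone η hη).1
  refine ⟨hfin, ?_⟩
  have hcard : ((FS M g q x b).ncard : ℝ) = ∑ η ∈ HQ q ξ, ((fibSet M x q η (b / g ξ η)).ncard : ℝ) := by
    rw [Set.ncard_eq_toFinset_card _ hfin, card_eq_sum_card_fiberwise (f := rsd q) (t := HQ q ξ)
      (fun y hy => hmaps y (hfin.mem_toFinset.1 hy))]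
    push_cast
    refine sum_congr rfl fun η hη => ?_
    congr 1
    rw [← hfib η hη, ← Set.ncard_coe_finset]
    congr 1
    ext y
    simp
  have hw : Phi M (castv x) * wB q g ξ * b =
      ∑ η ∈ HQ q ξ, Phi M (castv x) * (b / g ξ η / (q:ℝ) ^ 2) := by
    unfold wB
    rw [mul_sum, sum_mul]
    refine sum_congr rfl fun η _ => ?_
    have := (hgp η).ne'
    field_simp
  rw [hcard, hw, ← sum_sub_distrib]
  refine (abs_sum_le_sum_abs _ _).trans ((sum_le_sum fun η hη => (hone η hη).2).trans ?_)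
  rw [sum_add_distrib, sum_const, nsmul_eq_mul]
  have h1 : ((HQ q ξ).card : ℝ) ≤ (q:ℝ) ^ 2 := by
    exact_mod_cast card_HQ_le hq hx (cg_rsd x)
  have h2 : ∑ η ∈ HQ q ξ, ε * f0 * (b / g ξ η / (nrm x ^ 3 * (q:ℝ) ^ 2)) ≤ ε * b / nrm x ^ 3 := by
    calc ∑ η ∈ HQ q ξ, ε * f0 * (b / g ξ η / (nrm x ^ 3 * (q:ℝ) ^ 2))
        ≤ ∑ _η ∈ HQ q ξ, ε * f0 * (b / f0 / (nrm x ^ 3 * (q:ℝ) ^ 2)) := by
          refine sum_le_sum fun η _ => ?_
          have := hg ξ η
          gcongr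
      _ = ((HQ q ξ).card : ℝ) * (ε * f0 * (b / f0 / (nrm x ^ 3 * (q:ℝ) ^ 2))) := by
          rw [sum_const, nsmul_eq_mul]
      _ ≤ (q:ℝ) ^ 2 * (ε * f0 * (b / f0 / (nrm x ^ 3 * (q:ℝ) ^ 2))) := by gcongr
      _ = ε * b / nrm x ^ 3 := by field_simp
  have h3 : ((HQ q ξ).card : ℝ) * K ≤ K * (q:ℝ) ^ 2 := by
    rw [mul_comm]; gcongr
  linarith

end Pool.Agent.Lib.MP_1acd66_nt.Tw
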