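import Pool.Agent.Lib.MP_1acd66_nt.Tw.Deg

/-!
Sums over primitive vectors of functions of the length of the shortest incident vector.
-/

namespace Pool.Agent.Lib.MP_1acd66_nt.Tw

open Finset

theorem prim_rb {x : Fin 3 → ℤ} (hx : Prim x) : Prim (rb x 0) := by
  obtain ⟨⟨h0, h1, e, he, hpk⟩, _⟩ := rb_spec hx
  apply prim_of_prime
  intro p hp
  by_contra hcon
  push Not at hcon
  obtain ⟨w, hw⟩ := hx.pl
  have hd : ∀ i, (p : ℤ) ∣ pl x i := by
    intro i
    have h2 : (p : ℤ) ∣ pk (rb x 0) (rb x 1) i := by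
      have : pk (rb x 0) (rb x 1) i = rb x 0 (ix i).1 * rb x 1 (ix i).2 -
          rb x 0 (ix i).2 * rb x 1 (ix i).1 := by fin_cases i <;> rfl
      rw [this]
      exact dvd_sub ((hcon _).mul_right _) ((hcon _).mul_right _)
    rw [hpk] at h2
    exact (he.dvd_mul_left).1 h2
  have h3 : (p : ℤ) ∣ 1 := by
    rw [← hw]
    exact dvd_add (dvd_add ((hd _).mul_left _) ((hd _).mul_left _)) ((hd _).mul_left _)
  have h4 : p ∣ 1 := by exact_mod_cast h3
  exact hp.one_lt.ne' (Nat.dvd_one.1 h4)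

theorem lam_le {x : Fin 3 → ℤ} (hx : Prim x) : lam x ≤ 3 * nrm x := by
  obtain ⟨hbas, hred⟩ := rb_spec hx
  have h1 := hred.len_mul_le
  have h2 := hbas.det2_bounds.2
  have h3 : lam x ≤ len (rb x 1) := by
    rw [lam, len, len]; apply Real.sqrt_le_sqrt; exact_mod_cast hred.1
  have h4 : 0 ≤ lam x := len_nonneg _
  have h5 : lam x ^ 2 ≤ 6 * nrm x ^ 2 := by
    calc lam x ^ 2 = lam x * lam x := sq _
      _ ≤ lam x * len (rb x 1) := mul_le_mul_of_nonneg_left h3 h4
      _ ≤ 2 * det2 (rb x) := h1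
      _ ≤ _ := by linarith
  have h6 := nrm_nonneg x
  apply le_of_sq_le_sq _ (by positivity)
  nlinarith

/-- the constant in `pair_level` -/
noncomputable def cD : ℝ := 512 * ((2 + 24) * (16 + 24)) ^ 2

theorem cD_pos : 0 < cD := by unfold cD; norm_num

theorem lam_block_aux {X : ℝ} (hX : 1 ≤ X) (S : Finset (Fin 3 → ℤ))
    (hS : ∀ x ∈ S, Prim x ∧ X / 2 < nrm x ∧ nrm x ≤ X) (k : ℕ) :
    ((S.filter (fun x => qf (rb x 0) ≠ 0 ∧ lev (rb x 0) = k)).card : ℝ) ≤ cD * (X * 4 ^ k) ∧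
      ((S.filter (fun x => qf (rb x 0) ≠ 0 ∧ lev (rb x 0) = k)).Nonempty → (2 : ℝ) ^ k ≤ 6 * X) := by
  classical
  set T := S.filter (fun x => qf (rb x 0) ≠ 0 ∧ lev (rb x 0) = k) with hT
  have hk : T.Nonempty → (2 : ℝ) ^ k ≤ 6 * X := by
    rintro ⟨x, hx⟩
    rw [hT, mem_filter] at hx
    obtain ⟨hxS, _, hl⟩ := hx
    obtain ⟨hp, _, h2⟩ := hS x hxS
    have h3 := (lev_spec (prim_rb hp).ne_zero).1
    rw [hl] at h3
    have h4 : nrm (rb x 0) ≤ lam x := nrm_le_len _
    have h5 := lam_le hp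
    linarith
  refine ⟨?_, hk⟩
  rcases T.eq_empty_or_nonempty with hemp | hne
  · rw [hemp, card_empty, Nat.cast_zero]
    have := cD_pos
    positivity
  · refine pair_level hX k (hk hne) T (fun x => rb x 0) ?_
    intro x hx
    rw [hT, mem_filter] at hx
    obtain ⟨hxS, hq, hl⟩ := hx
    obtain ⟨hp, h1, h2⟩ := hS x hxS
    exact ⟨hp, h1, h2, (prim_rb hp), (rb_spec hp).1.1, hq, hl⟩

theorem lam_block {X : ℝ} (hX : 1 ≤ X) (S : Finset (Fin 3 → ℤ))
    (hS : ∀ x ∈ S, Prim x ∧ X / 2 < nrm x ∧ nrm x ≤ X) :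
    ∑ x ∈ S, 1 / lam x ≤ (24 * cD + 216) * X ^ 2 := by
  classical
  have hcD := cD_pos
  rw [← sum_filter_add_sum_filter_not S (fun x => qf (rb x 0) ≠ 0)]
  have h1 : ∑ x ∈ S with qf (rb x 0) ≠ 0, 1 / lam x ≤ 24 * cD * X ^ 2 := by
    set F := (S.filter (fun x => qf (rb x 0) ≠ 0)).image (fun x => lev (rb x 0)) with hF
    rw [← sum_fiberwise_of_maps_to (t := F) (g := fun x => lev (rb x 0))
      (fun x hx => mem_image_of_mem _ hx)]
    have hFk : ∀ k ∈ F, (2 : ℝ) ^ k ≤ 6 * X := by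
      intro k hk
      obtain ⟨x, hx, hxk⟩ := mem_image.1 hk
      rw [mem_filter] at hx
      exact (lam_block_aux hX S hS k).2 ⟨x, mem_filter.2 ⟨hx.1, hx.2, hxk⟩⟩
    calc ∑ k ∈ F, ∑ x ∈ S.filter (fun x => qf (rb x 0) ≠ 0) with lev (rb x 0) = k, 1 / lam x
        ≤ ∑ k ∈ F, 2 * cD * X * 2 ^ k := by
          refine sum_le_sum fun k _ => ?_
          rw [filter_filter]
          calc ∑ x ∈ S with qf (rb x 0) ≠ 0 ∧ lev (rb x 0) = k, 1 / lam x
              ≤ ∑ x ∈ S with qf (rb x 0) ≠ 0 ∧ lev (rb x 0) = k, 2 / (2 : ℝ) ^ k := by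
                refine sum_le_sum fun x hx => ?_
                rw [mem_filter] at hx
                obtain ⟨hxS, _, hl⟩ := hx
                have hp := (hS x hxS).1
                have h3 := (lev_spec (prim_rb hp).ne_zero).1
                rw [hl] at h3
                have h4 : nrm (rb x 0) ≤ lam x := nrm_le_len _
                have h5 := one_le_lam hp
                rw [div_le_div_iff₀ (by linarith) (by positivity)]
                linarith
            _ = ((S.filter (fun x => qf (rb x 0) ≠ 0 ∧ lev (rb x 0) = k)).card : ℝ) *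
                (2 / (2 : ℝ) ^ k) := by rw [sum_const, nsmul_eq_mul]
            _ ≤ (cD * (X * 4 ^ k)) * (2 / (2 : ℝ) ^ k) := by
                have := (lam_block_aux hX S hS k).1
                gcongr
            _ = 2 * cD * X * 2 ^ k := by
                have e : (4 : ℝ) ^ k = 2 ^ k * 2 ^ k := by rw [← mul_pow]; norm_num
                rw [e]; field_simp
      _ = 2 * cD * X * ∑ k ∈ F, (2 : ℝ) ^ k := by rw [mul_sum]
      _ ≤ 2 * cD * X * (2 * (6 * X)) := by
          have := sum_two_pow_le F (by linarith) hFk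
          gcongr
      _ = _ := by ring
  have h2 : ∑ x ∈ S with ¬ qf (rb x 0) ≠ 0, 1 / lam x ≤ 216 * X ^ 2 := by
    refine le_trans ?_ (deg_sum (S.filter (fun x => ¬ qf (rb x 0) ≠ 0)) (fun x => rb x 0) (X := X) ?_)
    · refine sum_le_sum fun x hx => ?_
      rw [mem_filter] at hx
      have hp := (hS x hx.1).1
      have h4 : nrm (rb x 0) ≤ lam x := nrm_le_len _
      exact one_div_le_one_div_of_le (lt_of_lt_of_le one_pos (one_le_nrm (prim_rb hp).ne_zero)) h4
    · intro x hx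
      rw [mem_filter] at hx
      obtain ⟨hxS, hq⟩ := hx
      obtain ⟨hp, _, h2⟩ := hS x hxS
      push Not at hq
      exact ⟨hp.ne_zero, h2, (prim_rb hp).ne_zero, (rb_spec hp).1.1, hq⟩
  linarith

/-- the number of unbalanced vectors -/
theorem unb_block {X τ : ℝ} (hX : 1 ≤ X) (hτ : 0 < τ) (S : Finset (Fin 3 → ℤ))
    (hS : ∀ x ∈ S, Prim x ∧ X / 2 < nrm x ∧ nrm x ≤ X) (hlam : ∀ x ∈ S, lam x ≤ τ * nrm x) :
    (S.card : ℝ) ≤ (8 * cD + 216) * (τ ^ 2 * X ^ 3 + X ^ 2 * √X) := by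
  classical
  have hcD := cD_pos
  have hX0 : 0 < X := by linarith
  rw [← card_filter_add_card_filter_not (s := S) (fun x => qf (rb x 0) ≠ 0)]
  push_cast
  have h1 : ((S.filter (fun x => qf (rb x 0) ≠ 0)).card : ℝ) ≤ 8 * cD * (τ ^ 2 * X ^ 3) := by
    set F := (S.filter (fun x => qf (rb x 0) ≠ 0)).image (fun x => lev (rb x 0)) with hF
    rw [card_eq_sum_card_fiberwise (t := F) (f := fun x => lev (rb x 0))
      (fun x hx => mem_image_of_mem _ hx)]
    push_cast
    have hFk : ∀ k ∈ F, (2 : ℝ) ^ k ≤ 2 * τ * X := by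
      intro k hk
      obtain ⟨x, hx, hxk⟩ := mem_image.1 hk
      rw [mem_filter] at hx
      have hp := (hS x hx.1).1
      have h3 := (lev_spec (prim_rb hp).ne_zero).1
      rw [hxk] at h3
      have h4 : nrm (rb x 0) ≤ lam x := nrm_le_len _
      have h5 := hlam x hx.1
      have h6 := (hS x hx.1).2.2
      have h7 : τ * nrm x ≤ τ * X := by gcongr
      linarith
    calc ∑ k ∈ F, (((S.filter (fun x => qf (rb x 0) ≠ 0)).filter (fun x => lev (rb x 0) = k)).card : ℝ)
        ≤ ∑ k ∈ F, cD * X * 4 ^ k := by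
          refine sum_le_sum fun k _ => ?_
          rw [filter_filter]
          have := (lam_block_aux hX S hS k).1
          linarith
      _ = cD * X * ∑ k ∈ F, (4 : ℝ) ^ k := by rw [mul_sum]
      _ ≤ cD * X * (2 * (2 * τ * X) ^ 2) := by
          have := sum_four_pow_le F (by positivity) hFk
          gcongr
      _ = _ := by ring
  have h2 : ((S.filter (fun x => ¬ qf (rb x 0) ≠ 0)).card : ℝ) ≤ 216 * (X ^ 2 * √X) := by
    refine (deg_card (X := X) (L := 3 * X) (S.filter (fun x => ¬ qf (rb x 0) ≠ 0)) (fun x => rb x 0) ?_ ?_).trans ?_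
    · intro x hx
      rw [mem_filter] at hx
      obtain ⟨hxS, hq⟩ := hx
      obtain ⟨hp, _, h2⟩ := hS x hxS
      push Not at hq
      exact ⟨hp.ne_zero, h2, (prim_rb hp).ne_zero, (rb_spec hp).1.1, hq⟩
    · intro x hx
      rw [mem_filter] at hx
      have hp := (hS x hx.1).1
      have h4 : nrm (rb x 0) ≤ lam x := nrm_le_len _
      have := lam_le hp
      linarith [(hS x hx.1).2.2]
    · have h3 : √(3 * X) ≤ 2 * √X := by
        have : √(3 * X) ≤ √(4 * X) := Real.sqrt_le_sqrt (by linarith)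
        refine this.trans (le_of_eq ?_)
        rw [Real.sqrt_mul (by norm_num)]
        congr 1
        rw [show (4:ℝ) = 2 ^ 2 by norm_num, Real.sqrt_sq (by norm_num)]
      calc 108 * X ^ 2 * √(3 * X) ≤ 108 * X ^ 2 * (2 * √X) := by gcongr
        _ = _ := by ring
  have h3 : 0 ≤ X ^ 2 * √X := by positivity
  have h4 : 0 ≤ τ ^ 2 * X ^ 3 := by positivity
  nlinarith

/-- the block of `x` -/
theorem lev_block {S : Finset (Fin 3 → ℤ)} {R : ℝ} (hS : ∀ x ∈ S, Prim x ∧ nrm x ≤ R) :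
    (∀ k ∈ S.image lev, (2 : ℝ) ^ k ≤ 2 * R) ∧
    ∀ k, ∀ x ∈ S.filter (fun x => lev x = k), Prim x ∧ (2 : ℝ) ^ k / 2 < nrm x ∧
      nrm x ≤ 2 ^ k := by
  constructor
  · intro k hk
    obtain ⟨x, hx, rfl⟩ := mem_image.1 hk
    have := (lev_spec (hS x hx).1.ne_zero).1
    linarith [(hS x hx).2]
  · intro k x hx
    rw [mem_filter] at hx
    obtain ⟨hxS, rfl⟩ := hx
    exact ⟨(hS x hxS).1, lev_spec (hS x hxS).1.ne_zero⟩

theorem lam_sum {R : ℝ} (S : Finset (Fin 3 → ℤ)) (hS : ∀ x ∈ S, Prim x ∧ nrm x ≤ R)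
    (hR : 0 ≤ R) : ∑ x ∈ S, 1 / lam x ≤ 8 * (24 * cD + 216) * R ^ 2 := by
  classical
  have hcD := cD_pos
  obtain ⟨h1, h2⟩ := lev_block hS
  rw [← sum_fiberwise_of_maps_to (t := S.image lev) (g := lev) (fun x hx => mem_image_of_mem _ hx)]
  calc ∑ k ∈ S.image lev, ∑ x ∈ S with lev x = k, 1 / lam x
      ≤ ∑ k ∈ S.image lev, (24 * cD + 216) * 4 ^ k := by
        refine sum_le_sum fun k _ => ?_
        refine (lam_block (one_le_pow₀ (by norm_num)) _ (h2 k)).trans (le_of_eq ?_)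
        rw [← pow_mul, mul_comm k 2, pow_mul]; norm_num
    _ = (24 * cD + 216) * ∑ k ∈ S.image lev, (4 : ℝ) ^ k := by rw [mul_sum]
    _ ≤ (24 * cD + 216) * (2 * (2 * R) ^ 2) := by
        have := sum_four_pow_le _ (by positivity) h1
        gcongr
    _ = _ := by ring

theorem lam_sum_sqrt {R : ℝ} (S : Finset (Fin 3 → ℤ)) (hS : ∀ x ∈ S, Prim x ∧ nrm x ≤ R)
    (hR : 0 ≤ R) : ∑ x ∈ S, 1 / lam x * (1 / √(nrm x)) ≤ 8 * (24 * cD + 216) * (R * √R) := by
  classical
  have hcD := cD_pos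
  obtain ⟨h1, h2⟩ := lev_block hS
  rw [← sum_fiberwise_of_maps_to (t := S.image lev) (g := lev) (fun x hx => mem_image_of_mem _ hx)]
  have hs2 : (0:ℝ) ≤ √2 := Real.sqrt_nonneg _
  have hsq2 : √2 * √2 = 2 := Real.mul_self_sqrt (by norm_num)
  calc ∑ k ∈ S.image lev, ∑ x ∈ S with lev x = k, 1 / lam x * (1 / √(nrm x))
      ≤ ∑ k ∈ S.image lev, ((24 * cD + 216) * (√2 * √(2 * R))) * 2 ^ k := by
        refine sum_le_sum fun k hk => ?_
        have hpk : (0:ℝ) < 2 ^ k := by positivity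
        have hsk : 0 < √((2:ℝ) ^ k) := Real.sqrt_pos.2 hpk
        calc ∑ x ∈ S with lev x = k, 1 / lam x * (1 / √(nrm x))
            ≤ ∑ x ∈ S with lev x = k, 1 / lam x * (√2 / √((2:ℝ) ^ k)) := by
              refine sum_le_sum fun x hx => ?_
              obtain ⟨hp, b1, b2⟩ := h2 k x hx
              have := one_le_lam hp
              have hn : 0 < nrm x := lt_of_lt_of_le one_pos (one_le_nrm hp.ne_zero)
              apply mul_le_mul_of_nonneg_left _ (by positivity)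
              rw [div_le_div_iff₀ (Real.sqrt_pos.2 hn) hsk, one_mul, ← Real.sqrt_mul (by norm_num)]
              exact Real.sqrt_le_sqrt (by linarith)
          _ = (∑ x ∈ S with lev x = k, 1 / lam x) * (√2 / √((2:ℝ) ^ k)) := by rw [sum_mul]
          _ ≤ ((24 * cD + 216) * ((2:ℝ) ^ k) ^ 2) * (√2 / √((2:ℝ) ^ k)) := by
              have := lam_block (one_le_pow₀ (by norm_num)) _ (h2 k)
              gcongr
          _ = ((24 * cD + 216) * (√2 * √((2:ℝ) ^ k))) * 2 ^ k := by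
              have e : ((2:ℝ) ^ k) = √((2:ℝ) ^ k) * √((2:ℝ) ^ k) := (Real.mul_self_sqrt hpk.le).symm
              have e2 : ((2:ℝ) ^ k) ^ 2 * (√2 / √((2:ℝ) ^ k)) = √2 * √((2:ℝ) ^ k) * 2 ^ k := by
                rw [mul_div_assoc', div_eq_iff hsk.ne', sq]
                nth_rewrite 1 [e]
                ring
              linear_combination (24 * cD + 216) * e2
          _ ≤ ((24 * cD + 216) * (√2 * √(2 * R))) * 2 ^ k := by
              have := Real.sqrt_le_sqrt (h1 k hk)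
              gcongr
    _ = ((24 * cD + 216) * (√2 * √(2 * R))) * ∑ k ∈ S.image lev, (2 : ℝ) ^ k := by rw [mul_sum]
    _ ≤ ((24 * cD + 216) * (√2 * √(2 * R))) * (2 * (2 * R)) := by
        have := sum_two_pow_le _ (by positivity) h1
        gcongr
    _ = _ := by
        rw [Real.sqrt_mul (by norm_num)]
        linear_combination (4 * (24 * cD + 216) * √R * R) * hsq2

end Pool.Agent.Lib.MP_1acd66_nt.Tw
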