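import Pool.Agent.Lib.MP_1acd66_nt.Tw.Cone
import Pool.Agent.Lib.MP_1acd66_nt.Reduced

/-!
The lattices of vectors incident with a primitive vector.
-/

namespace Pool.Agent.Lib.MP_1acd66_nt.Tw

open Finset

section ring

variable {K : Type*} [CommRing K]

/-- the Plücker coordinates of the plane of vectors incident with `x`; the order of the pairs is
`01, 02, 03, 12, 13, 23` -/
def pl (x : Fin 3 → K) : Fin 6 → K :=
  ![x 2 ^ 2, -(x 1 * x 2), x 1 ^ 2 - x 0 * x 2, x 0 * x 2, -(x 0 * x 1), x 0 ^ 2]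

/-- the Plücker coordinates of a pair of vectors -/
def pk (a b : Fin 4 → K) : Fin 6 → K :=
  ![a 0 * b 1 - a 1 * b 0, a 0 * b 2 - a 2 * b 0, a 0 * b 3 - a 3 * b 0,
    a 1 * b 2 - a 2 * b 1, a 1 * b 3 - a 3 * b 1, a 2 * b 3 - a 3 * b 2]

theorem pk_eqs {x : Fin 3 → K} {a b : Fin 4 → K} (ha : Inc x a) (hb : Inc x b) :
    x 1 * pk a b 0 + x 2 * pk a b 1 = 0 ∧
    x 0 * pk a b 0 + x 1 * pk a b 1 + x 2 * pk a b 2 = 0 ∧
    x 0 * pk a b 0 - x 2 * pk a b 3 = 0 ∧ x 1 * pk a b 3 + x 2 * pk a b 4 = 0 ∧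
    x 0 * pk a b 1 + x 1 * pk a b 3 = 0 ∧ x 0 * pk a b 3 - x 2 * pk a b 5 = 0 ∧
    x 0 * pk a b 2 + x 1 * pk a b 4 + x 2 * pk a b 5 = 0 ∧
    x 0 * pk a b 4 + x 1 * pk a b 5 = 0 := by
  obtain ⟨a1, a2⟩ := ha
  obtain ⟨b1, b2⟩ := hb
  have e0 : pk a b 0 = a 0 * b 1 - a 1 * b 0 := rfl
  have e1 : pk a b 1 = a 0 * b 2 - a 2 * b 0 := rfl
  have e2 : pk a b 2 = a 0 * b 3 - a 3 * b 0 := rfl
  have e3 : pk a b 3 = a 1 * b 2 - a 2 * b 1 := rfl
  have e4 : pk a b 4 = a 1 * b 3 - a 3 * b 1 := rfl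
  have e5 : pk a b 5 = a 2 * b 3 - a 3 * b 2 := rfl
  rw [e0, e1, e2, e3, e4, e5]
  refine ⟨?_, ?_, ?_, ?_, ?_, ?_, ?_, ?_⟩
  · linear_combination (a 0) * b1 - (b 0) * a1
  · linear_combination (a 0) * b2 - (b 0) * a2
  · linear_combination (b 1) * a1 - (a 1) * b1
  · linear_combination (a 1) * b2 - (b 1) * a2
  · linear_combination (b 2) * a1 - (a 2) * b1
  · linear_combination (b 2) * a2 - (a 2) * b2
  · linear_combination (b 3) * a1 - (a 3) * b1
  · linear_combination (b 3) * a2 - (a 3) * b2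

/-- the Plücker coordinates are proportional to those of the plane -/
theorem pk_prop {x : Fin 3 → K} {a b : Fin 4 → K} (ha : Inc x a) (hb : Inc x b) (i : Fin 6) :
    pk a b i * pl x 5 = pk a b 5 * pl x i ∧ pk a b i * pl x 0 = pk a b 0 * pl x i ∧
      pk a b i * pl x 2 = pk a b 2 * pl x i := by
  obtain ⟨h1, h2, h3, h4, h5, h6, h7, h8⟩ := pk_eqs ha hb
  have e0 : pl x 0 = x 2 ^ 2 := rfl
  have e1 : pl x 1 = -(x 1 * x 2) := rfl
  have e2 : pl x 2 = x 1 ^ 2 - x 0 * x 2 := rfl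
  have e3 : pl x 3 = x 0 * x 2 := rfl
  have e4 : pl x 4 = -(x 0 * x 1) := rfl
  have e5 : pl x 5 = x 0 ^ 2 := rfl
  fin_cases i
  · change pk a b 0 * pl x 5 = pk a b 5 * pl x 0 ∧ pk a b 0 * pl x 0 = pk a b 0 * pl x 0 ∧
      pk a b 0 * pl x 2 = pk a b 2 * pl x 0
    rw [e0, e2, e5]
    refine ⟨?_, rfl, ?_⟩
    · linear_combination (x 0) * h3 + (x 2) * h6
    · linear_combination (x 1) * h1 - (x 2) * h2
  · change pk a b 1 * pl x 5 = pk a b 5 * pl x 1 ∧ pk a b 1 * pl x 0 = pk a b 0 * pl x 1 ∧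
      pk a b 1 * pl x 2 = pk a b 2 * pl x 1
    rw [e0, e1, e2, e5]
    refine ⟨?_, ?_, ?_⟩
    · linear_combination (x 0) * h5 - (x 1) * h6
    · linear_combination (x 2) * h1
    · linear_combination (x 1) * h2 - (x 0) * h1
  · change pk a b 2 * pl x 5 = pk a b 5 * pl x 2 ∧ pk a b 2 * pl x 0 = pk a b 0 * pl x 2 ∧
      pk a b 2 * pl x 2 = pk a b 2 * pl x 2
    rw [e0, e2, e5]
    refine ⟨?_, ?_, rfl⟩
    · linear_combination (x 0) * h7 - (x 1) * h8
    · linear_combination (x 2) * h2 - (x 1) * h1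
  · change pk a b 3 * pl x 5 = pk a b 5 * pl x 3 ∧ pk a b 3 * pl x 0 = pk a b 0 * pl x 3 ∧
      pk a b 3 * pl x 2 = pk a b 2 * pl x 3
    rw [e0, e2, e3, e5]
    refine ⟨?_, ?_, ?_⟩
    · linear_combination (x 0) * h6
    · linear_combination (-x 2) * h3
    · linear_combination (x 1) * h4 - (x 2) * h7 - (x 2) * h6
  · change pk a b 4 * pl x 5 = pk a b 5 * pl x 4 ∧ pk a b 4 * pl x 0 = pk a b 0 * pl x 4 ∧
      pk a b 4 * pl x 2 = pk a b 2 * pl x 4
    rw [e0, e2, e4, e5]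
    refine ⟨?_, ?_, ?_⟩
    · linear_combination (x 0) * h8
    · linear_combination (x 2) * h4 + (x 1) * h3
    · linear_combination (x 1) * h7 - (x 2) * h8
  · change pk a b 5 * pl x 5 = pk a b 5 * pl x 5 ∧ pk a b 5 * pl x 0 = pk a b 0 * pl x 5 ∧
      pk a b 5 * pl x 2 = pk a b 2 * pl x 5
    rw [e0, e2, e5]
    refine ⟨rfl, ?_, ?_⟩
    · linear_combination (-x 2) * h6 - (x 0) * h3
    · linear_combination (x 1) * h8 - (x 0) * h7

end ring

section field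

variable {K : Type*} [Field K]

theorem pl_ne_zero {x : Fin 3 → K} (hx : x ≠ 0) : pl x 5 ≠ 0 ∨ pl x 0 ≠ 0 ∨ pl x 2 ≠ 0 := by
  by_contra h
  push Not at h
  obtain ⟨h5, h0, h2⟩ := h
  have e0 : x 2 ^ 2 = 0 := h0
  have e5 : x 0 ^ 2 = 0 := h5
  have e2 : x 1 ^ 2 - x 0 * x 2 = 0 := h2
  have hx0 : x 0 = 0 := pow_eq_zero_iff two_ne_zero |>.1 e5
  have hx2 : x 2 = 0 := pow_eq_zero_iff two_ne_zero |>.1 e0
  rw [hx0, zero_mul, sub_zero] at e2
  have hx1 : x 1 = 0 := pow_eq_zero_iff two_ne_zero |>.1 e2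
  apply hx
  funext i
  fin_cases i
  · exact hx0
  · exact hx1
  · exact hx2

theorem pk_eq_smul {x : Fin 3 → K} (hx : x ≠ 0) {a b : Fin 4 → K} (ha : Inc x a) (hb : Inc x b) :
    ∃ c : K, ∀ i, pk a b i = c * pl x i := by
  rcases pl_ne_zero hx with h | h | h
  · exact ⟨pk a b 5 / pl x 5, fun i => by
      rw [div_mul_eq_mul_div, eq_div_iff h]; exact (pk_prop ha hb i).1⟩
  · exact ⟨pk a b 0 / pl x 0, fun i => by
      rw [div_mul_eq_mul_div, eq_div_iff h]; exact (pk_prop ha hb i).2.1⟩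
  · exact ⟨pk a b 2 / pl x 2, fun i => by
      rw [div_mul_eq_mul_div, eq_div_iff h]; exact (pk_prop ha hb i).2.2⟩

/-- pairs of indices -/
def ix : Fin 6 → Fin 4 × Fin 4 := ![(0, 1), (0, 2), (0, 3), (1, 2), (1, 3), (2, 3)]

theorem pk_ix (a b : Fin 4 → K) (i : Fin 6) :
    pk a b i = a (ix i).1 * b (ix i).2 - a (ix i).2 * b (ix i).1 := by
  fin_cases i <;> rfl

/-- two vectors with vanishing Plücker coordinates -/
theorem pk_zero_pair {a b : Fin 4 → K} (h : ∀ i, pk a b i = 0) (j k : Fin 4) :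
    a j * b k = a k * b j := by
  have h0 : a 0 * b 1 - a 1 * b 0 = 0 := h 0
  have h1 : a 0 * b 2 - a 2 * b 0 = 0 := h 1
  have h2 : a 0 * b 3 - a 3 * b 0 = 0 := h 2
  have h3 : a 1 * b 2 - a 2 * b 1 = 0 := h 3
  have h4 : a 1 * b 3 - a 3 * b 1 = 0 := h 4
  have h5 : a 2 * b 3 - a 3 * b 2 = 0 := h 5
  fin_cases j <;> fin_cases k
  · rfl
  · change a 0 * b 1 = a 1 * b 0
    linear_combination h0
  · change a 0 * b 2 = a 2 * b 0
    linear_combination h1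
  · change a 0 * b 3 = a 3 * b 0
    linear_combination h2
  · change a 1 * b 0 = a 0 * b 1
    linear_combination -h0
  · rfl
  · change a 1 * b 2 = a 2 * b 1
    linear_combination h3
  · change a 1 * b 3 = a 3 * b 1
    linear_combination h4
  · change a 2 * b 0 = a 0 * b 2
    linear_combination -h1
  · change a 2 * b 1 = a 1 * b 2
    linear_combination -h3
  · rfl
  · change a 2 * b 3 = a 3 * b 2
    linear_combination h5
  · change a 3 * b 0 = a 0 * b 3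
    linear_combination -h2
  · change a 3 * b 1 = a 1 * b 3
    linear_combination -h4
  · change a 3 * b 2 = a 2 * b 3
    linear_combination -h5
  · rfl

end field

end Pool.Agent.Lib.MP_1acd66_nt.Tw
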