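import Pool.Agent.Lib.MP_1acd66_nt.Tw.Basis2

/-!
Counting the points of the lattices of vectors incident with a primitive vector.
-/

namespace Pool.Agent.Lib.MP_1acd66_nt.Tw

open Finset

/-- the Gram determinant of the plane of `x` -/
theorem sum_pl_sq_bounds (x : Fin 3 → ℤ) :
    nrm x ^ 4 / 2 ≤ ((∑ i, pl x i ^ 2 : ℤ) : ℝ) ∧ ((∑ i, pl x i ^ 2 : ℤ) : ℝ) ≤ 9 * nrm x ^ 4 := by
  set X := nrm x with hX
  have h0 : |((x 0 : ℤ) : ℝ)| ≤ X := abs_le_nrm x 0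
  have h1 : |((x 1 : ℤ) : ℝ)| ≤ X := abs_le_nrm x 1
  have h2 : |((x 2 : ℤ) : ℝ)| ≤ X := abs_le_nrm x 2
  have hXn : 0 ≤ X := nrm_nonneg x
  set a : ℝ := ((x 0 : ℤ) : ℝ) with ha
  set b : ℝ := ((x 1 : ℤ) : ℝ) with hb
  set c : ℝ := ((x 2 : ℤ) : ℝ) with hc
  have e : ((∑ i, pl x i ^ 2 : ℤ) : ℝ) = (c ^ 2) ^ 2 + (b * c) ^ 2 + (b ^ 2 - a * c) ^ 2 +
      (a * c) ^ 2 + (a * b) ^ 2 + (a ^ 2) ^ 2 := by
    simp only [Fin.sum_univ_six]
    simp [pl]
    rfl
  rw [e]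
  have a2 : a ^ 2 ≤ X ^ 2 := sq_le_sq' (by linarith [(abs_le.1 h0).1]) (abs_le.1 h0).2
  have b2 : b ^ 2 ≤ X ^ 2 := sq_le_sq' (by linarith [(abs_le.1 h1).1]) (abs_le.1 h1).2
  have c2 : c ^ 2 ≤ X ^ 2 := sq_le_sq' (by linarith [(abs_le.1 h2).1]) (abs_le.1 h2).2
  have a0 := sq_nonneg a
  have b0 := sq_nonneg b
  have c0 := sq_nonneg c
  have X0 := sq_nonneg X
  constructor
  · obtain ⟨i, hi⟩ := exists_eq_nrm (by norm_num) x
    have hi2 : ((x i : ℤ) : ℝ) ^ 2 = X ^ 2 := by rw [hX, ← hi, sq_abs]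
    fin_cases i
    · have hi3 : a ^ 2 = X ^ 2 := hi2
      rw [hi3]
      nlinarith [sq_nonneg (c ^ 2), sq_nonneg (b * c), sq_nonneg (b ^ 2 - a * c), sq_nonneg (a * c),
        sq_nonneg (a * b), sq_nonneg (X ^ 2)]
    · have hi3 : b ^ 2 = X ^ 2 := hi2
      have e2 : X ^ 4 = (b ^ 2) ^ 2 := by rw [hi3]; ring
      rw [e2]
      nlinarith [sq_nonneg (c ^ 2), sq_nonneg (b * c), sq_nonneg (b ^ 2 - 2 * (a * c)),
        sq_nonneg (a * b), sq_nonneg (a ^ 2)]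
    · have hi3 : c ^ 2 = X ^ 2 := hi2
      rw [hi3]
      nlinarith [sq_nonneg (a ^ 2), sq_nonneg (b * c), sq_nonneg (b ^ 2 - a * c), sq_nonneg (a * c),
        sq_nonneg (a * b), sq_nonneg (X ^ 2)]
  · have k1 : (c ^ 2) ^ 2 ≤ X ^ 4 := by nlinarith
    have k2 : (b * c) ^ 2 ≤ X ^ 4 := by
      rw [mul_pow]; nlinarith [mul_nonneg b0 c0, mul_le_mul b2 c2 c0 X0]
    have k4 : (a * c) ^ 2 ≤ X ^ 4 := by
      rw [mul_pow]; nlinarith [mul_nonneg a0 c0, mul_le_mul a2 c2 c0 X0]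
    have k5 : (a * b) ^ 2 ≤ X ^ 4 := by
      rw [mul_pow]; nlinarith [mul_nonneg a0 b0, mul_le_mul a2 b2 b0 X0]
    have k6 : (a ^ 2) ^ 2 ≤ X ^ 4 := by nlinarith
    have k7 : (b ^ 2) ^ 2 ≤ X ^ 4 := by nlinarith
    have k3 : (b ^ 2 - a * c) ^ 2 ≤ 4 * X ^ 4 := by
      have e3 : (b ^ 2 - a * c) ^ 2 = 2 * (b ^ 2) ^ 2 + 2 * (a * c) ^ 2 - (b ^ 2 + a * c) ^ 2 := by
        ring
      rw [e3]
      linarith [sq_nonneg (b ^ 2 + a * c)]
    linarith

theorem len_le_nrm (y : Fin 4 → ℤ) : len y ≤ 2 * nrm y := by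
  rw [len]
  apply Real.sqrt_le_iff.2
  refine ⟨mul_nonneg two_pos.le (nrm_nonneg y), ?_⟩
  have e : ((dot y y : ℤ) : ℝ) = ∑ i, ((y i : ℤ) : ℝ) ^ 2 := by
    simp only [dot]; push_cast
    exact Finset.sum_congr rfl fun i _ => (sq _).symm
  rw [e]
  have h : ∀ i, ((y i : ℤ) : ℝ) ^ 2 ≤ nrm y ^ 2 := fun i => by
    have := abs_le_nrm y i
    exact sq_le_sq' (by linarith [(abs_le.1 this).1]) (abs_le.1 this).2
  calc ∑ i, ((y i : ℤ) : ℝ) ^ 2 ≤ ∑ _i : Fin 4, nrm y ^ 2 := Finset.sum_le_sum fun i _ => h i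
    _ = (2 * nrm y) ^ 2 := by simp; ring

theorem nrm_le_len {n : ℕ} (y : Fin n → ℤ) : nrm y ≤ len y :=
  nrm_le (len_nonneg y) fun i => abs_le_len y i

open Classical in
/-- a chosen reduced basis -/
noncomputable def rb (x : Fin 3 → ℤ) : FrZ 4 :=
  if h : Prim x then (exists_redbas h).choose else 0

theorem rb_spec {x : Fin 3 → ℤ} (hx : Prim x) : IsBas x (rb x) ∧ IsReduced (rb x) := by
  rw [rb, dif_pos hx]
  exact (exists_redbas hx).choose_spec

/-- the length of the shortest vector of the chosen basis -/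
noncomputable def lam (x : Fin 3 → ℤ) : ℝ := len (rb x 0)

theorem IsBas.isFrame {x : Fin 3 → ℤ} (hx : Prim x) {Z : FrZ 4} (h : IsBas x Z) : IsFrame Z := by
  obtain ⟨_, _, e, he, hpk⟩ := h
  obtain ⟨i, hi⟩ := exists_pl_ne_zero hx.ne_zero
  refine ⟨(ix i).1, (ix i).2, ?_⟩
  have : minor Z (ix i).1 (ix i).2 = pk (Z 0) (Z 1) i := by
    fin_cases i <;> rfl
  rw [this, hpk]
  exact mul_ne_zero he.ne_zero hi

theorem IsBas.det2_bounds {x : Fin 3 → ℤ} {Z : FrZ 4} (h : IsBas x Z) :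
    nrm x ^ 2 / 2 ≤ det2 Z ∧ det2 Z ≤ 3 * nrm x ^ 2 := by
  have h1 := sum_pl_sq_bounds x
  rw [← h.gram_eq, ← det2_sq] at h1
  have h0 : 0 ≤ det2 Z := Real.sqrt_nonneg _
  have hX := nrm_nonneg x
  constructor
  · by_contra hcon
    push Not at hcon
    have : det2 Z ^ 2 < (nrm x ^ 2 / 2) ^ 2 := by
      apply pow_lt_pow_left₀ hcon h0 two_ne_zero
    nlinarith [sq_nonneg (nrm x ^ 2)]
  · by_contra hcon
    push Not at hcon
    have : (3 * nrm x ^ 2) ^ 2 < det2 Z ^ 2 := by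
      apply pow_lt_pow_left₀ hcon (by positivity) two_ne_zero
    nlinarith [sq_nonneg (nrm x ^ 2)]

theorem dot_comb_sq {a b : Fin 4 → ℤ} (Z : FrZ 4) (ha : a = Z 0) (s t : ℤ)
    (hb : b = fun j => s * Z 0 j + t * Z 1 j) :
    t ^ 2 * gram Z = dot a a * dot b b - dot a b ^ 2 := by
  subst ha hb
  simp only [gram, dot, Fin.sum_univ_four]
  ring

theorem dot_comb_sq' {a b : Fin 4 → ℤ} (Z : FrZ 4) (ha : a = Z 1) (s t : ℤ)
    (hb : b = fun j => s * Z 0 j + t * Z 1 j) :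
    s ^ 2 * gram Z = dot a a * dot b b - dot a b ^ 2 := by
  subst ha hb
  simp only [gram, dot, Fin.sum_univ_four]
  ring

/-- bounds for the coefficients in a reduced basis -/
theorem coeff_bound {Z : FrZ 4} (hZ : IsFrame Z) (hr : IsReduced Z) {y : Fin 4 → ℤ} {s t : ℤ}
    (hy : ∀ j, y j = s * Z 0 j + t * Z 1 j) :
    |(s : ℝ)| * len (Z 0) ≤ 2 * len y ∧ |(t : ℝ)| * len (Z 1) ≤ 2 * len y := by
  have hy' : y = fun j => s * Z 0 j + t * Z 1 j := funext hy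
  have hd : 0 < det2 Z := lt_of_lt_of_le one_pos (one_le_det2 hZ)
  have hl := hr.len_mul_le
  have l0 := len_nonneg (Z 0)
  have l1 := len_nonneg (Z 1)
  have ly := len_nonneg y
  have e1 := dot_comb_sq Z rfl s t hy'
  have e2 := dot_comb_sq' Z rfl s t hy'
  have f1 : (t : ℝ) ^ 2 * det2 Z ^ 2 ≤ len (Z 0) ^ 2 * len y ^ 2 := by
    rw [det2_sq, len_sq, len_sq]
    have : t ^ 2 * gram Z ≤ dot (Z 0) (Z 0) * dot y y := by
      rw [e1]; nlinarith [sq_nonneg (dot (Z 0) y)]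
    exact_mod_cast this
  have f2 : (s : ℝ) ^ 2 * det2 Z ^ 2 ≤ len (Z 1) ^ 2 * len y ^ 2 := by
    rw [det2_sq, len_sq, len_sq]
    have : s ^ 2 * gram Z ≤ dot (Z 1) (Z 1) * dot y y := by
      rw [e2]; nlinarith [sq_nonneg (dot (Z 1) y)]
    exact_mod_cast this
  have g1 : |(t : ℝ)| * det2 Z ≤ len (Z 0) * len y := by
    apply le_of_sq_le_sq _ (mul_nonneg l0 ly)
    rw [mul_pow, mul_pow, sq_abs]; exact f1
  have g2 : |(s : ℝ)| * det2 Z ≤ len (Z 1) * len y := by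
    apply le_of_sq_le_sq _ (mul_nonneg l1 ly)
    rw [mul_pow, mul_pow, sq_abs]; exact f2
  constructor
  · have h3 : (|(s : ℝ)| * len (Z 0)) * det2 Z ≤ (2 * len y) * det2 Z := by
      calc (|(s : ℝ)| * len (Z 0)) * det2 Z = (|(s : ℝ)| * det2 Z) * len (Z 0) := by ring
        _ ≤ (len (Z 1) * len y) * len (Z 0) := mul_le_mul_of_nonneg_right g2 l0
        _ = (len (Z 0) * len (Z 1)) * len y := by ring
        _ ≤ (2 * det2 Z) * len y := mul_le_mul_of_nonneg_right hl ly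
        _ = _ := by ring
    exact le_of_mul_le_mul_right h3 hd
  · have h3 : (|(t : ℝ)| * len (Z 1)) * det2 Z ≤ (2 * len y) * det2 Z := by
      calc (|(t : ℝ)| * len (Z 1)) * det2 Z = (|(t : ℝ)| * det2 Z) * len (Z 1) := by ring
        _ ≤ (len (Z 0) * len y) * len (Z 1) := mul_le_mul_of_nonneg_right g1 l1
        _ = (len (Z 0) * len (Z 1)) * len y := by ring
        _ ≤ (2 * det2 Z) * len y := mul_le_mul_of_nonneg_right hl ly
        _ = _ := by ring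
    exact le_of_mul_le_mul_right h3 hd

theorem card_int_abs_le (s : Finset ℤ) {L : ℝ} (hL : 0 ≤ L) (h : ∀ x ∈ s, |((x : ℤ) : ℝ)| ≤ L) :
    (s.card : ℝ) ≤ 2 * L + 1 := by
  apply card_int_le s (by linarith)
  intro x hx y hy
  have h1 := (abs_le.1 (h x hx)).2
  have h2 := (abs_le.1 (h y hy)).1
  push_cast
  linarith

theorem one_le_lam {x : Fin 3 → ℤ} (hx : Prim x) : 1 ≤ lam x :=
  one_le_len ((rb_spec hx).1.isFrame hx |>.row_ne_zero 0)

/-- The number of nonzero points of bounded size. -/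
theorem lat_count {x : Fin 3 → ℤ} (hx : Prim x) {Y : ℝ} (hY : 0 ≤ Y) (S : Finset (Fin 4 → ℤ))
    (hS : ∀ y ∈ S, Inc x y ∧ y ≠ 0 ∧ nrm y ≤ Y) :
    (S.card : ℝ) ≤ 192 * (Y / lam x + Y ^ 2 / nrm x ^ 2) ∧ (S.Nonempty → lam x ≤ 4 * Y) := by
  classical
  obtain ⟨hbas, hred⟩ := rb_spec hx
  have hfr := hbas.isFrame hx
  set Z := rb x with hZ
  have hl0 : 1 ≤ len (Z 0) := one_le_len (hfr.row_ne_zero 0)
  have hl1 : len (Z 0) ≤ len (Z 1) := by
    rw [len, len]; apply Real.sqrt_le_sqrt; exact_mod_cast hred.1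
  have hlam : lam x = len (Z 0) := rfl
  rw [hlam]
  set l0 := len (Z 0) with hl0def
  set l1 := len (Z 1) with hl1def
  have hl0p : 0 < l0 := by linarith
  have hl1p : 0 < l1 := by linarith
  have hX : 0 < nrm x := lt_of_lt_of_le one_pos (one_le_nrm hx.ne_zero)
  rcases S.eq_empty_or_nonempty with hemp | hne
  · subst hemp
    refine ⟨?_, fun h => absurd h (by simp)⟩
    rw [card_empty, Nat.cast_zero]
    positivity
  · obtain ⟨y0, hy0⟩ := hne
    have hYpos : 1 ≤ Y := by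
      obtain ⟨_, h2, h3⟩ := hS y0 hy0
      exact (one_le_nrm h2).trans h3
    have hex : ∀ y ∈ S, ∃ a : Fin 2 → ℤ, ∀ j, y j = a 0 * Z 0 j + a 1 * Z 1 j :=
      fun y hy => hbas.comb hx (hS y hy).1
    choose! a ha using hex
    have hb : ∀ y ∈ S, |((a y 0 : ℤ) : ℝ)| ≤ 4 * Y / l0 ∧ |((a y 1 : ℤ) : ℝ)| ≤ 4 * Y / l1 := by
      intro y hy
      obtain ⟨b0, b1⟩ := coeff_bound hfr hred (ha y hy)
      have hly : len y ≤ 2 * Y := (len_le_nrm y).trans (by linarith [(hS y hy).2.2])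
      rw [le_div_iff₀ (by linarith), le_div_iff₀ (by linarith)]
      constructor <;> linarith
    have hlamY : l0 ≤ 4 * Y := by
      obtain ⟨b0, b1⟩ := hb y0 hy0
      obtain ⟨_, h2, _⟩ := hS y0 hy0
      by_cases h : a y0 0 = 0
      · have h1 : a y0 1 ≠ 0 := by
          intro h1
          apply h2
          funext j
          rw [ha y0 hy0 j, h, h1]; simp
        have h3 : (1 : ℝ) ≤ |((a y0 1 : ℤ) : ℝ)| := by exact_mod_cast Int.one_le_abs h1
        have h4 := h3.trans b1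
        rw [le_div_iff₀ (by linarith)] at h4
        linarith
      · have h3 : (1 : ℝ) ≤ |((a y0 0 : ℤ) : ℝ)| := by exact_mod_cast Int.one_le_abs h
        have h4 := h3.trans b0
        rw [le_div_iff₀ (by linarith)] at h4
        linarith
    refine ⟨?_, fun _ => hlamY⟩
    set U : Finset ℤ := S.image (fun y => a y 0)
    set V : Finset ℤ := S.image (fun y => a y 1)
    have hU : (U.card : ℝ) ≤ 2 * (4 * Y / l0) + 1 := by
      apply card_int_abs_le U (by positivity)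
      intro z hz
      obtain ⟨y, hy, rfl⟩ := Finset.mem_image.1 hz
      exact (hb y hy).1
    have hV : (V.card : ℝ) ≤ 2 * (4 * Y / l1) + 1 := by
      apply card_int_abs_le V (by positivity)
      intro z hz
      obtain ⟨y, hy, rfl⟩ := Finset.mem_image.1 hz
      exact (hb y hy).2
    have hc : S.card ≤ (U ×ˢ V).card := by
      apply Finset.card_le_card_of_injOn (fun y => (a y 0, a y 1))
      · intro y hy
        exact Finset.mem_product.2 ⟨Finset.mem_image_of_mem _ hy, Finset.mem_image_of_mem _ hy⟩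
      · intro y hy z hz hyz
        funext j
        rw [ha y hy j, ha z hz j]
        rw [Prod.mk.injEq] at hyz
        rw [hyz.1, hyz.2]
    rw [Finset.card_product] at hc
    have hc' : (S.card : ℝ) ≤ (U.card : ℝ) * V.card := by exact_mod_cast hc
    have hl : nrm x ^ 2 / 2 ≤ l0 * l1 := by
      have h1 := hbas.det2_bounds.1
      have h2 : det2 Z ≤ l0 * l1 := by
        apply le_of_sq_le_sq _ (by positivity)
        rw [mul_pow, det2_sq, hl0def, hl1def, len_sq, len_sq]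
        have : gram Z ≤ dot (Z 0) (Z 0) * dot (Z 1) (Z 1) := by
          rw [gram]; nlinarith [sq_nonneg (dot (Z 0) (Z 1))]
        exact_mod_cast this
      linarith
    have k1 : 2 * (4 * Y / l0) + 1 ≤ 12 * Y / l0 := by
      have : 1 ≤ 4 * Y / l0 := by rw [le_div_iff₀ (by linarith)]; linarith
      have e : 12 * Y / l0 = 3 * (4 * Y / l0) := by ring
      rw [e]; linarith
    have k2 : Y * Y / (l0 * l1) ≤ 2 * (Y ^ 2 / nrm x ^ 2) := by
      rw [div_le_iff₀ (by positivity)]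
      have : Y * Y = 2 * (Y ^ 2 / nrm x ^ 2) * (nrm x ^ 2 / 2) := by field_simp
      calc Y * Y = 2 * (Y ^ 2 / nrm x ^ 2) * (nrm x ^ 2 / 2) := this
        _ ≤ 2 * (Y ^ 2 / nrm x ^ 2) * (l0 * l1) := by gcongr
    calc (S.card : ℝ) ≤ (U.card : ℝ) * V.card := hc'
      _ ≤ (2 * (4 * Y / l0) + 1) * (2 * (4 * Y / l1) + 1) :=
          mul_le_mul hU hV (Nat.cast_nonneg _) (by positivity)
      _ ≤ (12 * Y / l0) * (2 * (4 * Y / l1) + 1) := mul_le_mul_of_nonneg_right k1 (by positivity)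
      _ = 96 * (Y * Y / (l0 * l1)) + 12 * (Y / l0) := by field_simp; ring
      _ ≤ 96 * (2 * (Y ^ 2 / nrm x ^ 2)) + 12 * (Y / l0) := by linarith
      _ ≤ 192 * (Y / l0 + Y ^ 2 / nrm x ^ 2) := by
          have : 0 ≤ Y / l0 := by positivity
          linarith

end Pool.Agent.Lib.MP_1acd66_nt.Tw
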