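import Pool.Agent.Lib.MP_1acd66_nt.Tw.LamSum

/-!
Logarithmic sums over primitive vectors.
-/

namespace Pool.Agent.Lib.MP_1acd66_nt.Tw

open Finset

theorem card_levels (F : Finset ℕ) {R : ℝ} (hR : 1 ≤ R) (h : ∀ k ∈ F, (2 : ℝ) ^ k ≤ 2 * R) :
    (F.card : ℝ) ≤ 2 * (1 + Real.log R) := by
  have hl : 0 ≤ Real.log R := Real.log_nonneg hR
  rcases F.eq_empty_or_nonempty with rfl | hne
  · rw [card_empty, Nat.cast_zero]; positivity
  · obtain ⟨K, hK, hmax⟩ := F.exists_max_image id hne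
    have h1 : F ⊆ range (K + 1) := fun k hk => mem_range.2 (Nat.lt_succ_of_le (hmax k hk))
    have h2 := card_le_card h1
    rw [card_range] at h2
    have h3 : (F.card : ℝ) ≤ K + 1 := by exact_mod_cast h2
    have h4 : (K : ℝ) * Real.log 2 ≤ Real.log 2 + Real.log R := by
      rw [← Real.log_pow, ← Real.log_mul (by norm_num) (by linarith)]
      exact Real.log_le_log (by positivity) (h K hK)
    have h5 : (1:ℝ) / 2 ≤ Real.log 2 := by
      have := Real.log_two_gt_d9; linarith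
    have h6 : (K : ℝ) ≤ 1 + 2 * Real.log R := by
      by_contra hcon
      push Not at hcon
      have h7 : 2 * Real.log R < K - 1 := by linarith
      have : (1 + 2 * Real.log R - 1) * Real.log 2 < ((K : ℝ) - 1) * Real.log 2 := by
        apply mul_lt_mul_of_pos_right _ (by linarith)
        linarith
      nlinarith
    linarith

theorem sum_inv_sqrt_two_pow (F : Finset ℕ) : ∑ k ∈ F, 1 / √((2 : ℝ) ^ k) ≤ 4 := by
  have h1 : ∀ k ∈ F, 1 / √((2 : ℝ) ^ k) ≤ ((3:ℝ) / 4) ^ k := by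
    intro k _
    have e : √((2 : ℝ) ^ k) = (√2) ^ k := by
      rw [Real.sqrt_eq_iff_mul_self_eq (by positivity) (by positivity), ← mul_pow,
        Real.mul_self_sqrt (by norm_num)]
    rw [e, ← one_div_pow]
    have h2 : 1 / √2 ≤ 3 / 4 := by
      rw [div_le_div_iff₀ (Real.sqrt_pos.2 (by norm_num)) (by norm_num)]
      have : (4:ℝ) / 3 ≤ √2 := by
        apply Real.le_sqrt_of_sq_le; norm_num
      linarith
    exact pow_le_pow_left₀ (by positivity) h2 k
  refine (sum_le_sum h1).trans ?_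
  have hsub : F ⊆ range (F.sup id + 1) := fun k hk =>
    mem_range.2 (Nat.lt_succ_of_le (le_sup (f := id) hk))
  refine (sum_le_sum_of_subset_of_nonneg hsub fun _ _ _ => by positivity).trans ?_
  have := geom_sum_eq (by norm_num : (3:ℝ) / 4 ≠ 1) (F.sup id + 1)
  rw [this]
  have h3 : 0 ≤ ((3:ℝ) / 4) ^ (F.sup id + 1) := by positivity
  rw [div_le_iff_of_neg (by norm_num)]
  linarith

theorem unb_sum {R τ : ℝ} (hR : 1 ≤ R) (hτ : 0 < τ) (S : Finset (Fin 3 → ℤ))
    (hS : ∀ x ∈ S, Prim x ∧ nrm x ≤ R) (hlam : ∀ x ∈ S, lam x ≤ τ * nrm x) :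
    ∑ x ∈ S, 1 / nrm x ^ 3 ≤ 32 * (8 * cD + 216) * (τ ^ 2 * (1 + Real.log R) + 1) := by
  classical
  have hcD := cD_pos
  have hl : 0 ≤ Real.log R := Real.log_nonneg hR
  obtain ⟨h1, h2⟩ := lev_block hS
  rw [← sum_fiberwise_of_maps_to (t := S.image lev) (g := lev) (fun x hx => mem_image_of_mem _ hx)]
  calc ∑ k ∈ S.image lev, ∑ x ∈ S with lev x = k, 1 / nrm x ^ 3
      ≤ ∑ k ∈ S.image lev, 8 * (8 * cD + 216) * (τ ^ 2 + 1 / √((2:ℝ) ^ k)) := by
        refine sum_le_sum fun k _ => ?_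
        have hpk : (0:ℝ) < 2 ^ k := by positivity
        have hsk : 0 < √((2:ℝ) ^ k) := Real.sqrt_pos.2 hpk
        calc ∑ x ∈ S with lev x = k, 1 / nrm x ^ 3
            ≤ ∑ x ∈ S with lev x = k, 8 / ((2:ℝ) ^ k) ^ 3 := by
              refine sum_le_sum fun x hx => ?_
              obtain ⟨hp, b1, b2⟩ := h2 k x hx
              have hn : 0 < nrm x := lt_of_lt_of_le one_pos (one_le_nrm hp.ne_zero)
              rw [div_le_div_iff₀ (by positivity) (by positivity), one_mul]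
              have : (2:ℝ) ^ k ≤ 2 * nrm x := by linarith
              calc ((2:ℝ) ^ k) ^ 3 ≤ (2 * nrm x) ^ 3 := by gcongr
                _ = _ := by ring
          _ = ((S.filter (fun x => lev x = k)).card : ℝ) * (8 / ((2:ℝ) ^ k) ^ 3) := by
              rw [sum_const, nsmul_eq_mul]
          _ ≤ ((8 * cD + 216) * (τ ^ 2 * ((2:ℝ) ^ k) ^ 3 + ((2:ℝ) ^ k) ^ 2 * √((2:ℝ) ^ k))) *
              (8 / ((2:ℝ) ^ k) ^ 3) := by
              have := unb_block (X := 2 ^ k) (τ := τ) (one_le_pow₀ (by norm_num)) hτ _ (h2 k)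
                (fun x hx => hlam x (mem_filter.1 hx).1)
              gcongr
          _ = 8 * (8 * cD + 216) * (τ ^ 2 + √((2:ℝ) ^ k) / ((2:ℝ) ^ k)) := by
              field_simp
          _ = _ := by
              congr 2
              rw [div_eq_div_iff hpk.ne' hsk.ne', one_mul, Real.mul_self_sqrt hpk.le]
    _ = 8 * (8 * cD + 216) * (τ ^ 2 * (S.image lev).card + ∑ k ∈ S.image lev, 1 / √((2:ℝ) ^ k)) := by
        rw [← mul_sum, sum_add_distrib, sum_const, nsmul_eq_mul]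
        ring
    _ ≤ 8 * (8 * cD + 216) * (τ ^ 2 * (2 * (1 + Real.log R)) + 4) := by
        have a1 := card_levels _ hR h1
        have a2 := sum_inv_sqrt_two_pow (S.image lev)
        gcongr
    _ ≤ _ := by nlinarith [mul_pos (pow_pos hτ 2) (by linarith : 0 < 1 + Real.log R)]

theorem log_sum3 {R R1 : ℝ} (hR1 : 1 ≤ R1) (hR : R1 ≤ R) (S : Finset (Fin 3 → ℤ))
    (hS : ∀ x ∈ S, R1 ≤ nrm x ∧ nrm x ≤ R) :
    ∑ x ∈ S, 1 / nrm x ^ 3 ≤ 432 * (1 + Real.log (R / R1)) := by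
  have hR10 : 0 < R1 := by linarith
  have h1 := dyadic_log S (fun x => nrm x / R1) (K := (3 * R1) ^ 3) (R1 := R / R1) (α := 3)
    (by positivity) (fun x hx => by rw [one_le_div hR10]; exact (hS x hx).1)
    (by rw [one_le_div hR10]; exact hR) (fun x hx => by
      have := (hS x hx).2
      gcongr) (by
      intro t ht
      have : 1 ≤ t * R1 := by nlinarith
      refine (card_box 3 this _ ?_).trans (le_of_eq (by ring))
      intro x hx j
      rw [mem_filter] at hx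
      have h2 := hx.2
      rw [div_le_iff₀ hR10] at h2
      exact (abs_le_nrm x j).trans h2)
  have e : ∑ x ∈ S, 1 / nrm x ^ 3 = (R1 ^ 3)⁻¹ * ∑ x ∈ S, ((nrm x / R1) ^ 3)⁻¹ := by
    rw [mul_sum]
    refine sum_congr rfl fun x _ => ?_
    rw [div_pow, inv_div, ← mul_div_assoc, inv_mul_cancel₀ (by positivity)]
  rw [e]
  calc (R1 ^ 3)⁻¹ * ∑ x ∈ S, ((nrm x / R1) ^ 3)⁻¹
      ≤ (R1 ^ 3)⁻¹ * (2 ^ (3 + 1) * (3 * R1) ^ 3 * (1 + Real.log (R / R1))) := by gcongr
    _ = _ := by field_simp; ring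

theorem lev_block' {S : Finset (Fin 3 → ℤ)} {R : ℝ} (hS : ∀ x ∈ S, x ≠ 0 ∧ nrm x ≤ R) :
    (∀ k ∈ S.image lev, (2 : ℝ) ^ k ≤ 2 * R) ∧
    ∀ k, ∀ x ∈ S.filter (fun x => lev x = k), x ≠ 0 ∧ (2 : ℝ) ^ k / 2 < nrm x ∧
      nrm x ≤ 2 ^ k := by
  constructor
  · intro k hk
    obtain ⟨x, hx, rfl⟩ := mem_image.1 hk
    have := (lev_spec (hS x hx).1).1
    linarith [(hS x hx).2]
  · intro k x hx
    rw [mem_filter] at hx
    obtain ⟨hxS, rfl⟩ := hx
    exact ⟨(hS x hxS).1, lev_spec (hS x hxS).1⟩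

theorem sum_inv_sq_nrm {R : ℝ} (hR : 0 ≤ R) (S : Finset (Fin 3 → ℤ))
    (hS : ∀ x ∈ S, x ≠ 0 ∧ nrm x ≤ R) : ∑ x ∈ S, 1 / nrm x ^ 2 ≤ 432 * R := by
  classical
  obtain ⟨h1, h2⟩ := lev_block' hS
  rw [← sum_fiberwise_of_maps_to (t := S.image lev) (g := lev) (fun x hx => mem_image_of_mem _ hx)]
  calc ∑ k ∈ S.image lev, ∑ x ∈ S with lev x = k, 1 / nrm x ^ 2
      ≤ ∑ k ∈ S.image lev, 108 * (2:ℝ) ^ k := by
        refine sum_le_sum fun k _ => ?_
        have hpk : (0:ℝ) < 2 ^ k := by positivity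
        calc ∑ x ∈ S with lev x = k, 1 / nrm x ^ 2
            ≤ ∑ x ∈ S with lev x = k, 4 / ((2:ℝ) ^ k) ^ 2 := by
              refine sum_le_sum fun x hx => ?_
              obtain ⟨hp, b1, b2⟩ := h2 k x hx
              have hn : 0 < nrm x := lt_of_lt_of_le one_pos (one_le_nrm hp)
              rw [div_le_div_iff₀ (by positivity) (by positivity), one_mul]
              have : (2:ℝ) ^ k ≤ 2 * nrm x := by linarith
              calc ((2:ℝ) ^ k) ^ 2 ≤ (2 * nrm x) ^ 2 := by gcongr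
                _ = _ := by ring
          _ = ((S.filter (fun x => lev x = k)).card : ℝ) * (4 / ((2:ℝ) ^ k) ^ 2) := by
              rw [sum_const, nsmul_eq_mul]
          _ ≤ (3 * (2:ℝ) ^ k) ^ 3 * (4 / ((2:ℝ) ^ k) ^ 2) := by
              have := card_box 3 (R := 2 ^ k) (one_le_pow₀ (by norm_num))
                (S.filter (fun x => lev x = k)) (fun x hx j => (abs_le_nrm x j).trans (h2 k x hx).2.2)
              gcongr
          _ = _ := by field_simp; ring
    _ = 108 * ∑ k ∈ S.image lev, (2 : ℝ) ^ k := by rw [mul_sum]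
    _ ≤ 108 * (2 * (2 * R)) := by
        have := sum_two_pow_le _ (by positivity) h1
        gcongr
    _ = _ := by ring

end Pool.Agent.Lib.MP_1acd66_nt.Tw
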