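import Pool.Agent.Lib.MP_1acd66_nt.Tw.UpA

/-!
Lower bound for the pairs with large first vector.
-/

namespace Pool.Agent.Lib.MP_1acd66_nt.Tw

open Finset

variable {M : (Fin 3 → ℝ) → (Fin 4 → ℝ) → ℝ} {f : (Fin 3 → ℤ) → (Fin 4 → ℤ) → ℝ}

/-- the lower bound -/
theorem YA_lower {c0 : ℝ} (hM : IsLocalNorm ℝ M) (hc0 : 0 < c0)
    (hb : ∀ x y, x ≠ 0 → y ≠ 0 → Inc x y → c0 * (‖x‖ * ‖y‖ ^ 2) ≤ M x y)
    {S : ℕ} {f0 f1 : ℝ} (hf : Tame f S f0 f1) {q k P : ℕ} (hq : 0 < q)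
    (hSq : S ∣ q) (hk : 1 ≤ k) (hPq : ∀ p : ℕ, p.Prime → p < P → p ∣ q) {T ε : ℝ} (hT : 0 < T)
    (hε : 0 < ε) {g : (Fin 3 → ℤ) → (Fin 4 → ℤ) → ℝ} (hg : ClassApprox f q g f0 f1 ε)
    {A : ℝ} (hA1 : 1 ≤ A) (hAQ : ((q ^ k : ℕ) : ℝ) ≤ A)
    (hAT : T ^ 4 * ((q ^ k : ℕ) : ℝ) / f0 ≤ A ^ 4)
    {R : ℝ} (hR : 1 ≤ R)
    (hfinT : ∀ c ∈ CS q R, (TA M T g q (q ^ k) c (R ^ 3 / (1 + ε))).Finite) {E : ℝ}
    (hbig : ∀ D : Finset CY,
      (∀ p ∈ D, 0 < p.1 ∧ (p.1:ℝ) ≤ A * R ∧ (∀ j, (p.1:ℤ) ∣ qf p.2 j) ∧ PrimMod p.1 p.2 ∧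
      p.2 ≠ 0 ∧ R * p.1 < nrm (qf p.2) ∧
      nrm (qf p.2) * nrm p.2 ^ 2 ≤ 1 / (c0 * f0) * p.1 * R ^ 3 ∧
      ∃ l : ℕ, l.Prime ∧ P ≤ l ∧ (∀ j, ((l * p.1 : ℕ):ℤ) ∣ qf p.2 j)) → (D.card : ℝ) ≤ E) :
    ∑ c ∈ CS q R, ((TA M T g q (q ^ k) c (R ^ 3 / (1 + ε))).ncard : ℝ) ≤
      ((YA M f (R ^ 3) R).ncard : ℝ) +
      (16 * A ^ 3 + 4 * A * (64 * ((2 + 2 * A) * (16 + 2 * A)) ^ 2)) * R ^ 3 + E := by
  classical
  have hf0 := hf.pos
  have hR0 : 0 < R := by linarith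
  set Q := q ^ k with hQdef
  have hQ : 0 < Q := pow_pos hq k
  have hqQ : q ∣ Q := dvd_pow_self q (by omega)
  set b := R ^ 3 / (1 + ε) with hbdef
  have hbp : 0 < b := by positivity
  have hbB : b ≤ R ^ 3 := div_le_self (by positivity) (by linarith)
  have hDfin : (⋃ c ∈ CS q R, (fun y => ((gq Q y * c, y) : CY)) '' TA M T g q Q c b).Finite :=
    Set.Finite.biUnion (CS q R).finite_toSet fun c hc => (hfinT c hc).image _
  set D := hDfin.toFinset with hD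
  have hDm : ∀ p, p ∈ D ↔ ∃ c ∈ CS q R, ∃ y ∈ TA M T g q Q c b, ((gq Q y * c, y) : CY) = p := by
    intro p
    rw [hD, Set.Finite.mem_toFinset]
    simp only [Set.mem_iUnion, Set.mem_image, exists_prop]
  -- the sum is the cardinality
  have hsum : ∑ c ∈ CS q R, ((TA M T g q Q c b).ncard : ℝ) ≤ D.card := by
    have h1 : D.card = ∑ c ∈ CS q R, (D.filter (fun p => p.1 / gq Q p.2 = c)).card := by
      refine card_eq_sum_card_fiberwise ?_
      intro p hp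
      rw [mem_coe, hDm] at hp
      obtain ⟨c, hc, y, hy, rfl⟩ := hp
      simp only
      rw [Nat.mul_div_cancel_left _ (gq_pos hQ y)]
      exact hc
    rw [h1]
    push_cast
    refine sum_le_sum fun c hc => ?_
    rw [Set.ncard_eq_toFinset_card _ (hfinT c hc)]
    have h2 : (hfinT c hc).toFinset.card ≤ (D.filter (fun p => p.1 / gq Q p.2 = c)).card := by
      refine card_le_card_of_injOn (fun y => ((gq Q y * c, y) : CY)) ?_ ?_
      · intro y hy
        rw [mem_coe, Set.Finite.mem_toFinset] at hy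
        rw [mem_coe, mem_filter]
        exact ⟨(hDm _).2 ⟨c, hc, y, hy, rfl⟩, Nat.mul_div_cancel_left _ (gq_pos hQ y)⟩
      · intro y _ z _ h
        exact congrArg Prod.snd h
    exact_mod_cast h2
  -- the properties
  have hprop : ∀ p ∈ D, 0 < p.1 ∧ (p.1:ℝ) ≤ Q * R ∧ (∀ j, (p.1:ℤ) ∣ qf p.2 j) ∧ PM p.1 p.2 ∧
      p.2 ≠ 0 ∧ PM q p.2 ∧ gq Q p.2 * q ∣ Q ∧ gq Q p.2 ∣ p.1 ∧ q.Coprime (p.1 / gq Q p.2) ∧
      0 < hA g q Q (rsd Q p.2) ∧ f0 ≤ hA g q Q (rsd Q p.2) ∧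
      FT M T (castv p.2) ≤ p.1 * b / hA g q Q (rsd Q p.2) := by
    intro p hp
    obtain ⟨c, hc, y, ⟨h1, h2, h3, h4⟩, rfl⟩ := (hDm p).1 hp
    obtain ⟨hc1, hc2, hc3⟩ := (mem_CS hR0.le).1 hc
    obtain ⟨h5, h6⟩ := (rsd_mem_EQ hqQ hQ).1 h2
    obtain ⟨h7, h8⟩ := (rsd_mem_J hc1).1 h3
    have hgp := gq_pos hQ y
    rw [← gq_congr (cg_rsd (q := Q) y)] at h4
    have hgc : (gq Q y).Coprime c := by
      have h9 : Q.Coprime c := Nat.Coprime.pow_left k hc3
      exact Nat.Coprime.coprime_dvd_left (gq_dvd Q y) h9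
    have hd : gq Q y * c ∣ ct y :=
      hgc.mul_dvd_of_dvd_of_dvd (Nat.gcd_dvd_right _ _) (dvd_ct.2 h7)
    simp only
    refine ⟨Nat.mul_pos hgp hc1, ?_, dvd_ct.1 hd, ?_, h1, h5, h6, Dvd.intro _ rfl, ?_,
      lt_of_lt_of_le hf0 (hg.1 _ _).1, (hg.1 _ _).1, ?_⟩
    · push_cast
      have : ((gq Q y : ℕ) : ℝ) ≤ Q := by exact_mod_cast Nat.le_of_dvd hQ (gq_dvd Q y)
      gcongr
    · intro l hl hlc
      rcases (Nat.Prime.dvd_mul hl).1 hlc with h | h
      · exact h5 l hl (hl.dvd_of_dvd_pow (h.trans (gq_dvd Q y)))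
      · exact h8.pm l hl h
    · rw [Nat.mul_div_cancel_left _ hgp]; exact hc3
    · push_cast
      exact h4
  -- small values
  set D1 := D.filter (fun p => nrm (qf p.2) ≤ R * p.1) with hD1
  set D' := D.filter (fun p => ¬ nrm (qf p.2) ≤ R * p.1) with hD'
  have s1 : (D1.card : ℝ) + D'.card = D.card := by
    exact_mod_cast card_filter_add_card_filter_not (s := D) (fun p => nrm (qf p.2) ≤ R * p.1)
  have b1 : (D1.card : ℝ) ≤
      (16 * A ^ 3 + 4 * A * (64 * ((2 + 2 * A) * (16 + 2 * A)) ^ 2)) * R ^ 3 := by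
    refine smallA hA1 hR D1 ?_
    intro p hp
    obtain ⟨hp1, hp2⟩ := mem_filter.1 hp
    obtain ⟨g1, g2, g3, g4, g5, g6, g7, g8, g9, g10, g11, g12⟩ := hprop p hp1
    have hQR : (p.1 : ℝ) ≤ A * R := g2.trans (by gcongr)
    refine ⟨g1, hQR, g3, g4.primMod, g5, hp2, ?_⟩
    have e1 : (nrm p.2 / T) ^ 4 ≤ p.1 * b / hA g q Q (rsd Q p.2) := by
      refine le_trans ?_ g12
      unfold FT
      rw [norm_castv]
      exact le_max_right _ _
    have e2 : (p.1 : ℝ) * b / hA g q Q (rsd Q p.2) ≤ (Q * R) * R ^ 3 / f0 := by gcongr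
    have e3 : nrm p.2 ^ 4 ≤ (A * R) ^ 4 := by
      calc nrm p.2 ^ 4 = T ^ 4 * (nrm p.2 / T) ^ 4 := by field_simp
        _ ≤ T ^ 4 * ((Q * R) * R ^ 3 / f0) := by gcongr; exact e1.trans e2
        _ = (T ^ 4 * (Q : ℝ) / f0) * R ^ 4 := by ring
        _ ≤ A ^ 4 * R ^ 4 := by gcongr
        _ = _ := by ring
    exact le_of_pow_le_pow_left₀ (by norm_num) (by positivity) e3
  -- additional primes
  set D2 := D'.filter (fun p => ∃ l : ℕ, l.Prime ∧ P ≤ l ∧ (∀ j, ((l * p.1 : ℕ):ℤ) ∣ qf p.2 j))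
    with hD2
  set D3 := D'.filter (fun p => ¬ ∃ l : ℕ, l.Prime ∧ P ≤ l ∧ (∀ j, ((l * p.1 : ℕ):ℤ) ∣ qf p.2 j))
    with hD3
  have s2 : (D2.card : ℝ) + D3.card = D'.card := by
    exact_mod_cast card_filter_add_card_filter_not (s := D')
      (fun p => ∃ l : ℕ, l.Prime ∧ P ≤ l ∧ (∀ j, ((l * p.1 : ℕ):ℤ) ∣ qf p.2 j))
  have hqf : ∀ p ∈ D', qf p.2 ≠ 0 := by
    intro p hp h0
    obtain ⟨hp1, hp2⟩ := mem_filter.1 hp
    rw [h0] at hp2
    have h1 : nrm (0 : Fin 3 → ℤ) = 0 := by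
      have := nrm_smul_int (0:ℤ) (0 : Fin 3 → ℤ)
      simpa using this
    rw [h1] at hp2
    exact hp2 (by positivity)
  have b2 : (D2.card : ℝ) ≤ E := by
    refine hbig D2 ?_
    intro p hp
    obtain ⟨hp1, hp2⟩ := mem_filter.1 hp
    obtain ⟨hp3, hp4⟩ := mem_filter.1 hp1
    obtain ⟨g1, g2, g3, g4, g5, g6, g7, g8, g9, g10, g11, g12⟩ := hprop p hp3
    push Not at hp4
    have hq0 := hqf p hp1
    refine ⟨g1, g2.trans (by gcongr), g3, g4.primMod, g5, hp4, ?_, hp2⟩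
    have e1 : FF M (castv p.2) ≤ p.1 * b / hA g q Q (rsd Q p.2) := (FF_le_FT _).trans g12
    have e2 : (p.1 : ℝ) * b / hA g q Q (rsd Q p.2) ≤ p.1 * R ^ 3 / f0 := by gcongr
    have hq1 : qf (castv p.2) ≠ 0 := by rw [qf_castv]; exact castv_ne_zero hq0
    rw [FF_eq hq1, qf_castv] at e1
    have hi := inc_castv (inc_qf p.2)
    have e3 := hb (castv (qf p.2)) (castv p.2) (castv_ne_zero hq0) (castv_ne_zero g5) hi
    rw [norm_castv, norm_castv] at e3
    have e4 : c0 * (nrm (qf p.2) * nrm p.2 ^ 2) ≤ p.1 * R ^ 3 / f0 := e3.trans (e1.trans e2)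
    rw [le_div_iff₀ hf0] at e4
    have e5 : 1 / (c0 * f0) * p.1 * R ^ 3 = p.1 * R ^ 3 / (c0 * f0) := by field_simp
    rw [e5, le_div_iff₀ (by positivity)]
    linarith
  -- the good ones
  have b3 : (D3.card : ℝ) ≤ ((YA M f (R ^ 3) R).ncard : ℝ) := by
    have hfin := YA_finite hc0 hb hf hR
    rw [Set.ncard_eq_toFinset_card _ hfin]
    have hkey : ∀ p ∈ D3, p.2 ∈ YA M f (R ^ 3) R ∧ ct p.2 = p.1 := by
      intro p hp
      obtain ⟨hp1, hp2⟩ := mem_filter.1 hp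
      obtain ⟨hp3, hp4⟩ := mem_filter.1 hp1
      obtain ⟨g1, g2, g3, g4, g5, g6, g7, g8, g9, g10, g11, g12⟩ := hprop p hp3
      push Not at hp4
      have hq0 := hqf p hp1
      have hgp := gq_pos hQ p.2
      have hlarge : ∀ l : ℕ, l.Prime → ¬ l ∣ q → P ≤ l := by
        intro l hl hlq
        by_contra hcon
        push Not at hcon
        exact hlq (hPq l hl hcon)
      have hct : ct p.2 = p.1 := by
        have h1 : p.1 ∣ ct p.2 := dvd_ct.2 g3
        obtain ⟨m, hm⟩ := h1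
        by_contra hne
        have hm1 : m ≠ 1 := by
          rintro rfl
          exact hne (by rw [hm, mul_one])
        obtain ⟨l, hl, hlm⟩ := Nat.exists_prime_and_dvd hm1
        have hlc : l * p.1 ∣ ct p.2 := by
          rw [hm, mul_comm]
          exact Nat.mul_dvd_mul_left _ hlm
        apply hp2
        refine ⟨l, hl, hlarge l hl ?_, dvd_ct.1 hlc⟩
        intro hlq
        have h2 : gq Q p.2 * l ∣ ct p.2 := by
          refine dvd_trans ?_ hlc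
          rw [mul_comm l]
          exact Nat.mul_dvd_mul_right g8 _
        have h3 : gq Q p.2 * l ∣ Q := (Nat.mul_dvd_mul_left _ hlq).trans g7
        have h4 : gq Q p.2 * l ∣ gq Q p.2 := Nat.dvd_gcd h3 h2
        have h5 := Nat.le_of_dvd hgp h4
        have h6 := hl.two_le
        nlinarith
      have hprim : Prim p.2 := by
        rw [prim_iff_prime]
        intro l hl
        by_contra hcon
        push Not at hcon
        have hlq : ¬ l ∣ q := by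
          intro h
          obtain ⟨i, hi⟩ := g6 l hl h
          exact hi (hcon i)
        have hlc : ¬ l ∣ p.1 := by
          intro h
          obtain ⟨i, hi⟩ := g4 l hl h
          exact hi (hcon i)
        apply hp2
        refine ⟨l, hl, hlarge l hl hlq, ?_⟩
        have h1 : l ∣ ct p.2 := by
          rw [dvd_ct]
          intro j
          obtain ⟨a0, ha0⟩ := hcon 0
          obtain ⟨a1, ha1⟩ := hcon 1
          obtain ⟨a2, ha2⟩ := hcon 2
          obtain ⟨a3, ha3⟩ := hcon 3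
          fin_cases j
          · change (l:ℤ) ∣ p.2 1 * p.2 3 - p.2 2 ^ 2
            rw [ha1, ha2, ha3]
            exact ⟨a1 * (l * a3) - l * a2 ^ 2, by ring⟩
          · change (l:ℤ) ∣ p.2 1 * p.2 2 - p.2 0 * p.2 3
            rw [ha0, ha1, ha2, ha3]
            exact ⟨a1 * (l * a2) - a0 * (l * a3), by ring⟩
          · change (l:ℤ) ∣ p.2 0 * p.2 2 - p.2 1 ^ 2
            rw [ha0, ha1, ha2]
            exact ⟨a0 * (l * a2) - l * a1 ^ 2, by ring⟩
        exact dvd_ct.1 (((Nat.Prime.coprime_iff_not_dvd hl).2 hlc).mul_dvd_of_dvd_of_dvd h1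
          (dvd_ct.2 g3))
      refine ⟨⟨hprim, hq0, ?_, ?_⟩, hct⟩
      · have hgc : gq Q p.2 * (p.1 / gq Q p.2) = p.1 := Nat.mul_div_cancel' g8
        have happ := (hA_approx hf hq hSq hqQ hQ hg ((prim_xv hq0).pm q) g6 g7
          (inc_xv hq0) g9 (by
            rw [hgc, ← hct]
            exact qf_eq_smul p.2)).1
        have e1 : FF M (castv p.2) ≤ p.1 * b / hA g q Q (rsd Q p.2) := (FF_le_FT _).trans g12
        rw [FF_castv hM g5 hq0, hct] at e1
        have hp1' : (0:ℝ) < p.1 := by exact_mod_cast g1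
        have e2 : M (castv (xv p.2)) (castv p.2) ≤ b / hA g q Q (rsd Q p.2) := by
          have : (p.1 : ℝ) * M (castv (xv p.2)) (castv p.2) ≤
              p.1 * (b / hA g q Q (rsd Q p.2)) := by
            rw [← mul_div_assoc]; exact e1
          exact le_of_mul_le_mul_left this hp1'
        have hMp := hM.pos _ _ (castv_ne_zero (prim_xv hq0).ne_zero) (castv_ne_zero g5)
          (inc_castv (inc_xv hq0))
        calc M (castv (xv p.2)) (castv p.2) * f (xv p.2) p.2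
            ≤ M (castv (xv p.2)) (castv p.2) * ((1 + ε) * hA g q Q (rsd Q p.2)) := by gcongr
          _ ≤ (b / hA g q Q (rsd Q p.2)) * ((1 + ε) * hA g q Q (rsd Q p.2)) := by gcongr
          _ = R ^ 3 := by rw [hbdef]; field_simp
      · rw [nrm_qf_eq, hct] at hp4
        have hp1' : (0:ℝ) < p.1 := by exact_mod_cast g1
        rw [mul_comm] at hp4
        exact lt_of_mul_lt_mul_left hp4 hp1'.le
    have h1 : D3.card ≤ hfin.toFinset.card := by
      refine card_le_card_of_injOn Prod.snd ?_ ?_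
      · intro p hp
        rw [mem_coe, Set.Finite.mem_toFinset]
        exact (hkey p hp).1
      · intro p hp p' hp' h
        have h2 := (hkey p hp).2
        have h3 := (hkey p' hp').2
        rw [h, h3] at h2
        exact Prod.ext h2.symm h
    exact_mod_cast h1
  linarith

end Pool.Agent.Lib.MP_1acd66_nt.Tw
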