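import Pool.Agent.Lib.MP_1acd66_nt.Tw.FibB

/-!
The main sum over the first vectors.
-/

namespace Pool.Agent.Lib.MP_1acd66_nt.Tw

open Finset MeasureTheory

open Classical in
/-- balanced primitive vectors -/
noncomputable def SR (τ R : ℝ) : Finset (Fin 3 → ℤ) :=
  (bx 3 R).filter fun x => Prim x ∧ τ * nrm x ≤ lam x

theorem mem_SR {τ R : ℝ} {x : Fin 3 → ℤ} :
    x ∈ SR τ R ↔ (x ≠ 0 ∧ nrm x ≤ R) ∧ Prim x ∧ τ * nrm x ≤ lam x := by
  classical
  unfold SR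
  rw [mem_filter, mem_bx]

open Classical in
/-- primitive residues -/
noncomputable def XQ (q : ℕ) : Finset (Fin 3 → ℤ) := (BQ q 3).filter fun x => PM q x

/-- the constant -/
noncomputable def kapB (M : (Fin 3 → ℝ) → (Fin 4 → ℝ) → ℝ) (q : ℕ)
    (g : (Fin 3 → ℤ) → (Fin 4 → ℤ) → ℝ) : ℝ :=
  ∑ ξ ∈ XQ q, wB q g ξ * (kap (volume : Measure (Fin 3 → ℝ)) (Phi M) / (q:ℝ) ^ 3)

theorem rsd_self {n q : ℕ} {ξ : Fin n → ℤ} (h : ξ ∈ BQ q n) : rsd q ξ = ξ :=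
  (rsd_eq_iff h).2 (Cg.refl ξ)

theorem PM.ne_zero {n q : ℕ} (hq : 2 ≤ q) {x : Fin n → ℤ} (h : PM q x) : x ≠ 0 := by
  rintro rfl
  obtain ⟨p, hp, hpq⟩ := Nat.exists_prime_and_dvd (by omega : q ≠ 1)
  obtain ⟨i, hi⟩ := h p hp hpq
  exact hi (dvd_zero _)

theorem kapB_bounds {M : (Fin 3 → ℝ) → (Fin 4 → ℝ) → ℝ} (hM : IsLocalNorm ℝ M) {f0 f1 : ℝ}
    (hf0 : 0 < f0) {q : ℕ} (hq : 2 ≤ q) {g : (Fin 3 → ℤ) → (Fin 4 → ℤ) → ℝ}
    (hg : ∀ ξ η, f0 ≤ g ξ η ∧ g ξ η ≤ f1) :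
    kap (volume : Measure (Fin 3 → ℝ)) (Phi M) / (144 * f1) ≤ kapB M q g ∧
      kapB M q g ≤ kap (volume : Measure (Fin 3 → ℝ)) (Phi M) / f0 := by
  classical
  have hk := hM.kap_pos
  set κ := kap (volume : Measure (Fin 3 → ℝ)) (Phi M) with hκ
  have hq' : (0:ℝ) < q := by exact_mod_cast (by omega : 0 < q)
  have hf1 : 0 < f1 := by
    have := hg 0 0
    linarith
  constructor
  · have h1 := card_PM (q := q) (n := 3) (by omega) (by norm_num)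
    calc κ / (144 * f1) = ((q:ℝ) ^ 3 / 12) * (1 / (12 * f1) * (κ / (q:ℝ) ^ 3)) := by
          field_simp; norm_num
      _ ≤ ((XQ q).card : ℝ) * (1 / (12 * f1) * (κ / (q:ℝ) ^ 3)) := by
          apply mul_le_mul_of_nonneg_right _ (by positivity)
          exact h1
      _ = ∑ _ξ ∈ XQ q, 1 / (12 * f1) * (κ / (q:ℝ) ^ 3) := by rw [sum_const, nsmul_eq_mul]
      _ ≤ kapB M q g := by
          refine sum_le_sum fun ξ hξ => ?_
          have h2 := wB_ge hq hf0 hg (mem_filter.1 hξ).2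
          gcongr
  · have h1 : ((XQ q).card : ℝ) ≤ (q:ℝ) ^ 3 := by
      have := card_filter_le (BQ q 3) (fun x => PM q x)
      rw [card_BQ] at this
      exact_mod_cast this
    calc kapB M q g ≤ ∑ _ξ ∈ XQ q, 1 / f0 * (κ / (q:ℝ) ^ 3) := by
          refine sum_le_sum fun ξ hξ => ?_
          obtain ⟨h2, h3⟩ := mem_filter.1 hξ
          have h4 := wB_le (by omega : 0 < q) hf0 (fun ξ η => (hg ξ η).1) (h3.ne_zero hq) h3
          rw [rsd_self h2] at h4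
          gcongr
      _ = ((XQ q).card : ℝ) * (1 / f0 * (κ / (q:ℝ) ^ 3)) := by rw [sum_const, nsmul_eq_mul]
      _ ≤ (q:ℝ) ^ 3 * (1 / f0 * (κ / (q:ℝ) ^ 3)) := by gcongr
      _ = κ / f0 := by field_simp

theorem main_sumB {M : (Fin 3 → ℝ) → (Fin 4 → ℝ) → ℝ} (hM : IsLocalNorm ℝ M) {f0 : ℝ}
    (hf0 : 0 < f0) : ∃ C : ℝ, 0 < C ∧ ∀ τ : ℝ, 0 < τ → ∀ P : ℕ, 0 < P → ∀ q : ℕ, 2 ≤ q →
      (∀ p : ℕ, p.Prime → p < P → p ∣ q) → ∀ g : (Fin 3 → ℤ) → (Fin 4 → ℤ) → ℝ,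
      (∀ ξ η, f0 ≤ g ξ η) → ∀ ε : ℝ, 0 < ε → ∃ K : ℝ, 0 < K ∧ ∀ R : ℝ, 1 ≤ R → ∀ b : ℝ, 0 < b →
        (∀ x ∈ SR τ R, (FS M g q x b).Finite) ∧
        |∑ x ∈ SR τ R, ((FS M g q x b).ncard : ℝ) - kapB M q g * (b * Real.log R)| ≤
          (C * (τ ^ 2 + 1 / P) + ε) * (b * (1 + Real.log R)) + K * (b + R ^ 3) := by
  classical
  obtain ⟨CΦ, hCΦ, hΦ⟩ := hM.Phi_le
  have hcD := cD_pos
  set C0 := (CΦ / f0) * (864 + 32 * (8 * cD + 216)) with hC0
  refine ⟨C0, by positivity, ?_⟩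
  intro τ hτ P hP q hq hPq g hg ε hε
  have hq0 : 0 < q := by omega
  have hq' : (0:ℝ) < q := by exact_mod_cast hq0
  have hP' : (0:ℝ) < P := by exact_mod_cast hP
  obtain ⟨K1, hK1, H1⟩ := FS_count hM hτ (ε := ε / 864) (by positivity) hf0
  set W := ∑ ξ ∈ XQ q, wB q g ξ with hW
  have hW0 : 0 ≤ W := sum_nonneg fun ξ _ => wB_nonneg hf0 hg ξ
  -- logarithmic sums
  have hex : ∀ ξ : Fin 3 → ℤ, ∃ C : ℝ, ∀ R : ℝ, 1 ≤ R → ∀ S : Finset (Fin 3 → ℤ),
      (∀ x, x ∈ S ↔ x ∈ bx 3 R ∧ Cg q x ξ) →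
      |∑ x ∈ S, Phi M (castv x) - kap (volume : Measure (Fin 3 → ℝ)) (Phi M) / (q:ℝ) ^ 3 *
        Real.log R| ≤ (ε / (2 * (W + 1))) * Real.log R + C :=
    fun ξ => Phi_sum hM hq0 ξ (by positivity)
  choose Cξ hCξ using hex
  set K2 := ∑ ξ ∈ XQ q, wB q g ξ * |Cξ ξ| with hK2
  have hK20 : 0 ≤ K2 := sum_nonneg fun ξ _ => mul_nonneg (wB_nonneg hf0 hg ξ) (abs_nonneg _)
  refine ⟨27 * K1 * (q:ℝ) ^ 2 + K2 + (CΦ / f0) * (32 * (8 * cD + 216)), by positivity, ?_⟩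
  intro R hR b hb
  have hL : 0 ≤ Real.log R := Real.log_nonneg hR
  set L := Real.log R with hLdef
  have hSsub : SR τ R ⊆ bx 3 R := fun x hx => mem_bx.2 (mem_SR.1 hx).1
  have hfs : ∀ x ∈ SR τ R, (FS M g q x b).Finite ∧
      |((FS M g q x b).ncard : ℝ) - Phi M (castv x) * wB q g (rsd q x) * b| ≤
        ε / 864 * b / nrm x ^ 3 + K1 * (q:ℝ) ^ 2 := by
    intro x hx
    obtain ⟨_, h1, h2⟩ := mem_SR.1 hx
    exact H1 x h1 h2 q hq0 g hg b hb
  refine ⟨fun x hx => (hfs x hx).1, ?_⟩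
  -- step 1
  have step1 : |∑ x ∈ SR τ R, ((FS M g q x b).ncard : ℝ) -
      b * ∑ x ∈ SR τ R, Phi M (castv x) * wB q g (rsd q x)| ≤
      ε / 2 * (b * (1 + L)) + 27 * K1 * (q:ℝ) ^ 2 * R ^ 3 := by
    rw [mul_sum, ← sum_sub_distrib]
    refine (abs_sum_le_sum_abs _ _).trans ?_
    have h1 : ∑ x ∈ SR τ R, |((FS M g q x b).ncard : ℝ) - b * (Phi M (castv x) * wB q g (rsd q x))| ≤
        ∑ x ∈ SR τ R, (ε / 864 * b * (1 / nrm x ^ 3) + K1 * (q:ℝ) ^ 2) := by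
      refine sum_le_sum fun x hx => ?_
      have h2 := (hfs x hx).2
      have e1 : b * (Phi M (castv x) * wB q g (rsd q x)) = Phi M (castv x) * wB q g (rsd q x) * b := by
        ring
      have e2 : ε / 864 * b * (1 / nrm x ^ 3) = ε / 864 * b / nrm x ^ 3 := by ring
      rw [e1, e2]; exact h2
    refine h1.trans ?_
    rw [sum_add_distrib, ← mul_sum, sum_const, nsmul_eq_mul]
    have h2 := sum3_bx hR _ hSsub
    have h3 : ((SR τ R).card : ℝ) ≤ (3 * R) ^ 3 :=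
      le_trans (by exact_mod_cast card_le_card hSsub) (card_bx hR 3)
    calc ε / 864 * b * ∑ x ∈ SR τ R, 1 / nrm x ^ 3 + ((SR τ R).card : ℝ) * (K1 * (q:ℝ) ^ 2)
        ≤ ε / 864 * b * (432 * (1 + L)) + (3 * R) ^ 3 * (K1 * (q:ℝ) ^ 2) := by gcongr
      _ = _ := by ring
  -- step 2
  set T := (bx 3 R).filter (fun x => PM q x) with hT
  have hST : SR τ R ⊆ T := by
    intro x hx
    obtain ⟨h0, h1, _⟩ := mem_SR.1 hx
    exact mem_filter.2 ⟨mem_bx.2 h0, h1.pm q⟩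
  have hwΦ : ∀ x ∈ T, 0 ≤ Phi M (castv x) * wB q g (rsd q x) ∧
      Phi M (castv x) * wB q g (rsd q x) ≤ (CΦ / f0) * (1 / nrm x ^ 3) := by
    intro x hx
    obtain ⟨h1, h2⟩ := mem_filter.1 hx
    obtain ⟨hx0, hxR⟩ := mem_bx.1 h1
    have hn : 0 < nrm x := lt_of_lt_of_le one_pos (one_le_nrm hx0)
    have h3 := wB_le hq0 hf0 hg hx0 h2
    have h4 := hΦ (castv x) (castv_ne_zero hx0)
    rw [norm_castv] at h4
    have h5 := Phi_nonneg (M := M) (castv x)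
    have h6 := wB_nonneg hf0 hg (q := q) (rsd q x)
    refine ⟨mul_nonneg h5 h6, ?_⟩
    calc Phi M (castv x) * wB q g (rsd q x) ≤ (CΦ / nrm x ^ 3) * (1 / f0) :=
          mul_le_mul h4 h3 h6 (by positivity)
      _ = _ := by ring
  have step2 : |∑ x ∈ SR τ R, Phi M (castv x) * wB q g (rsd q x) -
      ∑ x ∈ T, Phi M (castv x) * wB q g (rsd q x)| ≤
      (CΦ / f0) * (864 / P * (1 + L) + 32 * (8 * cD + 216) * (τ ^ 2 * (1 + L) + 1)) := by
    have e : ∑ x ∈ T, Phi M (castv x) * wB q g (rsd q x) =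
        ∑ x ∈ T \ SR τ R, Phi M (castv x) * wB q g (rsd q x) +
        ∑ x ∈ SR τ R, Phi M (castv x) * wB q g (rsd q x) := (sum_sdiff hST).symm
    rw [e]
    have h0 : 0 ≤ ∑ x ∈ T \ SR τ R, Phi M (castv x) * wB q g (rsd q x) :=
      sum_nonneg fun x hx => (hwΦ x (sdiff_subset hx)).1
    rw [show ∑ x ∈ SR τ R, Phi M (castv x) * wB q g (rsd q x) -
      (∑ x ∈ T \ SR τ R, Phi M (castv x) * wB q g (rsd q x) +
        ∑ x ∈ SR τ R, Phi M (castv x) * wB q g (rsd q x)) =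
        -∑ x ∈ T \ SR τ R, Phi M (castv x) * wB q g (rsd q x) by ring, abs_neg, abs_of_nonneg h0]
    have h1 : ∑ x ∈ T \ SR τ R, Phi M (castv x) * wB q g (rsd q x) ≤
        (CΦ / f0) * ∑ x ∈ T \ SR τ R, 1 / nrm x ^ 3 := by
      rw [mul_sum]
      exact sum_le_sum fun x hx => (hwΦ x (sdiff_subset hx)).2
    refine h1.trans (mul_le_mul_of_nonneg_left ?_ (by positivity))
    rw [← sum_filter_add_sum_filter_not (T \ SR τ R) (fun x => Prim x)]
    have h2 : ∑ x ∈ (T \ SR τ R) with Prim x, 1 / nrm x ^ 3 ≤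
        32 * (8 * cD + 216) * (τ ^ 2 * (1 + L) + 1) := by
      refine unb_sum hR hτ _ ?_ ?_
      · intro x hx
        obtain ⟨h3, h4⟩ := mem_filter.1 hx
        obtain ⟨h5, _⟩ := mem_sdiff.1 h3
        exact ⟨h4, (mem_bx.1 (mem_filter.1 h5).1).2⟩
      · intro x hx
        obtain ⟨h3, h4⟩ := mem_filter.1 hx
        obtain ⟨h5, h6⟩ := mem_sdiff.1 h3
        by_contra hcon
        push Not at hcon
        exact h6 (mem_SR.2 ⟨mem_bx.1 (mem_filter.1 h5).1, h4, hcon.le⟩)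
    have h3 : ∑ x ∈ (T \ SR τ R) with ¬ Prim x, 1 / nrm x ^ 3 ≤ 864 / P * (1 + L) := by
      refine nonprim_sum hP hR _ ?_
      intro x hx
      obtain ⟨h3, h4⟩ := mem_filter.1 hx
      obtain ⟨h5, _⟩ := mem_sdiff.1 h3
      obtain ⟨h6, h7⟩ := mem_filter.1 h5
      obtain ⟨hx0, hxR⟩ := mem_bx.1 h6
      refine ⟨hx0, hxR, ?_⟩
      rw [prim_iff_prime] at h4
      push Not at h4
      obtain ⟨p, hp, hpx⟩ := h4
      refine ⟨p, ?_, hpx⟩
      by_contra hcon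
      push Not at hcon
      obtain ⟨i, hi⟩ := h7 p hp (hPq p hp hcon)
      exact hi (hpx i)
    linarith
  -- step 3
  have step3 : |∑ x ∈ T, Phi M (castv x) * wB q g (rsd q x) - kapB M q g * L| ≤
      ε / 2 * L + K2 := by
    have hmaps : ∀ x ∈ T, rsd q x ∈ XQ q := by
      intro x hx
      exact mem_filter.2 ⟨rsd_mem hq0 x, (mem_filter.1 hx).2.congr (cg_rsd x)⟩
    rw [← sum_fiberwise_of_maps_to hmaps]
    have e1 : ∀ ξ ∈ XQ q, ∑ x ∈ T with rsd q x = ξ, Phi M (castv x) * wB q g (rsd q x) =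
        wB q g ξ * ∑ x ∈ (bx 3 R).filter (fun x => Cg q x ξ), Phi M (castv x) := by
      intro ξ hξ
      obtain ⟨hξ1, hξ2⟩ := mem_filter.1 hξ
      rw [mul_sum]
      refine sum_congr ?_ ?_
      · ext x
        rw [mem_filter, mem_filter, mem_filter, rsd_eq_iff hξ1]
        constructor
        · rintro ⟨⟨a1, a2⟩, a3⟩; exact ⟨a1, a3⟩
        · rintro ⟨a1, a3⟩; exact ⟨⟨a1, hξ2.congr a3.symm⟩, a3⟩
      · intro x hx
        have := (mem_filter.1 hx).2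
        have h5 : rsd q x = ξ := by
          rw [rsd_eq_iff hξ1]; exact this
        rw [h5]; ring
    rw [sum_congr rfl e1]
    unfold kapB
    rw [sum_mul, ← sum_sub_distrib]
    refine (abs_sum_le_sum_abs _ _).trans ?_
    calc ∑ ξ ∈ XQ q, |wB q g ξ * ∑ x ∈ (bx 3 R).filter (fun x => Cg q x ξ), Phi M (castv x) -
        wB q g ξ * (kap (volume : Measure (Fin 3 → ℝ)) (Phi M) / (q:ℝ) ^ 3) * L|
        ≤ ∑ ξ ∈ XQ q, wB q g ξ * ((ε / (2 * (W + 1))) * L + |Cξ ξ|) := by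
          refine sum_le_sum fun ξ _ => ?_
          have h2 := hCξ ξ R hR ((bx 3 R).filter (fun x => Cg q x ξ)) (fun x => mem_filter)
          have h3 := wB_nonneg hf0 hg (q := q) ξ
          rw [mul_assoc, ← mul_sub, abs_mul, abs_of_nonneg h3]
          apply mul_le_mul_of_nonneg_left _ h3
          exact h2.trans (by linarith [le_abs_self (Cξ ξ)])
      _ = W * ((ε / (2 * (W + 1))) * L) + K2 := by
          rw [hW, hK2, sum_mul, ← sum_add_distrib]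
          refine sum_congr rfl fun ξ _ => ?_
          ring
      _ ≤ ε / 2 * L + K2 := by
          have : W * ((ε / (2 * (W + 1))) * L) ≤ ε / 2 * L := by
            calc W * ((ε / (2 * (W + 1))) * L) ≤ (W + 1) * ((ε / (2 * (W + 1))) * L) := by
                  apply mul_le_mul_of_nonneg_right (by linarith)
                  positivity
              _ = ε / 2 * L := by field_simp
          linarith
  -- assembly
  set A1 := ∑ x ∈ SR τ R, ((FS M g q x b).ncard : ℝ) with hA1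
  set A2 := ∑ x ∈ SR τ R, Phi M (castv x) * wB q g (rsd q x) with hA2
  set A3 := ∑ x ∈ T, Phi M (castv x) * wB q g (rsd q x) with hA3
  clear_value A1 A2 A3 W K2 L C0
  have e : A1 - kapB M q g * (b * L) = (A1 - b * A2) + b * (A2 - A3) + b * (A3 - kapB M q g * L) := by
    ring
  rw [e]
  have t1 : |b * (A2 - A3)| ≤ b * ((CΦ / f0) * (864 / P * (1 + L) +
      32 * (8 * cD + 216) * (τ ^ 2 * (1 + L) + 1))) := by
    rw [abs_mul, abs_of_pos hb]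
    exact mul_le_mul_of_nonneg_left step2 hb.le
  have t2 : |b * (A3 - kapB M q g * L)| ≤ b * (ε / 2 * L + K2) := by
    rw [abs_mul, abs_of_pos hb]
    exact mul_le_mul_of_nonneg_left step3 hb.le
  have t3 := abs_add_three (A1 - b * A2) (b * (A2 - A3)) (b * (A3 - kapB M q g * L))
  refine t3.trans ((add_le_add (add_le_add step1 t1) t2).trans ?_)
  have hb1 : 0 ≤ b * (1 + L) := by positivity
  have hR3 : 0 ≤ R ^ 3 := by positivity
  have k1 : (CΦ / f0) * (864 / P * (1 + L)) ≤ C0 * (1 / P) * (1 + L) := by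
    rw [hC0]
    have : 0 ≤ (CΦ / f0) * (32 * (8 * cD + 216)) * (1 / P) * (1 + L) := by positivity
    have e1 : (CΦ / f0) * (864 / P * (1 + L)) = (CΦ / f0) * 864 * (1 / P) * (1 + L) := by ring
    rw [e1]
    linarith only [this]
  have k2 : (CΦ / f0) * (32 * (8 * cD + 216) * (τ ^ 2 * (1 + L))) ≤ C0 * τ ^ 2 * (1 + L) := by
    rw [hC0]
    have : 0 ≤ (CΦ / f0) * 864 * τ ^ 2 * (1 + L) := by positivity
    linarith only [this]
  have k3 : 0 ≤ 27 * K1 * (q:ℝ) ^ 2 * b := by positivity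
  have k4 : 0 ≤ (K2 + (CΦ / f0) * (32 * (8 * cD + 216))) * R ^ 3 := by positivity
  have k5 : 0 ≤ ε / 2 * b := by positivity
  have k1' := mul_le_mul_of_nonneg_left k1 hb.le
  have k2' := mul_le_mul_of_nonneg_left k2 hb.le
  linarith only [k1', k2', k3, k4, k5, hb1, hR3, hb]

end Pool.Agent.Lib.MP_1acd66_nt.Tw
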