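import Pool.Agent.Lib.MP_1acd66_nt.Tw.Defs
import Pool.Agent.Lib.MP_1acd66_nt.Gen.Packing
import Pool.Agent.Lib.MP_1acd66_nt.Dyadic

/-!
Integral points in a residue class near the cone over the twisted cubic.
-/

namespace Pool.Agent.Lib.MP_1acd66_nt.Tw

open Finset

/-- integers of a residue class in an interval -/
theorem card_class_interval {m : ℕ} (hm : 0 < m) (z0 : ℤ) (s : Finset ℤ) {L : ℝ} (hL : 0 ≤ L)
    (h : ∀ x ∈ s, (m : ℤ) ∣ x - z0) (h2 : ∀ x ∈ s, ∀ y ∈ s, ((x : ℝ) - y) ≤ L) :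
    (s.card : ℝ) ≤ L / m + 1 := by
  have hm' : (0 : ℝ) < m := by exact_mod_cast hm
  have hinj : Set.InjOn (fun x : ℤ => (x - z0) / m) s := by
    intro x hx y hy hxy
    obtain ⟨a, ha⟩ := h x hx
    obtain ⟨b, hb⟩ := h y hy
    have hm0 : (m : ℤ) ≠ 0 := by exact_mod_cast hm.ne'
    have h3 : (x - z0) / m = (y - z0) / m := hxy
    rw [ha, hb, Int.mul_ediv_cancel_left _ hm0, Int.mul_ediv_cancel_left _ hm0] at h3
    rw [h3] at ha
    linarith
  rw [← card_image_of_injOn hinj]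
  refine card_int_le _ (by positivity) ?_
  intro u hu v hv
  obtain ⟨x, hx, rfl⟩ := mem_image.1 hu
  obtain ⟨y, hy, rfl⟩ := mem_image.1 hv
  obtain ⟨a, ha⟩ := h x hx
  obtain ⟨b, hb⟩ := h y hy
  have hm0 : (m : ℤ) ≠ 0 := by exact_mod_cast hm.ne'
  rw [ha, hb, Int.mul_ediv_cancel_left _ hm0, Int.mul_ediv_cancel_left _ hm0, le_div_iff₀ hm']
  have h3 := h2 x hx y hy
  have h4 : ((x - z0 : ℤ) : ℝ) = m * a := by rw [ha]; push_cast; ring
  have h5 : ((y - z0 : ℤ) : ℝ) = m * b := by rw [hb]; push_cast; ring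
  push_cast at h4 h5 ⊢
  nlinarith

/-- The vectors with a large first coordinate. -/
theorem mesh0 {m : ℕ} (hm : 0 < m) {A Y δ : ℝ} (hA : 0 ≤ A) (hmY : (m : ℝ) ≤ A * (δ * Y))
    (hδ0 : 0 < δ) (hδ : δ ≤ 1)
    (hY : 0 < Y) (y0 : Fin 4 → ℤ) (S : Finset (Fin 4 → ℤ))
    (hS : ∀ y ∈ S, (∀ i, (m : ℤ) ∣ y i - y0 i) ∧ (∀ i, |(y i : ℝ)| ≤ Y) ∧
      Y / 8 ≤ |(y 0 : ℝ)| ∧ ∀ j, |((qf y j : ℤ) : ℝ)| ≤ δ * Y ^ 2) :
    (S.card : ℝ) ≤ ((2 + A) * (16 + A)) ^ 2 * (δ ^ 2 * (Y / m) ^ 4) := by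
  classical
  have hm' : (0 : ℝ) < m := by exact_mod_cast hm
  have hδm : 1 ≤ A * (δ * Y / m) := by
    rw [← mul_div_assoc, one_le_div hm']
    exact hmY
  have hYm : 1 ≤ A * (Y / m) := by
    refine hδm.trans (mul_le_mul_of_nonneg_left ?_ hA)
    gcongr
    nlinarith
  set K : Fin 4 → ℝ := ![2 * Y / m + 1, 2 * Y / m + 1, 16 * (δ * Y) / m + 1,
    16 * (δ * Y) / m + 1] with hK
  have hK0 : ∀ a, 0 ≤ K a := by
    intro a
    fin_cases a <;> simp [hK] <;> positivity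
  have h1 := Gen.seqCount 4 S K hK0 ?_
  · refine h1.trans ?_
    rw [Fin.prod_univ_four]
    simp only [hK, Matrix.cons_val_zero, Matrix.cons_val_one, Matrix.cons_val]
    have e1 : 2 * Y / m + 1 ≤ (2 + A) * (Y / m) := by
      have : 2 * Y / m = 2 * (Y / m) := by ring
      rw [this]; linarith
    have e2 : 16 * (δ * Y) / m + 1 ≤ (16 + A) * (δ * (Y / m)) := by
      have h3 : 16 * (δ * Y) / m = 16 * (δ * Y / m) := by ring
      have h4 : δ * (Y / m) = δ * Y / m := by ring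
      rw [h3, h4]; linarith
    have p1 : 0 ≤ 2 * Y / m + 1 := by positivity
    have p2 : 0 ≤ 16 * (δ * Y) / m + 1 := by positivity
    calc (2 * Y / m + 1) * (2 * Y / m + 1) * (16 * (δ * Y) / m + 1) * (16 * (δ * Y) / m + 1)
        ≤ ((2 + A) * (Y / m)) * ((2 + A) * (Y / m)) * ((16 + A) * (δ * (Y / m))) *
          ((16 + A) * (δ * (Y / m))) := by
          gcongr
      _ = ((2 + A) * (16 + A)) ^ 2 * (δ ^ 2 * (Y / m) ^ 4) := by ring
  · intro a Z hZ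
    -- the value of a coordinate lies in an interval
    have hcls : ∀ x ∈ (S.filter (fun Z' => ∀ b, b < a → Z' b = Z b)).image (fun Z' => Z' a),
        (m : ℤ) ∣ x - y0 a := by
      intro x hx
      obtain ⟨y, hy, rfl⟩ := mem_image.1 hx
      exact (hS y (mem_filter.1 hy).1).1 a
    have hq : ∀ y ∈ S, |(y 0 : ℝ) * y 2 - (y 1 : ℝ) ^ 2| ≤ δ * Y ^ 2 ∧
        |(y 1 : ℝ) * y 2 - (y 0 : ℝ) * y 3| ≤ δ * Y ^ 2 := by
      intro y hy
      have h2 := (hS y hy).2.2.2 2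
      have h3 := (hS y hy).2.2.2 1
      rw [qf_two] at h2
      rw [qf_one] at h3
      push_cast at h2 h3
      exact ⟨h2, h3⟩
    have hdiv : ∀ {y : Fin 4 → ℤ} {A B : ℝ}, y ∈ S → |(y 0 : ℝ) * A - B| ≤ δ * Y ^ 2 →
        |A - B / y 0| ≤ 8 * (δ * Y) := by
      intro y A B hy hAB
      have h4 := (hS y hy).2.2.1
      have h5 : (0 : ℝ) < |(y 0 : ℝ)| := by linarith
      have h6 : (y 0 : ℝ) ≠ 0 := abs_pos.1 h5
      have h7 : A - B / y 0 = ((y 0 : ℝ) * A - B) / y 0 := by field_simp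
      rw [h7, abs_div, div_le_iff₀ h5]
      calc |(y 0 : ℝ) * A - B| ≤ δ * Y ^ 2 := hAB
        _ = 8 * (δ * Y) * (Y / 8) := by ring
        _ ≤ 8 * (δ * Y) * |(y 0 : ℝ)| := by gcongr
    have e01 : ∀ a : Fin 4, ∀ x ∈ (S.filter (fun Z' => ∀ b, b < a → Z' b = Z b)).image
        (fun Z' => Z' a), ∀ y ∈ (S.filter (fun Z' => ∀ b, b < a → Z' b = Z b)).image
        (fun Z' => Z' a), (((x : ℤ) : ℝ) - ((y : ℤ) : ℝ)) ≤ 2 * Y := by
      intro a x hx y hy
      obtain ⟨u, hu, rfl⟩ := mem_image.1 hx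
      obtain ⟨v, hv, rfl⟩ := mem_image.1 hy
      have h2 := (hS u (mem_filter.1 hu).1).2.1 a
      have h3 := (hS v (mem_filter.1 hv).1).2.1 a
      rw [abs_le] at h2 h3
      linarith [h2.1, h2.2, h3.1, h3.2]
    fin_cases a
    · exact card_class_interval hm (y0 0) _ (by positivity) hcls (e01 0)
    · exact card_class_interval hm (y0 1) _ (by positivity) hcls (e01 1)
    · refine card_class_interval hm (y0 2) _ (by positivity) hcls ?_
      intro x hx y hy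
      obtain ⟨u, hu, rfl⟩ := mem_image.1 hx
      obtain ⟨v, hv, rfl⟩ := mem_image.1 hy
      rw [mem_filter] at hu hv
      have h2 := hdiv hu.1 (A := (u 2 : ℝ)) (B := (u 1 : ℝ) ^ 2) (hq u hu.1).1
      have h3 := hdiv hv.1 (A := (v 2 : ℝ)) (B := (v 1 : ℝ) ^ 2) (hq v hv.1).1
      have h4 : u 0 = v 0 := (hu.2 0 (by decide)).trans (hv.2 0 (by decide)).symm
      have h5 : u 1 = v 1 := (hu.2 1 (by decide)).trans (hv.2 1 (by decide)).symm
      rw [h4, h5] at h2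
      rw [abs_le] at h2 h3
      have h6 := h2.2
      have h7 := h3.1
      simp only
      change (u 2 : ℝ) - (v 2 : ℝ) ≤ 16 * (δ * Y)
      linarith
    · refine card_class_interval hm (y0 3) _ (by positivity) hcls ?_
      intro x hx y hy
      obtain ⟨u, hu, rfl⟩ := mem_image.1 hx
      obtain ⟨v, hv, rfl⟩ := mem_image.1 hy
      rw [mem_filter] at hu hv
      have hq' : ∀ y ∈ S, |(y 0 : ℝ) * y 3 - (y 1 : ℝ) * y 2| ≤ δ * Y ^ 2 := by
        intro y hy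
        rw [abs_sub_comm]
        exact (hq y hy).2
      have h2 := hdiv hu.1 (A := (u 3 : ℝ)) (B := (u 1 : ℝ) * u 2) (hq' u hu.1)
      have h3 := hdiv hv.1 (A := (v 3 : ℝ)) (B := (v 1 : ℝ) * v 2) (hq' v hv.1)
      have h4 : u 0 = v 0 := (hu.2 0 (by decide)).trans (hv.2 0 (by decide)).symm
      have h5 : u 1 = v 1 := (hu.2 1 (by decide)).trans (hv.2 1 (by decide)).symm
      have h6 : u 2 = v 2 := (hu.2 2 (by decide)).trans (hv.2 2 (by decide)).symm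
      rw [h4, h5, h6] at h2
      rw [abs_le] at h2 h3
      have h8 := h2.2
      have h9 := h3.1
      change (u 3 : ℝ) - (v 3 : ℝ) ≤ 16 * (δ * Y)
      linarith

theorem qf_rev {K : Type*} [CommRing K] (y : Fin 4 → K) (j : Fin 3) :
    qf (fun i => y (Fin.rev i)) j = qf y (Fin.rev j) := by
  fin_cases j
  · change y 2 * y 0 - y 1 ^ 2 = y 0 * y 2 - y 1 ^ 2
    ring
  · change y 2 * y 1 - y 3 * y 0 = y 1 * y 2 - y 0 * y 3
    ring
  · change y 3 * y 1 - y 2 ^ 2 = y 1 * y 3 - y 2 ^ 2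
    ring

/-- The tube bound. -/
theorem mesh {m : ℕ} (hm : 0 < m) {A Y δ : ℝ} (hA : 0 ≤ A) (hmY : (m : ℝ) ≤ A * (δ * Y))
    (hδ0 : 0 < δ) (hδ : δ ≤ 1)
    (hY : 0 < Y) (y0 : Fin 4 → ℤ) (S : Finset (Fin 4 → ℤ))
    (hS : ∀ y ∈ S, (∀ i, (m : ℤ) ∣ y i - y0 i) ∧ (∀ i, |(y i : ℝ)| ≤ Y) ∧
      (∃ i, Y / 2 < |(y i : ℝ)|) ∧ (δ ≤ 1 / 8 → ∀ j, |((qf y j : ℤ) : ℝ)| ≤ δ * Y ^ 2)) :
    (S.card : ℝ) ≤ 64 * ((2 + A) * (16 + A)) ^ 2 * (δ ^ 2 * (Y / m) ^ 4) := by
  classical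
  have hm' : (0 : ℝ) < m := by exact_mod_cast hm
  have hδm : 1 ≤ A * (δ * Y / m) := by
    rw [← mul_div_assoc, one_le_div hm']
    exact hmY
  have hYm : 1 ≤ A * (Y / m) := by
    refine hδm.trans (mul_le_mul_of_nonneg_left ?_ hA)
    gcongr
    nlinarith
  rcases le_or_gt δ (1 / 8) with hδ8 | hδ8
  · have hsub : S ⊆ S.filter (fun y => Y / 8 ≤ |(y 0 : ℝ)|) ∪
        S.filter (fun y => Y / 8 ≤ |(y 3 : ℝ)|) := by
      intro y hy
      rw [mem_union, mem_filter, mem_filter]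
      by_contra hcon
      push Not at hcon
      have h0 := hcon.1 hy
      have h3 := hcon.2 hy
      obtain ⟨_, hle, ⟨i, hi⟩, hq⟩ := hS y hy
      have hq2 := hq hδ8 2
      have hq0 := hq hδ8 0
      rw [qf_two] at hq2
      rw [qf_zero] at hq0
      push_cast at hq2 hq0
      have b1 := hle 1
      have b2 := hle 2
      have h1 : |(y 1 : ℝ)| < Y / 2 := by
        by_contra hc
        push Not at hc
        have e1 : (Y / 2) ^ 2 ≤ |(y 1 : ℝ)| ^ 2 := by gcongr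
        have e2 : |(y 1 : ℝ)| ^ 2 ≤ |(y 0 : ℝ)| * |(y 2 : ℝ)| + δ * Y ^ 2 := by
          rw [sq_abs, ← abs_mul]
          rw [abs_le] at hq2
          have := le_abs_self ((y 0 : ℝ) * y 2)
          linarith [hq2.1]
        have e3 : |(y 0 : ℝ)| * |(y 2 : ℝ)| ≤ |(y 0 : ℝ)| * Y := by gcongr
        nlinarith [abs_nonneg (y 0 : ℝ)]
      have h2 : |(y 2 : ℝ)| < Y / 2 := by
        by_contra hc
        push Not at hc
        have e1 : (Y / 2) ^ 2 ≤ |(y 2 : ℝ)| ^ 2 := by gcongr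
        have e2 : |(y 2 : ℝ)| ^ 2 ≤ |(y 3 : ℝ)| * |(y 1 : ℝ)| + δ * Y ^ 2 := by
          rw [sq_abs, ← abs_mul]
          rw [abs_le] at hq0
          have := le_abs_self ((y 3 : ℝ) * y 1)
          nlinarith [hq0.1]
        have e3 : |(y 3 : ℝ)| * |(y 1 : ℝ)| ≤ |(y 3 : ℝ)| * Y := by gcongr
        nlinarith [abs_nonneg (y 3 : ℝ)]
      have h4 : Y / 8 < Y / 2 := by linarith
      fin_cases i
      · exact absurd hi (not_lt.2 (h0.le.trans h4.le))
      · exact absurd hi (not_lt.2 h1.le)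
      · exact absurd hi (not_lt.2 h2.le)
      · exact absurd hi (not_lt.2 (h3.le.trans h4.le))
    have hA' := mesh0 hm hA hmY hδ0 hδ hY y0 (S.filter (fun y => Y / 8 ≤ |(y 0 : ℝ)|)) (by
      intro y hy
      rw [mem_filter] at hy
      obtain ⟨h1, h2, _, h4⟩ := hS y hy.1
      exact ⟨h1, h2, hy.2, h4 hδ8⟩)
    have hinj : Set.InjOn (fun (y : Fin 4 → ℤ) (i : Fin 4) => y (Fin.rev i))
        (S.filter (fun y => Y / 8 ≤ |(y 3 : ℝ)|)) := by
      intro y _ z _ h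
      funext i
      have := congrFun h (Fin.rev i)
      simpa using this
    have hB := mesh0 hm hA hmY hδ0 hδ hY (fun i => y0 (Fin.rev i))
      ((S.filter (fun y => Y / 8 ≤ |(y 3 : ℝ)|)).image
        (fun (y : Fin 4 → ℤ) (i : Fin 4) => y (Fin.rev i))) (by
      intro z hz
      obtain ⟨y, hy, rfl⟩ := mem_image.1 hz
      rw [mem_filter] at hy
      obtain ⟨h1, h2, _, h4⟩ := hS y hy.1
      refine ⟨fun i => h1 _, fun i => h2 _, hy.2, fun j => ?_⟩
      rw [qf_rev]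
      exact h4 hδ8 _)
    rw [card_image_of_injOn hinj] at hB
    calc (S.card : ℝ) ≤ ((S.filter (fun y => Y / 8 ≤ |(y 0 : ℝ)|)).card +
          (S.filter (fun y => Y / 8 ≤ |(y 3 : ℝ)|)).card : ℕ) := by
          exact_mod_cast (card_le_card hsub).trans (card_union_le _ _)
      _ ≤ ((2 + A) * (16 + A)) ^ 2 * (δ ^ 2 * (Y / m) ^ 4) +
          ((2 + A) * (16 + A)) ^ 2 * (δ ^ 2 * (Y / m) ^ 4) := by
          push_cast
          exact add_le_add hA' hB
      _ ≤ 64 * ((2 + A) * (16 + A)) ^ 2 * (δ ^ 2 * (Y / m) ^ 4) := by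
          have : 0 ≤ ((2 + A) * (16 + A)) ^ 2 * (δ ^ 2 * (Y / m) ^ 4) := by positivity
          linarith
  · have h1 := Gen.seqCount 4 S (fun _ => 2 * Y / m + 1) (fun _ => by positivity) ?_
    · refine h1.trans ?_
      rw [prod_const, card_univ, Fintype.card_fin]
      have e1 : 2 * Y / m + 1 ≤ (2 + A) * (Y / m) := by
        have : 2 * Y / m = 2 * (Y / m) := by ring
        rw [this]; linarith
      have e2 : (1 : ℝ) / 64 ≤ δ ^ 2 := by nlinarith
      have e3 : (2 + A) ^ 4 ≤ ((2 + A) * (16 + A)) ^ 2 := by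
        have : (2 + A) ^ 4 = ((2 + A) * (2 + A)) ^ 2 := by ring
        rw [this]
        gcongr
        norm_num
      calc (2 * Y / m + 1) ^ 4 ≤ ((2 + A) * (Y / m)) ^ 4 := by gcongr
        _ = 64 * (2 + A) ^ 4 * (1 / 64 * (Y / m) ^ 4) := by ring
        _ ≤ 64 * ((2 + A) * (16 + A)) ^ 2 * (δ ^ 2 * (Y / m) ^ 4) := by gcongr
    · intro a Z hZ
      refine card_class_interval hm (y0 a) _ (by positivity) ?_ ?_
      · intro x hx
        obtain ⟨y, hy, rfl⟩ := mem_image.1 hx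
        exact (hS y (mem_filter.1 hy).1).1 a
      · intro x hx y hy
        obtain ⟨u, hu, rfl⟩ := mem_image.1 hx
        obtain ⟨v, hv, rfl⟩ := mem_image.1 hy
        have h2 := (hS u (mem_filter.1 hu).1).2.1 a
        have h3 := (hS v (mem_filter.1 hv).1).2.1 a
        rw [abs_le] at h2 h3
        linarith [h2.1, h2.2, h3.1, h3.2]

end Pool.Agent.Lib.MP_1acd66_nt.Tw
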