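import Pool.Agent.Lib.MP_1acd66_nt.Tw.ResB

/-!
The finite part of the height on integral coordinates.
-/

namespace Pool.Agent.Lib.MP_1acd66_nt.Tw

open Filter Metric Set

theorem Tame.one : Tame (fun _ _ => (1:ℝ)) 1 1 1 where
  spos := one_pos
  pos := one_pos
  bd _ _ _ _ _ := ⟨le_rfl, le_rfl⟩
  unit _ _ _ _ _ _ _ _ _ := rfl
  approx ε hε := ⟨1, one_pos, dvd_rfl, fun _ _ _ _ _ _ _ _ _ _ => by linarith⟩

theorem Tame.mul {f g : (Fin 3 → ℤ) → (Fin 4 → ℤ) → ℝ} {S S' : ℕ} {f0 f1 g0 g1 : ℝ}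
    (hf : Tame f S f0 f1) (hg : Tame g S' g0 g1) :
    Tame (fun x y => f x y * g x y) (S * S') (f0 * g0) (f1 * g1) where
  spos := Nat.mul_pos hf.spos hg.spos
  pos := mul_pos hf.pos hg.pos
  bd x y hx hy hxy := by
    obtain ⟨a1, a2⟩ := hf.bd x y (hx.of_dvd (Dvd.intro _ rfl)) (hy.of_dvd (Dvd.intro _ rfl)) hxy
    obtain ⟨b1, b2⟩ := hg.bd x y (hx.of_dvd (Dvd.intro_left _ rfl))
      (hy.of_dvd (Dvd.intro_left _ rfl)) hxy
    have p1 := hf.pos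
    have p2 := hg.pos
    constructor
    · exact mul_le_mul a1 b1 p2.le (p1.le.trans a1)
    · exact mul_le_mul a2 b2 (p2.le.trans b1) ((p1.le.trans a1).trans a2)
  unit x y hx hy hxy u v hu hv := by
    have hu' : IsCoprime u (S:ℤ) ∧ IsCoprime u (S':ℤ) := by
      push_cast at hu
      exact ⟨hu.of_mul_right_left, hu.of_mul_right_right⟩
    have hv' : IsCoprime v (S:ℤ) ∧ IsCoprime v (S':ℤ) := by
      push_cast at hv
      exact ⟨hv.of_mul_right_left, hv.of_mul_right_right⟩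
    rw [hf.unit x y (hx.of_dvd (Dvd.intro _ rfl)) (hy.of_dvd (Dvd.intro _ rfl)) hxy u v hu'.1 hv'.1,
      hg.unit x y (hx.of_dvd (Dvd.intro_left _ rfl)) (hy.of_dvd (Dvd.intro_left _ rfl)) hxy u v
        hu'.2 hv'.2]
  approx ε hε := by
    set ε' := min 1 (ε / 3) with hε'
    have hp : 0 < ε' := lt_min one_pos (by positivity)
    have h1 : ε' ≤ 1 := min_le_left _ _
    have h3 : ε' ≤ ε / 3 := min_le_right _ _
    obtain ⟨q, hq, hSq, hqf⟩ := hf.approx ε' hp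
    obtain ⟨r, hr, hSr, hrg⟩ := hg.approx ε' hp
    refine ⟨q * r, Nat.mul_pos hq hr, Nat.mul_dvd_mul hSq hSr, ?_⟩
    intro x x' y y' hx hy hxy hxy' hc1 hc2
    have e1 := hqf x x' y y' (hx.of_dvd (Dvd.intro _ rfl)) (hy.of_dvd (Dvd.intro _ rfl)) hxy hxy'
      (hc1.of_dvd (Dvd.intro _ rfl)) (hc2.of_dvd (Dvd.intro _ rfl))
    have e2 := hrg x x' y y' (hx.of_dvd (Dvd.intro_left _ rfl)) (hy.of_dvd (Dvd.intro_left _ rfl))
      hxy hxy' (hc1.of_dvd (Dvd.intro_left _ rfl)) (hc2.of_dvd (Dvd.intro_left _ rfl))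
    have hx' := hx.congr hc1
    have hy' := hy.congr hc2
    have p1 : 0 < f x y := hf.pos.trans_le (hf.bd x y
      ((hx.of_dvd (Dvd.intro _ rfl)).of_dvd hSq) ((hy.of_dvd (Dvd.intro _ rfl)).of_dvd hSq) hxy).1
    have p2 : 0 < g x y := hg.pos.trans_le (hg.bd x y
      ((hx.of_dvd (Dvd.intro_left _ rfl)).of_dvd hSr)
      ((hy.of_dvd (Dvd.intro_left _ rfl)).of_dvd hSr) hxy).1
    have p3 : 0 < g x' y' := hg.pos.trans_le (hg.bd x' y'
      ((hx'.of_dvd (Dvd.intro_left _ rfl)).of_dvd hSr)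
      ((hy'.of_dvd (Dvd.intro_left _ rfl)).of_dvd hSr) hxy').1
    calc f x' y' * g x' y' ≤ ((1 + ε') * f x y) * ((1 + ε') * g x y) :=
          mul_le_mul e1 e2 p3.le (by positivity)
      _ = ((1 + ε') * (1 + ε')) * (f x y * g x y) := by ring
      _ ≤ (1 + ε) * (f x y * g x y) := by
          apply mul_le_mul_of_nonneg_right _ (by positivity)
          nlinarith

theorem Tame.le {f : (Fin 3 → ℤ) → (Fin 4 → ℤ) → ℝ} {S : ℕ} {f0 f1 : ℝ}
    (hf : Tame f S f0 f1) : f0 ≤ f1 := by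
  have h1 : PM S (fun _ : Fin 3 => (1:ℤ)) := by
    intro p hp _
    refine ⟨0, fun h => ?_⟩
    have h' : (p:ℤ) ∣ 1 := h
    have : p ∣ 1 := by exact_mod_cast h'
    exact hp.one_lt.ne' (Nat.dvd_one.1 this)
  have h2 : PM S (![1, -1, 0, 1] : Fin 4 → ℤ) := by
    intro p hp _
    refine ⟨0, fun h => ?_⟩
    have h' : (p:ℤ) ∣ 1 := h
    have : p ∣ 1 := by exact_mod_cast h'
    exact hp.one_lt.ne' (Nat.dvd_one.1 this)
  have h3 : Inc (fun _ : Fin 3 => (1:ℤ)) (![1, -1, 0, 1] : Fin 4 → ℤ) := by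
    constructor <;> simp
  have := hf.bd _ _ h1 h2 h3
  linarith

section padic

variable (p : ℕ) [Fact p.Prime]

/-- integral vectors in the `p`-adic numbers -/
noncomputable def toP {n : ℕ} (x : Fin n → ℤ) : Fin n → ℚ_[p] := fun i => ((x i : ℤ) : ℚ_[p])

/-- the compact set of primitive incident pairs -/
def padicSet : Set ((Fin 3 → ℚ_[p]) × (Fin 4 → ℚ_[p])) :=
  {q | (‖q.1‖ = 1 ∧ ‖q.2‖ = 1) ∧ Inc q.1 q.2}

theorem isCompact_padicSet : IsCompact (padicSet p) := by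
  have h1 : IsCompact ((sphere (0 : Fin 3 → ℚ_[p]) 1) ×ˢ (sphere (0 : Fin 4 → ℚ_[p]) 1)) :=
    (isCompact_sphere _ _).prod (isCompact_sphere _ _)
  have h2 : IsClosed {q : (Fin 3 → ℚ_[p]) × (Fin 4 → ℚ_[p]) | Inc q.1 q.2} := by
    unfold Inc
    apply IsClosed.inter
    · exact isClosed_eq (by fun_prop) continuous_const
    · exact isClosed_eq (by fun_prop) continuous_const
  have : padicSet p = ((sphere (0 : Fin 3 → ℚ_[p]) 1) ×ˢ (sphere (0 : Fin 4 → ℚ_[p]) 1)) ∩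
      {q | Inc q.1 q.2} := by
    ext x
    simp [padicSet]
  rw [this]
  exact h1.inter_right h2

theorem padicSet_ne {q : (Fin 3 → ℚ_[p]) × (Fin 4 → ℚ_[p])} (h : q ∈ padicSet p) :
    q.1 ≠ 0 ∧ q.2 ≠ 0 ∧ Inc q.1 q.2 := by
  obtain ⟨⟨h1, h2⟩, h3⟩ := h
  refine ⟨?_, ?_, h3⟩
  · intro h0
    rw [h0, norm_zero] at h1
    exact zero_ne_one h1
  · intro h0
    rw [h0, norm_zero] at h2
    exact zero_ne_one h2

theorem norm_toP_le {n : ℕ} (x : Fin n → ℤ) : ‖toP p x‖ ≤ 1 := by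
  rw [pi_norm_le_iff_of_nonneg zero_le_one]
  intro i
  exact Padic.norm_int_le_one _

theorem norm_int_eq_one {n : ℤ} (h : ¬ (p:ℤ) ∣ n) : ‖((n:ℤ) : ℚ_[p])‖ = 1 := by
  have h1 : ((n:ℤ) : ℚ_[p]) = (((n:ℤ) : ℚ) : ℚ_[p]) := by push_cast; rfl
  rw [h1, Padic.eq_padicNorm, (padicNorm.int_eq_one_iff n).2 h, Rat.cast_one]

theorem norm_toP_eq {n : ℕ} {x : Fin n → ℤ} (h : ∃ i, ¬ (p:ℤ) ∣ x i) : ‖toP p x‖ = 1 := by
  obtain ⟨i, hi⟩ := h
  refine le_antisymm (norm_toP_le p x) ?_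
  rw [← norm_int_eq_one p hi]
  exact norm_le_pi_norm (toP p x) i

theorem inc_toP {x : Fin 3 → ℤ} {y : Fin 4 → ℤ} (h : Inc x y) : Inc (toP p x) (toP p y) := by
  obtain ⟨h1, h2⟩ := h
  constructor
  · simp only [toP]; exact_mod_cast congrArg (Int.cast : ℤ → ℚ_[p]) h1
  · simp only [toP]; exact_mod_cast congrArg (Int.cast : ℤ → ℚ_[p]) h2

theorem mem_padicSet {S : ℕ} (hS : p ∣ S) {x : Fin 3 → ℤ} {y : Fin 4 → ℤ} (hx : PM S x)
    (hy : PM S y) (h : Inc x y) :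
    ((toP p x, toP p y) : (Fin 3 → ℚ_[p]) × (Fin 4 → ℚ_[p])) ∈ padicSet p :=
  ⟨⟨norm_toP_eq p (hx p Fact.out hS), norm_toP_eq p (hy p Fact.out hS)⟩, inc_toP p h⟩

theorem norm_sub_toP {n : ℕ} {x y : Fin n → ℤ} {k : ℕ} (h : Cg (p ^ k) x y) :
    ‖toP p x - toP p y‖ ≤ (p:ℝ) ^ (-(k:ℤ)) := by
  rw [pi_norm_le_iff_of_nonneg (by positivity)]
  intro i
  have h1 : (toP p x - toP p y) i = (((x i - y i : ℤ)) : ℚ_[p]) := by
    simp [toP]
  rw [h1, Padic.norm_int_le_pow_iff_dvd]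
  have := h i
  exact_mod_cast this

theorem tame_local {M : (Fin 3 → ℚ_[p]) → (Fin 4 → ℚ_[p]) → ℝ} (hM : IsLocalNorm ℚ_[p] M) :
    ∃ f0 f1 : ℝ, Tame (fun x y => M (toP p x) (toP p y)) p f0 f1 := by
  have hp : p.Prime := Fact.out
  have hc := isCompact_padicSet p
  have hcont : ContinuousOn (fun q : (Fin 3 → ℚ_[p]) × (Fin 4 → ℚ_[p]) => M q.1 q.2)
      (padicSet p) := hM.cont.mono fun q hq => padicSet_ne p hq
  obtain ⟨f0, f1, h0, hb⟩ : ∃ f0 f1 : ℝ, 0 < f0 ∧ ∀ q ∈ padicSet p,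
      f0 ≤ M q.1 q.2 ∧ M q.1 q.2 ≤ f1 := by
    rcases (padicSet p).eq_empty_or_nonempty with hE | hne
    · refine ⟨1, 1, one_pos, ?_⟩
      intro x hx
      rw [hE] at hx
      exact absurd hx (Set.notMem_empty _)
    · obtain ⟨x0, hx0, hmin⟩ := hc.exists_isMinOn hne hcont
      obtain ⟨x1, hx1, hmax⟩ := hc.exists_isMaxOn hne hcont
      obtain ⟨a1, a2, a3⟩ := padicSet_ne p hx0
      exact ⟨_, _, hM.pos x0.1 x0.2 a1 a2 a3, fun x hx => ⟨hmin hx, hmax hx⟩⟩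
  refine ⟨f0, f1, hp.pos, h0, ?_, ?_, ?_⟩
  · intro x y hx hy hxy
    exact hb _ (mem_padicSet p dvd_rfl hx hy hxy)
  · intro x y hx hy hxy u v hu hv
    obtain ⟨a1, a2, a3⟩ := padicSet_ne p (mem_padicSet p dvd_rfl hx hy hxy)
    have hnd : ∀ w : ℤ, IsCoprime w (p:ℤ) → ¬ (p:ℤ) ∣ w := by
      intro w hw hdvd
      have h1 : IsUnit (p:ℤ) := hw.isUnit_of_dvd' hdvd dvd_rfl
      rw [Int.isUnit_iff] at h1
      have := hp.two_le
      omega
    have nu := norm_int_eq_one p (hnd u hu)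
    have nv := norm_int_eq_one p (hnd v hv)
    have e1 : toP p (u • x) = ((u:ℤ) : ℚ_[p]) • toP p x := by
      funext i
      simp [toP]
    have e2 : toP p (v • y) = ((v:ℤ) : ℚ_[p]) • toP p y := by
      funext i
      simp [toP]
    have hu0 : ((u:ℤ) : ℚ_[p]) ≠ 0 := by
      intro h; rw [h, norm_zero] at nu; exact zero_ne_one nu
    have hv0 : ((v:ℤ) : ℚ_[p]) ≠ 0 := by
      intro h; rw [h, norm_zero] at nv; exact zero_ne_one nv
    simp only at a1 a2 a3 ⊢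
    rw [e1, e2, hM.scale _ _ a1 a2 a3 _ _ hu0 hv0, nu, nv]
    ring
  · intro ε hε
    have huc := hc.uniformContinuousOn_of_continuous hcont
    rw [Metric.uniformContinuousOn_iff] at huc
    obtain ⟨δ, hδ, hδ2⟩ := huc (ε * f0) (by positivity)
    obtain ⟨k, hk⟩ : ∃ k : ℕ, (p:ℝ) ^ (-(k:ℤ)) < δ := by
      have h1 : (1:ℝ) < p := by exact_mod_cast hp.one_lt
      obtain ⟨k, hk⟩ := exists_pow_lt_of_lt_one hδ (inv_lt_one_of_one_lt₀ h1)
      refine ⟨k, ?_⟩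
      rw [zpow_neg, zpow_natCast, ← inv_pow]
      exact hk
    refine ⟨p ^ (k + 1), pow_pos hp.pos _, dvd_pow_self p (by omega), ?_⟩
    intro x x' y y' hx hy hxy hxy' hc1 hc2
    have hpk : p ∣ p ^ (k + 1) := dvd_pow_self p (by omega)
    have m1 := mem_padicSet p hpk hx hy hxy
    have m2 := mem_padicSet p hpk (hx.congr hc1) (hy.congr hc2) hxy'
    have hkk : p ^ k ∣ p ^ (k + 1) := pow_dvd_pow p (by omega)
    have hd : dist ((toP p x', toP p y') : (Fin 3 → ℚ_[p]) × (Fin 4 → ℚ_[p]))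
        (toP p x, toP p y) < δ := by
      rw [Prod.dist_eq, max_lt_iff, dist_eq_norm, dist_eq_norm]
      exact ⟨(norm_sub_toP p (hc1.symm.of_dvd hkk)).trans_lt hk,
        (norm_sub_toP p (hc2.symm.of_dvd hkk)).trans_lt hk⟩
    have h3 := hδ2 _ m2 _ m1 hd
    rw [Real.dist_eq] at h3
    have h4 := (abs_lt.1 h3).2
    have h5 := (hb _ m1).1
    simp only at h4 h5 ⊢
    nlinarith

end padic

end Pool.Agent.Lib.MP_1acd66_nt.Tw
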