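import Pool.Agent.Lib.MP_1acd66_nt.Tw.Plane
import Pool.Agent.Lib.MP_1acd66_nt.LogSum

/-!
The density `Φ` on the space of the first vectors.
-/

namespace Pool.Agent.Lib.MP_1acd66_nt.Tw

open MeasureTheory Metric Set Filter Topology

/-- explicit frame where `x 0 ≠ 0` -/
noncomputable def fr0 (x : Fin 3 → ℝ) : Fin 2 → Fin 4 → ℝ := ![(x 0 ^ 2)⁻¹ • va x, vb x]

/-- explicit frame where `x 2 ≠ 0` -/
noncomputable def fr2 (x : Fin 3 → ℝ) : Fin 2 → Fin 4 → ℝ := ![(x 2 ^ 2)⁻¹ • vc x, vd x]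

/-- explicit frame where `x 1 ^ 2 - x 0 * x 2 ≠ 0` -/
noncomputable def fr1 (x : Fin 3 → ℝ) : Fin 2 → Fin 4 → ℝ :=
  ![(x 1 ^ 2 - x 0 * x 2)⁻¹ • va x, vd x]

theorem pk_smul_left {K : Type*} [CommRing K] (a b : Fin 4 → K) (s : K) (i : Fin 6) :
    pk (s • a) b i = s * pk a b i := by
  fin_cases i <;> simp [pk] <;> ring

theorem Inc.smul_right {K : Type*} [CommRing K] {x : Fin 3 → K} {y : Fin 4 → K} (h : Inc x y)
    (t : K) : Inc x (t • y) := by
  have := h.smul 1 t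
  rwa [one_smul] at this

theorem isFr_fr0 {x : Fin 3 → ℝ} (h : x 0 ≠ 0) : IsFr x (fr0 x) := by
  refine ⟨(inc_va x).smul_right _, inc_vb x, 1, by simp, ?_⟩
  intro i
  change pk ((x 0 ^ 2)⁻¹ • va x) (vb x) i = _
  rw [pk_smul_left, pk_va_vb]
  have : pl x 5 = x 0 ^ 2 := rfl
  rw [this]
  field_simp

theorem isFr_fr2 {x : Fin 3 → ℝ} (h : x 2 ≠ 0) : IsFr x (fr2 x) := by
  refine ⟨(inc_vc x).smul_right _, inc_vd x, 1, by simp, ?_⟩
  intro i
  change pk ((x 2 ^ 2)⁻¹ • vc x) (vd x) i = _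
  rw [pk_smul_left, pk_vc_vd]
  have : pl x 0 = x 2 ^ 2 := rfl
  rw [this]
  field_simp

theorem isFr_fr1 {x : Fin 3 → ℝ} (h : x 1 ^ 2 - x 0 * x 2 ≠ 0) : IsFr x (fr1 x) := by
  refine ⟨(inc_va x).smul_right _, inc_vd x, 1, by simp, ?_⟩
  intro i
  change pk ((x 1 ^ 2 - x 0 * x 2)⁻¹ • va x) (vd x) i = _
  rw [pk_smul_left, pk_va_vd]
  have : pl x 2 = x 1 ^ 2 - x 0 * x 2 := rfl
  rw [this]
  field_simp

open Classical in
/-- a frame -/
noncomputable def stdFr (x : Fin 3 → ℝ) : Fin 2 → Fin 4 → ℝ :=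
  if x 0 ≠ 0 then fr0 x else if x 2 ≠ 0 then fr2 x else fr1 x

theorem isFr_stdFr {x : Fin 3 → ℝ} (hx : x ≠ 0) : IsFr x (stdFr x) := by
  unfold stdFr
  split_ifs with h0 h2
  · exact isFr_fr0 h0
  · exact isFr_fr2 h2
  · push Not at h0 h2
    apply isFr_fr1
    intro h
    rw [h0, zero_mul, sub_zero] at h
    have h1 : x 1 = 0 := pow_eq_zero_iff two_ne_zero |>.1 h
    apply hx
    funext i
    fin_cases i
    · exact h0
    · exact h1
    · exact h2

/-- the density -/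
noncomputable def Phi (M : (Fin 3 → ℝ) → (Fin 4 → ℝ) → ℝ) (x : Fin 3 → ℝ) : ℝ :=
  area M x (stdFr x)

variable {M : (Fin 3 → ℝ) → (Fin 4 → ℝ) → ℝ}

theorem Phi_eq {x : Fin 3 → ℝ} (hx : x ≠ 0) {Z : Fin 2 → Fin 4 → ℝ} (h : IsFr x Z) :
    Phi M x = area M x Z := area_eq hx (isFr_stdFr hx) h

theorem Phi_nonneg (x : Fin 3 → ℝ) : 0 ≤ Phi M x := measureReal_nonneg

theorem pl_smul {K : Type*} [CommRing K] (s : K) (x : Fin 3 → K) (i : Fin 6) :
    pl (s • x) i = s ^ 2 * pl x i := by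
  fin_cases i <;> simp [pl] <;> ring

theorem IsFr.smul {x : Fin 3 → ℝ} {Z : Fin 2 → Fin 4 → ℝ} (h : IsFr x Z) (s : ℝ) :
    IsFr (s • x) (s • Z) := by
  obtain ⟨h0, h1, e, he, hpk⟩ := h
  refine ⟨h0.smul _ _, h1.smul _ _, e, he, ?_⟩
  intro i
  rw [pl_smul]
  have : pk ((s • Z) 0) ((s • Z) 1) i = s ^ 2 * pk (Z 0) (Z 1) i := by
    fin_cases i <;> simp [pk] <;> ring
  rw [this, hpk]; ring

theorem IsLocalNorm.Phi_hom (hM : IsLocalNorm ℝ M) {x : Fin 3 → ℝ} (hx : x ≠ 0) {s : ℝ}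
    (hs : 0 < s) : Phi M (s • x) = (s ^ 3)⁻¹ * Phi M x := by
  have hfr := isFr_stdFr hx
  rw [Phi_eq (smul_ne_zero hs.ne' hx) (hfr.smul s), Phi, ← hM.real_sub hx hfr (by positivity), area]
  congr 1
  ext a
  simp only [sub, mem_ofPred_eq, FZ]
  constructor
  · rintro ⟨h1, h2⟩
    refine ⟨h1, ?_⟩
    rw [cmb_smul', hM.hom hx (hfr.cmb_ne_zero hx h1) (hfr.inc a) hs hs] at h2
    rw [← one_div, le_div_iff₀ (by positivity)]
    linarith
  · rintro ⟨h1, h2⟩
    refine ⟨h1, ?_⟩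
    rw [cmb_smul', hM.hom hx (hfr.cmb_ne_zero hx h1) (hfr.inc a) hs hs]
    rw [← one_div, le_div_iff₀ (by positivity)] at h2
    linarith

/-- continuity of the area for continuous frames -/
theorem IsLocalNorm.continuousAt_area (hM : IsLocalNorm ℝ M) {x : Fin 3 → ℝ} (hx : x ≠ 0)
    {Z : (Fin 3 → ℝ) → Fin 2 → Fin 4 → ℝ} (hZ : ContinuousAt Z x)
    (hfr : ∀ᶠ x' in 𝓝 x, IsFr x' (Z x')) : ContinuousAt (fun x' => area M x' (Z x')) x := by
  rw [Metric.continuousAt_iff']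
  intro η hη
  have hfx : IsFr x (Z x) := hfr.self_of_nhds
  set V := area M x (Z x) with hV
  have hV0 : 0 ≤ V := measureReal_nonneg
  set ε := η / (V + 1) / 2 with hε
  have hεp : 0 < ε := by positivity
  obtain ⟨δ, hδ, hδ2, hmod⟩ := hM.modulus hεp
  have hxn : 0 < ‖x‖ := norm_pos_iff.2 hx
  have hZn : 0 < ‖Z x‖ := hfx.norm_pos hx
  have ev1 : ∀ᶠ x' in 𝓝 x, ‖x' - x‖ < δ * ‖x‖ := by
    have : Tendsto (fun x' => ‖x' - x‖) (𝓝 x) (𝓝 ‖x - x‖) :=
      ((continuous_id.sub continuous_const).norm).continuousAt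
    rw [sub_self, norm_zero] at this
    exact this.eventually_lt_const (by positivity)
  have ev2 : ∀ᶠ x' in 𝓝 x, ‖Z x' - Z x‖ < δ * ‖x‖ ^ 2 / (8 * ‖Z x‖) := by
    have : Tendsto (fun x' => ‖Z x' - Z x‖) (𝓝 x) (𝓝 ‖Z x - Z x‖) :=
      (hZ.sub continuousAt_const).norm
    rw [sub_self, norm_zero] at this
    exact this.eventually_lt_const (by positivity)
  filter_upwards [ev1, ev2, hfr, (isOpen_compl_singleton (x := (0 : Fin 3 → ℝ))).mem_nhds hx]
    with x' h1 h2 h3 h4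
  have hx' : x' ≠ 0 := h4
  have key : ∀ a : Fin 2 → ℝ, a ≠ 0 → FZ M x' (Z x') a ≤ (1 + ε) * FZ M x (Z x) a ∧
      FZ M x (Z x) a ≤ (1 + ε) * FZ M x' (Z x') a := by
    intro a ha
    have h5 := hfx.lower a
    have h6 : ‖cmb a (Z x') - cmb a (Z x)‖ ≤ δ * ‖cmb a (Z x)‖ := by
      rw [cmb_sub']
      have h7 := norm_cmb_le a (Z x' - Z x)
      rw [lt_div_iff₀ (by positivity)] at h2
      have h8 : ‖cmb a (Z x' - Z x)‖ * (4 * ‖Z x‖) ≤ δ * ‖cmb a (Z x)‖ * (4 * ‖Z x‖) := by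
        calc ‖cmb a (Z x' - Z x)‖ * (4 * ‖Z x‖) ≤ (2 * (‖a‖ * ‖Z x' - Z x‖)) * (4 * ‖Z x‖) := by
              gcongr
          _ = ‖a‖ * (‖Z x' - Z x‖ * (8 * ‖Z x‖)) := by ring
          _ ≤ ‖a‖ * (δ * ‖x‖ ^ 2) := by gcongr
          _ = δ * (‖a‖ * ‖x‖ ^ 2) := by ring
          _ ≤ δ * (4 * (‖Z x‖ * ‖cmb a (Z x)‖)) := by gcongr
          _ = _ := by ring
      exact le_of_mul_le_mul_right h8 (by positivity)
    obtain ⟨_, _, q3, q4⟩ := hmod x x' _ _ hx (hfx.cmb_ne_zero hx ha) (hfx.inc a) (h3.inc a)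
      h1.le h6
    exact ⟨q3, q4⟩
  have b1 : V ≤ (1 + ε) * area M x' (Z x') := by
    have e1 := hM.real_sub hx' h3 (Y := 1 + ε) (by positivity)
    rw [← e1, hV, area]
    refine measureReal_mono ?_ (hM.sub_lt_top hx' h3 _).ne
    rintro a ⟨ha, ha1⟩
    refine ⟨ha, (key a ha).1.trans ?_⟩
    nlinarith
  have b2 : area M x' (Z x') ≤ (1 + ε) * V := by
    have e1 := hM.real_sub hx hfx (Y := 1 + ε) (by positivity)
    rw [hV, ← e1, area]
    refine measureReal_mono ?_ (hM.sub_lt_top hx hfx _).ne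
    rintro a ⟨ha, ha1⟩
    refine ⟨ha, (key a ha).2.trans ?_⟩
    nlinarith
  have hεV : ε * (V + 1) = η / 2 := by
    rw [hε]; field_simp
  have hεV1 : ε * V < η := by nlinarith
  set W := area M x' (Z x') with hW
  have hW0 : 0 ≤ W := measureReal_nonneg
  rw [Real.dist_eq, abs_lt]
  constructor
  · -- V - W ≤ ε W ≤ ε (1 + ε) V; use W ≥ V / (1 + ε)
    have h5 : V / (1 + ε) ≤ W := by
      rw [div_le_iff₀ (by positivity)]; linarith
    have h6 : V - V / (1 + ε) ≤ ε * V := by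
      have : V - V / (1 + ε) = ε * V / (1 + ε) := by field_simp; ring
      rw [this, div_le_iff₀ (by positivity)]
      have : 0 ≤ ε * V := by positivity
      nlinarith
    linarith
  · linarith

theorem IsLocalNorm.continuousOn_Phi (hM : IsLocalNorm ℝ M) : ContinuousOn (Phi M) {0}ᶜ := by
  intro x hx
  have hx : x ≠ 0 := hx
  apply ContinuousAt.continuousWithinAt
  -- local frames
  have key : ∀ Z : (Fin 3 → ℝ) → Fin 2 → Fin 4 → ℝ, ContinuousAt Z x →
      (∀ᶠ x' in 𝓝 x, IsFr x' (Z x')) → ContinuousAt (Phi M) x := by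
    intro Z hZ hfr
    refine (hM.continuousAt_area hx hZ hfr).congr ?_
    filter_upwards [hfr, (isOpen_compl_singleton (x := (0 : Fin 3 → ℝ))).mem_nhds hx] with x' h1 h2
    exact (Phi_eq h2 h1).symm
  have hc : ∀ i : Fin 3, Continuous (fun x : Fin 3 → ℝ => x i) := fun i => continuous_apply i
  have cva : Continuous (fun x : Fin 3 → ℝ => va x) := by
    refine continuous_pi fun j => ?_
    fin_cases j <;> simp [va] <;> fun_prop
  have cvb : Continuous (fun x : Fin 3 → ℝ => vb x) := by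
    refine continuous_pi fun j => ?_
    fin_cases j <;> simp [vb] <;> fun_prop
  have cvc : Continuous (fun x : Fin 3 → ℝ => vc x) := by
    refine continuous_pi fun j => ?_
    fin_cases j <;> simp [vc] <;> fun_prop
  have cvd : Continuous (fun x : Fin 3 → ℝ => vd x) := by
    refine continuous_pi fun j => ?_
    fin_cases j <;> simp [vd] <;> fun_prop
  by_cases h0 : x 0 ≠ 0
  · refine key fr0 ?_ ?_
    · refine continuousAt_pi.2 fun i => ?_
      fin_cases i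
      · exact ((hc 0).pow 2).continuousAt.inv₀ (pow_ne_zero 2 h0) |>.smul cva.continuousAt
      · exact cvb.continuousAt
    · filter_upwards [(hc 0).continuousAt.eventually_ne h0] with x' hx'
      exact isFr_fr0 hx'
  · by_cases h2 : x 2 ≠ 0
    · refine key fr2 ?_ ?_
      · refine continuousAt_pi.2 fun i => ?_
        fin_cases i
        · exact ((hc 2).pow 2).continuousAt.inv₀ (pow_ne_zero 2 h2) |>.smul cvc.continuousAt
        · exact cvd.continuousAt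
      · filter_upwards [(hc 2).continuousAt.eventually_ne h2] with x' hx'
        exact isFr_fr2 hx'
    · push Not at h0 h2
      have h1 : x 1 ^ 2 - x 0 * x 2 ≠ 0 := by
        intro h
        rw [h0, zero_mul, sub_zero] at h
        have h1 : x 1 = 0 := pow_eq_zero_iff two_ne_zero |>.1 h
        apply hx
        funext i
        fin_cases i
        · exact h0
        · exact h1
        · exact h2
      have hcm : Continuous (fun x : Fin 3 → ℝ => x 1 ^ 2 - x 0 * x 2) :=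
        ((hc 1).pow 2).sub ((hc 0).mul (hc 2))
      refine key fr1 ?_ ?_
      · refine continuousAt_pi.2 fun i => ?_
        fin_cases i
        · exact hcm.continuousAt.inv₀ h1 |>.smul cva.continuousAt
        · exact cvd.continuousAt
      · filter_upwards [hcm.continuousAt.eventually_ne h1] with x' hx'
        exact isFr_fr1 hx'

theorem IsLocalNorm.homNeg_Phi (hM : IsLocalNorm ℝ M) : HomNeg 3 (Phi M) where
  cont := hM.continuousOn_Phi
  nonneg := Phi_nonneg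
  hom _ hx _ hs := hM.Phi_hom hx hs

theorem IsLocalNorm.Phi_le (hM : IsLocalNorm ℝ M) :
    ∃ C : ℝ, 0 < C ∧ ∀ x, x ≠ 0 → Phi M x ≤ C / ‖x‖ ^ 3 := by
  have hK : IsCompact (sphere (0 : Fin 3 → ℝ) 1) := isCompact_sphere 0 1
  obtain ⟨C, hC⟩ := hK.exists_bound_of_continuousOn (hM.continuousOn_Phi.mono (by
    intro x hx
    rw [mem_sphere_zero_iff_norm] at hx
    rw [mem_compl_iff, mem_singleton_iff]
    rintro rfl
    rw [norm_zero] at hx
    exact zero_ne_one hx))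
  refine ⟨|C| + 1, by positivity, ?_⟩
  intro x hx
  have hxn : 0 < ‖x‖ := norm_pos_iff.2 hx
  have h1 := hC (‖x‖⁻¹ • x) (by
    rw [mem_sphere_zero_iff_norm, norm_smul, norm_inv, norm_norm, inv_mul_cancel₀ hxn.ne'])
  rw [Real.norm_eq_abs, abs_of_nonneg (Phi_nonneg _), hM.Phi_hom hx (inv_pos.2 hxn)] at h1
  rw [le_div_iff₀ (by positivity)]
  have e : ((‖x‖⁻¹) ^ 3)⁻¹ = ‖x‖ ^ 3 := by rw [inv_pow, inv_inv]
  rw [e] at h1
  have := le_abs_self C
  linarith

/-- positivity of the density -/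
theorem IsLocalNorm.Phi_pos (hM : IsLocalNorm ℝ M) {x : Fin 3 → ℝ} (hx : x ≠ 0) :
    0 < Phi M x := by
  obtain ⟨c, C, hc, hC, hb⟩ := hM.bound
  have hfr := isFr_stdFr hx
  set Z := stdFr x with hZ
  have hZn := hfr.norm_pos hx
  have hxn : 0 < ‖x‖ := norm_pos_iff.2 hx
  set D := C * ‖x‖ * (4 * ‖Z‖ ^ 2) with hD
  have hDp : 0 < D := by positivity
  have hup : ∀ a : Fin 2 → ℝ, a ≠ 0 → FZ M x Z a ≤ D * ‖a‖ ^ 2 := by
    intro a ha
    refine (hb x _ hx (hfr.cmb_ne_zero hx ha) (hfr.inc a)).2.trans ?_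
    have h1 := norm_cmb_le a Z
    calc C * (‖x‖ * ‖cmb a Z‖ ^ 2) ≤ C * (‖x‖ * (2 * (‖a‖ * ‖Z‖)) ^ 2) := by gcongr
      _ = _ := by rw [hD]; ring
  set r : ℝ := min 1 (1 / D) with hr
  have hr0 : 0 < r := lt_min one_pos (by positivity)
  have hr1 : r ≤ 1 := min_le_left _ _
  have hrD : D * r ≤ 1 := by
    calc D * r ≤ D * (1 / D) := mul_le_mul_of_nonneg_left (min_le_right _ _) hDp.le
      _ = 1 := by field_simp
  set y : Fin 2 → ℝ := fun _ => r / 2 with hy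
  have hyn : ‖y‖ = r / 2 := by
    rw [hy, pi_norm_const, Real.norm_eq_abs, abs_of_pos (by positivity)]
  have hsub : ball y (r / 4) ⊆ sub (FZ M x Z) 1 := by
    intro a ha
    rw [mem_ball, dist_eq_norm] at ha
    have h1 : ‖y‖ ≤ ‖a‖ + ‖a - y‖ := by
      have : y = a - (a - y) := by abel
      calc ‖y‖ = ‖a - (a - y)‖ := by rw [← this]
        _ ≤ _ := norm_sub_le _ _
    have h2 : ‖a‖ ≤ ‖y‖ + ‖a - y‖ := by
      have : a = y + (a - y) := by abel
      calc ‖a‖ = ‖y + (a - y)‖ := by rw [← this]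
        _ ≤ _ := norm_add_le _ _
    have hapos : 0 < ‖a‖ := by linarith
    have har : ‖a‖ ≤ r := by linarith
    have ha0 : a ≠ 0 := norm_pos_iff.1 hapos
    refine ⟨ha0, (hup a ha0).trans ?_⟩
    have h3 : ‖a‖ ^ 2 ≤ r := by nlinarith
    calc D * ‖a‖ ^ 2 ≤ D * r := mul_le_mul_of_nonneg_left h3 hDp.le
      _ ≤ 1 := hrD
  have h1 : (volume : Measure (Fin 2 → ℝ)).real (ball y (r / 4)) ≤ Phi M x :=
    measureReal_mono hsub (hM.sub_lt_top hx hfr _).ne
  have h2 : 0 < (volume : Measure (Fin 2 → ℝ)).real (ball y (r / 4)) :=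
    ENNReal.toReal_pos (measure_ball_pos _ _ (by positivity)).ne' measure_ball_lt_top.ne
  linarith

theorem IsLocalNorm.kap_pos (hM : IsLocalNorm ℝ M) :
    0 < kap (volume : Measure (Fin 3 → ℝ)) (Phi M) := by
  have hΦ := hM.homNeg_Phi
  unfold kap
  refine div_pos ?_ (Real.log_pos (by norm_num))
  unfold ann
  rw [setIntegral_pos_iff_support_of_nonneg_ae]
  · have hsub : ball (fun _ => (3:ℝ) / 2) (1 / 4) ⊆ Function.support (Phi M) ∩
        annulus (Fin 3 → ℝ) 1 2 := by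
      intro x hx
      rw [mem_ball, dist_eq_norm] at hx
      have hy : ‖(fun _ => (3:ℝ) / 2 : Fin 3 → ℝ)‖ = 3 / 2 := by
        rw [pi_norm_const, Real.norm_eq_abs, abs_of_pos (by norm_num)]
      set y : Fin 3 → ℝ := fun _ => (3:ℝ) / 2 with hydef
      have h1 : ‖y‖ ≤ ‖x‖ + ‖x - y‖ := by
        have : y = x - (x - y) := by abel
        calc ‖y‖ = ‖x - (x - y)‖ := by rw [← this]
          _ ≤ _ := norm_sub_le _ _
      have h2 : ‖x‖ ≤ ‖y‖ + ‖x - y‖ := by
        have : x = y + (x - y) := by abel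
        calc ‖x‖ = ‖y + (x - y)‖ := by rw [← this]
          _ ≤ _ := norm_add_le _ _
      have hx0 : x ≠ 0 := by
        rw [← norm_pos_iff]; linarith
      exact ⟨(hM.Phi_pos hx0).ne', by linarith, by linarith⟩
    exact lt_of_lt_of_le (measure_ball_pos _ _ (by norm_num)) (measure_mono hsub)
  · exact Eventually.of_forall fun x => Phi_nonneg x
  · exact hΦ.integrableOn one_pos 2

end Pool.Agent.Lib.MP_1acd66_nt.Tw
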