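import Pool.Agent.Lib.MP_1acd66_nt.Tw.ClassCount
import Pool.Agent.Lib.MP_1acd66_nt.Tw.Basis2

/-!
The area of the unit body in the plane of vectors incident with a real vector.
-/

namespace Pool.Agent.Lib.MP_1acd66_nt.Tw

open MeasureTheory Metric Set Filter Topology

/-- linear combination of the rows -/
def cmb {K : Type*} [CommRing K] (a : Fin 2 → K) (Z : Fin 2 → Fin 4 → K) : Fin 4 → K :=
  fun j => a 0 * Z 0 j + a 1 * Z 1 j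

/-- normalised frames -/
def IsFr (x : Fin 3 → ℝ) (Z : Fin 2 → Fin 4 → ℝ) : Prop :=
  Inc x (Z 0) ∧ Inc x (Z 1) ∧ ∃ e : ℝ, |e| = 1 ∧ ∀ i, pk (Z 0) (Z 1) i = e * pl x i

theorem IsFr.inc {x : Fin 3 → ℝ} {Z : Fin 2 → Fin 4 → ℝ} (h : IsFr x Z) (a : Fin 2 → ℝ) :
    Inc x (cmb a Z) := h.1.comb h.2.1 _ _

theorem abs_pl_le (x : Fin 3 → ℝ) (i : Fin 6) : |pl x i| ≤ 2 * ‖x‖ ^ 2 := by
  have h0 : |x 0| ≤ ‖x‖ := norm_le_pi_norm x 0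
  have h1 : |x 1| ≤ ‖x‖ := norm_le_pi_norm x 1
  have h2 : |x 2| ≤ ‖x‖ := norm_le_pi_norm x 2
  have hn := norm_nonneg x
  have key : ∀ s t : ℝ, |s| ≤ ‖x‖ → |t| ≤ ‖x‖ → |s * t| ≤ ‖x‖ ^ 2 := by
    intro s t hs ht
    rw [abs_mul, sq]
    exact mul_le_mul hs ht (abs_nonneg _) hn
  have hsq : 0 ≤ ‖x‖ ^ 2 := sq_nonneg _
  fin_cases i
  · change |x 2 ^ 2| ≤ _
    rw [sq (x 2)]; linarith [key _ _ h2 h2]
  · change |-(x 1 * x 2)| ≤ _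
    rw [abs_neg]; linarith [key _ _ h1 h2]
  · change |x 1 ^ 2 - x 0 * x 2| ≤ _
    rw [sq (x 1)]
    have := abs_sub (x 1 * x 1) (x 0 * x 2)
    linarith [key _ _ h1 h1, key _ _ h0 h2]
  · change |x 0 * x 2| ≤ _
    linarith [key _ _ h0 h2]
  · change |-(x 0 * x 1)| ≤ _
    rw [abs_neg]; linarith [key _ _ h0 h1]
  · change |x 0 ^ 2| ≤ _
    rw [sq (x 0)]; linarith [key _ _ h0 h0]

theorem exists_eq_norm {n : ℕ} (hn : 0 < n) (x : Fin n → ℝ) : ∃ i, ‖x i‖ = ‖x‖ := by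
  have : Nonempty (Fin n) := ⟨⟨0, hn⟩⟩
  obtain ⟨i, _, hi⟩ := Finset.exists_max_image Finset.univ (fun i => ‖x i‖) Finset.univ_nonempty
  exact ⟨i, le_antisymm (norm_le_pi_norm x i)
    ((pi_norm_le_iff_of_nonneg (norm_nonneg _)).2 fun j => hi j (Finset.mem_univ j))⟩

theorem exists_pl_ge (x : Fin 3 → ℝ) : ∃ i, ‖x‖ ^ 2 / 2 ≤ |pl x i| := by
  obtain ⟨j, hj⟩ := exists_eq_norm (by norm_num) x
  have hsq : 0 ≤ ‖x‖ ^ 2 := sq_nonneg _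
  have hj2 : x j ^ 2 = ‖x‖ ^ 2 := by rw [← hj, Real.norm_eq_abs, sq_abs]
  fin_cases j
  · refine ⟨5, ?_⟩
    change _ ≤ |x 0 ^ 2|
    have : x 0 ^ 2 = ‖x‖ ^ 2 := hj2
    rw [this, abs_of_nonneg hsq]; linarith
  · have h1 : x 1 ^ 2 = ‖x‖ ^ 2 := hj2
    by_cases h : ‖x‖ ^ 2 / 2 ≤ |x 0 * x 2|
    · exact ⟨3, h⟩
    · refine ⟨2, ?_⟩
      change _ ≤ |x 1 ^ 2 - x 0 * x 2|
      push Not at h
      rw [h1]
      have := abs_lt.1 h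
      rw [abs_of_nonneg (by linarith)]
      linarith
  · refine ⟨0, ?_⟩
    change _ ≤ |x 2 ^ 2|
    have : x 2 ^ 2 = ‖x‖ ^ 2 := hj2
    rw [this, abs_of_nonneg hsq]; linarith

theorem pk_cmb_left (a : Fin 2 → ℝ) (Z : Fin 2 → Fin 4 → ℝ) (i : Fin 6) :
    pk (cmb a Z) (Z 1) i = a 0 * pk (Z 0) (Z 1) i := by
  fin_cases i <;> simp [pk, cmb] <;> ring

theorem pk_cmb_right (a : Fin 2 → ℝ) (Z : Fin 2 → Fin 4 → ℝ) (i : Fin 6) :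
    pk (Z 0) (cmb a Z) i = a 1 * pk (Z 0) (Z 1) i := by
  fin_cases i <;> simp [pk, cmb] <;> ring

theorem abs_pk_le (u v : Fin 4 → ℝ) (i : Fin 6) : |pk u v i| ≤ 2 * (‖u‖ * ‖v‖) := by
  have e : pk u v i = u (ix i).1 * v (ix i).2 - u (ix i).2 * v (ix i).1 := by
    fin_cases i <;> rfl
  rw [e]
  have h : ∀ j k, |u j * v k| ≤ ‖u‖ * ‖v‖ := fun j k => by
    rw [abs_mul]
    exact mul_le_mul (norm_le_pi_norm u j) (norm_le_pi_norm v k) (abs_nonneg _) (norm_nonneg _)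
  have := abs_sub (u (ix i).1 * v (ix i).2) (u (ix i).2 * v (ix i).1)
  linarith [h (ix i).1 (ix i).2, h (ix i).2 (ix i).1]

/-- lower bound for combinations -/
theorem IsFr.lower {x : Fin 3 → ℝ} {Z : Fin 2 → Fin 4 → ℝ} (h : IsFr x Z) (a : Fin 2 → ℝ) :
    ‖a‖ * ‖x‖ ^ 2 ≤ 4 * (‖Z‖ * ‖cmb a Z‖) := by
  obtain ⟨_, _, e, he, hpk⟩ := h
  obtain ⟨i, hi⟩ := exists_pl_ge x
  have hZ0 : ‖Z 0‖ ≤ ‖Z‖ := norm_le_pi_norm Z 0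
  have hZ1 : ‖Z 1‖ ≤ ‖Z‖ := norm_le_pi_norm Z 1
  have hpi : ‖x‖ ^ 2 / 2 ≤ |pk (Z 0) (Z 1) i| := by
    rw [hpk, abs_mul, he, one_mul]; exact hi
  have h0 : |a 0| * ‖x‖ ^ 2 ≤ 4 * (‖Z‖ * ‖cmb a Z‖) := by
    have h1 := abs_pk_le (cmb a Z) (Z 1) i
    rw [pk_cmb_left, abs_mul] at h1
    have h2 : |a 0| * (‖x‖ ^ 2 / 2) ≤ |a 0| * |pk (Z 0) (Z 1) i| :=
      mul_le_mul_of_nonneg_left hpi (abs_nonneg _)
    have h3 : ‖cmb a Z‖ * ‖Z 1‖ ≤ ‖cmb a Z‖ * ‖Z‖ := mul_le_mul_of_nonneg_left hZ1 (norm_nonneg _)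
    linarith
  have h1 : |a 1| * ‖x‖ ^ 2 ≤ 4 * (‖Z‖ * ‖cmb a Z‖) := by
    have h1 := abs_pk_le (Z 0) (cmb a Z) i
    rw [pk_cmb_right, abs_mul] at h1
    have h2 : |a 1| * (‖x‖ ^ 2 / 2) ≤ |a 1| * |pk (Z 0) (Z 1) i| :=
      mul_le_mul_of_nonneg_left hpi (abs_nonneg _)
    have h3 : ‖Z 0‖ * ‖cmb a Z‖ ≤ ‖Z‖ * ‖cmb a Z‖ := mul_le_mul_of_nonneg_right hZ0 (norm_nonneg _)
    linarith
  obtain ⟨j, hj⟩ := exists_eq_norm (by norm_num) a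
  rw [← hj, Real.norm_eq_abs]
  fin_cases j
  · exact h0
  · exact h1

theorem norm_cmb_le (a : Fin 2 → ℝ) (Z : Fin 2 → Fin 4 → ℝ) : ‖cmb a Z‖ ≤ 2 * (‖a‖ * ‖Z‖) := by
  rw [pi_norm_le_iff_of_nonneg (by positivity)]
  intro j
  have h : ∀ i, |a i * Z i j| ≤ ‖a‖ * ‖Z‖ := fun i => by
    rw [abs_mul]
    exact mul_le_mul (norm_le_pi_norm a i) ((norm_le_pi_norm (Z i) j).trans (norm_le_pi_norm Z i))
      (abs_nonneg _) (norm_nonneg _)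
  simp only [cmb]
  rw [Real.norm_eq_abs]
  have := abs_add_le (a 0 * Z 0 j) (a 1 * Z 1 j)
  linarith [h 0, h 1]

theorem cmb_smul (s : ℝ) (a : Fin 2 → ℝ) (Z : Fin 2 → Fin 4 → ℝ) : cmb (s • a) Z = s • cmb a Z := by
  funext j
  simp [cmb]; ring

theorem cmb_smul' (s : ℝ) (a : Fin 2 → ℝ) (Z : Fin 2 → Fin 4 → ℝ) : cmb a (s • Z) = s • cmb a Z := by
  funext j
  simp [cmb]; ring

theorem cmb_sub (a b : Fin 2 → ℝ) (Z : Fin 2 → Fin 4 → ℝ) : cmb a Z - cmb b Z = cmb (a - b) Z := by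
  funext j
  simp [cmb]; ring

theorem cmb_sub' (a : Fin 2 → ℝ) (Z Z' : Fin 2 → Fin 4 → ℝ) :
    cmb a Z - cmb a Z' = cmb a (Z - Z') := by
  funext j
  simp [cmb]; ring

theorem IsFr.cmb_ne_zero {x : Fin 3 → ℝ} (hx : x ≠ 0) {Z : Fin 2 → Fin 4 → ℝ} (h : IsFr x Z)
    {a : Fin 2 → ℝ} (ha : a ≠ 0) : cmb a Z ≠ 0 := by
  intro h0
  have h1 := h.lower a
  rw [h0, norm_zero, mul_zero, mul_zero] at h1
  have h2 : 0 < ‖a‖ := norm_pos_iff.2 ha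
  have h3 : 0 < ‖x‖ := norm_pos_iff.2 hx
  have : 0 < ‖a‖ * ‖x‖ ^ 2 := by positivity
  linarith

theorem IsFr.norm_pos {x : Fin 3 → ℝ} (hx : x ≠ 0) {Z : Fin 2 → Fin 4 → ℝ} (h : IsFr x Z) :
    0 < ‖Z‖ := by
  rw [norm_pos_iff]
  rintro rfl
  have h1 := h.cmb_ne_zero hx (a := fun _ => 1) (by
    intro h; have := congrFun h 0; simp at this)
  apply h1
  funext j
  simp [cmb]

theorem IsFr.span {x : Fin 3 → ℝ} (hx : x ≠ 0) {Z : Fin 2 → Fin 4 → ℝ} (h : IsFr x Z)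
    {y : Fin 4 → ℝ} (hy : Inc x y) : ∃ a : Fin 2 → ℝ, y = cmb a Z := by
  obtain ⟨h0, h1, e, he, hpk⟩ := h
  obtain ⟨s, hs⟩ := pk_eq_smul hx hy h1
  obtain ⟨t, ht⟩ := pk_eq_smul hx h0 hy
  have he0 : e ≠ 0 := by
    rintro rfl; simp at he
  have hne : ∃ i, pk (Z 0) (Z 1) i ≠ 0 := by
    rcases pl_ne_zero hx with h | h | h
    all_goals exact ⟨_, by rw [hpk]; exact mul_ne_zero he0 h⟩
  refine ⟨![s / e, t / e], ?_⟩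
  funext j
  have := comb_eq hne hs ht hpk j
  simp only [cmb, Matrix.cons_val_zero, Matrix.cons_val_one]
  field_simp
  linarith

variable {M : (Fin 3 → ℝ) → (Fin 4 → ℝ) → ℝ}

/-- the function on the plane -/
def FZ (M : (Fin 3 → ℝ) → (Fin 4 → ℝ) → ℝ) (x : Fin 3 → ℝ) (Z : Fin 2 → Fin 4 → ℝ)
    (a : Fin 2 → ℝ) : ℝ := M x (cmb a Z)

theorem IsLocalNorm.FZ_hom (hM : IsLocalNorm ℝ M) {x : Fin 3 → ℝ} (hx : x ≠ 0)
    {Z : Fin 2 → Fin 4 → ℝ} (h : IsFr x Z) {a : Fin 2 → ℝ} (ha : a ≠ 0) {s : ℝ} (hs : 0 < s) :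
    FZ M x Z (s • a) = s ^ 2 * FZ M x Z a := by
  unfold FZ
  rw [cmb_smul]
  have := hM.hom hx (h.cmb_ne_zero hx ha) (h.inc a) one_pos hs
  rw [one_smul, one_mul] at this
  exact this

theorem FZ_lower {c : ℝ}
    (hc : 0 < c) (hb : ∀ x y, x ≠ 0 → y ≠ 0 → Inc x y → c * (‖x‖ * ‖y‖ ^ 2) ≤ M x y)
    {x : Fin 3 → ℝ} (hx : x ≠ 0)
    {Z : Fin 2 → Fin 4 → ℝ} (h : IsFr x Z) {a : Fin 2 → ℝ} (ha : a ≠ 0) :
    c * ‖x‖ ^ 5 / (16 * ‖Z‖ ^ 2) * ‖a‖ ^ 2 ≤ FZ M x Z a := by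
  have hZ := h.norm_pos hx
  have hxn : 0 < ‖x‖ := norm_pos_iff.2 hx
  refine le_trans ?_ (hb x _ hx (h.cmb_ne_zero hx ha) (h.inc a))
  rw [div_mul_eq_mul_div, div_le_iff₀ (by positivity)]
  have h1 := h.lower a
  have h2 : (‖a‖ * ‖x‖ ^ 2) ^ 2 ≤ (4 * (‖Z‖ * ‖cmb a Z‖)) ^ 2 := by gcongr
  calc c * ‖x‖ ^ 5 * ‖a‖ ^ 2 = c * ‖x‖ * (‖a‖ * ‖x‖ ^ 2) ^ 2 := by ring
    _ ≤ c * ‖x‖ * (4 * (‖Z‖ * ‖cmb a Z‖)) ^ 2 := by gcongr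
    _ = _ := by ring

/-- modulus on the plane -/
theorem FZ_modulus {ε δ : ℝ} (hδ : 0 < δ)
    (hmod : ∀ x x' y y', x ≠ 0 → y ≠ 0 → Inc x y → Inc x' y' →
      ‖x' - x‖ ≤ δ * ‖x‖ → ‖y' - y‖ ≤ δ * ‖y‖ →
      x' ≠ 0 ∧ y' ≠ 0 ∧ M x' y' ≤ (1 + ε) * M x y ∧ M x y ≤ (1 + ε) * M x' y')
    {x : Fin 3 → ℝ} (hx : x ≠ 0) {Z : Fin 2 → Fin 4 → ℝ} (h : IsFr x Z) {a b : Fin 2 → ℝ}
    (ha : a ≠ 0) {δ' : ℝ} (hδ' : 8 * ‖Z‖ ^ 2 * δ' ≤ δ * ‖x‖ ^ 2) (hab : ‖b - a‖ ≤ δ' * ‖a‖) :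
    b ≠ 0 ∧ FZ M x Z b ≤ (1 + ε) * FZ M x Z a ∧ FZ M x Z a ≤ (1 + ε) * FZ M x Z b := by
  have hZ := h.norm_pos hx
  have hxn : 0 < ‖x‖ := norm_pos_iff.2 hx
  have h1 := h.lower a
  have h2 : ‖cmb b Z - cmb a Z‖ ≤ δ * ‖cmb a Z‖ := by
    rw [cmb_sub]
    have h3 := norm_cmb_le (b - a) Z
    have h4 : ‖cmb (b - a) Z‖ * (4 * ‖Z‖ * ‖x‖ ^ 2) ≤ δ * ‖cmb a Z‖ * (4 * ‖Z‖ * ‖x‖ ^ 2) := by
      calc ‖cmb (b - a) Z‖ * (4 * ‖Z‖ * ‖x‖ ^ 2) ≤ (2 * (‖b - a‖ * ‖Z‖)) * (4 * ‖Z‖ * ‖x‖ ^ 2) := by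
            gcongr
        _ ≤ (2 * ((δ' * ‖a‖) * ‖Z‖)) * (4 * ‖Z‖ * ‖x‖ ^ 2) := by gcongr
        _ = (8 * ‖Z‖ ^ 2 * δ') * (‖a‖ * ‖x‖ ^ 2) := by ring
        _ ≤ (δ * ‖x‖ ^ 2) * (4 * (‖Z‖ * ‖cmb a Z‖)) := by gcongr
        _ = _ := by ring
    exact le_of_mul_le_mul_right h4 (by positivity)
  obtain ⟨_, q2, q3, q4⟩ := hmod x x _ _ hx (h.cmb_ne_zero hx ha) (h.inc a) (h.inc b)
    (by rw [sub_self, norm_zero]; positivity) h2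
  refine ⟨?_, q3, q4⟩
  rintro rfl
  apply q2
  funext j
  simp [cmb]

/-- the area of the unit body -/
noncomputable def area (M : (Fin 3 → ℝ) → (Fin 4 → ℝ) → ℝ) (x : Fin 3 → ℝ)
    (Z : Fin 2 → Fin 4 → ℝ) : ℝ := (volume : Measure (Fin 2 → ℝ)).real (sub (FZ M x Z) 1)

theorem IsLocalNorm.real_sub (hM : IsLocalNorm ℝ M) {x : Fin 3 → ℝ} (hx : x ≠ 0)
    {Z : Fin 2 → Fin 4 → ℝ} (h : IsFr x Z) {Y : ℝ} (hY : 0 < Y) :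
    (volume : Measure (Fin 2 → ℝ)).real (sub (FZ M x Z) Y) = Y * area M x Z := by
  have h1 := measure_sub (μ := (volume : Measure (Fin 2 → ℝ))) (FZ M x Z) (D := 2) (by simp)
    two_pos (fun a ha s hs => hM.FZ_hom hx h ha hs) (Y' := 1) hY
  rw [mul_one] at h1
  rw [Measure.real, h1, ENNReal.toReal_mul, ENNReal.toReal_ofReal hY.le, area, Measure.real]

theorem IsLocalNorm.sub_lt_top (hM : IsLocalNorm ℝ M) {x : Fin 3 → ℝ} (hx : x ≠ 0)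
    {Z : Fin 2 → Fin 4 → ℝ} (h : IsFr x Z) (Y : ℝ) :
    (volume : Measure (Fin 2 → ℝ)) (sub (FZ M x Z) Y) < ⊤ := by
  obtain ⟨c, C, hc, hC, hb⟩ := hM.bound
  have hZ := h.norm_pos hx
  have hxn : 0 < ‖x‖ := norm_pos_iff.2 hx
  exact measure_sub_lt_top (FZ M x Z) (D := 2) two_pos
    (c := c * ‖x‖ ^ 5 / (16 * ‖Z‖ ^ 2)) (by positivity)
    (fun a ha => FZ_lower hc (fun x y hx hy h => (hb x y hx hy h).1) hx h ha) Y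

/-- invariance of the area -/
theorem area_eq {x : Fin 3 → ℝ} (hx : x ≠ 0) {Z Z' : Fin 2 → Fin 4 → ℝ} (h : IsFr x Z)
    (h' : IsFr x Z') : area M x Z = area M x Z' := by
  obtain ⟨g0, hg0⟩ := h.span hx h'.1
  obtain ⟨g1, hg1⟩ := h.span hx h'.2.1
  set g : Matrix (Fin 2) (Fin 2) ℝ := Matrix.of ![g0, g1] with hg
  have hdet : |g.det| = 1 := by
    obtain ⟨_, _, e, he, hpk⟩ := h
    obtain ⟨_, _, e', he', hpk'⟩ := h'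
    have hne : ∃ i, pl x i ≠ 0 := by
      rcases pl_ne_zero hx with h | h | h
      exacts [⟨_, h⟩, ⟨_, h⟩, ⟨_, h⟩]
    obtain ⟨i, hi⟩ := hne
    have h1 : pk (Z' 0) (Z' 1) i = g.det * pk (Z 0) (Z 1) i := by
      rw [hg0, hg1]
      have := pk_comb (Z 0) (Z 1) (g0 0) (g0 1) (g1 0) (g1 1) i
      change pk (fun j => g0 0 * Z 0 j + g0 1 * Z 1 j) (fun j => g1 0 * Z 0 j + g1 1 * Z 1 j) i = _
      rw [this, Matrix.det_fin_two]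
      simp [hg]
    rw [hpk, hpk'] at h1
    have h2 : e' = g.det * e := by
      have : (e' - g.det * e) * pl x i = 0 := by linear_combination h1
      rcases mul_eq_zero.1 this with h3 | h3
      · linarith
      · exact absurd h3 hi
    have h3 : |e'| = |g.det| * |e| := by rw [h2, abs_mul]
    rw [he, he', mul_one] at h3
    exact h3.symm
  have hdet0 : g.det ≠ 0 := by
    intro h0; rw [h0] at hdet; simp at hdet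
  set f : (Fin 2 → ℝ) →ₗ[ℝ] (Fin 2 → ℝ) := Matrix.toLin' g.transpose with hf
  have hfdet : LinearMap.det f = g.det := by
    rw [hf, LinearMap.det_toLin', Matrix.det_transpose]
  have hfa : ∀ a, cmb (f a) Z = cmb a Z' := by
    intro a
    funext j
    have e0 : Z' 0 j = g0 0 * Z 0 j + g0 1 * Z 1 j := by rw [hg0]; rfl
    have e1 : Z' 1 j = g1 0 * Z 0 j + g1 1 * Z 1 j := by rw [hg1]; rfl
    simp only [cmb, hf, Matrix.toLin'_apply, Matrix.mulVec, dotProduct, Fin.sum_univ_two,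
      Matrix.transpose_apply, e0, e1]
    simp [hg]
    ring
  have hpre : f ⁻¹' (sub (FZ M x Z) 1) = sub (FZ M x Z') 1 := by
    ext a
    simp only [mem_preimage, sub, mem_ofPred_eq, FZ, hfa]
    constructor
    · rintro ⟨h1, h2⟩
      refine ⟨?_, h2⟩
      rintro rfl
      exact h1 (map_zero f)
    · rintro ⟨h1, h2⟩
      refine ⟨?_, h2⟩
      intro h3
      apply h1
      have hinj : Function.Injective f := by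
        have : IsUnit (LinearMap.det f) := by rw [hfdet]; exact isUnit_iff_ne_zero.2 hdet0
        exact (LinearEquiv.ofIsUnitDet (v := Pi.basisFun ℝ (Fin 2)) (v' := Pi.basisFun ℝ (Fin 2))
          (f := f) (by rw [LinearMap.det_toMatrix]; exact this)).injective
      apply hinj
      rw [h3, map_zero]
  have h1 := Measure.addHaar_preimage_linearMap (volume : Measure (Fin 2 → ℝ)) (f := f)
    (by rw [hfdet]; exact hdet0) (sub (FZ M x Z) 1)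
  rw [hpre, hfdet, abs_inv, hdet, inv_one, ENNReal.ofReal_one, one_mul] at h1
  rw [area, area, Measure.real, Measure.real, h1]

end Pool.Agent.Lib.MP_1acd66_nt.Tw
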