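import Pool.Agent.Lib.MP_1acd66_nt.Tw.Padic
import Pool.Agent.Lib.MP_1acd66_nt.Tw.Asym
import Pool.Agent.Lib.MP_1acd66_nt.Height

/-!
Rational points and primitive incident pairs.
-/

namespace Pool.Agent.Lib.MP_1acd66_nt.Tw

open Filter Topology

/-- integral vectors as rational ones -/
def toQ {n : ℕ} (x : Fin n → ℤ) : Fin n → ℚ := fun i => (x i : ℚ)

theorem toQ_injective {n : ℕ} : Function.Injective (toQ : (Fin n → ℤ) → _) := by
  intro x y h
  funext i
  have := congrFun h i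
  simpa [toQ] using this

theorem toQ_ne_zero {n : ℕ} {x : Fin n → ℤ} (hx : x ≠ 0) : toQ x ≠ 0 := by
  intro h
  apply hx
  apply toQ_injective
  rw [h]
  funext i
  simp [toQ]

theorem inc_toQ {x : Fin 3 → ℤ} {y : Fin 4 → ℤ} : Inc (toQ x) (toQ y) ↔ Inc x y := by
  unfold Inc toQ
  constructor
  · rintro ⟨h1, h2⟩
    exact ⟨by exact_mod_cast h1, by exact_mod_cast h2⟩
  · rintro ⟨h1, h2⟩
    exact ⟨by exact_mod_cast h1, by exact_mod_cast h2⟩

theorem qf_toQ (y : Fin 4 → ℤ) : qf (toQ y) = toQ (qf y) := by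
  funext i
  fin_cases i <;> simp [qf, toQ]

/-- primitive integral coordinates of a rational vector -/
theorem exists_prim_coord {n : ℕ} {x : Fin n → ℚ} (hx : x ≠ 0) :
    ∃ (z : Fin n → ℤ) (s : ℚ), Prim z ∧ s ≠ 0 ∧ x = s • toQ z := by
  set D : ℕ := ∏ j, (x j).den with hD
  have hdvd : ∀ j, (x j).den ∣ D := fun j =>
    Finset.dvd_prod_of_mem (fun j => (x j).den) (Finset.mem_univ j)
  have hpos : 0 < D := Finset.prod_pos fun j _ => (x j).den_pos
  choose e he using hdvd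
  set w : Fin n → ℤ := fun j => (x j).num * e j with hw
  have hDx : (D:ℚ) • x = toQ w := by
    funext j
    simp only [Pi.smul_apply, smul_eq_mul, toQ, hw]
    push_cast
    rw [he j]
    push_cast
    have h2 : x j * (x j).den = (x j).num := Rat.mul_den_eq_num _
    calc ((x j).den : ℚ) * (e j) * x j = (x j * (x j).den) * e j := by ring
      _ = _ := by rw [h2]
  have hD0 : (D:ℚ) ≠ 0 := by exact_mod_cast hpos.ne'
  have hw0 : w ≠ 0 := by
    intro h0
    apply hx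
    have h1 : toQ w = 0 := by rw [h0]; funext i; simp [toQ]
    rw [h1] at hDx
    exact (smul_eq_zero.1 hDx).resolve_left hD0
  obtain ⟨g, z, hg, hz, hwz⟩ := exists_prim hw0
  refine ⟨z, (D:ℚ)⁻¹ * g, hz, mul_ne_zero (inv_ne_zero hD0) (by exact_mod_cast hg.ne'), ?_⟩
  have h3 : x = (D:ℚ)⁻¹ • toQ w := by rw [← hDx, smul_smul, inv_mul_cancel₀ hD0, one_smul]
  rw [h3, hwz, mul_smul]
  congr 1
  funext i
  simp [toQ]

/-- primitive coordinates are unique up to sign -/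
theorem prim_unique {n : ℕ} {z w : Fin n → ℤ} (hz : Prim z) (hw : Prim w) {r : ℚ}
    (h : toQ w = r • toQ z) : w = z ∨ w = -z := by
  obtain ⟨a, ha⟩ := hz
  obtain ⟨b, hb⟩ := hw
  have hr : r = ((∑ i, a i * w i : ℤ) : ℚ) := by
    have h1 : ((∑ i, a i * w i : ℤ) : ℚ) = r * ((∑ i, a i * z i : ℤ) : ℚ) := by
      push_cast
      rw [Finset.mul_sum]
      refine Finset.sum_congr rfl fun i _ => ?_
      have := congrFun h i
      simp only [toQ, Pi.smul_apply, smul_eq_mul] at this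
      rw [this]; ring
    rw [h1, ha]; simp
  set m : ℤ := ∑ i, a i * w i with hm
  have hwm : w = m • z := by
    funext i
    have := congrFun h i
    simp only [toQ, Pi.smul_apply, smul_eq_mul, hr] at this ⊢
    exact_mod_cast this
  have hu : m * ∑ i, b i * z i = 1 := by
    rw [← hb, Finset.mul_sum]
    refine Finset.sum_congr rfl fun i _ => ?_
    rw [hwm]
    simp only [Pi.smul_apply, smul_eq_mul]; ring
  rcases Int.isUnit_iff.1 (IsUnit.of_mul_eq_one _ hu) with h1 | h1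
  · left; rw [hwm, h1, one_smul]
  · right; rw [hwm, h1, neg_one_smul]

/-- the finite part of the height -/
noncomputable def ffin (h : AdelicNorm) (S : Finset Nat.Primes) (x : Fin 3 → ℤ) (y : Fin 4 → ℤ) :
    ℝ := ∏ p ∈ S, h.fin p (toP (p:ℕ) x) (toP (p:ℕ) y)

theorem tame_ffin (h : AdelicNorm) (S : Finset Nat.Primes) :
    ∃ (s : ℕ) (f0 f1 : ℝ), Tame (ffin h S) s f0 f1 := by
  classical
  induction S using Finset.induction_on with
  | empty =>
    refine ⟨1, 1, 1, ?_⟩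
    have : ffin h ∅ = fun _ _ => (1:ℝ) := by
      funext x y; simp [ffin]
    rw [this]
    exact Tame.one
  | insert a T ha ih =>
    obtain ⟨s, f0, f1, hf⟩ := ih
    obtain ⟨g0, g1, hg⟩ := tame_local (a:ℕ) (h.isNorm_fin a)
    refine ⟨(a:ℕ) * s, g0 * f0, g1 * f1, ?_⟩
    have : ffin h (insert a T) = fun x y => h.fin a (toP (a:ℕ) x) (toP (a:ℕ) y) * ffin h T x y := by
      funext x y
      rw [ffin, Finset.prod_insert ha, ffin]
    rw [this]
    exact hg.mul hf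

theorem castK_toQ (p : ℕ) [Fact p.Prime] {n : ℕ} (x : Fin n → ℤ) :
    castK ℚ_[p] (toQ x) = toP p x := by
  funext i
  simp [castK, toQ, toP]

theorem castK_real {n : ℕ} (x : Fin n → ℤ) : castK ℝ (toQ x) = castv x := by
  funext i
  simp [castK, toQ, castv]

theorem castK_smul (K : Type*) [Field K] [CharZero K] {n : ℕ} (s : ℚ) (x : Fin n → ℚ) :
    castK K (s • x) = (s : K) • castK K x := by
  funext i
  simp [castK]

theorem toP_ne {p : ℕ} [Fact p.Prime] {n : ℕ} {x : Fin n → ℤ} (hx : Prim x) : toP p x ≠ 0 := by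
  intro h
  have h1 := norm_toP_eq p (hx.not_dvd (p := p) Fact.out)
  rw [h, norm_zero] at h1
  exact zero_ne_one h1

theorem loc_eq_one (h : AdelicNorm) {S : Finset Nat.Primes}
    (hS : ∀ p : Nat.Primes, p ∉ S → ∀ x y, x ≠ 0 → y ≠ 0 → Inc x y →
      h.fin p x y = ‖x‖ * ‖y‖ ^ 2) {x : Fin 3 → ℤ} {y : Fin 4 → ℤ} (hx : Prim x) (hy : Prim y)
    (hxy : Inc x y) {p : Nat.Primes} (hp : p ∉ S) : h.fin p (toP (p:ℕ) x) (toP (p:ℕ) y) = 1 := by
  rw [hS p hp _ _ (toP_ne hx) (toP_ne hy) (inc_toP (p:ℕ) hxy),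
    norm_toP_eq (p:ℕ) (hx.not_dvd p.2), norm_toP_eq (p:ℕ) (hy.not_dvd p.2)]
  norm_num

theorem finprod_loc (h : AdelicNorm) {S : Finset Nat.Primes}
    (hS : ∀ p : Nat.Primes, p ∉ S → ∀ x y, x ≠ 0 → y ≠ 0 → Inc x y →
      h.fin p x y = ‖x‖ * ‖y‖ ^ 2) {x : Fin 3 → ℤ} {y : Fin 4 → ℤ} (hx : Prim x) (hy : Prim y)
    (hxy : Inc x y) : ∏ᶠ p : Nat.Primes, h.fin p (toP (p:ℕ) x) (toP (p:ℕ) y) = ffin h S x y := by
  rw [ffin, finprod_eq_prod_of_mulSupport_subset]
  intro p hp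
  rw [Function.mem_mulSupport] at hp
  rw [Finset.mem_coe]
  by_contra hpS
  exact hp (loc_eq_one h hS hx hy hxy hpS)

/-- the height in terms of primitive coordinates -/
theorem height_prim (h : AdelicNorm) {S : Finset Nat.Primes}
    (hS : ∀ p : Nat.Primes, p ∉ S → ∀ x y, x ≠ 0 → y ≠ 0 → Inc x y →
      h.fin p x y = ‖x‖ * ‖y‖ ^ 2) {x : Fin 3 → ℤ} {y : Fin 4 → ℤ} (hx : Prim x) (hy : Prim y)
    (hxy : Inc x y) {s t : ℚ} (hs : s ≠ 0) (ht : t ≠ 0) :
    h.height (s • toQ x) (t • toQ y) = h.inf (castv x) (castv y) * ffin h S x y := by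
  unfold AdelicNorm.height
  have e0 : h.inf (castK ℝ (s • toQ x)) (castK ℝ (t • toQ y)) =
      ‖(s:ℝ)‖ * ‖(t:ℝ)‖ ^ 2 * h.inf (castv x) (castv y) := by
    rw [castK_smul, castK_smul, castK_real, castK_real]
    exact h.isNorm_inf.scale _ _ (castv_ne_zero hx.ne_zero) (castv_ne_zero hy.ne_zero)
      (inc_castv hxy) _ _ (by exact_mod_cast hs) (by exact_mod_cast ht)
  have e1 : ∀ p : Nat.Primes, h.fin p (castK ℚ_[(p : ℕ)] (s • toQ x))
      (castK ℚ_[(p : ℕ)] (t • toQ y)) = pn s p * (pn t p ^ 2 *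
        h.fin p (toP (p:ℕ) x) (toP (p:ℕ) y)) := by
    intro p
    rw [castK_smul, castK_smul, castK_toQ, castK_toQ, (h.isNorm_fin p).scale _ _ (toP_ne hx)
      (toP_ne hy) (inc_toP (p:ℕ) hxy) _ _ (by exact_mod_cast hs) (by exact_mod_cast ht)]
    simp only [pn]
    ring
  have f2 : Function.HasFiniteMulSupport (fun p => pn t p ^ 2) :=
    hasFinite_of_eventually (by
      filter_upwards [pn_eventually ht] with p hp
      rw [hp, one_pow])
  have hev : ∀ᶠ p : Nat.Primes in cofinite, h.fin p (toP (p:ℕ) x) (toP (p:ℕ) y) = 1 := by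
    have : ∀ᶠ p : Nat.Primes in cofinite, p ∉ S := by
      rw [Filter.eventually_cofinite]
      simp only [not_not]
      exact S.finite_toSet
    filter_upwards [this] with p hp
    exact loc_eq_one h hS hx hy hxy hp
  have f3 : Function.HasFiniteMulSupport
      (fun p : Nat.Primes => h.fin p (toP (p:ℕ) x) (toP (p:ℕ) y)) := hasFinite_of_eventually hev
  have f4 : Function.HasFiniteMulSupport
      (fun p : Nat.Primes => pn t p ^ 2 * h.fin p (toP (p:ℕ) x) (toP (p:ℕ) y)) :=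
    hasFinite_of_eventually (by
      filter_upwards [pn_eventually ht, hev] with p hp hx
      rw [hp, hx, one_pow, mul_one])
  have e3 : ∏ᶠ p : Nat.Primes, h.fin p (castK ℚ_[(p : ℕ)] (s • toQ x))
      (castK ℚ_[(p : ℕ)] (t • toQ y)) = (∏ᶠ p, pn s p) * ((∏ᶠ p, pn t p) ^ 2 * ffin h S x y) := by
    rw [finprod_congr e1, finprod_mul_distrib (pn_hasFinite hs) f4, finprod_mul_distrib f2 f3,
      finprod_pow (pn_hasFinite ht), finprod_loc h hS hx hy hxy]
  have p1 := product_formula hs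
  have p2 := product_formula ht
  rw [e0, e3]
  have e6 : ‖(s:ℝ)‖ * ‖(t:ℝ)‖ ^ 2 * h.inf (castv x) (castv y) *
      ((∏ᶠ p, pn s p) * ((∏ᶠ p, pn t p) ^ 2 * ffin h S x y)) =
      (‖(s:ℝ)‖ * ∏ᶠ p, pn s p) * (‖(t:ℝ)‖ * ∏ᶠ p, pn t p) ^ 2 *
        (h.inf (castv x) (castv y) * ffin h S x y) := by ring
  rw [e6, p1, p2, one_pow, one_mul, one_mul]

/-- pairs of rational points of the two projective spaces -/
abbrev PP := Projectivization ℚ (Fin 3 → ℚ) × Projectivization ℚ (Fin 4 → ℚ)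

theorem mk_eq_of_smul {n : ℕ} {x y : Fin n → ℚ} (hx : x ≠ 0) (hy : y ≠ 0) {s : ℚ} (hs : s ≠ 0)
    (h : x = s • y) : Projectivization.mk ℚ x hx = Projectivization.mk ℚ y hy := by
  rw [Projectivization.mk_eq_mk_iff]
  exact ⟨Units.mk0 s hs, h.symm⟩

/-- the point of an integral pair -/
theorem mem_countSet (h : AdelicNorm) {S : Finset Nat.Primes}
    (hS : ∀ p : Nat.Primes, p ∉ S → ∀ x y, x ≠ 0 → y ≠ 0 → Inc x y →
      h.fin p x y = ‖x‖ * ‖y‖ ^ 2) {B : ℝ} {P : PP} :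
    P ∈ countSet h B ↔ ∃ q : XY, q ∈ pairSet h.inf (ffin h S) B ∧ ∃ (h1 : toQ q.1 ≠ 0)
      (h2 : toQ q.2 ≠ 0), P = (Projectivization.mk ℚ (toQ q.1) h1,
        Projectivization.mk ℚ (toQ q.2) h2) := by
  constructor
  · rintro ⟨x, y, hx, hy, rfl, hxy, hq, hle⟩
    obtain ⟨z, s, hz, hs, rfl⟩ := exists_prim_coord hx
    obtain ⟨w, t, hw, ht, rfl⟩ := exists_prim_coord hy
    have hzw : Inc z w := by
      have h1 := hxy.smul s⁻¹ t⁻¹
      rw [smul_smul, smul_smul, inv_mul_cancel₀ hs, inv_mul_cancel₀ ht, one_smul, one_smul] at h1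
      exact inc_toQ.1 h1
    refine ⟨(z, w), ⟨hz, hw, hzw, ?_, ?_⟩, toQ_ne_zero hz.ne_zero, toQ_ne_zero hw.ne_zero, ?_⟩
    · simp only
      intro h0
      apply hq
      rw [qf_smul, qf_toQ, h0]
      funext i
      simp [toQ]
    · simp only
      rw [← height_prim h hS hz hw hzw hs ht]
      exact hle
    · exact Prod.ext (mk_eq_of_smul _ _ hs rfl) (mk_eq_of_smul _ _ ht rfl)
  · rintro ⟨⟨x, y⟩, ⟨a1, a2, a3, a4, a5⟩, h1, h2, rfl⟩
    simp only at a1 a2 a3 a4 a5 h1 h2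
    refine ⟨toQ x, toQ y, h1, h2, rfl, inc_toQ.2 a3, ?_, ?_⟩
    · rw [qf_toQ]; exact toQ_ne_zero a4
    · have := height_prim h hS a1 a2 a3 (s := 1) (t := 1) one_ne_zero one_ne_zero
      rw [one_smul, one_smul] at this
      rw [this]
      exact a5

/-- signs -/
def sg (b : Bool) : ℤ := if b then 1 else -1

theorem sg_inj {n : ℕ} {x : Fin n → ℤ} (hx : x ≠ 0) {b c : Bool} (h : sg b • x = sg c • x) :
    b = c := by
  have h1 : (sg b - sg c) • x = 0 := by rw [sub_smul, h, sub_self]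
  have h2 := (smul_eq_zero.1 h1).resolve_right hx
  clear h h1 hx
  revert h2
  cases b <;> cases c <;> simp [sg]

theorem sg_of_pm {n : ℕ} {x z : Fin n → ℤ} (h : x = z ∨ x = -z) : ∃ b, x = sg b • z := by
  rcases h with h | h
  · exact ⟨true, by rw [h]; simp [sg]⟩
  · exact ⟨false, by rw [h]; simp [sg]⟩

theorem Prim.sg {n : ℕ} {x : Fin n → ℤ} (h : Prim x) (b : Bool) : Prim (sg b • x) := by
  cases b
  · have : Tw.sg false • x = -x := by simp [Tw.sg]
    rw [this]; exact h.neg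
  · have : Tw.sg true • x = x := by simp [Tw.sg]
    rw [this]; exact h

theorem ncard_pair_eq (h : AdelicNorm) {S : Finset Nat.Primes}
    (hS : ∀ p : Nat.Primes, p ∉ S → ∀ x y, x ≠ 0 → y ≠ 0 → Inc x y →
      h.fin p x y = ‖x‖ * ‖y‖ ^ 2) {B : ℝ} (hfin : (pairSet h.inf (ffin h S) B).Finite) :
    (countSet h B).Finite ∧ (pairSet h.inf (ffin h S) B).ncard = 4 * (countSet h B).ncard := by
  classical
  have hch : ∀ P : PP, ∃ q : XY, P ∈ countSet h B → q ∈ pairSet h.inf (ffin h S) B ∧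
      ∃ (h1 : toQ q.1 ≠ 0) (h2 : toQ q.2 ≠ 0), P = (Projectivization.mk ℚ (toQ q.1) h1,
        Projectivization.mk ℚ (toQ q.2) h2) := by
    intro P
    by_cases hP : P ∈ countSet h B
    · obtain ⟨q, hq⟩ := (mem_countSet h hS).1 hP
      exact ⟨q, fun _ => hq⟩
    · exact ⟨0, fun h => absurd h hP⟩
  choose σ hσ using hch
  have hheight : ∀ x y : XY, Prim x.1 → Prim x.2 → Inc x.1 x.2 → ∀ b c : Bool,
      y = (sg b • x.1, sg c • x.2) → h.inf (castv y.1) (castv y.2) * ffin h S y.1 y.2 =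
        h.inf (castv x.1) (castv x.2) * ffin h S x.1 x.2 := by
    intro x y hx1 hx2 hx3 b c hy
    have hsb : (sg b : ℚ) ≠ 0 := by cases b <;> simp [sg]
    have hsc : (sg c : ℚ) ≠ 0 := by cases c <;> simp [sg]
    rw [← height_prim h hS hx1 hx2 hx3 hsb hsc, hy]
    have e1 : (sg b : ℚ) • toQ x.1 = toQ (sg b • x.1) := by
      funext i; simp [toQ]
    have e2 : (sg c : ℚ) • toQ x.2 = toQ (sg c • x.2) := by
      funext i; simp [toQ]
    rw [e1, e2]
    have := height_prim h hS (hx1.sg b) (hx2.sg c) (hx3.smul (sg b) (sg c)) (s := 1) (t := 1)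
      one_ne_zero one_ne_zero
    rw [one_smul, one_smul] at this
    rw [this]
  have himage : pairSet h.inf (ffin h S) B =
      (fun a : PP × (Bool × Bool) => ((sg a.2.1 • (σ a.1).1, sg a.2.2 • (σ a.1).2) : XY)) ''
        (countSet h B ×ˢ Set.univ) := by
    ext q
    constructor
    · intro hq
      have hq' := hq
      obtain ⟨a1, a2, a3, a4, a5⟩ := hq'
      set P : PP := (Projectivization.mk ℚ (toQ q.1) (toQ_ne_zero a1.ne_zero),
        Projectivization.mk ℚ (toQ q.2) (toQ_ne_zero a2.ne_zero)) with hP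
      have hPm : P ∈ countSet h B := (mem_countSet h hS).2 ⟨q, hq, _, _, rfl⟩
      obtain ⟨⟨b1, b2, b3, b4, b5⟩, h1, h2, h3⟩ := hσ P hPm
      have e1 : Projectivization.mk ℚ (toQ q.1) (toQ_ne_zero a1.ne_zero) =
          Projectivization.mk ℚ (toQ (σ P).1) h1 := congrArg Prod.fst h3
      have e2 : Projectivization.mk ℚ (toQ q.2) (toQ_ne_zero a2.ne_zero) =
          Projectivization.mk ℚ (toQ (σ P).2) h2 := congrArg Prod.snd h3
      rw [Projectivization.mk_eq_mk_iff] at e1 e2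
      obtain ⟨u, hu⟩ := e1
      obtain ⟨v, hv⟩ := e2
      obtain ⟨b, hb⟩ := sg_of_pm (prim_unique b1 a1 (r := (u:ℚ)) hu.symm)
      obtain ⟨c, hc⟩ := sg_of_pm (prim_unique b2 a2 (r := (v:ℚ)) hv.symm)
      exact ⟨(P, (b, c)), ⟨hPm, Set.mem_univ _⟩, Prod.ext hb.symm hc.symm⟩
    · rintro ⟨⟨P, b, c⟩, ⟨hP, _⟩, rfl⟩
      obtain ⟨⟨b1, b2, b3, b4, b5⟩, h1, h2, h3⟩ := hσ P hP
      refine ⟨b1.sg b, b2.sg c, b3.smul _ _, ?_, ?_⟩
      · simp only
        rw [qf_smul]
        refine smul_ne_zero ?_ b4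
        cases c <;> simp [sg]
      · rw [hheight (σ P) _ b1 b2 b3 b c rfl]
        exact b5
  have hinj : Set.InjOn
      (fun a : PP × (Bool × Bool) => ((sg a.2.1 • (σ a.1).1, sg a.2.2 • (σ a.1).2) : XY))
      (countSet h B ×ˢ Set.univ) := by
    rintro ⟨P, b, c⟩ ⟨hP, _⟩ ⟨P', b', c'⟩ ⟨hP', _⟩ he
    simp only at he hP hP'
    obtain ⟨e1, e2⟩ := Prod.mk.inj he
    obtain ⟨⟨b1, b2, b3, b4, b5⟩, h1, h2, h3⟩ := hσ P hP
    obtain ⟨⟨b1', b2', b3', b4', b5'⟩, h1', h2', h3'⟩ := hσ P' hP'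
    have hPP : P = P' := by
      rw [h3, h3']
      have key : ∀ {n : ℕ} {x z : Fin n → ℤ} (hx : toQ x ≠ 0) (hz : toQ z ≠ 0) (b b' : Bool),
          sg b • x = sg b' • z →
          Projectivization.mk ℚ (toQ x) hx = Projectivization.mk ℚ (toQ z) hz := by
        intro n x z hx hz b b' hxz
        refine mk_eq_of_smul (s := (sg b : ℚ) * (sg b' : ℚ)) _ _ ?_ ?_
        · cases b <;> cases b' <;> simp [sg]
        · funext i
          have h4 : ((sg b : ℤ) : ℚ) * (x i : ℚ) = (sg b' : ℚ) * (z i : ℚ) := by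
            have := congrFun hxz i
            simp only [Pi.smul_apply, smul_eq_mul] at this
            exact_mod_cast this
          have h5 : ((sg b : ℤ) : ℚ) * ((sg b : ℤ) : ℚ) = 1 := by cases b <;> simp [sg]
          simp only [toQ, Pi.smul_apply, smul_eq_mul]
          linear_combination (-(x i : ℚ)) * h5 + (sg b : ℚ) * h4
      exact Prod.ext (key h1 h1' b b' e1) (key h2 h2' c c' e2)
    subst hPP
    rw [sg_inj b1.ne_zero e1, sg_inj b2.ne_zero e2]
  have hcfin : (countSet h B).Finite := by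
    have h1 : ((fun a : PP × (Bool × Bool) =>
        ((sg a.2.1 • (σ a.1).1, sg a.2.2 • (σ a.1).2) : XY)) ''
        (countSet h B ×ˢ Set.univ)).Finite := by rw [← himage]; exact hfin
    have h2 := Set.Finite.of_finite_image h1 hinj
    have h3 : countSet h B = Prod.fst '' (countSet h B ×ˢ (Set.univ : Set (Bool × Bool))) := by
      rw [Set.fst_image_prod _ Set.univ_nonempty]
    rw [h3]
    exact h2.image _
  refine ⟨hcfin, ?_⟩
  rw [himage, hinj.ncard_image, Set.ncard_prod, Set.ncard_univ]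
  have : Nat.card (Bool × Bool) = 4 := by simp
  rw [this, mul_comm]

/-- the theorem -/
theorem main (h : AdelicNorm) :
    (∀ B : ℝ, (countSet h B).Finite) ∧ ∃ c : ℝ, 0 < c ∧
      Tendsto (fun B : ℝ => ((countSet h B).ncard : ℝ) / (B * Real.log B)) atTop (𝓝 c) := by
  obtain ⟨S, hS⟩ := h.almost
  obtain ⟨s, f0, f1, hf⟩ := tame_ffin h S
  obtain ⟨hfin, c, hc, hlim⟩ := pairs_asym h.isNorm_inf hf hf.le
  refine ⟨fun B => (ncard_pair_eq h hS (hfin B)).1, c / 4, by positivity, ?_⟩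
  refine (hlim.div_const 4).congr fun B => ?_
  rw [(ncard_pair_eq h hS (hfin B)).2]
  push_cast
  ring

end Pool.Agent.Lib.MP_1acd66_nt.Tw
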