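import Pool.Agent.Lib.MP_1acd66_nt.Tw.Cone
import Pool.Agent.Lib.MP_1acd66_nt.Tiling

/-!
Local norms on the anticanonical bundle; bounds and moduli at the real place.
-/

namespace Pool.Agent.Lib.MP_1acd66_nt.Tw

open Metric Set

/-- pairs of real vectors -/
abbrev XYR := (Fin 3 → ℝ) × (Fin 4 → ℝ)

theorem isClosed_inc : IsClosed {q : XYR | Inc q.1 q.2} := by
  unfold Inc
  apply IsClosed.inter
  · exact isClosed_eq (by fun_prop) continuous_const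
  · exact isClosed_eq (by fun_prop) continuous_const

/-- the closed shell -/
def shell : Set XYR := {q | 1 / 2 ≤ ‖q.1‖ ∧ ‖q.1‖ ≤ 2 ∧ 1 / 2 ≤ ‖q.2‖ ∧ ‖q.2‖ ≤ 2 ∧ Inc q.1 q.2}

theorem isCompact_shell : IsCompact shell := by
  have h1 : IsCompact (closedBall (0 : Fin 3 → ℝ) 2 ×ˢ closedBall (0 : Fin 4 → ℝ) 2) :=
    (isCompact_closedBall 0 2).prod (isCompact_closedBall 0 2)
  refine h1.of_isClosed_subset ?_ ?_
  · have : shell = {q : XYR | 1 / 2 ≤ ‖q.1‖} ∩ ({q : XYR | ‖q.1‖ ≤ 2} ∩ ({q : XYR | 1 / 2 ≤ ‖q.2‖} ∩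
        ({q : XYR | ‖q.2‖ ≤ 2} ∩ {q : XYR | Inc q.1 q.2}))) := by
      ext q; simp [shell]
    rw [this]
    exact (isClosed_le continuous_const (by fun_prop)).inter
      ((isClosed_le (by fun_prop) continuous_const).inter
        ((isClosed_le continuous_const (by fun_prop)).inter
          ((isClosed_le (by fun_prop) continuous_const).inter isClosed_inc)))
  · rintro q ⟨_, h2, _, h4, _⟩
    exact ⟨by rwa [mem_closedBall_zero_iff], by rwa [mem_closedBall_zero_iff]⟩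

theorem shell_subset : shell ⊆ {q : XYR | q.1 ≠ 0 ∧ q.2 ≠ 0 ∧ Inc q.1 q.2} := by
  rintro ⟨x, y⟩ ⟨h1, _, h3, _, h5⟩
  refine ⟨?_, ?_, h5⟩
  · rintro rfl
    simp only [norm_zero] at h1
    norm_num at h1
  · rintro rfl
    simp only [norm_zero] at h3
    norm_num at h3

variable {M : (Fin 3 → ℝ) → (Fin 4 → ℝ) → ℝ}

theorem IsLocalNorm.hom (hM : IsLocalNorm ℝ M) {x : Fin 3 → ℝ} {y : Fin 4 → ℝ} (hx : x ≠ 0)
    (hy : y ≠ 0) (h : Inc x y) {s t : ℝ} (hs : 0 < s) (ht : 0 < t) :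
    M (s • x) (t • y) = s * t ^ 2 * M x y := by
  rw [hM.scale x y hx hy h s t hs.ne' ht.ne', Real.norm_eq_abs, Real.norm_eq_abs, abs_of_pos hs,
    abs_of_pos ht]

/-- reduction to unit vectors -/
theorem IsLocalNorm.unit (hM : IsLocalNorm ℝ M) {x : Fin 3 → ℝ} {y : Fin 4 → ℝ} (hx : x ≠ 0)
    (hy : y ≠ 0) (h : Inc x y) :
    M x y = ‖x‖ * ‖y‖ ^ 2 * M (‖x‖⁻¹ • x) (‖y‖⁻¹ • y) := by
  have hxn : 0 < ‖x‖ := norm_pos_iff.2 hx
  have hyn : 0 < ‖y‖ := norm_pos_iff.2 hy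
  rw [hM.hom hx hy h (inv_pos.2 hxn) (inv_pos.2 hyn)]
  field_simp

theorem IsLocalNorm.bound (hM : IsLocalNorm ℝ M) :
    ∃ c C : ℝ, 0 < c ∧ 0 < C ∧ ∀ x y, x ≠ 0 → y ≠ 0 → Inc x y →
      c * (‖x‖ * ‖y‖ ^ 2) ≤ M x y ∧ M x y ≤ C * (‖x‖ * ‖y‖ ^ 2) := by
  have hcont := hM.cont.mono shell_subset
  have key : ∀ c C : ℝ, (∀ q ∈ shell, c ≤ M q.1 q.2 ∧ M q.1 q.2 ≤ C) → ∀ x y, x ≠ 0 → y ≠ 0 →
      Inc x y → c * (‖x‖ * ‖y‖ ^ 2) ≤ M x y ∧ M x y ≤ C * (‖x‖ * ‖y‖ ^ 2) := by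
    intro c C H x y hx hy h
    have hxn : 0 < ‖x‖ := norm_pos_iff.2 hx
    have hyn : 0 < ‖y‖ := norm_pos_iff.2 hy
    have h1 : ‖(‖x‖⁻¹ • x)‖ = 1 := by
      rw [norm_smul, norm_inv, norm_norm, inv_mul_cancel₀ hxn.ne']
    have h2 : ‖(‖y‖⁻¹ • y)‖ = 1 := by
      rw [norm_smul, norm_inv, norm_norm, inv_mul_cancel₀ hyn.ne']
    obtain ⟨a1, a2⟩ := H (‖x‖⁻¹ • x, ‖y‖⁻¹ • y) ⟨by rw [h1]; norm_num, by rw [h1]; norm_num,
      by rw [h2]; norm_num, by rw [h2]; norm_num, h.smul _ _⟩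
    rw [hM.unit hx hy h]
    constructor
    · rw [mul_comm]; exact mul_le_mul_of_nonneg_left a1 (by positivity)
    · rw [mul_comm C]; exact mul_le_mul_of_nonneg_left a2 (by positivity)
  have hne : shell.Nonempty := by
    refine ⟨(![1, 0, 0], ![0, 0, 1, 0]), ?_, ?_, ?_, ?_, ?_⟩
    all_goals simp [Pi.norm_def, Fin.univ_succ, Inc]
    all_goals norm_num
  obtain ⟨p, hp, hmin⟩ := isCompact_shell.exists_isMinOn hne hcont
  obtain ⟨q, hq, hmax⟩ := isCompact_shell.exists_isMaxOn hne hcont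
  have hpos : ∀ r ∈ shell, 0 < M r.1 r.2 := by
    intro r hr
    obtain ⟨a, b, c⟩ := shell_subset hr
    exact hM.pos _ _ a b c
  exact ⟨M p.1 p.2, M q.1 q.2, hpos p hp, hpos q hq, key _ _ fun r hr => ⟨hmin hr, hmax hr⟩⟩

/-- uniform continuity, multiplicative version -/
theorem IsLocalNorm.modulus (hM : IsLocalNorm ℝ M) {ε : ℝ} (hε : 0 < ε) :
    ∃ δ : ℝ, 0 < δ ∧ δ ≤ 1 / 2 ∧ ∀ x x' y y', x ≠ 0 → y ≠ 0 → Inc x y → Inc x' y' →
      ‖x' - x‖ ≤ δ * ‖x‖ → ‖y' - y‖ ≤ δ * ‖y‖ →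
      x' ≠ 0 ∧ y' ≠ 0 ∧ M x' y' ≤ (1 + ε) * M x y ∧ M x y ≤ (1 + ε) * M x' y' := by
  obtain ⟨c, C, hc, hC, hb⟩ := hM.bound
  have huc := isCompact_shell.uniformContinuousOn_of_continuous (hM.cont.mono shell_subset)
  rw [Metric.uniformContinuousOn_iff] at huc
  set c' := c * (1 / 8) with hc'
  have hc'pos : 0 < c' := by positivity
  obtain ⟨δ, hδ, H⟩ := huc (ε * c') (by positivity)
  refine ⟨min (δ / 2) (1 / 2), by positivity, min_le_right _ _, ?_⟩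
  intro x x' y y' hx hy hxy hxy' hdx hdy
  have hδ1 : min (δ / 2) (1 / 2) ≤ 1 / 2 := min_le_right _ _
  have hδ2 : min (δ / 2) (1 / 2) ≤ δ / 2 := min_le_left _ _
  have hxn : 0 < ‖x‖ := norm_pos_iff.2 hx
  have hyn : 0 < ‖y‖ := norm_pos_iff.2 hy
  have gen : ∀ {E : Type} [NormedAddCommGroup E] [NormedSpace ℝ E] (u u' : E), u ≠ 0 →
      ‖u' - u‖ ≤ min (δ / 2) (1 / 2) * ‖u‖ → u' ≠ 0 ∧ ‖(‖u‖⁻¹ • u)‖ = 1 ∧
        1 / 2 ≤ ‖(‖u‖⁻¹ • u')‖ ∧ ‖(‖u‖⁻¹ • u')‖ ≤ 2 ∧ ‖(‖u‖⁻¹ • u') - (‖u‖⁻¹ • u)‖ ≤ δ / 2 := by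
    intro E _ _ u u' hu hd
    have hn : 0 < ‖u‖ := norm_pos_iff.2 hu
    have h0 : u' ≠ 0 := by
      rintro rfl
      rw [zero_sub, norm_neg] at hd
      nlinarith
    set s := ‖u‖⁻¹ with hs
    have hspos : 0 < s := inv_pos.2 hn
    have h1 : ‖s • u‖ = 1 := by
      rw [norm_smul, Real.norm_eq_abs, abs_of_pos hspos, hs, inv_mul_cancel₀ hn.ne']
    have h2 : ‖s • u' - s • u‖ ≤ min (δ / 2) (1 / 2) := by
      rw [← smul_sub, norm_smul, Real.norm_eq_abs, abs_of_pos hspos, hs, inv_mul_le_iff₀ hn]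
      linarith
    refine ⟨h0, h1, ?_, ?_, h2.trans hδ2⟩
    · have : ‖s • u‖ ≤ ‖s • u'‖ + ‖s • u' - s • u‖ := by
        calc ‖s • u‖ = ‖s • u' - (s • u' - s • u)‖ := by congr 1; abel
          _ ≤ _ := norm_sub_le _ _
      linarith
    · have : ‖s • u'‖ ≤ ‖s • u‖ + ‖s • u' - s • u‖ := by
        calc ‖s • u'‖ = ‖s • u + (s • u' - s • u)‖ := by congr 1; abel
          _ ≤ _ := norm_add_le _ _
      linarith
  obtain ⟨x0, x1, x2, x3, x4⟩ := gen x x' hx hdx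
  obtain ⟨y0, y1, y2, y3, y4⟩ := gen y y' hy hdy
  set s := ‖x‖⁻¹ with hs
  set t := ‖y‖⁻¹ with ht
  have hsp : 0 < s := inv_pos.2 hxn
  have htp : 0 < t := inv_pos.2 hyn
  have m1 : ((s • x, t • y) : XYR) ∈ shell :=
    ⟨by rw [x1]; norm_num, by rw [x1]; norm_num, by rw [y1]; norm_num, by rw [y1]; norm_num,
      hxy.smul _ _⟩
  have m2 : ((s • x', t • y') : XYR) ∈ shell := ⟨x2, x3, y2, y3, hxy'.smul _ _⟩
  have h3 := H _ m2 _ m1 (by
    rw [Prod.dist_eq, max_lt_iff]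
    refine ⟨?_, ?_⟩
    · rw [dist_eq_norm]
      simp only
      linarith
    · rw [dist_eq_norm]
      simp only
      linarith)
  rw [Real.dist_eq] at h3
  simp only at h3
  have p1 : c' ≤ M (s • x) (t • y) := by
    refine le_trans ?_ (hb _ _ (smul_ne_zero hsp.ne' hx) (smul_ne_zero htp.ne' hy) (hxy.smul _ _)).1
    rw [hc', x1, y1]
    nlinarith
  have p2 : c' ≤ M (s • x') (t • y') := by
    refine le_trans ?_ (hb _ _ (smul_ne_zero hsp.ne' x0) (smul_ne_zero htp.ne' y0) (hxy'.smul _ _)).1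
    rw [hc']
    apply mul_le_mul_of_nonneg_left _ hc.le
    have : (1:ℝ) / 4 ≤ ‖t • y'‖ ^ 2 := by nlinarith
    nlinarith
  have e1 := hM.hom hx hy hxy hsp htp
  have e2 := hM.hom x0 y0 hxy' hsp htp
  rw [abs_lt] at h3
  have hstp : 0 < s * t ^ 2 := by positivity
  have q1 : M (s • x') (t • y') ≤ (1 + ε) * M (s • x) (t • y) := by nlinarith [h3.2]
  have q2 : M (s • x) (t • y) ≤ (1 + ε) * M (s • x') (t • y') := by nlinarith [h3.1]
  refine ⟨x0, y0, ?_, ?_⟩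
  · rw [e1, e2] at q1
    have : s * t ^ 2 * M x' y' ≤ s * t ^ 2 * ((1 + ε) * M x y) := by linarith
    exact le_of_mul_le_mul_left this hstp
  · rw [e1, e2] at q2
    have : s * t ^ 2 * M x y ≤ s * t ^ 2 * ((1 + ε) * M x' y') := by linarith
    exact le_of_mul_le_mul_left this hstp

/-- integral vectors as real vectors -/
def castv {n : ℕ} (x : Fin n → ℤ) : Fin n → ℝ := fun i => (x i : ℝ)

theorem norm_castv {n : ℕ} (x : Fin n → ℤ) : ‖castv x‖ = nrm x := rfl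

theorem castv_injective {n : ℕ} : Function.Injective (castv (n := n)) := by
  intro x y h
  funext i
  have := congrFun h i
  simp only [castv] at this
  exact_mod_cast this

theorem castv_ne_zero {n : ℕ} {x : Fin n → ℤ} (hx : x ≠ 0) : castv x ≠ 0 := by
  intro h
  apply hx
  apply castv_injective
  rw [h]
  funext i
  simp [castv]

theorem inc_castv {x : Fin 3 → ℤ} {y : Fin 4 → ℤ} (h : Inc x y) : Inc (castv x) (castv y) := by
  obtain ⟨h1, h2⟩ := h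
  constructor
  · simp only [castv]; exact_mod_cast h1
  · simp only [castv]; exact_mod_cast h2

theorem qf_castv (y : Fin 4 → ℤ) : qf (castv y) = castv (qf y) := by
  funext i
  fin_cases i <;> simp [qf, castv]

end Pool.Agent.Lib.MP_1acd66_nt.Tw
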