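import Pool.Agent.Lib.MP_1acd66_nt.Tw.LowA

/-!
Asymptotics for the pairs with large first vector.
-/

namespace Pool.Agent.Lib.MP_1acd66_nt.Tw

open Finset

variable {M : (Fin 3 → ℝ) → (Fin 4 → ℝ) → ℝ} {f : (Fin 3 → ℤ) → (Fin 4 → ℤ) → ℝ}

theorem regA_upper (hM : IsLocalNorm ℝ M) {S : ℕ} {f0 f1 : ℝ} (hf : Tame f S f0 f1) :
    ∃ CU : ℝ, 0 < CU ∧ ∀ R : ℝ, 1 ≤ R → (regA M f (R ^ 3) R).Finite ∧
      ((regA M f (R ^ 3) R).ncard : ℝ) ≤ CU * (R ^ 3 * (1 + Real.log R)) := by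
  obtain ⟨c0, C', hc0, hC', hb'⟩ := hM.bound
  have hb : ∀ x y, x ≠ 0 → y ≠ 0 → Inc x y → c0 * (‖x‖ * ‖y‖ ^ 2) ≤ M x y :=
    fun x y hx hy h => (hb' x y hx hy h).1
  have hf0 := hf.pos
  have hC := coneC_pos (Real.sqrt_nonneg (1 / (c0 * f0)))
  have hlog : 0 ≤ Real.log (max 1 (2 * (1 / (c0 * f0)))) := Real.log_nonneg (le_max_left _ _)
  refine ⟨2 * (coneC (√(1 / (c0 * f0))) * (1 / (c0 * f0)) *
    (1 + Real.log (max 1 (2 * (1 / (c0 * f0)))))), by positivity, ?_⟩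
  intro R hR
  have hR0 : 0 < R := by linarith
  have hL : 0 ≤ Real.log R := Real.log_nonneg hR
  obtain ⟨h1, h2⟩ := ncard_regA hM hf (R ^ 3) R (YA_finite hc0 hb hf hR)
  refine ⟨h1, ?_⟩
  rw [h2]
  push_cast
  have h3 := YA_card_le hc0 hb hf hR
  have h4 : R ^ 3 * (1 + Real.log (max 1 (2 * (1 / (c0 * f0)))) + Real.log R) ≤
      (1 + Real.log (max 1 (2 * (1 / (c0 * f0))))) * (R ^ 3 * (1 + Real.log R)) := by
    have : 0 ≤ Real.log (max 1 (2 * (1 / (c0 * f0)))) * (R ^ 3 * Real.log R) := by positivity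
    nlinarith
  calc 2 * ((YA M f (R ^ 3) R).ncard : ℝ)
      ≤ 2 * (coneC (√(1 / (c0 * f0))) * (1 / (c0 * f0)) *
        (R ^ 3 * (1 + Real.log (max 1 (2 * (1 / (c0 * f0)))) + Real.log R))) := by gcongr
    _ ≤ 2 * (coneC (√(1 / (c0 * f0))) * (1 / (c0 * f0)) *
        ((1 + Real.log (max 1 (2 * (1 / (c0 * f0))))) * (R ^ 3 * (1 + Real.log R)))) := by gcongr
    _ = _ := by ring

theorem regA_est (hM : IsLocalNorm ℝ M) {S : ℕ} {f0 f1 : ℝ} (hf : Tame f S f0 f1)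
    (h01 : f0 ≤ f1) {ε : ℝ} (hε : 0 < ε) (hε1 : ε ≤ 1) :
    ∃ κ : ℝ, 0 ≤ κ ∧ ∃ K : ℝ, 0 < K ∧ ∀ R : ℝ, 1 ≤ R →
      κ * (1 - ε) / (1 + ε) * (R ^ 3 * Real.log R) - ε * (R ^ 3 * (1 + Real.log R)) -
        K * R ^ 3 ≤ ((regA M f (R ^ 3) R).ncard : ℝ) ∧
      ((regA M f (R ^ 3) R).ncard : ℝ) ≤ (1 + ε) * κ * (R ^ 3 * Real.log R) +
        ε * (R ^ 3 * (1 + Real.log R)) + K * R ^ 3 := by
  classical
  obtain ⟨c0, C', hc0, hC', hb'⟩ := hM.bound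
  have hb : ∀ x y, x ≠ 0 → y ≠ 0 → Inc x y → c0 * (‖x‖ * ‖y‖ ^ 2) ≤ M x y :=
    fun x y hx hy h => (hb' x y hx hy h).1
  have hf0 := hf.pos
  have hf1 : 0 < f1 := lt_of_lt_of_le hf0 h01
  have hC := coneC_pos (Real.sqrt_nonneg (1 / (c0 * f0)))
  have hlog : 0 ≤ Real.log (max 1 (2 * (1 / (c0 * f0)))) := Real.log_nonneg (le_max_left _ _)
  set Z1 := 1 / (c0 * f0) with hZ1
  have hZ1p : 0 < Z1 := by positivity
  obtain ⟨Cb, hCb, hbigA⟩ := bigA hZ1p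
  -- parameters
  set X := coneC (√Z1) * Z1 ^ 2 * f1 with hX
  have hXp : 0 < X := by positivity
  set T := max 1 (8 * X / ε) with hT
  have hT1 : 1 ≤ T := le_max_left _ _
  have hTp : 0 < T := by linarith
  have hXT : X / T ^ 4 ≤ ε / 8 := by
    have h1 : 8 * X / ε ≤ T := le_max_right _ _
    have h2 : T ≤ T ^ 4 := le_self_pow₀ hT1 (by norm_num)
    rw [div_le_iff₀ (by positivity)]
    rw [div_le_iff₀ hε] at h1
    nlinarith
  set δ := min (1 / 4) (ε / (16 * Cb)) with hδ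
  have hδp : 0 < δ := lt_min (by norm_num) (by positivity)
  have hδ4 : δ ≤ 1 / 4 := min_le_left _ _
  have hδC : Cb * δ ≤ ε / 16 := by
    have h1 : δ ≤ ε / (16 * Cb) := min_le_right _ _
    calc Cb * δ ≤ Cb * (ε / (16 * Cb)) := by gcongr
      _ = ε / 16 := by field_simp
  obtain ⟨P, hP⟩ := exists_nat_ge (2 + 2 / ε + 16 * Cb / ε)
  have hP2' : (2:ℝ) ≤ P := by
    have : 0 ≤ 2 / ε := by positivity
    have : 0 ≤ 16 * Cb / ε := by positivity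
    linarith
  have hPp : (0:ℝ) < P := by linarith
  have hP2 : 2 ≤ P := by exact_mod_cast hP2'
  have hPe : 2 / (P:ℝ) ≤ ε := by
    have h1 : 2 / ε ≤ P := by
      have : 0 ≤ 16 * Cb / ε := by positivity
      linarith
    rw [div_le_iff₀ hε] at h1
    rw [div_le_iff₀ hPp]; linarith
  have hPC : Cb * (1 / (P:ℝ)) ≤ ε / 16 := by
    have h1 : 16 * Cb / ε ≤ P := by
      have : 0 ≤ 2 / ε := by positivity
      linarith
    rw [div_le_iff₀ hε] at h1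
    rw [mul_one_div, div_le_iff₀ hPp]; linarith
  obtain ⟨q0, hq0, hSq0, hcls⟩ := hf.exists_approx h01 hε
  set q := q0 * (P + 2).factorial with hq
  have hqpos : 0 < q := Nat.mul_pos hq0 (Nat.factorial_pos _)
  have hPq : ∀ p : ℕ, p.Prime → p < P → p ∣ q := by
    intro p hp hpP
    exact Dvd.dvd.mul_left ((Nat.dvd_factorial hp.pos (by omega))) _
  obtain ⟨g, hg⟩ := hcls q hqpos (Dvd.intro _ rfl)
  have hSq : S ∣ q := hSq0.trans (Dvd.intro _ rfl)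
  obtain ⟨k0, hk0⟩ := exists_pow_lt_of_lt_one
    (show 0 < ε / (8 * (coneC (√Z1) * Z1 * q.primeFactors.card + 1)) by positivity)
    (show (1 / 2 : ℝ) < 1 by norm_num)
  set k := k0 + 1 with hk
  have hkk : coneC (√Z1) * Z1 * q.primeFactors.card * (1 / 2 ^ (k - 1)) ≤ ε / 8 := by
    have h1 : (1:ℝ) / 2 ^ (k - 1) = (1 / 2) ^ k0 := by
      rw [hk, Nat.add_sub_cancel, one_div_pow]
    rw [h1]
    have h2 : 0 ≤ coneC (√Z1) * Z1 * q.primeFactors.card := by positivity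
    calc coneC (√Z1) * Z1 * q.primeFactors.card * (1 / 2) ^ k0
        ≤ (coneC (√Z1) * Z1 * q.primeFactors.card + 1) *
          (ε / (8 * (coneC (√Z1) * Z1 * q.primeFactors.card + 1))) := by
          apply mul_le_mul (by linarith) hk0.le (by positivity) (by positivity)
      _ = ε / 8 := by field_simp
  have hQ : 0 < q ^ k := pow_pos hqpos k
  obtain ⟨K1, hK1, hmain⟩ := main_sumA hM hTp hf0 hg.1 (Q := q ^ k) hqpos hQ
    (fun p hp h => hp.dvd_of_dvd_pow h) hP2 hPq (ε := ε / 8) (by positivity)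
  set κ := KA M T g q (q ^ k) with hκ
  have hκ0 : 0 ≤ κ := KA_nonneg hf0 hg.1
  set A : ℝ := 1 + ((q ^ k : ℕ) : ℝ) + T ^ 4 * ((q ^ k : ℕ) : ℝ) / f0 with hA
  have hqk : (0:ℝ) ≤ ((q ^ k : ℕ) : ℝ) := by positivity
  have hA2 : 0 ≤ T ^ 4 * ((q ^ k : ℕ) : ℝ) / f0 := by positivity
  have hA1 : 1 ≤ A := by linarith
  have hAQ : ((q ^ k : ℕ) : ℝ) ≤ A := by linarith
  have hAT : T ^ 4 * ((q ^ k : ℕ) : ℝ) / f0 ≤ A ^ 4 := by
    have h1 : A ≤ A ^ 4 := le_self_pow₀ hA1 (by norm_num)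
    linarith
  obtain ⟨K2, hK2, hbig⟩ := hbigA A hA1 δ hδp hδ4
  set K3 := 16 * A ^ 3 + 4 * A * (64 * ((2 + 2 * A) * (16 + 2 * A)) ^ 2) with hK3
  have hK3p : 0 < K3 := by positivity
  set K4 := coneC (√Z1) * Z1 * (1 + Real.log (max 1 (2 * Z1))) with hK4
  have hK4p : 0 < K4 := by positivity
  refine ⟨2 * κ, by positivity, 2 * (3 * K1 + K2 + K3 + K4), by positivity, ?_⟩
  intro R hR
  have hR0 : 0 < R := by linarith
  have hL : 0 ≤ Real.log R := Real.log_nonneg hR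
  have hR3 : 0 < R ^ 3 := by positivity
  obtain ⟨_, hcard⟩ := ncard_regA hM hf (R ^ 3) R (YA_finite hc0 hb hf hR)
  rw [hcard]
  push_cast
  set N := ((YA M f (R ^ 3) R).ncard : ℝ) with hN
  set L := Real.log R with hLdef
  have hXL : 0 ≤ R ^ 3 * (1 + L) := by positivity
  clear_value K3 K4 A κ k T δ X N
  constructor
  · obtain ⟨m1, m2, m3⟩ := hmain R hR (R ^ 3 / (1 + ε)) (by positivity)
    have h1 := YA_lower hM hc0 hb hf hqpos hSq (k := k) (by omega) hPq hTp hε hg hA1 hAQ hAT hR m1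
      (E := Cb * (1 / P + δ) * (R ^ 3 * (1 + L)) + K2 * R ^ 3) (hbig P (by omega) R hR)
    rw [← hN, ← hK3] at h1
    have h2 : R ^ 3 / (1 + ε) ≤ R ^ 3 := div_le_self hR3.le (by linarith)
    have h3 : Cb * (1 / P + δ) * (R ^ 3 * (1 + L)) ≤ ε / 8 * (R ^ 3 * (1 + L)) := by
      apply mul_le_mul_of_nonneg_right _ hXL
      linarith
    have h4 : ε / 8 * (R ^ 3 / (1 + ε) * (1 + L)) ≤ ε / 8 * (R ^ 3 * (1 + L)) := by gcongr
    have h5 : K1 * (R ^ 3 / (1 + ε) + R ^ 3) ≤ K1 * (R ^ 3 + R ^ 3) := by gcongr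
    have h6 : κ * (1 - ε) / (1 + ε) * (R ^ 3 * L) ≤ κ * (1 - 2 / P) * (R ^ 3 / (1 + ε) * L) := by
      have e1 : κ * (1 - ε) / (1 + ε) * (R ^ 3 * L) =
        κ * (1 - ε) * (R ^ 3 / (1 + ε) * L) := by ring
      rw [e1]
      have e2 : 0 ≤ R ^ 3 / (1 + ε) * L := by positivity
      have e3 : 1 - ε ≤ 1 - 2 / (P:ℝ) := by linarith
      apply mul_le_mul_of_nonneg_right _ e2
      exact mul_le_mul_of_nonneg_left e3 hκ0
    have e7 : 2 * κ * (1 - ε) / (1 + ε) * (R ^ 3 * L) = 2 * (κ * (1 - ε) / (1 + ε) * (R ^ 3 * L)) := by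
      ring
    rw [e7]
    have e8 : 0 ≤ K4 * R ^ 3 := by positivity
    have e9 : 0 ≤ K1 * R ^ 3 := by positivity
    have e10 : 0 ≤ ε * (R ^ 3 * (1 + L)) := by positivity
    linarith only [h1, m2, h3, h4, h5, h6, e8, e9, e10]
  · obtain ⟨m1, m2, m3⟩ := hmain R hR ((1 + ε) * R ^ 3) (by positivity)
    have h1 := YA_upper hM hc0 hb hf h01 hqpos hSq (k := k) (by omega) hTp hε hg hR m1
    rw [← hN, ← hLdef, ← hZ1, ← hX] at h1
    have h2 : coneC (√Z1) * Z1 * (R ^ 3 * (1 + Real.log (max 1 (2 * Z1)))) = K4 * R ^ 3 := by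
      rw [hK4]; ring
    rw [h2] at h1
    have h3 : coneC (√Z1) * Z1 * q.primeFactors.card * (1 / 2 ^ (k - 1)) * (R ^ 3 * (1 + L)) ≤
        ε / 8 * (R ^ 3 * (1 + L)) := by gcongr
    have h4 : X / T ^ 4 * (R ^ 3 * (1 + L)) ≤ ε / 8 * (R ^ 3 * (1 + L)) := by gcongr
    have h5 : (1 + ε) * R ^ 3 ≤ 2 * R ^ 3 := by
      apply mul_le_mul_of_nonneg_right _ hR3.le
      linarith only [hε1]
    have h6 : ε / 8 * ((1 + ε) * R ^ 3 * (1 + L)) ≤ ε / 8 * (2 * R ^ 3 * (1 + L)) := by gcongr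
    have h7 : K1 * ((1 + ε) * R ^ 3 + R ^ 3) ≤ K1 * (2 * R ^ 3 + R ^ 3) := by gcongr
    have e7 : κ * ((1 + ε) * R ^ 3 * L) = (1 + ε) * κ * (R ^ 3 * L) := by ring
    rw [e7] at m3
    have e8 : 0 ≤ K3 * R ^ 3 := by positivity
    have e9 : 0 ≤ K2 * R ^ 3 := by positivity
    have e10 : (1 + ε) * (2 * κ) * (R ^ 3 * L) = 2 * ((1 + ε) * κ * (R ^ 3 * L)) := by ring
    rw [e10]
    linarith only [h1, m3, h3, h4, h6, h7, e8, e9]

end Pool.Agent.Lib.MP_1acd66_nt.Tw
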