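import Pool.Agent.Lib.MP_1acd66_nt.Tw.Defs

/-!
The points of the cone over the twisted cubic modulo `m`.
-/

namespace Pool.Agent.Lib.MP_1acd66_nt.Tw

open Finset

section ring

variable {R S : Type*} [CommRing R] [CommRing S]

/-- primitive vectors on the cone -/
def Sol (R : Type*) [CommRing R] : Set (Fin 4 → R) :=
  {y | qf y = 0 ∧ ∃ a : Fin 4 → R, ∑ i, a i * y i = 1}

/-- all vectors on the cone -/
def Zer (R : Type*) [CommRing R] : Set (Fin 4 → R) := {y | qf y = 0}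

theorem qf_map (f : R →+* S) (y : Fin 4 → R) : qf (fun i => f (y i)) = fun j => f (qf y j) := by
  funext j
  fin_cases j <;> simp [qf]

theorem qf_eq_zero_map (f : R →+* S) {y : Fin 4 → R} (h : qf y = 0) :
    qf (fun i => f (y i)) = 0 := by
  rw [qf_map, h]
  funext j
  simp

/-- vectors over a product -/
def prodVec (R S : Type*) : (Fin 4 → R × S) ≃ (Fin 4 → R) × (Fin 4 → S) where
  toFun y := (fun i => (y i).1, fun i => (y i).2)
  invFun y := fun i => (y.1 i, y.2 i)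
  left_inv _ := rfl
  right_inv _ := rfl

theorem qf_prod_iff (y : Fin 4 → R × S) :
    qf y = 0 ↔ qf (fun i => (y i).1) = 0 ∧ qf (fun i => (y i).2) = 0 := by
  have h1 : qf (fun i => (y i).1) = fun j => (qf y j).1 := qf_map (RingHom.fst R S) y
  have h2 : qf (fun i => (y i).2) = fun j => (qf y j).2 := qf_map (RingHom.snd R S) y
  rw [h1, h2]
  constructor
  · intro h
    rw [h]
    exact ⟨rfl, rfl⟩
  · rintro ⟨h3, h4⟩
    funext j
    exact Prod.ext (congrFun h3 j) (congrFun h4 j)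

theorem prim_prod_iff (y : Fin 4 → R × S) :
    (∃ a : Fin 4 → R × S, ∑ i, a i * y i = 1) ↔
      (∃ a : Fin 4 → R, ∑ i, a i * (y i).1 = 1) ∧ ∃ a : Fin 4 → S, ∑ i, a i * (y i).2 = 1 := by
  constructor
  · rintro ⟨a, ha⟩
    have h1 := congrArg Prod.fst ha
    have h2 := congrArg Prod.snd ha
    rw [Prod.fst_sum] at h1
    rw [Prod.snd_sum] at h2
    exact ⟨⟨fun i => (a i).1, h1⟩, ⟨fun i => (a i).2, h2⟩⟩
  · rintro ⟨⟨a, ha⟩, ⟨b, hb⟩⟩
    refine ⟨fun i => (a i, b i), ?_⟩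
    apply Prod.ext
    · rw [Prod.fst_sum]; exact ha
    · rw [Prod.snd_sum]; exact hb

theorem card_Sol_prod : Nat.card (Sol (R × S)) = Nat.card (Sol R) * Nat.card (Sol S) := by
  rw [← Nat.card_prod]
  refine Nat.card_congr ?_
  refine ((prodVec R S).subtypeEquiv (q := fun z => z.1 ∈ Sol R ∧ z.2 ∈ Sol S) ?_).trans
    (Equiv.subtypeProdEquivProd)
  intro y
  constructor
  · rintro ⟨h1, h2⟩
    rw [qf_prod_iff] at h1
    rw [prim_prod_iff] at h2
    exact ⟨⟨h1.1, h2.1⟩, ⟨h1.2, h2.2⟩⟩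
  · rintro ⟨⟨h1, h2⟩, ⟨h3, h4⟩⟩
    exact ⟨(qf_prod_iff y).2 ⟨h1, h3⟩, (prim_prod_iff y).2 ⟨h2, h4⟩⟩

theorem card_Sol_congr (e : R ≃+* S) : Nat.card (Sol R) = Nat.card (Sol S) := by
  refine Nat.card_congr ((Equiv.piCongrRight fun _ => e.toEquiv).subtypeEquiv ?_)
  intro y
  constructor
  · rintro ⟨h1, a, ha⟩
    refine ⟨qf_eq_zero_map (e : R →+* S) h1, fun i => e (a i), ?_⟩
    have h2 := congrArg e ha
    rw [map_sum, map_one] at h2
    simp only [map_mul] at h2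
    exact h2
  · rintro ⟨h1, a, ha⟩
    refine ⟨?_, fun i => e.symm (a i), ?_⟩
    · have h2 := qf_eq_zero_map (e.symm : S →+* R) h1
      have h3 : (fun i => (e.symm : S →+* R) ((Equiv.piCongrRight fun _ => e.toEquiv) y i)) = y := by
        funext i
        simp
      rwa [h3] at h2
    · have h2 := congrArg e.symm ha
      rw [map_sum, map_one] at h2
      simp only [map_mul] at h2
      have h3 : ∀ i, e.symm ((Equiv.piCongrRight fun _ => e.toEquiv) y i) = y i := by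
        intro i
        simp
      simp only [h3] at h2
      exact h2

end ring

section local_ring

variable {R : Type*} [CommRing R] [IsLocalRing R]

theorem sol_unit {y : Fin 4 → R} (h : y ∈ Sol R) (h0 : ¬ IsUnit (y 0)) :
    IsUnit (y 3) ∧ ¬ IsUnit (y 2) := by
  obtain ⟨h1, a, ha⟩ := h
  have q0 : y 1 * y 3 - y 2 ^ 2 = 0 := congrFun h1 0
  have q1 : y 1 * y 2 - y 0 * y 3 = 0 := congrFun h1 1
  have q2 : y 0 * y 2 - y 1 ^ 2 = 0 := congrFun h1 2
  have hy1 : ¬ IsUnit (y 1) := by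
    intro h2
    apply h0
    have h3 : IsUnit (y 0 * y 2) := by
      have : y 0 * y 2 = y 1 ^ 2 := by linear_combination q2
      rw [this]; exact h2.pow 2
    exact isUnit_of_mul_isUnit_left h3
  have hy2 : ¬ IsUnit (y 2) := by
    intro h2
    apply hy1
    have h3 : IsUnit (y 1 * y 3) := by
      have : y 1 * y 3 = y 2 ^ 2 := by linear_combination q0
      rw [this]; exact h2.pow 2
    exact isUnit_of_mul_isUnit_left h3
  refine ⟨?_, hy2⟩
  by_contra h3
  have hm : ∀ i, y i ∈ IsLocalRing.maximalIdeal R := by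
    intro i
    rw [IsLocalRing.mem_maximalIdeal, mem_nonunits_iff]
    fin_cases i
    · exact h0
    · exact hy1
    · exact hy2
    · exact h3
  have h4 : (1 : R) ∈ IsLocalRing.maximalIdeal R := by
    rw [← ha]
    exact Ideal.sum_mem _ fun i _ => Ideal.mul_mem_left _ _ (hm i)
  exact (Ideal.ne_top_iff_one _).1 (IsLocalRing.maximalIdeal.isMaximal R).ne_top h4

/-- first chart -/
noncomputable def chart0 : {y : Fin 4 → R // y ∈ Sol R ∧ IsUnit (y 0)} ≃ Rˣ × R where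
  toFun y := (y.2.2.unit, y.1 1)
  invFun z := ⟨![(z.1 : R), z.2, z.2 ^ 2 * (↑z.1⁻¹ : R), z.2 ^ 3 * (↑z.1⁻¹ : R) ^ 2], by
    have hz : (z.1 : R) * (↑z.1⁻¹ : R) = 1 := by simp
    refine ⟨⟨?_, ?_⟩, ?_⟩
    · funext j
      fin_cases j
      · change z.2 * (z.2 ^ 3 * (↑z.1⁻¹ : R) ^ 2) - (z.2 ^ 2 * (↑z.1⁻¹ : R)) ^ 2 = 0
        ring
      · change z.2 * (z.2 ^ 2 * (↑z.1⁻¹ : R)) - (z.1 : R) * (z.2 ^ 3 * (↑z.1⁻¹ : R) ^ 2) = 0
        linear_combination (-z.2 ^ 3 * (↑z.1⁻¹ : R)) * hz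
      · change (z.1 : R) * (z.2 ^ 2 * (↑z.1⁻¹ : R)) - z.2 ^ 2 = 0
        linear_combination (z.2 ^ 2) * hz
    · refine ⟨![(↑z.1⁻¹ : R), 0, 0, 0], ?_⟩
      rw [Fin.sum_univ_four]
      change (↑z.1⁻¹ : R) * (z.1 : R) + 0 * _ + 0 * _ + 0 * _ = 1
      linear_combination hz
    · exact z.1.isUnit⟩
  left_inv := by
    rintro ⟨y, ⟨h1, h2⟩, h3⟩
    apply Subtype.ext
    have q1 : y 1 * y 2 - y 0 * y 3 = 0 := congrFun h1 1
    have q2 : y 0 * y 2 - y 1 ^ 2 = 0 := congrFun h1 2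
    have hu : (h3.unit : R) = y 0 := rfl
    have hv : y 0 * (↑h3.unit⁻¹ : R) = 1 := by
      have := h3.unit.mul_inv
      rw [hu] at this
      exact this
    have e2 : y 1 ^ 2 * (↑h3.unit⁻¹ : R) = y 2 := by
      linear_combination (y 2) * hv - (↑h3.unit⁻¹ : R) * q2
    have e3 : y 1 ^ 3 * (↑h3.unit⁻¹ : R) ^ 2 = y 3 := by
      have : y 1 ^ 3 * (↑h3.unit⁻¹ : R) ^ 2 = y 1 * (↑h3.unit⁻¹ : R) *
        (y 1 ^ 2 * (↑h3.unit⁻¹ : R)) := by ring
      rw [this, e2]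
      linear_combination (↑h3.unit⁻¹ : R) * q1 + (y 3) * hv
    funext i
    fin_cases i
    · rfl
    · rfl
    · exact e2
    · exact e3
  right_inv := by
    rintro ⟨u, r⟩
    refine Prod.ext ?_ rfl
    apply Units.ext
    rfl

/-- second chart -/
noncomputable def chart3 : {y : Fin 4 → R // y ∈ Sol R ∧ ¬ IsUnit (y 0)} ≃
    Rˣ × {r : R // ¬ IsUnit r} where
  toFun y := ((sol_unit y.2.1 y.2.2).1.unit, ⟨y.1 2, (sol_unit y.2.1 y.2.2).2⟩)
  invFun z := ⟨![(z.2 : R) ^ 3 * (↑z.1⁻¹ : R) ^ 2, (z.2 : R) ^ 2 * (↑z.1⁻¹ : R), z.2, z.1], by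
    have hz : (z.1 : R) * (↑z.1⁻¹ : R) = 1 := by simp
    refine ⟨⟨?_, ?_⟩, ?_⟩
    · funext j
      fin_cases j
      · change (z.2 : R) ^ 2 * (↑z.1⁻¹ : R) * (z.1 : R) - (z.2 : R) ^ 2 = 0
        linear_combination ((z.2 : R) ^ 2) * hz
      · change (z.2 : R) ^ 2 * (↑z.1⁻¹ : R) * (z.2 : R) -
          (z.2 : R) ^ 3 * (↑z.1⁻¹ : R) ^ 2 * (z.1 : R) = 0
        linear_combination (-(z.2 : R) ^ 3 * (↑z.1⁻¹ : R)) * hz
      · change (z.2 : R) ^ 3 * (↑z.1⁻¹ : R) ^ 2 * (z.2 : R) -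
          ((z.2 : R) ^ 2 * (↑z.1⁻¹ : R)) ^ 2 = 0
        ring
    · refine ⟨![0, 0, 0, (↑z.1⁻¹ : R)], ?_⟩
      rw [Fin.sum_univ_four]
      change 0 * _ + 0 * _ + 0 * _ + (↑z.1⁻¹ : R) * (z.1 : R) = 1
      linear_combination hz
    · intro hu
      change IsUnit ((z.2 : R) ^ 3 * (↑z.1⁻¹ : R) ^ 2) at hu
      have h1 := isUnit_of_mul_isUnit_left hu
      exact z.2.2 ((isUnit_pow_iff (by norm_num)).1 h1)⟩
  left_inv := by
    rintro ⟨y, hy, h3⟩
    apply Subtype.ext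
    obtain ⟨hu3, hu2⟩ := sol_unit hy h3
    have q0 : y 1 * y 3 - y 2 ^ 2 = 0 := congrFun hy.1 0
    have q1 : y 1 * y 2 - y 0 * y 3 = 0 := congrFun hy.1 1
    have hu : (hu3.unit : R) = y 3 := rfl
    have hv : y 3 * (↑hu3.unit⁻¹ : R) = 1 := by
      have := hu3.unit.mul_inv
      rw [hu] at this
      exact this
    have e1 : y 2 ^ 2 * (↑hu3.unit⁻¹ : R) = y 1 := by
      linear_combination (y 1) * hv - (↑hu3.unit⁻¹ : R) * q0
    have e0 : y 2 ^ 3 * (↑hu3.unit⁻¹ : R) ^ 2 = y 0 := by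
      have : y 2 ^ 3 * (↑hu3.unit⁻¹ : R) ^ 2 = y 2 * (↑hu3.unit⁻¹ : R) *
        (y 2 ^ 2 * (↑hu3.unit⁻¹ : R)) := by ring
      rw [this, e1]
      linear_combination (↑hu3.unit⁻¹ : R) * q1 + (y 0) * hv
    funext i
    fin_cases i
    · exact e0
    · exact e1
    · rfl
    · rfl
  right_inv := by
    rintro ⟨u, r⟩
    refine Prod.ext ?_ rfl
    apply Units.ext
    rfl

theorem card_Sol_local [Finite R] :
    Nat.card (Sol R) = Nat.card Rˣ * (Nat.card R + Nat.card {r : R // ¬ IsUnit r}) := by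
  classical
  have h1 : Nat.card (Sol R) = Nat.card {y : Fin 4 → R // y ∈ Sol R ∧ IsUnit (y 0)} +
      Nat.card {y : Fin 4 → R // y ∈ Sol R ∧ ¬ IsUnit (y 0)} := by
    have e : (Sol R : Type _) ≃ {y : Fin 4 → R // y ∈ Sol R ∧ IsUnit (y 0)} ⊕
        {y : Fin 4 → R // y ∈ Sol R ∧ ¬ IsUnit (y 0)} :=
      (Equiv.sumCompl (fun y : Sol R => IsUnit (y.1 0))).symm.trans
        (Equiv.sumCongr (Equiv.subtypeSubtypeEquivSubtypeInter (fun y => y ∈ Sol R)
          (fun y => IsUnit (y 0)))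
        (Equiv.subtypeSubtypeEquivSubtypeInter (fun y => y ∈ Sol R)
          (fun y => ¬ IsUnit (y 0))))
    rw [Nat.card_congr e, Nat.card_sum]
  rw [h1, Nat.card_congr chart0, Nat.card_congr chart3, Nat.card_prod, Nat.card_prod, mul_add]

end local_ring

theorem card_Sol_prime_pow {p k : ℕ} (hp : p.Prime) (hk : 0 < k) :
    (Nat.card (Sol (ZMod (p ^ k))) : ℝ) = (((p ^ k : ℕ) : ℝ)) ^ 2 * (1 - 1 / (p : ℝ) ^ 2) := by
  have : Fact p.Prime := ⟨hp⟩
  have : NeZero (p ^ k) := ⟨(pow_pos hp.pos k).ne'⟩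
  have : Nontrivial (ZMod (p ^ k)) := by
    have : Fact (1 < p ^ k) := ⟨Nat.one_lt_pow hk.ne' hp.one_lt⟩
    infer_instance
  have : IsLocalRing (ZMod (p ^ k)) := by
    refine IsLocalRing.of_nonunits_add ?_
    intro a b ha hb
    rw [mem_nonunits_iff] at ha hb ⊢
    have key : ∀ c : ZMod (p ^ k), ¬ IsUnit c ↔ p ∣ c.val := by
      intro c
      have h1 : IsUnit c ↔ Nat.Coprime c.val (p ^ k) := by
        rw [← ZMod.isUnit_iff_coprime, ZMod.natCast_zmod_val]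
      rw [h1, Nat.coprime_pow_right_iff hk, Nat.coprime_comm, hp.coprime_iff_not_dvd, not_not]
    rw [key] at ha hb ⊢
    rw [ZMod.val_add]
    have h2 : p ∣ p ^ k := dvd_pow_self p hk.ne'
    exact (Nat.dvd_mod_iff h2).2 (dvd_add ha hb)
  rw [card_Sol_local, Nat.card_zmod]
  have hu : Nat.card (ZMod (p ^ k))ˣ = p ^ k - p ^ (k - 1) := by
    rw [Nat.card_eq_fintype_card, ZMod.card_units_eq_totient, Nat.totient_prime_pow hp hk]
    have : p ^ k = p ^ (k - 1) * p := by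
      rw [← pow_succ, Nat.sub_add_cancel hk]
    rw [this, Nat.mul_sub, mul_one]
  have hle : p ^ (k - 1) ≤ p ^ k := Nat.pow_le_pow_right hp.pos (Nat.sub_le _ _)
  have hnu : Nat.card {r : ZMod (p ^ k) // ¬ IsUnit r} = p ^ (k - 1) := by
    classical
    have h1 : Nat.card {r : ZMod (p ^ k) // IsUnit r} = Nat.card (ZMod (p ^ k))ˣ := by
      refine Nat.card_congr ⟨fun r => r.2.unit, fun u => ⟨u, u.isUnit⟩, fun r => ?_, fun u => ?_⟩
      · exact Subtype.ext rfl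
      · exact Units.ext rfl
    have h2 : Nat.card {r : ZMod (p ^ k) // IsUnit r} +
        Nat.card {r : ZMod (p ^ k) // ¬ IsUnit r} = p ^ k := by
      rw [← Nat.card_sum, Nat.card_congr (Equiv.sumCompl fun r : ZMod (p ^ k) => IsUnit r),
        Nat.card_zmod]
    rw [h1, hu] at h2
    omega
  rw [hu, hnu]
  have hpk : ((p : ℝ)) ^ k = p ^ (k - 1) * p := by
    rw [← pow_succ, Nat.sub_add_cancel hk]
  have hp0 : (p : ℝ) ≠ 0 := by exact_mod_cast hp.ne_zero
  push_cast [Nat.cast_sub hle]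
  rw [hpk]
  field_simp
  ring

theorem card_Sol_bounds (m : ℕ) : 0 < m →
    (m : ℝ) ^ 2 * (1 - ∑ p ∈ m.primeFactors, 1 / (p : ℝ) ^ 2) ≤ Nat.card (Sol (ZMod m)) ∧
      (Nat.card (Sol (ZMod m)) : ℝ) ≤ (m : ℝ) ^ 2 := by
  refine Nat.recOnPosPrimePosCoprime (motive := fun m => 0 < m →
    (m : ℝ) ^ 2 * (1 - ∑ p ∈ m.primeFactors, 1 / (p : ℝ) ^ 2) ≤ Nat.card (Sol (ZMod m)) ∧
      (Nat.card (Sol (ZMod m)) : ℝ) ≤ (m : ℝ) ^ 2) ?_ ?_ ?_ ?_ m
  · intro p n hp hn _
    rw [card_Sol_prime_pow hp hn, Nat.primeFactors_prime_pow hn.ne' hp, sum_singleton]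
    refine ⟨le_rfl, ?_⟩
    have h1 : 0 ≤ 1 / (p : ℝ) ^ 2 := by positivity
    have h2 : 0 ≤ (((p ^ n : ℕ) : ℝ)) ^ 2 := by positivity
    nlinarith
  · intro h
    exact absurd h (lt_irrefl 0)
  · intro _
    have h1 : Nat.card (Sol (ZMod 1)) = 1 := by
      rw [Nat.card_eq_one_iff_unique]
      refine ⟨⟨fun a b => Subtype.ext (funext fun i => Subsingleton.elim _ _)⟩, ⟨⟨0, ?_, ?_⟩⟩⟩
      · exact Subsingleton.elim _ _
      · exact ⟨0, Subsingleton.elim _ _⟩
    rw [h1]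
    simp
  · intro a b ha hb hab iha ihb _
    obtain ⟨a1, a2⟩ := iha (by omega)
    obtain ⟨b1, b2⟩ := ihb (by omega)
    have h1 : Nat.card (Sol (ZMod (a * b))) = Nat.card (Sol (ZMod a)) * Nat.card (Sol (ZMod b)) := by
      rw [card_Sol_congr (ZMod.chineseRemainder hab), card_Sol_prod]
    rw [h1, Nat.Coprime.primeFactors_mul hab, sum_union hab.disjoint_primeFactors]
    push_cast
    set A := (a : ℝ) ^ 2 with hA
    set D := (b : ℝ) ^ 2 with hD
    set x := (Nat.card (Sol (ZMod a)) : ℝ) with hx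
    set y := (Nat.card (Sol (ZMod b)) : ℝ) with hy
    set s := ∑ p ∈ a.primeFactors, 1 / (p : ℝ) ^ 2 with hs
    set t := ∑ p ∈ b.primeFactors, 1 / (p : ℝ) ^ 2 with ht
    have hx0 : 0 ≤ x := Nat.cast_nonneg _
    have hy0 : 0 ≤ y := Nat.cast_nonneg _
    have hA0 : 0 ≤ A := sq_nonneg _
    have hD0 : 0 ≤ D := sq_nonneg _
    refine ⟨?_, ?_⟩
    · -- (A - x) (D - y) ≥ 0
      have h2 : 0 ≤ (A - x) * (D - y) := mul_nonneg (by linarith) (by linarith)
      have h3 : A * (1 - s) * D ≤ x * D := mul_le_mul_of_nonneg_right a1 hD0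
      have h4 : A * (D * (1 - t)) ≤ A * y := mul_le_mul_of_nonneg_left b1 hA0
      have h5 : (a * b : ℝ) ^ 2 = A * D := by rw [hA, hD]; ring
      rw [h5]
      nlinarith
    · have h5 : (a * b : ℝ) ^ 2 = A * D := by rw [hA, hD]; ring
      rw [h5]
      exact mul_le_mul a2 b2 hy0 hA0

/-- vectors of which the reduction modulo `m` is primitive -/
def PrimMod (m : ℕ) (y : Fin 4 → ℤ) : Prop := ∃ a : Fin 4 → ℤ, (m : ℤ) ∣ (∑ i, a i * y i) - 1

theorem Prim.primMod {y : Fin 4 → ℤ} (h : Prim y) (m : ℕ) : PrimMod m y := by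
  obtain ⟨a, ha⟩ := h
  exact ⟨a, by rw [ha, sub_self]; exact dvd_zero _⟩

theorem primMod_iff {m : ℕ} [NeZero m] {y : Fin 4 → ℤ} :
    PrimMod m y ↔ ∃ a : Fin 4 → ZMod m, ∑ i, a i * (y i : ZMod m) = 1 := by
  constructor
  · rintro ⟨a, ha⟩
    refine ⟨fun i => (a i : ZMod m), ?_⟩
    have h1 : (((∑ i, a i * y i) - 1 : ℤ) : ZMod m) = 0 :=
      (ZMod.intCast_zmod_eq_zero_iff_dvd _ _).2 ha
    push_cast at h1
    linear_combination h1
  · rintro ⟨a, ha⟩
    refine ⟨fun i => ((a i).val : ℤ), ?_⟩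
    rw [← ZMod.intCast_zmod_eq_zero_iff_dvd]
    push_cast
    simp only [ZMod.natCast_zmod_val]
    rw [ha, sub_self]

theorem qf_cast {m : ℕ} {y : Fin 4 → ℤ} :
    (∀ j, (m : ℤ) ∣ qf y j) ↔ qf (fun i => (y i : ZMod m)) = 0 := by
  have h1 : qf (fun i => (y i : ZMod m)) = fun j => ((qf y j : ℤ) : ZMod m) :=
    qf_map (Int.castRingHom (ZMod m)) y
  rw [h1]
  constructor
  · intro h
    funext j
    exact (ZMod.intCast_zmod_eq_zero_iff_dvd _ _).2 (h j)
  · intro h j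
    exact (ZMod.intCast_zmod_eq_zero_iff_dvd _ _).1 (congrFun h j)

/-- reduced residues -/
noncomputable def resSet (m : ℕ) (P : (Fin 4 → ℤ) → Prop) : Finset (Fin 4 → ℤ) := by
  classical
  exact (Fintype.piFinset fun _ : Fin 4 => Finset.Ico (0 : ℤ) m).filter P

theorem mem_resSet {m : ℕ} {P : (Fin 4 → ℤ) → Prop} {y : Fin 4 → ℤ} :
    y ∈ resSet m P ↔ (∀ i, 0 ≤ y i ∧ y i < m) ∧ P y := by
  classical
  unfold resSet
  rw [mem_filter, Fintype.mem_piFinset]
  simp only [mem_Ico]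

theorem card_resSet {m : ℕ} [NeZero m] (P : (Fin 4 → ℤ) → Prop) (Q : Set (Fin 4 → ZMod m))
    (hPQ : ∀ y, P y ↔ (fun i => (y i : ZMod m)) ∈ Q) : (resSet m P).card = Nat.card Q := by
  classical
  have hm : 0 < m := NeZero.pos m
  rw [← Nat.card_eq_finsetCard]
  refine Nat.card_congr ⟨fun y => ⟨fun i => (y.1 i : ZMod m), ?_⟩,
    fun z => ⟨fun i => ((z.1 i).val : ℤ), ?_⟩, ?_, ?_⟩
  · exact (hPQ _).1 (mem_resSet.1 y.2).2
  · rw [mem_resSet]
    refine ⟨fun i => ⟨by positivity, by exact_mod_cast ZMod.val_lt (z.1 i)⟩, ?_⟩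
    rw [hPQ]
    have h1 : (fun i => ((((z.1 i).val : ℕ) : ℤ) : ZMod m)) = z.1 := by
      funext i
      simp
    rw [h1]
    exact z.2
  · rintro ⟨y, hy⟩
    apply Subtype.ext
    funext i
    have h1 := (mem_resSet.1 hy).1 i
    have h2 : ((((y i : ℤ) : ZMod m)).val : ℤ) = y i % m := ZMod.val_intCast _
    simp only
    rw [h2, Int.emod_eq_of_lt h1.1 h1.2]
  · rintro ⟨z, hz⟩
    apply Subtype.ext
    funext i
    simp

/-- primitive residues on the cone -/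
noncomputable def J (m : ℕ) : Finset (Fin 4 → ℤ) :=
  resSet m (fun y => (∀ j, (m : ℤ) ∣ qf y j) ∧ PrimMod m y)

theorem card_J {m : ℕ} (hm : 0 < m) :
    (m : ℝ) ^ 2 * (1 - ∑ p ∈ m.primeFactors, 1 / (p : ℝ) ^ 2) ≤ (J m).card ∧
      ((J m).card : ℝ) ≤ (m : ℝ) ^ 2 := by
  have : NeZero m := ⟨hm.ne'⟩
  have h1 : (J m).card = Nat.card (Sol (ZMod m)) := by
    refine card_resSet _ _ fun y => ?_
    rw [qf_cast, primMod_iff]
    rfl
  rw [h1]
  exact card_Sol_bounds m hm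

/-- residues modulo `p c` on the cone which are primitive modulo `c` -/
noncomputable def J2 (p c : ℕ) : Finset (Fin 4 → ℤ) :=
  resSet (p * c) (fun y => (∀ j, ((p * c : ℕ) : ℤ) ∣ qf y j) ∧ PrimMod c y)

theorem card_J2 {p c : ℕ} (hp : p.Prime) (hc : 0 < c) :
    ((J2 p c).card : ℝ) ≤ ((p * c : ℕ) : ℝ) ^ 2 := by
  have hpc : 0 < p * c := Nat.mul_pos hp.pos hc
  have i1 : NeZero (p * c) := ⟨hpc.ne'⟩
  have i2 : NeZero c := ⟨hc.ne'⟩
  have i3 : Fact p.Prime := ⟨hp⟩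
  have i4 : NeZero p := ⟨hp.ne_zero⟩
  by_cases hdvd : p ∣ c
  · -- primitivity modulo `p c` follows
    have hsub : J2 p c ⊆ J (p * c) := by
      intro y hy
      unfold J2 at hy
      unfold J
      rw [mem_resSet] at hy ⊢
      refine ⟨hy.1, hy.2.1, ?_⟩
      obtain ⟨a, ha⟩ := hy.2.2
      -- s = 1 + c k, (1 + c k)(1 - c k) = 1 - c^2 k^2
      obtain ⟨k, hk⟩ := ha
      refine ⟨fun i => (1 - c * k) * a i, ?_⟩
      have h1 : (∑ i, (1 - (c : ℤ) * k) * a i * y i) = (1 - c * k) * ∑ i, a i * y i := by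
        rw [mul_sum]
        refine sum_congr rfl fun i _ => ?_
        ring
      have h2 : (∑ i, a i * y i) = 1 + c * k := by linarith
      rw [h1, h2]
      have h3 : (1 - (c : ℤ) * k) * (1 + c * k) - 1 = -(c * c * k ^ 2) := by ring
      rw [h3, dvd_neg]
      refine Dvd.dvd.mul_right ?_ _
      push_cast
      exact mul_dvd_mul_right (by exact_mod_cast hdvd) _
    calc ((J2 p c).card : ℝ) ≤ (J (p * c)).card := by exact_mod_cast card_le_card hsub
      _ ≤ _ := (card_J hpc).2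
  · have hcop : Nat.Coprime p c := (Nat.Prime.coprime_iff_not_dvd hp).2 hdvd
    set e := ZMod.chineseRemainder hcop with he
    have h1 : (J2 p c).card = Nat.card {z : Fin 4 → ZMod (p * c) |
        (fun i => (e (z i)).1) ∈ Zer (ZMod p) ∧ (fun i => (e (z i)).2) ∈ Sol (ZMod c)} := by
      refine card_resSet _ _ fun y => ?_
      have e1 : ∀ i, e ((y i : ZMod (p * c))) = ((y i : ZMod p), (y i : ZMod c)) := by
        intro i
        rw [map_intCast]
        exact Prod.ext (by simp) (by simp)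
      have e2 : (fun i => (e ((y i : ZMod (p * c)))).1) = fun i => (y i : ZMod p) := by
        funext i; rw [e1]
      have e3 : (fun i => (e ((y i : ZMod (p * c)))).2) = fun i => (y i : ZMod c) := by
        funext i; rw [e1]
      rw [Set.mem_ofPred_eq, e2, e3]
      unfold Zer Sol
      rw [Set.mem_ofPred_eq, Set.mem_ofPred_eq, ← qf_cast, ← qf_cast, ← primMod_iff]
      constructor
      · rintro ⟨h2, h3⟩
        refine ⟨fun j => dvd_trans ?_ (h2 j), fun j => dvd_trans ?_ (h2 j), h3⟩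
        · push_cast; exact dvd_mul_right _ _
        · push_cast; exact dvd_mul_left _ _
      · rintro ⟨h2, h3, h4⟩
        refine ⟨fun j => ?_, h4⟩
        push_cast
        exact IsCoprime.mul_dvd (Nat.isCoprime_iff_coprime.2 hcop) (h2 j) (h3 j)
    have h2 : Nat.card {z : Fin 4 → ZMod (p * c) |
        (fun i => (e (z i)).1) ∈ Zer (ZMod p) ∧ (fun i => (e (z i)).2) ∈ Sol (ZMod c)} =
        Nat.card (Zer (ZMod p)) * Nat.card (Sol (ZMod c)) := by
      rw [← Nat.card_prod]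
      refine Nat.card_congr ?_
      refine (((Equiv.piCongrRight fun _ : Fin 4 => e.toEquiv).trans
        (prodVec (ZMod p) (ZMod c))).subtypeEquiv
          (q := fun z => z.1 ∈ Zer (ZMod p) ∧ z.2 ∈ Sol (ZMod c)) ?_).trans
        (Equiv.subtypeProdEquivProd)
      intro z
      exact Iff.rfl
    have h3 : Nat.card (Zer (ZMod p)) = Nat.card (Sol (ZMod p)) + 1 := by
      classical
      have h4 : Zer (ZMod p) = insert 0 (Sol (ZMod p)) := by
        ext y
        rw [Set.mem_insert_iff]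
        constructor
        · intro hy
          by_cases hy0 : y = 0
          · exact Or.inl hy0
          · right
            refine ⟨hy, ?_⟩
            obtain ⟨i, hi⟩ := Function.ne_iff.1 hy0
            refine ⟨Pi.single i (y i)⁻¹, ?_⟩
            rw [sum_eq_single i]
            · simp only [Pi.single_eq_same]
              exact inv_mul_cancel₀ hi
            · intro j _ hj
              rw [Pi.single_eq_of_ne hj, zero_mul]
            · intro h; exact absurd (mem_univ i) h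
        · rintro (rfl | hy)
          · funext j
            fin_cases j <;> simp [qf]
          · exact hy.1
      rw [h4]
      rw [Nat.card_coe_set_eq, Set.ncard_insert_of_notMem, Nat.card_coe_set_eq]
      rintro ⟨_, a, ha⟩
      simp at ha
    have h4 := card_Sol_prime_pow hp (k := 1) Nat.one_pos
    rw [pow_one] at h4
    rw [h1, h2, h3]
    push_cast
    rw [h4]
    have hp0 : (p : ℝ) ≠ 0 := by exact_mod_cast hp.ne_zero
    have h5 : (p : ℝ) ^ 2 * (1 - 1 / (p : ℝ) ^ 2) + 1 = (p : ℝ) ^ 2 := by field_simp; ring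
    rw [h5, mul_pow]
    exact mul_le_mul_of_nonneg_left (card_Sol_bounds c hc).2 (sq_nonneg _)

end Pool.Agent.Lib.MP_1acd66_nt.Tw
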