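import Pool.Agent.Lib.MP_1acd66_nt.Tw.SumPhi

/-!
Residue classes of incident pairs.
-/

namespace Pool.Agent.Lib.MP_1acd66_nt.Tw

open Finset

/-- reduction modulo `q` -/
def rsd {n : ℕ} (q : ℕ) (x : Fin n → ℤ) : Fin n → ℤ := fun i => x i % q

/-- reduced residues -/
noncomputable def BQ (q n : ℕ) : Finset (Fin n → ℤ) := Fintype.piFinset fun _ => Finset.Ico (0:ℤ) q

theorem mem_BQ {q n : ℕ} {x : Fin n → ℤ} : x ∈ BQ q n ↔ ∀ i, 0 ≤ x i ∧ x i < q := by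
  simp [BQ]

theorem card_BQ (q n : ℕ) : (BQ q n).card = q ^ n := by
  simp [BQ]

theorem rsd_mem {n q : ℕ} (hq : 0 < q) (x : Fin n → ℤ) : rsd q x ∈ BQ q n := by
  have hq' : (0:ℤ) < q := by exact_mod_cast hq
  rw [mem_BQ]
  exact fun i => ⟨Int.emod_nonneg _ hq'.ne', Int.emod_lt_of_pos _ hq'⟩

theorem cg_rsd {n q : ℕ} (x : Fin n → ℤ) : Cg q x (rsd q x) := fun _ => Int.dvd_self_sub_emod

theorem rsd_eq_iff {n q : ℕ} {x ξ : Fin n → ℤ} (hξ : ξ ∈ BQ q n) :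
    rsd q x = ξ ↔ Cg q x ξ := by
  constructor
  · rintro rfl; exact cg_rsd x
  · intro h
    rw [mem_BQ] at hξ
    funext i
    have h1 := h i
    obtain ⟨h2, h3⟩ := hξ i
    have h4 : x i % q = ξ i % q :=
      Int.emod_eq_emod_iff_emod_sub_eq_zero.2 (Int.emod_eq_zero_of_dvd h1)
    simp only [rsd]
    rw [h4, Int.emod_eq_of_lt h2 h3]

/-- primitivity at the primes dividing `q` -/
def PM {n : ℕ} (q : ℕ) (x : Fin n → ℤ) : Prop := ∀ p : ℕ, p.Prime → p ∣ q → ∃ i, ¬ (p : ℤ) ∣ x i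

theorem Prim.pm {n : ℕ} {x : Fin n → ℤ} (h : Prim x) (q : ℕ) : PM q x := fun _ hp _ => h.not_dvd hp

theorem PM.congr {n q : ℕ} {x y : Fin n → ℤ} (h : PM q x) (hxy : Cg q x y) : PM q y := by
  intro p hp hpq
  obtain ⟨i, hi⟩ := h p hp hpq
  refine ⟨i, fun hcon => hi ?_⟩
  have h1 : (p : ℤ) ∣ x i - y i := (Int.natCast_dvd_natCast.2 hpq).trans (hxy i)
  have := dvd_add h1 hcon
  rwa [sub_add_cancel] at this

theorem Cg.of_dvd {n q q' : ℕ} {x y : Fin n → ℤ} (h : Cg q x y) (hq : q' ∣ q) : Cg q' x y :=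
  fun i => (Int.natCast_dvd_natCast.2 hq).trans (h i)

theorem PM.of_dvd {n q q' : ℕ} {x : Fin n → ℤ} (h : PM q x) (hq : q' ∣ q) : PM q' x :=
  fun p hp hpq => h p hp (hpq.trans hq)

open Classical in
/-- the residues of the second vectors -/
noncomputable def HQ (q : ℕ) (ξ : Fin 3 → ℤ) : Finset (Fin 4 → ℤ) :=
  (BQ q 4).filter fun η => IncMod q ξ η ∧ PM q η

theorem mem_HQ {q : ℕ} {ξ : Fin 3 → ℤ} {η : Fin 4 → ℤ} :
    η ∈ HQ q ξ ↔ η ∈ BQ q 4 ∧ IncMod q ξ η ∧ PM q η := by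
  classical
  unfold HQ
  rw [mem_filter]

theorem card_HQ_le {q : ℕ} (hq : 0 < q) {x ξ : Fin 3 → ℤ} (hx : Prim x) (hxξ : Cg q x ξ) :
    (HQ q ξ).card ≤ q ^ 2 := by
  classical
  obtain ⟨hbas, _⟩ := rb_spec hx
  have hex : ∀ η ∈ HQ q ξ, ∃ a : Fin 2 → ℤ, Cg q (cmb a (rb x)) η := by
    intro η hη
    obtain ⟨_, h2, _⟩ := mem_HQ.1 hη
    obtain ⟨y, hy, hyη⟩ := exists_lift hx (h2.congr hxξ.symm (Cg.refl η))
    obtain ⟨a, rfl⟩ := hbas.exists_cmb hx hy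
    exact ⟨a, hyη⟩
  choose! a ha using hex
  rw [← card_BQ q 2]
  refine card_le_card_of_injOn (fun η => rsd q (a η)) (fun η _ => rsd_mem hq _) ?_
  intro η hη η' hη' h
  have h1 : Cg q (a η) (a η') := by
    refine (cg_rsd (q := q) (a η)).trans ?_
    simp only at h
    rw [h]
    exact (cg_rsd _).symm
  have h2 : Cg q (cmb (a η) (rb x)) (cmb (a η') (rb x)) := (hbas.cg_iff hx hq _ _).2 h1
  have h3 : Cg q η η' := ((ha η hη).symm.trans h2).trans (ha η' hη')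
  have e1 : rsd q η = η' := (rsd_eq_iff (mem_HQ.1 hη').1).2 h3
  have e2 : rsd q η = η := (rsd_eq_iff (mem_HQ.1 hη).1).2 (Cg.refl η)
  rw [← e2, e1]

theorem card_div_BQ {q n p : ℕ} (hp : 0 < p) (hpq : p ∣ q) [DecidablePred fun x : Fin n → ℤ => ∀ i, (p:ℤ) ∣ x i] :
    (((BQ q n).filter fun x => ∀ i, (p:ℤ) ∣ x i).card : ℝ) ≤ (q:ℝ) ^ n * (1 / (p:ℝ) ^ n) := by
  classical
  obtain ⟨r, rfl⟩ := hpq
  have hp' : (p:ℤ) ≠ 0 := by exact_mod_cast hp.ne'
  have h1 : ((BQ (p * r) n).filter fun x => ∀ i, (p:ℤ) ∣ x i).card ≤ (BQ r n).card := by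
    refine card_le_card_of_injOn (fun x i => x i / p) ?_ ?_
    · intro x hx
      rw [mem_coe, mem_filter, mem_BQ] at hx
      rw [mem_coe, mem_BQ]
      intro i
      obtain ⟨h2, h3⟩ := hx.1 i
      refine ⟨Int.ediv_nonneg h2 (by positivity), ?_⟩
      apply Int.ediv_lt_of_lt_mul (by exact_mod_cast hp)
      rw [mul_comm]
      exact_mod_cast h3
    · intro x hx y hy hxy
      rw [mem_coe, mem_filter] at hx hy
      funext i
      have := congrFun hxy i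
      simp only at this
      have e1 := Int.mul_ediv_cancel' (hx.2 i)
      have e2 := Int.mul_ediv_cancel' (hy.2 i)
      rw [← e1, ← e2, this]
  rw [card_BQ] at h1
  have hp'' : (0:ℝ) < p := by exact_mod_cast hp
  calc (((BQ (p * r) n).filter fun x => ∀ i, (p:ℤ) ∣ x i).card : ℝ) ≤ ((r ^ n : ℕ) : ℝ) := by
        exact_mod_cast h1
    _ = _ := by push_cast; rw [mul_pow]; field_simp

theorem sum_primes_le (q : ℕ) : ∑ p ∈ q.primeFactors, 1 / (p:ℝ) ^ 2 ≤ 11 / 12 := by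
  have hsub : q.primeFactors ⊆ Icc 2 (q.primeFactors.sup id) := by
    intro p hp
    exact mem_Icc.2 ⟨(Nat.prime_of_mem_primeFactors hp).two_le, le_sup (f := id) hp⟩
  refine (sum_le_sum_of_subset_of_nonneg hsub fun _ _ _ => by positivity).trans ?_
  set M := q.primeFactors.sup id
  have h3 := sum_inv_sq_tail (P := 3) (by norm_num) M
  by_cases hM : 2 ≤ M
  · have e : Icc 2 M = insert 2 (Icc 3 M) := by
      ext n; simp only [mem_Icc, mem_insert]; omega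
    rw [e, sum_insert (by simp)]
    push_cast at h3 ⊢
    norm_num at h3 ⊢
    linarith
  · rw [Icc_eq_empty hM, sum_empty]; norm_num

theorem card_PM {q n : ℕ} (hq : 0 < q) (hn : 2 ≤ n) [DecidablePred fun x : Fin n → ℤ => PM q x] :
    (q:ℝ) ^ n / 12 ≤ (((BQ q n).filter fun x => PM q x).card : ℝ) := by
  classical
  have h1 : (BQ q n).filter (fun x => ¬ PM q x) ⊆
      q.primeFactors.biUnion (fun p => (BQ q n).filter fun x => ∀ i, (p:ℤ) ∣ x i) := by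
    intro x hx
    obtain ⟨h2, h3⟩ := mem_filter.1 hx
    unfold PM at h3
    push Not at h3
    obtain ⟨p, hp, hpq, h4⟩ := h3
    exact mem_biUnion.2 ⟨p, Nat.mem_primeFactors.2 ⟨hp, hpq, hq.ne'⟩, mem_filter.2 ⟨h2, h4⟩⟩
  have h2 : (((BQ q n).filter (fun x => ¬ PM q x)).card : ℝ) ≤ (q:ℝ) ^ n * (11 / 12) := by
    calc (((BQ q n).filter (fun x => ¬ PM q x)).card : ℝ)
        ≤ ((∑ p ∈ q.primeFactors, ((BQ q n).filter fun x => ∀ i, (p:ℤ) ∣ x i).card : ℕ) : ℝ) := by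
          exact_mod_cast (card_le_card h1).trans card_biUnion_le
      _ = ∑ p ∈ q.primeFactors, (((BQ q n).filter fun x => ∀ i, (p:ℤ) ∣ x i).card : ℝ) := by
          push_cast; rfl
      _ ≤ ∑ p ∈ q.primeFactors, (q:ℝ) ^ n * (1 / (p:ℝ) ^ 2) := by
          refine sum_le_sum fun p hp => ?_
          have hpp := (Nat.mem_primeFactors.1 hp).1
          have hp1 : (1:ℝ) ≤ p := by exact_mod_cast hpp.one_le
          refine (card_div_BQ hpp.pos (Nat.mem_primeFactors.1 hp).2.1).trans ?_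
          apply mul_le_mul_of_nonneg_left _ (by positivity)
          apply one_div_le_one_div_of_le (by positivity)
          exact pow_le_pow_right₀ hp1 hn
      _ = (q:ℝ) ^ n * ∑ p ∈ q.primeFactors, 1 / (p:ℝ) ^ 2 := by rw [mul_sum]
      _ ≤ _ := by
          have := sum_primes_le q
          gcongr
  have h3 := card_filter_add_card_filter_not (s := BQ q n) (fun x => PM q x)
  rw [card_BQ] at h3
  have h4 : (((BQ q n).filter fun x => PM q x).card : ℝ) +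
      (((BQ q n).filter fun x => ¬ PM q x).card : ℝ) = (q:ℝ) ^ n := by exact_mod_cast h3
  linarith

theorem isCoprime_of_pm {n q : ℕ} {x : Fin n → ℤ} {g : ℤ} (h : PM q x) (hg : ∀ i, g ∣ x i) :
    IsCoprime g (q : ℤ) := by
  rw [Int.isCoprime_iff_gcd_eq_one]
  by_contra hne
  obtain ⟨p, hp, hpd⟩ := Nat.exists_prime_and_dvd hne
  have h1 : (p : ℤ) ∣ g := (Int.natCast_dvd_natCast.2 hpd).trans (Int.gcd_dvd_left _ _)
  have h2 : (p : ℤ) ∣ (q : ℤ) := (Int.natCast_dvd_natCast.2 hpd).trans (Int.gcd_dvd_right _ _)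
  obtain ⟨i, hi⟩ := h p hp (Int.natCast_dvd_natCast.1 h2)
  exact hi (h1.trans (hg i))

/-- a nonzero vector is a multiple of a primitive one -/
theorem exists_prim {n : ℕ} {x : Fin n → ℤ} (hx : x ≠ 0) :
    ∃ (g : ℕ) (z : Fin n → ℤ), 0 < g ∧ Prim z ∧ x = (g : ℤ) • z := by
  obtain ⟨g, hg⟩ := (IsPrincipalIdealRing.principal (Ideal.span (Set.range x))).principal
  have hg' : Ideal.span (Set.range x) = Ideal.span {g} := hg
  have hdvd : ∀ i, g ∣ x i := by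
    intro i
    have : x i ∈ Ideal.span (Set.range x) := Ideal.subset_span ⟨i, rfl⟩
    rw [hg'] at this
    exact Ideal.mem_span_singleton.1 this
  have hg0 : g ≠ 0 := by
    rintro rfl
    apply hx
    funext i
    exact zero_dvd_iff.1 (hdvd i)
  have hmem : g ∈ Ideal.span (Set.range x) := by
    rw [hg']; exact Ideal.mem_span_singleton_self g
  rw [Ideal.mem_span_range_iff_exists_fun] at hmem
  obtain ⟨c, hc⟩ := hmem
  have hab : (g.natAbs : ℤ) ≠ 0 := by exact_mod_cast Int.natAbs_ne_zero.2 hg0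
  have hdvd' : ∀ i, (g.natAbs : ℤ) ∣ x i := fun i => Int.natAbs_dvd.2 (hdvd i)
  choose z hz using hdvd'
  refine ⟨g.natAbs, z, Int.natAbs_pos.2 hg0, ?_, funext fun i => by
    rw [Pi.smul_apply, smul_eq_mul]; exact hz i⟩
  rcases Int.natAbs_eq g with h | h
  · refine ⟨c, ?_⟩
    apply mul_left_cancel₀ hab
    rw [mul_one, mul_sum]
    have h3 : ∑ i, (g.natAbs : ℤ) * (c i * z i) = ∑ i, c i * x i := by
      refine sum_congr rfl fun i _ => ?_
      rw [hz i]; ring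
    rw [h3, hc, ← h]
  · refine ⟨fun i => -c i, ?_⟩
    apply mul_left_cancel₀ hab
    rw [mul_one, mul_sum]
    have h2 : (g.natAbs : ℤ) = -g := by linarith
    have h3 : ∑ i, (g.natAbs : ℤ) * (-c i * z i) = -∑ i, c i * x i := by
      rw [← sum_neg_distrib]
      refine sum_congr rfl fun i _ => ?_
      rw [hz i]; ring
    rw [h3, hc, h2]

theorem card_HQ_ge {q : ℕ} (hq : 2 ≤ q) {ξ : Fin 3 → ℤ} (hξ : PM q ξ) :
    (q:ℝ) ^ 2 / 12 ≤ (HQ q ξ).card := by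
  classical
  have hq0 : 0 < q := by omega
  have hξ0 : ξ ≠ 0 := by
    rintro rfl
    obtain ⟨p, hp, hpq⟩ := Nat.exists_prime_and_dvd (by omega : q ≠ 1)
    obtain ⟨i, hi⟩ := hξ p hp hpq
    exact hi (dvd_zero _)
  obtain ⟨g, x, hg, hx, hgx⟩ := exists_prim hξ0
  obtain ⟨hbas, _⟩ := rb_spec hx
  refine (card_PM hq0 (le_refl 2)).trans ?_
  have h1 : ((BQ q 2).filter fun a => PM q a).card ≤ (HQ q ξ).card := by
    refine card_le_card_of_injOn (fun a => rsd q (cmb a (rb x))) ?_ ?_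
    · intro a ha
      rw [mem_coe, mem_filter] at ha
      rw [mem_coe, mem_HQ]
      refine ⟨rsd_mem hq0 _, ?_, ?_⟩
      · have hinc : Inc ξ (cmb a (rb x)) := by
          have h2 : Inc x (cmb a (rb x)) := hbas.1.comb hbas.2.1 _ _
          have h3 := h2.smul (g : ℤ) 1
          rw [one_smul, ← hgx] at h3
          exact h3
        exact hinc.incMod.congr (Cg.refl _) (cg_rsd _)
      · have hpm : PM q (cmb a (rb x)) := by
          intro p hp hpq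
          by_contra hcon
          push Not at hcon
          obtain ⟨i, hi⟩ := ha.2 p hp hpq
          have h2 : Cg p (cmb a (rb x)) (cmb 0 (rb x)) := by
            intro j
            have : cmb (0 : Fin 2 → ℤ) (rb x) j = 0 := by simp [cmb]
            rw [this, sub_zero]; exact hcon j
          have h3 := (hbas.cg_iff hx hp.pos a 0).1 h2 i
          simp only [Pi.zero_apply, sub_zero] at h3
          exact hi h3
        exact hpm.congr (cg_rsd _)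
    · intro a ha b hb hab
      rw [mem_coe, mem_filter] at ha hb
      simp only at hab
      have h2 : Cg q (cmb a (rb x)) (cmb b (rb x)) := by
        refine (cg_rsd (q := q) _).trans ?_
        rw [hab]
        exact (cg_rsd _).symm
      have h3 := (hbas.cg_iff hx hq0 a b).1 h2
      have e1 : rsd q a = b := (rsd_eq_iff hb.1).2 h3
      have e2 : rsd q a = a := (rsd_eq_iff ha.1).2 (Cg.refl a)
      rw [← e2, e1]
  exact_mod_cast h1

/-- The finite part of the height. -/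
structure Tame (f : (Fin 3 → ℤ) → (Fin 4 → ℤ) → ℝ) (S : ℕ) (f0 f1 : ℝ) : Prop where
  spos : 0 < S
  pos : 0 < f0
  bd : ∀ x y, PM S x → PM S y → Inc x y → f0 ≤ f x y ∧ f x y ≤ f1
  unit : ∀ x y, PM S x → PM S y → Inc x y → ∀ u v : ℤ, IsCoprime u (S : ℤ) →
    IsCoprime v (S : ℤ) → f (u • x) (v • y) = f x y
  approx : ∀ ε : ℝ, 0 < ε → ∃ q0 : ℕ, 0 < q0 ∧ S ∣ q0 ∧ ∀ x x' y y', PM q0 x → PM q0 y →
    Inc x y → Inc x' y' → Cg q0 x x' → Cg q0 y y' → f x' y' ≤ (1 + ε) * f x y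

/-- approximation of the finite part by a function of residues -/
def ClassApprox (f : (Fin 3 → ℤ) → (Fin 4 → ℤ) → ℝ) (q : ℕ)
    (g : (Fin 3 → ℤ) → (Fin 4 → ℤ) → ℝ) (f0 f1 ε : ℝ) : Prop :=
  (∀ ξ η, f0 ≤ g ξ η ∧ g ξ η ≤ f1) ∧ ∀ x y, PM q x → PM q y → Inc x y →
    f x y ≤ (1 + ε) * g (rsd q x) (rsd q y) ∧ g (rsd q x) (rsd q y) ≤ (1 + ε) * f x y

theorem Tame.exists_approx {f : (Fin 3 → ℤ) → (Fin 4 → ℤ) → ℝ} {S : ℕ} {f0 f1 : ℝ}
    (h : Tame f S f0 f1) (h01 : f0 ≤ f1) {ε : ℝ} (hε : 0 < ε) : ∃ q0 : ℕ, 0 < q0 ∧ S ∣ q0 ∧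
      ∀ q : ℕ, 0 < q → q0 ∣ q → ∃ g, ClassApprox f q g f0 f1 ε := by
  classical
  obtain ⟨q0, hq0, hS, H⟩ := h.approx ε hε
  refine ⟨q0, hq0, hS, fun q hq hq0q => ?_⟩
  set T : (Fin 3 → ℤ) → (Fin 4 → ℤ) → Prop := fun ξ η =>
    ∃ p : (Fin 3 → ℤ) × (Fin 4 → ℤ), PM q p.1 ∧ PM q p.2 ∧ Inc p.1 p.2 ∧ Cg q p.1 ξ ∧ Cg q p.2 η
    with hT
  refine ⟨fun ξ η => if ht : T ξ η then f ht.choose.1 ht.choose.2 else f0, ?_, ?_⟩
  · intro ξ η
    by_cases ht : T ξ η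
    · simp only [dif_pos ht]
      obtain ⟨a1, a2, a3, _, _⟩ := ht.choose_spec
      exact h.bd _ _ (a1.of_dvd (hS.trans hq0q)) (a2.of_dvd (hS.trans hq0q)) a3
    · simp only [dif_neg ht]
      exact ⟨le_rfl, h01⟩
  · intro x y hx hy hxy
    have ht : T (rsd q x) (rsd q y) := ⟨(x, y), hx, hy, hxy, cg_rsd x, cg_rsd y⟩
    simp only [dif_pos ht]
    obtain ⟨a1, a2, a3, a4, a5⟩ := ht.choose_spec
    have cq : ∀ {n : ℕ} {u v : Fin n → ℤ}, Cg q u v → Cg q0 u v := fun h i =>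
      (Int.natCast_dvd_natCast.2 hq0q).trans (h i)
    have c1 : Cg q0 ht.choose.1 x := cq (a4.trans (cg_rsd x).symm)
    have c2 : Cg q0 ht.choose.2 y := cq (a5.trans (cg_rsd y).symm)
    exact ⟨H _ _ _ _ (a1.of_dvd hq0q) (a2.of_dvd hq0q) a3 hxy c1 c2,
      H _ _ _ _ (hx.of_dvd hq0q) (hy.of_dvd hq0q) hxy a3 c1.symm c2.symm⟩

/-- primitive incident pairs of bounded height off the exceptional divisor -/
def pairSet (M : (Fin 3 → ℝ) → (Fin 4 → ℝ) → ℝ) (f : (Fin 3 → ℤ) → (Fin 4 → ℤ) → ℝ) (B : ℝ) :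
    Set XY :=
  {q | Prim q.1 ∧ Prim q.2 ∧ Inc q.1 q.2 ∧ qf q.2 ≠ 0 ∧ M (castv q.1) (castv q.2) * f q.1 q.2 ≤ B}

/-- those with a small first vector -/
def regB (M : (Fin 3 → ℝ) → (Fin 4 → ℝ) → ℝ) (f : (Fin 3 → ℤ) → (Fin 4 → ℤ) → ℝ) (B R : ℝ) :
    Set XY := {q | q ∈ pairSet M f B ∧ nrm q.1 ≤ R}

end Pool.Agent.Lib.MP_1acd66_nt.Tw
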