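import Pool.Agent.Lib.MP_1acd66_nt.Tw.LatCount
import Pool.Agent.Lib.MP_1acd66_nt.Tw.Res

/-!
The number of primitive vectors `x` with a short incident vector, nondegenerate case.
-/

namespace Pool.Agent.Lib.MP_1acd66_nt.Tw

open Finset

theorem sum_two_pow_le (F : Finset ℕ) {L : ℝ} (hL : 0 ≤ L) (h : ∀ k ∈ F, (2 : ℝ) ^ k ≤ L) :
    ∑ k ∈ F, (2 : ℝ) ^ k ≤ 2 * L := by
  rcases F.eq_empty_or_nonempty with rfl | hne
  · simp; exact hL
  · obtain ⟨K, hK, hmax⟩ := F.exists_max_image id hne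
    have h1 : F ⊆ range (K + 1) := fun k hk => mem_range.2 (Nat.lt_succ_of_le (hmax k hk))
    calc ∑ k ∈ F, (2 : ℝ) ^ k ≤ ∑ k ∈ range (K + 1), (2 : ℝ) ^ k :=
          sum_le_sum_of_subset_of_nonneg h1 fun _ _ _ => by positivity
      _ = 2 ^ (K + 1) - 1 := by
          have := geom_sum_eq (by norm_num : (2 : ℝ) ≠ 1) (K + 1)
          rw [this]; ring
      _ ≤ 2 * L := by
          have := h K hK
          rw [pow_succ]
          linarith

theorem sum_four_pow_le (F : Finset ℕ) {L : ℝ} (hL : 0 ≤ L) (h : ∀ k ∈ F, (2 : ℝ) ^ k ≤ L) :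
    ∑ k ∈ F, (4 : ℝ) ^ k ≤ 2 * L ^ 2 := by
  calc ∑ k ∈ F, (4 : ℝ) ^ k ≤ ∑ k ∈ F, L * (2 : ℝ) ^ k := by
        refine sum_le_sum fun k hk => ?_
        have e : (4 : ℝ) ^ k = 2 ^ k * 2 ^ k := by rw [← mul_pow]; norm_num
        rw [e]
        exact mul_le_mul_of_nonneg_right (h k hk) (by positivity)
    _ = L * ∑ k ∈ F, (2 : ℝ) ^ k := by rw [mul_sum]
    _ ≤ L * (2 * L) := mul_le_mul_of_nonneg_left (sum_two_pow_le F hL h) hL
    _ = _ := by ring

/-- The number of points of a given size in residue classes, close to the cone. -/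
theorem level_class {m : ℕ} (hm : 0 < m) {A W : ℝ} (hA : 0 ≤ A) (k : ℕ)
    (h1 : (m : ℝ) ≤ A * 2 ^ k) (h2 : (m : ℝ) * 2 ^ k ≤ A * W) (hW : 0 < W)
    (R : Finset (Fin 4 → ℤ)) (S : Finset (Fin 4 → ℤ))
    (hS : ∀ y ∈ S, (∃ r ∈ R, ∀ i, (m : ℤ) ∣ y i - r i) ∧ y ≠ 0 ∧ lev y = k ∧ nrm (qf y) ≤ W) :
    (S.card : ℝ) ≤ 64 * ((2 + A) * (16 + A)) ^ 2 * (R.card / (m : ℝ) ^ 4) * W ^ 2 := by
  classical
  have hm' : (0 : ℝ) < m := by exact_mod_cast hm
  set Y : ℝ := 2 ^ k with hY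
  have hY0 : 0 < Y := by positivity
  set δ : ℝ := min 1 (W / Y ^ 2) with hδ
  have hδ0 : 0 < δ := lt_min one_pos (by positivity)
  have hδ1 : δ ≤ 1 := min_le_left _ _
  have hmY : (m : ℝ) ≤ A * (δ * Y) := by
    rcases min_choice 1 (W / Y ^ 2) with h | h
    · rw [hδ, h, one_mul]; exact h1
    · rw [hδ, h]
      have e : A * (W / Y ^ 2 * Y) = A * W / Y := by field_simp
      rw [e, le_div_iff₀ hY0]
      exact h2
  have hsub : S ⊆ R.biUnion (fun r => S.filter (fun y => ∀ i, (m : ℤ) ∣ y i - r i)) := by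
    intro y hy
    obtain ⟨⟨r, hr, hyr⟩, _⟩ := hS y hy
    exact mem_biUnion.2 ⟨r, hr, mem_filter.2 ⟨hy, hyr⟩⟩
  have hone : ∀ r ∈ R, ((S.filter (fun y => ∀ i, (m : ℤ) ∣ y i - r i)).card : ℝ) ≤
      64 * ((2 + A) * (16 + A)) ^ 2 * (δ ^ 2 * (Y / m) ^ 4) := by
    intro r _
    refine mesh hm hA hmY hδ0 hδ1 hY0 r _ ?_
    intro y hy
    rw [mem_filter] at hy
    obtain ⟨_, hy0, hl, hq⟩ := hS y hy.1
    obtain ⟨g1, g2⟩ := lev_spec hy0
    rw [hl, ← hY] at g1 g2
    refine ⟨hy.2, fun i => (abs_le_nrm y i).trans g2, ?_, ?_⟩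
    · obtain ⟨i, hi⟩ := exists_eq_nrm (by norm_num) y
      exact ⟨i, by rw [hi]; exact g1⟩
    · intro h8 j
      have h9 : δ = W / Y ^ 2 := by
        rcases min_choice 1 (W / Y ^ 2) with h | h
        · rw [hδ, h] at h8; norm_num at h8
        · rw [hδ, h]
      refine (abs_le_nrm (qf y) j).trans (hq.trans (le_of_eq ?_))
      rw [h9]
      field_simp
  have hδW : δ * Y ^ 2 ≤ W := by
    calc δ * Y ^ 2 ≤ W / Y ^ 2 * Y ^ 2 := mul_le_mul_of_nonneg_right (min_le_right _ _) (by positivity)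
      _ = W := by field_simp
  calc (S.card : ℝ) ≤ ((∑ r ∈ R, (S.filter (fun y => ∀ i, (m : ℤ) ∣ y i - r i)).card : ℕ) : ℝ) := by
        exact_mod_cast (card_le_card hsub).trans card_biUnion_le
    _ = ∑ r ∈ R, ((S.filter (fun y => ∀ i, (m : ℤ) ∣ y i - r i)).card : ℝ) := by push_cast; rfl
    _ ≤ ∑ _r ∈ R, 64 * ((2 + A) * (16 + A)) ^ 2 * (δ ^ 2 * (Y / m) ^ 4) := sum_le_sum hone
    _ = (64 * ((2 + A) * (16 + A)) ^ 2 * (R.card / (m : ℝ) ^ 4)) * (δ * Y ^ 2) ^ 2 := by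
        rw [sum_const, nsmul_eq_mul]
        field_simp
    _ ≤ (64 * ((2 + A) * (16 + A)) ^ 2 * (R.card / (m : ℝ) ^ 4)) * W ^ 2 := by gcongr

theorem nrm_smul_int {n : ℕ} (c : ℤ) (x : Fin n → ℤ) : nrm (c • x) = |(c : ℝ)| * nrm x := by
  have : (fun i => (((c • x) i : ℤ) : ℝ)) = (c : ℝ) • (fun i => ((x i : ℤ) : ℝ)) := by
    funext i
    simp
  rw [nrm, this, norm_smul, Real.norm_eq_abs, nrm]

theorem mem_J_of {m : ℕ} (hm : 0 < m) {y : Fin 4 → ℤ} (hq : ∀ j, (m : ℤ) ∣ qf y j)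
    (hp : PrimMod m y) : ∃ r ∈ J m, ∀ i, (m : ℤ) ∣ y i - r i := by
  have : NeZero m := ⟨hm.ne'⟩
  have hm' : (0 : ℤ) < m := by exact_mod_cast hm
  refine ⟨fun i => y i % m, ?_, fun i => Int.dvd_self_sub_emod⟩
  unfold J
  rw [mem_resSet]
  refine ⟨fun i => ⟨Int.emod_nonneg _ hm'.ne', Int.emod_lt_of_pos _ hm'⟩, ?_, ?_⟩
  · rw [qf_cast] at hq ⊢
    rw [← hq]
    congr 1
    funext i
    simp
  · rw [primMod_iff] at hp ⊢
    obtain ⟨a, ha⟩ := hp
    refine ⟨a, ?_⟩
    rw [← ha]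
    refine Finset.sum_congr rfl fun i _ => ?_
    simp

/-- pairs with a nondegenerate vector of given size -/
theorem pair_level {X : ℝ} (hX : 1 ≤ X) (k : ℕ) (hk : (2 : ℝ) ^ k ≤ 6 * X)
    (T : Finset (Fin 3 → ℤ)) (z : (Fin 3 → ℤ) → Fin 4 → ℤ)
    (hT : ∀ x ∈ T, Prim x ∧ X / 2 < nrm x ∧ nrm x ≤ X ∧ Prim (z x) ∧ Inc x (z x) ∧
      qf (z x) ≠ 0 ∧ lev (z x) = k) :
    (T.card : ℝ) ≤ 512 * ((2 + 24) * (16 + 24)) ^ 2 * (X * 4 ^ k) := by
  classical
  have hX0 : 0 < X := by linarith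
  have h4 : (4 : ℝ) ^ k = 2 ^ k * 2 ^ k := by rw [← mul_pow]; norm_num
  -- the multiplier
  have hex : ∀ x ∈ T, ∃ c : ℤ, qf (z x) = c • x := fun x hx => (hT x hx).2.2.2.2.1.exists_mul (hT x hx).1
  choose! c hc using hex
  have hcpos : ∀ x ∈ T, 1 ≤ (c x).natAbs := by
    intro x hx
    rw [Nat.one_le_iff_ne_zero, Int.natAbs_ne_zero]
    intro h0
    apply (hT x hx).2.2.2.2.2.1
    rw [hc x hx, h0, zero_smul]
  have hcle : ∀ x ∈ T, ((c x).natAbs : ℝ) ≤ 4 * 4 ^ k / X := by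
    intro x hx
    obtain ⟨_, h1, _, hpz, _, _, hl⟩ := hT x hx
    have g2 := (lev_spec hpz.ne_zero).2
    rw [hl] at g2
    have h3 : |((c x : ℤ) : ℝ)| * nrm x ≤ 2 * 4 ^ k := by
      rw [← nrm_smul_int, ← hc x hx]
      refine (nrm_qf_le _).trans ?_
      rw [h4]
      have := nrm_nonneg (z x)
      nlinarith
    rw [Nat.cast_natAbs, Int.cast_abs, le_div_iff₀ hX0]
    have : |((c x : ℤ) : ℝ)| * (X / 2) ≤ 2 * 4 ^ k :=
      (mul_le_mul_of_nonneg_left h1.le (abs_nonneg _)).trans h3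
    linarith
  set M := ⌊4 * 4 ^ k / X⌋₊ with hM
  have hmaps : ∀ x ∈ T, (c x).natAbs ∈ Icc 1 M := fun x hx =>
    mem_Icc.2 ⟨hcpos x hx, Nat.le_floor (hcle x hx)⟩
  have hfib : ∀ n ∈ Icc 1 M, ((T.filter (fun x => (c x).natAbs = n)).card : ℝ) ≤
      128 * ((2 + 24) * (16 + 24)) ^ 2 * X ^ 2 := by
    intro n hn
    obtain ⟨hn1, hn2⟩ := mem_Icc.1 hn
    have hn0 : (0 : ℝ) < n := by exact_mod_cast hn1
    set Tn := T.filter (fun x => (c x).natAbs = n) with hTn
    -- the fibres of `z`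
    have h2 : Tn.card ≤ 2 * (Tn.image z).card := by
      refine Finset.card_le_mul_card_image (f := z) Tn 2 ?_
      intro y _
      -- at most two vectors
      by_cases hex : ∃ x0, x0 ∈ Tn.filter (fun x => z x = y)
      · obtain ⟨x0, hx0⟩ := hex
        have hsub : Tn.filter (fun x => z x = y) ⊆ ({x0, -x0} : Finset (Fin 3 → ℤ)) := by
          intro x hx
          rw [mem_filter, hTn, mem_filter] at hx hx0
          obtain ⟨⟨hxT, hxn⟩, hxy⟩ := hx
          obtain ⟨⟨hx0T, hx0n⟩, hx0y⟩ := hx0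
          have e1 := hc x hxT
          have e2 := hc x0 hx0T
          rw [hxy] at e1
          rw [hx0y] at e2
          have hn' : (n : ℤ) ≠ 0 := by exact_mod_cast (by omega : n ≠ 0)
          rw [mem_insert, mem_singleton]
          have a1 : c x = n ∨ c x = -n := by
            rcases Int.natAbs_eq (c x) with h | h <;> rw [hxn] at h
            exacts [Or.inl h, Or.inr h]
          have a2 : c x0 = n ∨ c x0 = -n := by
            rcases Int.natAbs_eq (c x0) with h | h <;> rw [hx0n] at h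
            exacts [Or.inl h, Or.inr h]
          have key : ∀ (s t : ℤ) (u v : Fin 3 → ℤ), s • u = t • v → s = (n : ℤ) →
              t = n → u = v := by
            intro s t u v h hs ht
            rw [hs, ht] at h
            funext j
            have := congrFun h j
            simp only [Pi.smul_apply, smul_eq_mul] at this
            exact mul_left_cancel₀ hn' this
          have e3 := e1.symm.trans e2
          rcases a1 with a1 | a1 <;> rcases a2 with a2 | a2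
          · left; exact key _ _ _ _ e3 a1 a2
          · right
            refine key (c x) (-(c x0)) x (-x0) ?_ a1 (by rw [a2, neg_neg])
            rw [e3, neg_smul, smul_neg, neg_neg]
          · right
            refine key (-(c x)) (c x0) x (-x0) ?_ (by rw [a1, neg_neg]) a2
            rw [neg_smul, e3, smul_neg]
          · left
            refine key (-(c x)) (-(c x0)) _ _ ?_ (by rw [a1, neg_neg]) (by rw [a2, neg_neg])
            rw [neg_smul, neg_smul, e3]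
        exact (card_le_card hsub).trans card_le_two
      · have : Tn.filter (fun x => z x = y) = ∅ := by
          rw [eq_empty_iff_forall_notMem]
          exact fun x hx => hex ⟨x, hx⟩
        rw [this]; simp
    -- the number of values
    have h24 : (n : ℝ) ≤ 24 * 2 ^ k := by
      have h5 : (n : ℝ) ≤ 4 * 4 ^ k / X := (Nat.le_floor_iff (by positivity)).1 hn2
      rw [le_div_iff₀ hX0, h4] at h5
      have h6 : (n : ℝ) * X ≤ (24 * 2 ^ k) * X := by
        refine h5.trans ?_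
        have : (0:ℝ) ≤ 2 ^ k := by positivity
        nlinarith
      exact le_of_mul_le_mul_right h6 hX0
    have h3 := level_class (m := n) (by omega) (A := 24) (W := n * X) (by norm_num) k h24
      (by
        have : (n : ℝ) * 2 ^ k ≤ n * (6 * X) := mul_le_mul_of_nonneg_left hk hn0.le
        nlinarith) (by positivity) (J n) (Tn.image z) (by
          intro y hy
          obtain ⟨x, hx, rfl⟩ := mem_image.1 hy
          rw [hTn, mem_filter] at hx
          obtain ⟨hxT, hxn⟩ := hx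
          obtain ⟨_, _, g1, g2, _, _, g3⟩ := hT x hxT
          refine ⟨?_, g2.ne_zero, g3, ?_⟩
          · refine mem_J_of (by omega) (fun j => ?_) (g2.primMod n)
            rw [hc x hxT, Pi.smul_apply, smul_eq_mul]
            refine Dvd.dvd.mul_right ?_ _
            rw [← hxn]
            exact Int.natAbs_dvd.2 dvd_rfl
          · rw [hc x hxT, nrm_smul_int]
            have : |((c x : ℤ) : ℝ)| = n := by
              rw [← hxn, Nat.cast_natAbs, Int.cast_abs]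
            rw [this]
            gcongr)
    have h5 := (card_J (m := n) (by omega)).2
    calc (Tn.card : ℝ) ≤ 2 * ((Tn.image z).card : ℝ) := by exact_mod_cast h2
      _ ≤ 2 * (64 * ((2 + 24) * (16 + 24)) ^ 2 * ((J n).card / (n : ℝ) ^ 4) * (n * X) ^ 2) := by
          gcongr
      _ ≤ 2 * (64 * ((2 + 24) * (16 + 24)) ^ 2 * ((n : ℝ) ^ 2 / (n : ℝ) ^ 4) * (n * X) ^ 2) := by
          gcongr
      _ = _ := by field_simp; ring
  have hsum : (T.card : ℝ) ≤ ∑ n ∈ Icc 1 M, 128 * ((2 + 24) * (16 + 24)) ^ 2 * X ^ 2 := by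
    rw [card_eq_sum_card_fiberwise (f := fun x => (c x).natAbs) (t := Icc 1 M) hmaps]
    push_cast
    exact sum_le_sum hfib
  refine hsum.trans ?_
  rw [sum_const, Nat.card_Icc, nsmul_eq_mul, Nat.add_sub_cancel]
  have hMle : (M : ℝ) ≤ 4 * 4 ^ k / X := Nat.floor_le (by positivity)
  calc (M : ℝ) * (128 * ((2 + 24) * (16 + 24)) ^ 2 * X ^ 2)
      ≤ (4 * 4 ^ k / X) * (128 * ((2 + 24) * (16 + 24)) ^ 2 * X ^ 2) := by gcongr
    _ = _ := by field_simp; ring

end Pool.Agent.Lib.MP_1acd66_nt.Tw
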