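import Pool.Agent.Lib.MP_1acd66_nt.Tw.FT

/-!
Vectors at which the quadrics are small, together with a divisor of their values.
-/

namespace Pool.Agent.Lib.MP_1acd66_nt.Tw

open Finset

/-- a modulus and a vector -/
abbrev CY := ℕ × (Fin 4 → ℤ)

theorem card_le_fib {α β : Type*} [DecidableEq β] (s : Finset α) (f : α → β) (t : Finset β)
    (hst : ∀ a ∈ s, f a ∈ t) (w : β → ℝ)
    (h : ∀ b ∈ t, ((s.filter (fun a => f a = b)).card : ℝ) ≤ w b) :
    (s.card : ℝ) ≤ ∑ b ∈ t, w b := by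
  rw [card_eq_sum_card_fiberwise (f := f) (t := t) (fun a ha => hst a ha)]
  push_cast
  exact sum_le_sum h

/-- short vectors in the residue classes of the cone -/
theorem card_short {c : ℕ} (hc : 0 < c) (S : Finset (Fin 4 → ℤ))
    (hS : ∀ y ∈ S, (∀ j, (c:ℤ) ∣ qf y j) ∧ PrimMod c y ∧ nrm y < c) :
    (S.card : ℝ) ≤ 16 * (c:ℝ) ^ 2 := by
  classical
  have hc' : (0:ℤ) < c := by exact_mod_cast hc
  have h1 : S.card ≤ (J c ×ˢ (univ : Finset (Fin 4 → Bool))).card := by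
    refine card_le_card_of_injOn (fun y => (rsd c y, fun i => decide (y i < 0))) ?_ ?_
    · intro y hy
      obtain ⟨a1, a2, a3⟩ := hS y hy
      rw [mem_coe, mem_product]
      refine ⟨?_, mem_univ _⟩
      unfold J
      rw [mem_resSet]
      exact ⟨fun i => ⟨Int.emod_nonneg _ hc'.ne', Int.emod_lt_of_pos _ hc'⟩,
        dvd_qf_congr (cg_rsd y) a1, a2.congr dvd_rfl (cg_rsd y)⟩
    · intro y hy z hz h
      obtain ⟨_, _, a3⟩ := hS y hy
      obtain ⟨_, _, b3⟩ := hS z hz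
      have h1 := (Prod.ext_iff.1 h).1
      have h2 := (Prod.ext_iff.1 h).2
      funext i
      have e1 : y i % c = z i % c := congrFun h1 i
      have e2 : (y i < 0) ↔ (z i < 0) := by
        have := congrFun h2 i
        simpa using this
      have c1 : |((y i : ℤ) : ℝ)| < c := lt_of_le_of_lt (abs_le_nrm y i) a3
      have c2 : |((z i : ℤ) : ℝ)| < c := lt_of_le_of_lt (abs_le_nrm z i) b3
      have c1' : |y i| < c := by exact_mod_cast c1
      have c2' : |z i| < c := by exact_mod_cast c2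
      rw [abs_lt] at c1' c2'
      obtain ⟨t, ht⟩ : (c:ℤ) ∣ y i - z i := Int.ModEq.dvd (show z i % c = y i % c from e1.symm)
      have ht0 : t = 0 := by
        by_cases hy0 : y i < 0
        · have hz0 := e2.1 hy0
          have u1 : (c:ℤ) * t < c * 1 := by linarith
          have u2 : (c:ℤ) * (-1) < c * t := by linarith
          have v1 := lt_of_mul_lt_mul_left u1 hc'.le
          have v2 := lt_of_mul_lt_mul_left u2 hc'.le
          omega
        · have hz0 : ¬ z i < 0 := fun h => hy0 (e2.2 h)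
          have u1 : (c:ℤ) * t < c * 1 := by linarith
          have u2 : (c:ℤ) * (-1) < c * t := by linarith
          have v1 := lt_of_mul_lt_mul_left u1 hc'.le
          have v2 := lt_of_mul_lt_mul_left u2 hc'.le
          omega
      rw [ht0, mul_zero] at ht
      linarith
  rw [card_product, card_univ] at h1
  have h2 : Fintype.card (Fin 4 → Bool) = 16 := by simp
  rw [h2] at h1
  have h3 : (S.card : ℝ) ≤ (J c).card * 16 := by exact_mod_cast h1
  have h4 := (card_J hc).2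
  linarith

/-- vectors of one level at which the quadrics are small -/
theorem card_level_small {A R : ℝ} (hA : 0 ≤ A) (hR : 0 < R) {c k : ℕ} (hc : 0 < c)
    (h1 : (c:ℝ) ≤ A * 2 ^ k) (h2 : (2:ℝ) ^ k ≤ A * R) (S : Finset (Fin 4 → ℤ))
    (hS : ∀ y ∈ S, (∀ j, (c:ℤ) ∣ qf y j) ∧ PrimMod c y ∧ y ≠ 0 ∧ lev y = k ∧
      nrm (qf y) ≤ R * c) : (S.card : ℝ) ≤ 64 * ((2 + A) * (16 + A)) ^ 2 * R ^ 2 := by
  have hc' : (0:ℝ) < c := by exact_mod_cast hc
  have h := level_class hc (A := A) (W := R * c) hA k h1 (by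
    calc (c:ℝ) * 2 ^ k ≤ c * (A * R) := by gcongr
      _ = _ := by ring) (by positivity) (J c) S (by
      intro y hy
      obtain ⟨a1, a2, a3, a4, a5⟩ := hS y hy
      exact ⟨mem_J_of hc a1 a2, a3, a4, a5⟩)
  have hJ := (card_J hc).2
  have hJ2 : ((J c).card : ℝ) / (c:ℝ) ^ 4 ≤ 1 / (c:ℝ) ^ 2 := by
    rw [div_le_div_iff₀ (by positivity) (by positivity)]
    calc ((J c).card : ℝ) * (c:ℝ) ^ 2 ≤ (c:ℝ) ^ 2 * (c:ℝ) ^ 2 := by gcongr
      _ = _ := by ring
  refine h.trans ?_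
  calc 64 * ((2 + A) * (16 + A)) ^ 2 * ((J c).card / (c:ℝ) ^ 4) * (R * c) ^ 2
      ≤ 64 * ((2 + A) * (16 + A)) ^ 2 * (1 / (c:ℝ) ^ 2) * (R * c) ^ 2 := by gcongr
    _ = _ := by field_simp

theorem card_Icc_nat_le {L : ℝ} (hL : 0 ≤ L) (F : Finset ℕ) (h : ∀ c ∈ F, 0 < c ∧ (c:ℝ) ≤ L) :
    (F.card : ℝ) ≤ L := by
  have h1 : F ⊆ Icc 1 ⌊L⌋₊ := fun c hc => mem_Icc.2 ⟨(h c hc).1, Nat.le_floor (h c hc).2⟩
  have h2 := card_le_card h1
  rw [Nat.card_Icc, Nat.add_sub_cancel] at h2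
  calc (F.card : ℝ) ≤ ⌊L⌋₊ := by exact_mod_cast h2
    _ ≤ L := Nat.floor_le hL

/-- the pairs of a modulus and a vector at which the quadrics are small -/
theorem smallA {A R : ℝ} (hA : 1 ≤ A) (hR : 1 ≤ R) (D : Finset CY)
    (hD : ∀ p ∈ D, 0 < p.1 ∧ (p.1:ℝ) ≤ A * R ∧ (∀ j, (p.1:ℤ) ∣ qf p.2 j) ∧ PrimMod p.1 p.2 ∧
      p.2 ≠ 0 ∧ nrm (qf p.2) ≤ R * p.1 ∧ nrm p.2 ≤ A * R) :
    (D.card : ℝ) ≤ (16 * A ^ 3 + 4 * A * (64 * ((2 + 2 * A) * (16 + 2 * A)) ^ 2)) * R ^ 3 := by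
  classical
  have hA0 : 0 < A := by linarith
  have hR0 : 0 < R := by linarith
  have hAR : 0 < A * R := by positivity
  have hsplit := card_filter_add_card_filter_not (s := D) (fun p => nrm p.2 < p.1)
  set D1 := D.filter (fun p => nrm p.2 < p.1) with hD1
  have hD1m : ∀ p ∈ D1, p ∈ D ∧ nrm p.2 < p.1 := fun p hp => mem_filter.1 hp
  have h1 : (D1.card : ℝ) ≤ 16 * A ^ 3 * R ^ 3 := by
    set t := D1.image Prod.fst with ht
    have hf := card_le_fib D1 Prod.fst t (fun a ha => mem_image.2 ⟨a, ha, rfl⟩)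
      (fun _ => 16 * (A * R) ^ 2) (by
        intro c hc
        obtain ⟨p, hp, rfl⟩ := mem_image.1 hc
        obtain ⟨hp1, _⟩ := hD1m p hp
        obtain ⟨b1, b2, _⟩ := hD p hp1
        have hcard : ((D1.filter (fun a => a.1 = p.1)).image Prod.snd).card =
            (D1.filter (fun a => a.1 = p.1)).card := by
          apply card_image_of_injOn
          intro a ha b hb hab
          have ha1 := (mem_filter.1 (mem_coe.1 ha)).2
          have hb1 := (mem_filter.1 (mem_coe.1 hb)).2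
          exact Prod.ext (ha1.trans hb1.symm) hab
        rw [← hcard]
        refine (card_short b1 _ ?_).trans ?_
        · intro y hy
          obtain ⟨a, ha, rfl⟩ := mem_image.1 hy
          obtain ⟨ha1, ha2⟩ := mem_filter.1 ha
          obtain ⟨ha3, ha4⟩ := hD1m a ha1
          obtain ⟨c1, c2, c3, c4, c5, c6, c7⟩ := hD a ha3
          rw [← ha2]
          exact ⟨c3, c4, ha4⟩
        · have : (0:ℝ) ≤ p.1 := by positivity
          gcongr)
    rw [sum_const, nsmul_eq_mul] at hf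
    have hc := card_Icc_nat_le hAR.le t (by
      intro c hc
      obtain ⟨p, hp, rfl⟩ := mem_image.1 hc
      obtain ⟨b1, b2, _⟩ := hD p (hD1m p hp).1
      exact ⟨b1, b2⟩)
    refine hf.trans ?_
    calc (t.card : ℝ) * (16 * (A * R) ^ 2) ≤ (A * R) * (16 * (A * R) ^ 2) := by gcongr
      _ = _ := by ring
  set E := 64 * ((2 + 2 * A) * (16 + 2 * A)) ^ 2 * R ^ 2 with hE
  have hE0 : 0 ≤ E := by positivity
  set D2 := D.filter (fun p => ¬ nrm p.2 < p.1) with hD2
  have hD2m : ∀ p ∈ D2, 0 < p.1 ∧ (p.1:ℝ) ≤ 2 ^ lev p.2 ∧ (2:ℝ) ^ lev p.2 ≤ 2 * A * R := by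
    intro p hp
    obtain ⟨hp1, hp2⟩ := mem_filter.1 hp
    obtain ⟨c1, c2, c3, c4, c5, c6, c7⟩ := hD p hp1
    push Not at hp2
    have hl := lev_spec c5
    exact ⟨c1, hp2.trans hl.2, by linarith [hl.1]⟩
  have h2 : (D2.card : ℝ) ≤ 4 * A * E * R := by
    have hf := card_le_fib D2 (fun p => (⟨lev p.2, p.1⟩ : Σ _ : ℕ, ℕ))
      ((D2.image (fun p => lev p.2)).sigma (fun k => Icc 1 (2 ^ k))) (by
        intro p hp
        obtain ⟨b1, b2, b3⟩ := hD2m p hp
        rw [mem_sigma]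
        refine ⟨mem_image_of_mem _ hp, mem_Icc.2 ⟨b1, ?_⟩⟩
        exact_mod_cast b2) (fun _ => E) (by
        rintro ⟨k, c⟩ hkc
        rw [mem_sigma, mem_Icc] at hkc
        obtain ⟨hk, hc1, hc2⟩ := hkc
        simp only at hk hc1 hc2
        obtain ⟨p0, hp0, hk0⟩ := mem_image.1 hk
        obtain ⟨_, _, b3⟩ := hD2m p0 hp0
        have hk0' : lev p0.2 = k := hk0
        rw [hk0'] at b3
        have hcard : ((D2.filter (fun p => (⟨lev p.2, p.1⟩ : Σ _ : ℕ, ℕ) = ⟨k, c⟩)).image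
            Prod.snd).card = (D2.filter (fun p => (⟨lev p.2, p.1⟩ : Σ _ : ℕ, ℕ) = ⟨k, c⟩)).card := by
          apply card_image_of_injOn
          intro a ha b hb hab
          have ha1 := (mem_filter.1 (mem_coe.1 ha)).2
          have hb1 := (mem_filter.1 (mem_coe.1 hb)).2
          simp only [Sigma.mk.injEq, heq_eq_eq] at ha1 hb1
          exact Prod.ext (ha1.2.trans hb1.2.symm) hab
        rw [← hcard]
        have hc2' : (c:ℝ) ≤ 2 ^ k := by exact_mod_cast hc2
        refine card_level_small (A := 2 * A) (by positivity) hR0 hc1 (k := k) ?_ b3 _ ?_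
        · have : (0:ℝ) < 2 ^ k := by positivity
          nlinarith
        · intro y hy
          obtain ⟨a, ha, rfl⟩ := mem_image.1 hy
          obtain ⟨ha1, ha2⟩ := mem_filter.1 ha
          simp only [Sigma.mk.injEq, heq_eq_eq] at ha2
          obtain ⟨c1, c2, c3, c4, c5, c6, c7⟩ := hD a (mem_filter.1 ha1).1
          rw [← ha2.2]
          exact ⟨c3, c4, c5, ha2.1, c6⟩)
    rw [sum_const, nsmul_eq_mul, card_sigma] at hf
    have hs : ((∑ k ∈ D2.image (fun p => lev p.2), (Icc 1 (2 ^ k)).card : ℕ) : ℝ) ≤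
        2 * (2 * A * R) := by
      push_cast
      simp only [Nat.card_Icc, Nat.add_sub_cancel]
      push_cast
      refine sum_two_pow_le _ (by positivity) ?_
      intro k hk
      obtain ⟨p, hp, rfl⟩ := mem_image.1 hk
      exact (hD2m p hp).2.2
    calc (D2.card : ℝ) ≤ _ := hf
      _ ≤ 2 * (2 * A * R) * E := by gcongr
      _ = _ := by ring
  have h3 : (D1.card : ℝ) + (D2.card : ℝ) = D.card := by
    exact_mod_cast hsplit
  rw [← h3]
  have h4 : 4 * A * E * R = 4 * A * (64 * ((2 + 2 * A) * (16 + 2 * A)) ^ 2) * R ^ 3 := by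
    rw [hE]; ring
  linarith

end Pool.Agent.Lib.MP_1acd66_nt.Tw
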