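import Mathlib

/-!
The Fano threefold `V` number 2.27 of the list of Mori and Mukai: the blow-up of `P^3` along the
twisted cubic, as the intersection of two hypersurfaces of bidegree `(1,1)` in `P^2 × P^3`. Its
anticanonical bundle is the restriction of `O(1,2)`; adelic norms on it and the associated heights
over `ℚ`.
-/

namespace Pool.Agent.Lib.MP_1acd66_nt.Tw

/-- The two equations of bidegree `(1,1)` which define `V` in `P^2 × P^3`. -/
def Inc {K : Type*} [CommRing K] (x : Fin 3 → K) (y : Fin 4 → K) : Prop :=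
  x 0 * y 0 + x 1 * y 1 + x 2 * y 2 = 0 ∧ x 0 * y 1 + x 1 * y 2 + x 2 * y 3 = 0

/-- The three quadrics through the twisted cubic. -/
def qf {K : Type*} [CommRing K] (y : Fin 4 → K) : Fin 3 → K :=
  ![y 1 * y 3 - y 2 ^ 2, y 1 * y 2 - y 0 * y 3, y 0 * y 2 - y 1 ^ 2]

/-- The local norms on the anticanonical bundle `O(1,2)`, as functions of the coordinates:
continuous, positive, homogeneous of bidegree `(1,2)`. -/
structure IsLocalNorm (K : Type*) [NormedField K] (M : (Fin 3 → K) → (Fin 4 → K) → ℝ) : Prop where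
  cont : ContinuousOn (fun q : (Fin 3 → K) × (Fin 4 → K) => M q.1 q.2)
    {q | q.1 ≠ 0 ∧ q.2 ≠ 0 ∧ Inc q.1 q.2}
  pos : ∀ x y, x ≠ 0 → y ≠ 0 → Inc x y → 0 < M x y
  scale : ∀ x y, x ≠ 0 → y ≠ 0 → Inc x y → ∀ s t : K, s ≠ 0 → t ≠ 0 →
    M (s • x) (t • y) = ‖s‖ * ‖t‖ ^ 2 * M x y

instance factPrime (p : Nat.Primes) : Fact p.1.Prime := ⟨p.2⟩

/-- An adelic metric on the anticanonical bundle: local norms at all places of `ℚ`, given by the
standard integral model at all but finitely many primes. -/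
structure AdelicNorm where
  /-- the norm at the real place -/
  inf : (Fin 3 → ℝ) → (Fin 4 → ℝ) → ℝ
  /-- the norm at the prime `p` -/
  fin : ∀ p : Nat.Primes, (Fin 3 → ℚ_[(p : ℕ)]) → (Fin 4 → ℚ_[(p : ℕ)]) → ℝ
  isNorm_inf : IsLocalNorm ℝ inf
  isNorm_fin : ∀ p : Nat.Primes, IsLocalNorm ℚ_[(p : ℕ)] (fin p)
  almost : ∃ S : Finset Nat.Primes, ∀ p : Nat.Primes, p ∉ S → ∀ x y, x ≠ 0 → y ≠ 0 → Inc x y →
    fin p x y = ‖x‖ * ‖y‖ ^ 2

/-- A rational vector with entries regarded in a field `K`. -/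
def castK (K : Type*) [Field K] {n : ℕ} (x : Fin n → ℚ) : Fin n → K := fun i => (x i : K)

/-- The relative anticanonical height in terms of homogeneous coordinates. -/
noncomputable def AdelicNorm.height (h : AdelicNorm) (x : Fin 3 → ℚ) (y : Fin 4 → ℚ) : ℝ :=
  h.inf (castK ℝ x) (castK ℝ y) *
    ∏ᶠ p : Nat.Primes, h.fin p (castK ℚ_[(p : ℕ)] x) (castK ℚ_[(p : ℕ)] y)

/-- The rational points of `V` of height at most `B` which do not lie on the exceptional divisor,
that is, of which the image in `P^3` does not lie on the twisted cubic. -/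
def countSet (h : AdelicNorm) (B : ℝ) :
    Set (Projectivization ℚ (Fin 3 → ℚ) × Projectivization ℚ (Fin 4 → ℚ)) :=
  {P | ∃ (x : Fin 3 → ℚ) (y : Fin 4 → ℚ) (hx : x ≠ 0) (hy : y ≠ 0),
    P = (Projectivization.mk ℚ x hx, Projectivization.mk ℚ y hy) ∧ Inc x y ∧ qf y ≠ 0 ∧
      h.height x y ≤ B}

end Pool.Agent.Lib.MP_1acd66_nt.Tw
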