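import Pool.Agent.Lib.MP_1acd66_nt.Tw.ClsA

/-!
The sum over the contents.
-/

namespace Pool.Agent.Lib.MP_1acd66_nt.Tw

open Finset

/-- the contents -/
noncomputable def CS (q : ℕ) (R : ℝ) : Finset ℕ := (Icc 1 ⌊R⌋₊).filter (fun n => q.Coprime n)

theorem mem_CS {q : ℕ} {R : ℝ} (hR : 0 ≤ R) {c : ℕ} :
    c ∈ CS q R ↔ 0 < c ∧ (c:ℝ) ≤ R ∧ q.Coprime c := by
  unfold CS
  rw [mem_filter, mem_Icc, Nat.le_floor_iff hR]
  constructor
  · rintro ⟨⟨h1, h2⟩, h3⟩; exact ⟨h1, h2, h3⟩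
  · rintro ⟨h1, h2, h3⟩; exact ⟨⟨h1, h2⟩, h3⟩

/-- the constant of the main term -/
noncomputable def KA (M : (Fin 3 → ℝ) → (Fin 4 → ℝ) → ℝ) (T : ℝ)
    (g : (Fin 3 → ℤ) → (Fin 4 → ℤ) → ℝ) (q Q : ℕ) : ℝ :=
  VT M T * WA g q Q * ((q.totient : ℝ) / q)

theorem KA_nonneg {M : (Fin 3 → ℝ) → (Fin 4 → ℝ) → ℝ} {T : ℝ}
    {g : (Fin 3 → ℤ) → (Fin 4 → ℤ) → ℝ} {q Q : ℕ} {f0 f1 : ℝ} (hf0 : 0 < f0)
    (hg : ∀ ξ η, f0 ≤ g ξ η ∧ g ξ η ≤ f1) : 0 ≤ KA M T g q Q := by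
  unfold KA
  have h1 := VT_nonneg (M := M) T
  have h2 := WA_nonneg (q := q) (Q := Q) hf0 hg
  positivity

theorem main_sumA {M : (Fin 3 → ℝ) → (Fin 4 → ℝ) → ℝ} (hM : IsLocalNorm ℝ M) {T : ℝ} (hT : 0 < T)
    {g : (Fin 3 → ℤ) → (Fin 4 → ℤ) → ℝ} {f0 f1 : ℝ} (hf0 : 0 < f0)
    (hg : ∀ ξ η, f0 ≤ g ξ η ∧ g ξ η ≤ f1) {q Q : ℕ} (hq : 0 < q) (hQ : 0 < Q)
    (hqQ : ∀ p : ℕ, p.Prime → p ∣ Q → p ∣ q) {P : ℕ} (hP : 2 ≤ P)
    (hPq : ∀ p : ℕ, p.Prime → p < P → p ∣ q) {ε : ℝ} (hε : 0 < ε) :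
    ∃ K : ℝ, 0 < K ∧ ∀ R : ℝ, 1 ≤ R → ∀ b : ℝ, 0 < b →
      (∀ c ∈ CS q R, (TA M T g q Q c b).Finite) ∧
      KA M T g q Q * (1 - 2 / P) * (b * Real.log R) - ε * (b * (1 + Real.log R)) -
        K * (b + R ^ 3) ≤ ∑ c ∈ CS q R, ((TA M T g q Q c b).ncard : ℝ) ∧
      ∑ c ∈ CS q R, ((TA M T g q Q c b).ncard : ℝ) ≤
        KA M T g q Q * (b * Real.log R) + ε * (b * (1 + Real.log R)) + K * (b + R ^ 3) := by
  have hV := VT_nonneg (M := M) T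
  have hW := WA_nonneg (q := q) (Q := Q) hf0 hg
  set V := VT M T with hVdef
  set W := WA g q Q with hWdef
  have hq' : (0:ℝ) < q := by exact_mod_cast hq
  set ρ := (q.totient : ℝ) / q with hρ
  have hρ1 : ρ ≤ 1 := by
    rw [hρ, div_le_one hq']; exact_mod_cast Nat.totient_le q
  have hρ0 : 0 ≤ ρ := by positivity
  set ε' := ε / (W + 1) with hε'
  have hε'p : 0 < ε' := by positivity
  have hε'W : ε' * W ≤ ε := by
    rw [hε', div_mul_eq_mul_div, div_le_iff₀ (by positivity)]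
    nlinarith
  obtain ⟨K0, hK0, hcls⟩ := FT_class hM hT hε'p
  have hP' : (2:ℝ) ≤ P := by exact_mod_cast hP
  have hPpos : (0:ℝ) < P := by linarith
  refine ⟨(V * W + ε) * (2 * q + 1) + K0 * (EQ q Q).card + 1, by positivity, ?_⟩
  intro R hR b hb
  have hR0 : 0 < R := by linarith
  have hL : 0 ≤ Real.log R := Real.log_nonneg hR
  set L := Real.log R with hLdef
  have hcop : ∀ c ∈ CS q R, 0 < c ∧ (c:ℝ) ≤ R ∧ q.Coprime c ∧ Q.Coprime c := by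
    intro c hc
    obtain ⟨h1, h2, h3⟩ := (mem_CS hR0.le).1 hc
    refine ⟨h1, h2, h3, ?_⟩
    by_contra hcon
    obtain ⟨p, hp, hpQ, hpc⟩ := Nat.Prime.not_coprime_iff_dvd.1 hcon
    exact (Nat.Prime.not_coprime_iff_dvd.2 ⟨p, hp, hqQ p hp hpQ, hpc⟩) h3
  have hcnt : ∀ c ∈ CS q R, (TA M T g q Q c b).Finite ∧
      |((TA M T g q Q c b).ncard : ℝ) - V * (W * b * ((J c).card / (c:ℝ) ^ 3))| ≤
      ε' * (W * b * ((J c).card / (c:ℝ) ^ 3)) + K0 * ((EQ q Q).card * (J c).card) := by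
    intro c hc
    obtain ⟨h1, h2, h3, h4⟩ := hcop c hc
    exact TA_count hcls hf0 hg hQ h1 h4 hb
  have hJ : ∀ c ∈ CS q R, (1 - 2 / P) * (1 / (c:ℝ)) ≤ (J c).card / (c:ℝ) ^ 3 ∧
      ((J c).card : ℝ) / (c:ℝ) ^ 3 ≤ 1 / (c:ℝ) ∧ ((J c).card : ℝ) ≤ R ^ 2 := by
    intro c hc
    obtain ⟨h1, h2, h3, h4⟩ := hcop c hc
    have h1' : (0:ℝ) < c := by exact_mod_cast h1
    obtain ⟨j1, j2⟩ := card_J h1
    refine ⟨?_, ?_, ?_⟩
    · have h5 : ∑ p ∈ c.primeFactors, 1 / (p:ℝ) ^ 2 ≤ (2:ℝ) / (P:ℝ) := by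
        refine le_trans (sum_le_sum_of_subset_of_nonneg (t := Icc P c) ?_
          fun _ _ _ => by positivity) (sum_inv_sq_tail (by omega) _)
        intro p hp
        have hp1 := Nat.prime_of_mem_primeFactors hp
        have hp2 := Nat.dvd_of_mem_primeFactors hp
        refine mem_Icc.2 ⟨?_, Nat.le_of_dvd h1 hp2⟩
        by_contra hcon
        push Not at hcon
        exact (Nat.Prime.not_coprime_iff_dvd.2 ⟨p, hp1, hPq p hp1 hcon, hp2⟩) h3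
      rw [le_div_iff₀ (by positivity)]
      calc (1 - 2 / P) * (1 / (c:ℝ)) * (c:ℝ) ^ 3 = (c:ℝ) ^ 2 * (1 - 2 / P) := by field_simp
        _ ≤ (c:ℝ) ^ 2 * (1 - ∑ p ∈ c.primeFactors, 1 / (p:ℝ) ^ 2) := by gcongr
        _ ≤ _ := j1
    · rw [div_le_div_iff₀ (by positivity) (by positivity)]
      calc ((J c).card : ℝ) * c ≤ (c:ℝ) ^ 2 * c := by gcongr
        _ = _ := by ring
    · exact j2.trans (by gcongr)
  have hs := cop_sum hq hR
  have hsdef : ∑ n ∈ (Icc 1 ⌊R⌋₊).filter (fun n => q.Coprime n), 1 / (n:ℝ) =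
      ∑ c ∈ CS q R, 1 / (c:ℝ) := rfl
  rw [hsdef, ← hρ, ← hLdef] at hs
  set s := ∑ c ∈ CS q R, 1 / (c:ℝ) with hs'
  obtain ⟨s1, s2⟩ := abs_le.1 hs
  have hs0 : 0 ≤ s := sum_nonneg fun c _ => by positivity
  have hsL : s ≤ L + (2 * q + 1) := by
    have := mul_le_of_le_one_left hL hρ1
    linarith
  have hJs : ∑ c ∈ CS q R, ((J c).card : ℝ) ≤ R ^ 3 := by
    refine (sum_le_sum fun c hc => (hJ c hc).2.2).trans ?_
    rw [sum_const, nsmul_eq_mul]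
    have h6 := card_Icc_nat_le hR0.le (CS q R) fun c hc => ⟨(hcop c hc).1, (hcop c hc).2.1⟩
    calc ((CS q R).card : ℝ) * R ^ 2 ≤ R * R ^ 2 := by gcongr
      _ = _ := by ring
  have hEQ : (0:ℝ) ≤ ((EQ q Q).card : ℝ) := by positivity
  have hVW : 0 ≤ V * W := mul_nonneg hV hW
  have hKE : K0 * ((EQ q Q).card : ℝ) * ∑ c ∈ CS q R, ((J c).card : ℝ) ≤
      K0 * ((EQ q Q).card : ℝ) * R ^ 3 := by gcongr
  have hKA : KA M T g q Q = V * W * ρ := rfl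
  have hR3 : 0 ≤ R ^ 3 := by positivity
  clear_value V W ρ L s ε'
  refine ⟨fun c hc => (hcnt c hc).1, ?_, ?_⟩
  · have h1 : ∀ c ∈ CS q R, V * W * b * (1 - 2 / P) * (1 / (c:ℝ)) - ε' * W * b * (1 / (c:ℝ)) -
        K0 * ((EQ q Q).card : ℝ) * (J c).card ≤ ((TA M T g q Q c b).ncard : ℝ) := by
      intro c hc
      have h2 := (abs_le.1 (hcnt c hc).2).1
      obtain ⟨h3, h4, _⟩ := hJ c hc
      have h5 : V * W * b * ((1 - 2 / P) * (1 / (c:ℝ))) ≤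
          V * W * b * ((J c).card / (c:ℝ) ^ 3) := by gcongr
      have h6 : ε' * W * b * ((J c).card / (c:ℝ) ^ 3) ≤ ε' * W * b * (1 / (c:ℝ)) := by gcongr
      linarith
    have h2 := sum_le_sum h1
    rw [sum_sub_distrib, sum_sub_distrib, ← mul_sum, ← mul_sum, ← mul_sum, ← hs'] at h2
    have h3 : 0 ≤ 1 - 2 / (P:ℝ) := by
      rw [sub_nonneg, div_le_one hPpos]; exact hP'
    have h3' : 1 - 2 / (P:ℝ) ≤ 1 := by
      have : 0 ≤ 2 / (P:ℝ) := by positivity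
      linarith
    have h4 : V * W * b * (1 - 2 / P) * (ρ * L - (2 * q + 1)) ≤ V * W * b * (1 - 2 / P) * s := by
      apply mul_le_mul_of_nonneg_left _ (by positivity)
      linarith
    have h5 : ε' * W * b * s ≤ ε * b * (L + (2 * q + 1)) := by
      have : s ≤ L + (2 * q + 1) := hsL
      calc ε' * W * b * s ≤ ε * b * s := by gcongr
        _ ≤ _ := by gcongr
    have h6 : V * W * b * (1 - 2 / P) * (2 * q + 1) ≤ V * W * b * (2 * q + 1) := by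
      have e1 : 0 ≤ V * W * b * (2 * q + 1) := by positivity
      calc V * W * b * (1 - 2 / P) * (2 * q + 1) = V * W * b * (2 * q + 1) * (1 - 2 / P) := by ring
        _ ≤ V * W * b * (2 * q + 1) * 1 := mul_le_mul_of_nonneg_left h3' e1
        _ = _ := mul_one _
    rw [hKA]
    have h7 : 0 ≤ (V * W + ε) * (2 * q + 1) * R ^ 3 := by positivity
    have h8 : 0 ≤ K0 * ((EQ q Q).card : ℝ) * b := by positivity
    have h9 : 0 ≤ ε * b := by positivity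
    linarith only [h2, h4, h5, h6, h7, h8, h9, hKE, hR3, hb]
  · have h1 : ∀ c ∈ CS q R, ((TA M T g q Q c b).ncard : ℝ) ≤
        V * W * b * (1 / (c:ℝ)) + ε' * W * b * (1 / (c:ℝ)) +
        K0 * ((EQ q Q).card : ℝ) * (J c).card := by
      intro c hc
      have h2 := (abs_le.1 (hcnt c hc).2).2
      obtain ⟨h3, h4, _⟩ := hJ c hc
      have h5 : V * W * b * ((J c).card / (c:ℝ) ^ 3) ≤ V * W * b * (1 / (c:ℝ)) := by gcongr
      have h6 : ε' * W * b * ((J c).card / (c:ℝ) ^ 3) ≤ ε' * W * b * (1 / (c:ℝ)) := by gcongr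
      linarith
    have h2 := sum_le_sum h1
    rw [sum_add_distrib, sum_add_distrib, ← mul_sum, ← mul_sum, ← mul_sum, ← hs'] at h2
    have h4 : V * W * b * s ≤ V * W * b * (ρ * L + (2 * q + 1)) := by
      apply mul_le_mul_of_nonneg_left _ (by positivity)
      linarith
    have h5 : ε' * W * b * s ≤ ε * b * (L + (2 * q + 1)) := by
      have : s ≤ L + (2 * q + 1) := hsL
      calc ε' * W * b * s ≤ ε * b * s := by gcongr
        _ ≤ _ := by gcongr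
    rw [hKA]
    have h7 : 0 ≤ (V * W + ε) * (2 * q + 1) * R ^ 3 := by positivity
    have h8 : 0 ≤ K0 * ((EQ q Q).card : ℝ) * b := by positivity
    have h9 : 0 ≤ ε * b := by positivity
    linarith only [h2, h4, h5, h7, h8, h9, hKE, hR3, hb]

end Pool.Agent.Lib.MP_1acd66_nt.Tw
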