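import Pool.Agent.Lib.MP_1acd66_nt.Tw.Bal

/-!
Sums of the density over residue classes.
-/

namespace Pool.Agent.Lib.MP_1acd66_nt.Tw

open MeasureTheory Metric Set Filter Topology

theorem sum_biUnion_le' {ι α : Type*} [DecidableEq α] (s : Finset ι) (t : ι → Finset α)
    (g : α → ℝ) (hg : ∀ x, 0 ≤ g x) :
    ∑ x ∈ s.biUnion t, g x ≤ ∑ i ∈ s, ∑ x ∈ t i, g x := by
  classical
  induction s using Finset.induction_on with
  | empty => simp
  | insert a s ha ih =>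
    rw [Finset.biUnion_insert, Finset.sum_insert ha]
    refine le_trans ?_ (add_le_add_right ih _)
    have h := Finset.sum_union_inter (s₁ := t a) (s₂ := s.biUnion t) (f := g)
    have h0 : 0 ≤ ∑ x ∈ t a ∩ s.biUnion t, g x := Finset.sum_nonneg fun x _ => hg x
    linarith

theorem finite_bx (n : ℕ) (R : ℝ) : {x : Fin n → ℤ | x ≠ 0 ∧ nrm x ≤ R}.Finite := by
  refine Set.Finite.subset (Fintype.piFinset (fun _ : Fin n => Finset.Icc (-⌊R⌋) ⌊R⌋)).finite_toSet ?_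
  rintro x ⟨_, hx⟩
  rw [Finset.mem_coe, Fintype.mem_piFinset]
  intro i
  have h := (abs_le_nrm x i).trans hx
  rw [abs_le] at h
  rw [Finset.mem_Icc]
  constructor
  · have : -(x i) ≤ ⌊R⌋ := Int.le_floor.2 (by push_cast; linarith)
    linarith
  · exact Int.le_floor.2 h.2

/-- nonzero integral vectors in a box -/
noncomputable def bx (n : ℕ) (R : ℝ) : Finset (Fin n → ℤ) := (finite_bx n R).toFinset

theorem mem_bx {n : ℕ} {R : ℝ} {x : Fin n → ℤ} : x ∈ bx n R ↔ x ≠ 0 ∧ nrm x ≤ R := by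
  simp [bx]

theorem card_bx {R : ℝ} (hR : 1 ≤ R) (n : ℕ) : ((bx n R).card : ℝ) ≤ (3 * R) ^ n :=
  card_box n hR _ fun x hx j => (abs_le_nrm x j).trans (mem_bx.1 hx).2

theorem sum3_bx {R : ℝ} (hR : 1 ≤ R) (S : Finset (Fin 3 → ℤ)) (hS : S ⊆ bx 3 R) :
    ∑ x ∈ S, 1 / nrm x ^ 3 ≤ 432 * (1 + Real.log R) := by
  have := log_sum3 (R1 := 1) le_rfl hR S (fun x hx =>
    ⟨one_le_nrm (mem_bx.1 (hS hx)).1, (mem_bx.1 (hS hx)).2⟩)
  rwa [div_one] at this

/-- vectors divisible by a large number -/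
theorem nonprim_sum {P : ℕ} (hP : 0 < P) {R : ℝ} (hR : 1 ≤ R) (S : Finset (Fin 3 → ℤ))
    (hS : ∀ x ∈ S, x ≠ 0 ∧ nrm x ≤ R ∧ ∃ p : ℕ, P ≤ p ∧ ∀ i, (p : ℤ) ∣ x i) :
    ∑ x ∈ S, 1 / nrm x ^ 3 ≤ 864 / P * (1 + Real.log R) := by
  classical
  have hlog : 0 ≤ Real.log R := Real.log_nonneg hR
  set M := ⌊R⌋₊ with hM
  have hsub : S ⊆ (Finset.Icc P M).biUnion (fun p => S.filter (fun x => ∀ i, (p : ℤ) ∣ x i)) := by
    intro y hy
    obtain ⟨h2, h3, p, hp, hpd⟩ := hS y hy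
    refine Finset.mem_biUnion.2 ⟨p, Finset.mem_Icc.2 ⟨hp, Nat.le_floor ?_⟩,
      Finset.mem_filter.2 ⟨hy, hpd⟩⟩
    obtain ⟨i, hi⟩ := Function.ne_iff.1 h2
    have h4 : (p : ℤ) ≤ |y i| := Int.le_of_dvd (abs_pos.2 hi) ((dvd_abs _ _).2 (hpd i))
    have h5 : (p : ℝ) ≤ |((y i : ℤ) : ℝ)| := by exact_mod_cast h4
    exact h5.trans ((abs_le_nrm y i).trans h3)
  have hone : ∀ p ∈ Finset.Icc P M, ∑ x ∈ S.filter (fun x => ∀ i, (p : ℤ) ∣ x i), 1 / nrm x ^ 3 ≤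
      432 * (1 + Real.log R) * (1 / (p : ℝ) ^ 2) := by
    intro p hp
    obtain ⟨hp1, _⟩ := Finset.mem_Icc.1 hp
    have hp0 : (0 : ℝ) < p := by exact_mod_cast (by omega : 0 < p)
    have hp1' : (1 : ℝ) ≤ p := by exact_mod_cast (by omega : 1 ≤ p)
    set Sp := S.filter (fun x => ∀ i, (p : ℤ) ∣ x i) with hSp
    set D : (Fin 3 → ℤ) → Fin 3 → ℤ := fun y i => y i / p with hD
    have hDy : ∀ y ∈ Sp, y = (p : ℤ) • D y := by
      intro y hy
      obtain ⟨_, h2⟩ := Finset.mem_filter.1 hy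
      funext i
      simp only [hD, Pi.smul_apply, smul_eq_mul]
      exact (Int.mul_ediv_cancel' (h2 i)).symm
    have hinj : Set.InjOn D Sp := by
      intro a ha b hb hab
      rw [hDy a ha, hDy b hb, hab]
    have hnrm : ∀ y ∈ Sp, nrm y = p * nrm (D y) := by
      intro y hy
      conv_lhs => rw [hDy y hy]
      rw [nrm_smul_int]
      simp
    have h1 : ∑ x ∈ Sp, 1 / nrm x ^ 3 = (1 / (p:ℝ) ^ 3) * ∑ x ∈ Sp.image D, 1 / nrm x ^ 3 := by
      rw [Finset.sum_image hinj, Finset.mul_sum]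
      refine Finset.sum_congr rfl fun x hx => ?_
      rw [hnrm x hx]
      rw [mul_pow]
      field_simp
    have h2 : ∑ x ∈ Sp.image D, 1 / nrm x ^ 3 ≤ 432 * (1 + Real.log R) := by
      refine sum3_bx hR _ ?_
      intro y' hy'
      obtain ⟨y, hy, rfl⟩ := Finset.mem_image.1 hy'
      obtain ⟨g1, g2, _⟩ := hS y (Finset.mem_filter.1 hy).1
      refine mem_bx.2 ⟨?_, ?_⟩
      · intro h0
        apply g1
        rw [hDy y hy, h0, smul_zero]
      · rw [hnrm y hy] at g2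
        have := nrm_nonneg (D y)
        nlinarith
    rw [h1]
    have h3 : 1 / (p:ℝ) ^ 3 ≤ 1 / (p:ℝ) ^ 2 := by
      apply one_div_le_one_div_of_le (by positivity)
      exact pow_le_pow_right₀ hp1' (by norm_num)
    calc (1 / (p:ℝ) ^ 3) * ∑ x ∈ Sp.image D, 1 / nrm x ^ 3
        ≤ (1 / (p:ℝ) ^ 2) * (432 * (1 + Real.log R)) := by
          apply mul_le_mul h3 h2 (Finset.sum_nonneg fun x _ => ?_) (by positivity)
          have := nrm_nonneg x
          positivity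
      _ = _ := by ring
  calc ∑ x ∈ S, 1 / nrm x ^ 3
      ≤ ∑ x ∈ (Finset.Icc P M).biUnion (fun p => S.filter (fun x => ∀ i, (p : ℤ) ∣ x i)),
        1 / nrm x ^ 3 := Finset.sum_le_sum_of_subset_of_nonneg hsub fun x _ _ => by
          have := nrm_nonneg x
          positivity
    _ ≤ ∑ p ∈ Finset.Icc P M, ∑ x ∈ S.filter (fun x => ∀ i, (p : ℤ) ∣ x i), 1 / nrm x ^ 3 := by
        refine sum_biUnion_le' _ _ _ fun x => ?_
        have := nrm_nonneg x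
        positivity
    _ ≤ ∑ p ∈ Finset.Icc P M, 432 * (1 + Real.log R) * (1 / (p : ℝ) ^ 2) := Finset.sum_le_sum hone
    _ = 432 * (1 + Real.log R) * ∑ p ∈ Finset.Icc P M, 1 / (p : ℝ) ^ 2 := by rw [Finset.mul_sum]
    _ ≤ 432 * (1 + Real.log R) * (2 / P) := by
        have := sum_inv_sq_tail hP M
        gcongr
    _ = _ := by ring

/-- the logarithmic sum of the density in a residue class -/
theorem Phi_sum {M : (Fin 3 → ℝ) → (Fin 4 → ℝ) → ℝ} (hM : IsLocalNorm ℝ M) {q : ℕ} (hq : 0 < q)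
    (ξ : Fin 3 → ℤ) {ε : ℝ} (hε : 0 < ε) : ∃ C : ℝ, ∀ R : ℝ, 1 ≤ R → ∀ S : Finset (Fin 3 → ℤ),
      (∀ x, x ∈ S ↔ x ∈ bx 3 R ∧ Cg q x ξ) →
      |∑ x ∈ S, Phi M (castv x) - kap (volume : Measure (Fin 3 → ℝ)) (Phi M) / (q:ℝ) ^ 3 *
        Real.log R| ≤ ε * Real.log R + C := by
  classical
  have hq' : (0:ℝ) < q := by exact_mod_cast hq
  obtain ⟨C, hC⟩ := (tiling_latv hq ξ).logSum (n := 3) (by simp) hM.homNeg_Phi
    (ε := ε * (q:ℝ) ^ 3) (by positivity)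
  refine ⟨C / (q:ℝ) ^ 3, ?_⟩
  intro R hR S hS
  have h1 := hC R hR
  have himg : (tiling_latv hq ξ).pts R = S.image castv := by
    ext a
    rw [(tiling_latv hq ξ).mem_pts, Finset.mem_image]
    constructor
    · rintro ⟨⟨z, hz⟩, ha0, haR⟩
      have e : castv (fun i => ξ i + q * z i) = a := by
        funext i
        simp only [castv, hz i]
        push_cast; rfl
      refine ⟨fun i => ξ i + q * z i, (hS _).2 ⟨mem_bx.2 ⟨?_, ?_⟩, fun i => ⟨z i, by ring⟩⟩, e⟩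
      · intro h0
        apply ha0
        rw [← e, h0]
        funext i
        simp [castv]
      · rw [← norm_castv, e]; exact haR
    · rintro ⟨x, hx, rfl⟩
      obtain ⟨hx1, hx2⟩ := (hS x).1 hx
      obtain ⟨hx0, hxR⟩ := mem_bx.1 hx1
      exact ⟨mem_latv_castv.2 hx2, castv_ne_zero hx0, hxR⟩
  rw [himg, Finset.sum_image castv_injective.injOn] at h1
  have e : ∑ x ∈ S, Phi M (castv x) - kap (volume : Measure (Fin 3 → ℝ)) (Phi M) / (q:ℝ) ^ 3 *
        Real.log R = ((q:ℝ) ^ 3 * ∑ x ∈ S, Phi M (castv x) -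
          kap (volume : Measure (Fin 3 → ℝ)) (Phi M) * Real.log R) / (q:ℝ) ^ 3 := by
    field_simp
  rw [e, abs_div, abs_of_pos (by positivity : 0 < (q:ℝ) ^ 3), div_le_iff₀ (by positivity)]
  refine h1.trans (le_of_eq ?_)
  field_simp

end Pool.Agent.Lib.MP_1acd66_nt.Tw
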