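import Pool.Agent.Lib.MP_1acd66_nt.Tw.YA

/-!
Upper bound for the pairs with large first vector.
-/

namespace Pool.Agent.Lib.MP_1acd66_nt.Tw

open Finset

variable {M : (Fin 3 → ℝ) → (Fin 4 → ℝ) → ℝ} {f : (Fin 3 → ℤ) → (Fin 4 → ℤ) → ℝ}

/-- basic inequalities -/
theorem YA_size {c0 : ℝ} (hc0 : 0 < c0)
    (hb : ∀ x y, x ≠ 0 → y ≠ 0 → Inc x y → c0 * (‖x‖ * ‖y‖ ^ 2) ≤ M x y)
    {S : ℕ} {f0 f1 : ℝ} (hf : Tame f S f0 f1) {B R : ℝ} {y : Fin 4 → ℤ}
    (hy : y ∈ YA M f B R) :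
    R * ct y < nrm (qf y) ∧ nrm (qf y) * nrm y ^ 2 ≤ 1 / (c0 * f0) * ct y * B := by
  obtain ⟨h1, h2, h3, h4⟩ := hy
  have hc : (0:ℝ) < ct y := by exact_mod_cast ct_pos h2
  have hf0 := hf.pos
  have hx := prim_xv h2
  have e1 := hb (castv (xv y)) (castv y) (castv_ne_zero hx.ne_zero) (castv_ne_zero h1.ne_zero)
      (inc_castv (inc_xv h2))
  rw [norm_castv, norm_castv] at e1
  have e2 := (hf.bd _ _ (hx.pm S) (h1.pm S) (inc_xv h2)).1
  rw [nrm_qf_eq]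
  constructor
  · rw [mul_comm]; gcongr
  · have e3 : 0 ≤ nrm (xv y) * nrm y ^ 2 := by
      have := nrm_nonneg (xv y)
      positivity
    have e4 : nrm (xv y) * nrm y ^ 2 * (c0 * f0) ≤ B := by
      calc nrm (xv y) * nrm y ^ 2 * (c0 * f0) = (c0 * (nrm (xv y) * nrm y ^ 2)) * f0 := by ring
        _ ≤ M (castv (xv y)) (castv y) * f (xv y) y := by
            have : 0 ≤ M (castv (xv y)) (castv y) := le_trans (by positivity) e1
            gcongr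
        _ ≤ B := h3
    have e5 : nrm (xv y) * nrm y ^ 2 ≤ 1 / (c0 * f0) * B := by
      rw [one_div, ← div_eq_inv_mul, le_div_iff₀ (by positivity)]
      exact e4
    calc (ct y : ℝ) * nrm (xv y) * nrm y ^ 2 = ct y * (nrm (xv y) * nrm y ^ 2) := by ring
      _ ≤ ct y * (1 / (c0 * f0) * B) := by gcongr
      _ = _ := by ring

theorem YA_cone {c0 : ℝ} (hc0 : 0 < c0)
    (hb : ∀ x y, x ≠ 0 → y ≠ 0 → Inc x y → c0 * (‖x‖ * ‖y‖ ^ 2) ≤ M x y)
    {S : ℕ} {f0 f1 : ℝ} (hf : Tame f S f0 f1) {R : ℝ} (hR : 1 ≤ R) {c : ℕ} (hc : 0 < c)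
    (F : Finset (Fin 4 → ℤ)) (hF : ∀ y ∈ F, y ∈ YA M f (R ^ 3) R ∧ ct y = c) :
    (F.card : ℝ) ≤ coneC (√(1 / (c0 * f0))) * (1 / (c0 * f0)) * (R ^ 3 / c) ∧
    (∀ Y1 : ℝ, 0 < Y1 → (∀ y ∈ F, Y1 ≤ nrm y) →
      (F.card : ℝ) ≤ coneC (√(1 / (c0 * f0))) * (1 / (c0 * f0)) ^ 2 * ((R ^ 3) ^ 2 / Y1 ^ 4)) ∧
    (∀ y ∈ F, nrm y ^ 2 ≤ 1 / (c0 * f0) * R ^ 2 ∧ (c:ℝ) ≤ 2 * (1 / (c0 * f0)) * R) := by
  have hf0 := hf.pos
  refine coneA (by positivity) (by linarith) rfl hc F ?_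
  intro y hy
  obtain ⟨h1, h2⟩ := hF y hy
  obtain ⟨h3, h4⟩ := YA_size hc0 hb hf h1
  rw [h2] at h3 h4
  refine ⟨?_, h1.1.primMod c, h1.1.ne_zero, h3, h4⟩
  rw [← dvd_ct, h2]

theorem YA_bdd {c0 : ℝ} (hc0 : 0 < c0)
    (hb : ∀ x y, x ≠ 0 → y ≠ 0 → Inc x y → c0 * (‖x‖ * ‖y‖ ^ 2) ≤ M x y)
    {S : ℕ} {f0 f1 : ℝ} (hf : Tame f S f0 f1) {R : ℝ} (hR : 1 ≤ R) {y : Fin 4 → ℤ}
    (hy : y ∈ YA M f (R ^ 3) R) :
    nrm y ^ 2 ≤ 1 / (c0 * f0) * R ^ 2 ∧ (ct y:ℝ) ≤ 2 * (1 / (c0 * f0)) * R :=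
  (YA_cone hc0 hb hf hR (ct_pos hy.2.1) {y} (by
    intro z hz
    rw [mem_singleton] at hz
    subst hz
    exact ⟨hy, rfl⟩)).2.2 y (mem_singleton_self y)

theorem YA_finite {c0 : ℝ} (hc0 : 0 < c0)
    (hb : ∀ x y, x ≠ 0 → y ≠ 0 → Inc x y → c0 * (‖x‖ * ‖y‖ ^ 2) ≤ M x y)
    {S : ℕ} {f0 f1 : ℝ} (hf : Tame f S f0 f1) {R : ℝ} (hR : 1 ≤ R) :
    (YA M f (R ^ 3) R).Finite := by
  have hf0 := hf.pos
  refine Set.Finite.subset (bx 4 (√(1 / (c0 * f0) * R ^ 2))).finite_toSet ?_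
  intro y hy
  rw [mem_coe, mem_bx]
  exact ⟨hy.1.ne_zero, Real.le_sqrt_of_sq_le (YA_bdd hc0 hb hf hR hy).1⟩

/-- the sum over the contents -/
theorem YA_sum {c0 : ℝ} (hc0 : 0 < c0)
    (hb : ∀ x y, x ≠ 0 → y ≠ 0 → Inc x y → c0 * (‖x‖ * ‖y‖ ^ 2) ≤ M x y)
    {S : ℕ} {f0 f1 : ℝ} (hf : Tame f S f0 f1) {R : ℝ} (hR : 1 ≤ R)
    (F : Finset (Fin 4 → ℤ)) (hF : ∀ y ∈ F, y ∈ YA M f (R ^ 3) R) :
    (F.card : ℝ) ≤ coneC (√(1 / (c0 * f0))) * (1 / (c0 * f0)) *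
      (R ^ 3 * ∑ c ∈ F.image ct, 1 / (c:ℝ)) := by
  classical
  have hf0 := hf.pos
  have h1 := card_le_fib F ct (F.image ct) (fun y hy => mem_image.2 ⟨y, hy, rfl⟩)
    (fun c => coneC (√(1 / (c0 * f0))) * (1 / (c0 * f0)) * (R ^ 3 / c)) (by
      intro c hc
      obtain ⟨y0, hy0, rfl⟩ := mem_image.1 hc
      refine (YA_cone hc0 hb hf hR (ct_pos (hF y0 hy0).2.1) _ ?_).1
      intro y hy
      obtain ⟨hy1, hy2⟩ := mem_filter.1 hy
      exact ⟨hF y hy1, hy2⟩)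
  refine h1.trans (le_of_eq ?_)
  rw [← mul_sum]
  congr 1
  rw [mul_sum]
  refine sum_congr rfl fun c _ => ?_
  ring

/-- the a priori bound -/
theorem YA_card_le {c0 : ℝ} (hc0 : 0 < c0)
    (hb : ∀ x y, x ≠ 0 → y ≠ 0 → Inc x y → c0 * (‖x‖ * ‖y‖ ^ 2) ≤ M x y)
    {S : ℕ} {f0 f1 : ℝ} (hf : Tame f S f0 f1) {R : ℝ} (hR : 1 ≤ R) :
    ((YA M f (R ^ 3) R).ncard : ℝ) ≤ coneC (√(1 / (c0 * f0))) * (1 / (c0 * f0)) *
      (R ^ 3 * (1 + Real.log (max 1 (2 * (1 / (c0 * f0)))) + Real.log R)) := by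
  classical
  have hf0 := hf.pos
  have hfin := YA_finite hc0 hb hf hR
  rw [Set.ncard_eq_toFinset_card _ hfin]
  have hFm : ∀ y ∈ hfin.toFinset, y ∈ YA M f (R ^ 3) R := fun y hy => hfin.mem_toFinset.1 hy
  refine (YA_sum hc0 hb hf hR hfin.toFinset hFm).trans ?_
  have hC := coneC_pos (Real.sqrt_nonneg (1 / (c0 * f0)))
  have hR0 : 0 < R := by linarith
  have h1 := sum_inv_le (u := 1) (v := max 1 (2 * (1 / (c0 * f0))) * R) le_rfl
    (by nlinarith [le_max_left 1 (2 * (1 / (c0 * f0)))]) (hfin.toFinset.image ct) (by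
      intro c hc
      obtain ⟨y, hy, rfl⟩ := mem_image.1 hc
      have h2 := (YA_bdd hc0 hb hf hR (hFm y hy)).2
      refine ⟨by exact_mod_cast ct_pos (hFm y hy).2.1, h2.trans ?_⟩
      have := le_max_right 1 (2 * (1 / (c0 * f0)))
      gcongr)
  rw [div_one, log_le_add (le_max_left _ _) hR] at h1
  have h2 : ∑ n ∈ hfin.toFinset.image ct, 1 / (n:ℝ) ≤
      1 + Real.log (max 1 (2 * (1 / (c0 * f0)))) + Real.log R := by linarith
  gcongr

theorem good_of {q k : ℕ} (hq : 0 < q) (hk : 1 ≤ k) {y : Fin 4 → ℤ}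
    (h : ∀ p : ℕ, p.Prime → p ∣ q → ¬ p ^ (k - 1) ∣ ct y) : gq (q ^ k) y * q ∣ q ^ k := by
  have hQ : 0 < q ^ k := pow_pos hq k
  have hg := gq_pos hQ y
  rw [← Nat.factorization_prime_le_iff_dvd (Nat.mul_pos hg hq).ne' hQ.ne']
  intro p hp
  rw [Nat.factorization_mul hg.ne' hq.ne', Nat.factorization_pow]
  simp only [Finsupp.coe_add, Finsupp.coe_smul, Pi.add_apply, Pi.smul_apply, smul_eq_mul]
  by_cases hpq : p ∣ q
  · have h1 : 1 ≤ q.factorization p := (hp.dvd_iff_one_le_factorization hq.ne').1 hpq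
    have h2 : (gq (q ^ k) y).factorization p < k - 1 := by
      by_contra hcon
      push Not at hcon
      apply h p hp hpq
      have h3 : p ^ (k - 1) ∣ gq (q ^ k) y :=
        (hp.pow_dvd_iff_le_factorization hg.ne').2 hcon
      exact h3.trans (Nat.gcd_dvd_right _ _)
    obtain ⟨m, rfl⟩ : ∃ m, k = m + 1 := ⟨k - 1, by omega⟩
    have h4 : m ≤ m * q.factorization p := Nat.le_mul_of_pos_right _ h1
    have : (m + 1) * q.factorization p = m * q.factorization p + q.factorization p := by ring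
    omega
  · have h1 : q.factorization p = 0 := Nat.factorization_eq_zero_of_not_dvd hpq
    have h2 : (gq (q ^ k) y).factorization p = 0 := by
      apply Nat.factorization_eq_zero_of_not_dvd
      intro h3
      exact hpq (hp.dvd_of_dvd_pow (h3.trans (gq_dvd _ _)))
    rw [h1, h2]; simp

theorem gq_mul_div (Q : ℕ) (y : Fin 4 → ℤ) : gq Q y * (ct y / gq Q y) = ct y :=
  Nat.mul_div_cancel' (Nat.gcd_dvd_right _ _)

theorem c2_cop {q Q : ℕ} (_hq : q ∣ Q) (hQ : 0 < Q) {y : Fin 4 → ℤ} (hgood : gq Q y * q ∣ Q) :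
    q.Coprime (ct y / gq Q y) := by
  by_contra hcon
  obtain ⟨p, hp, hpq, hpc⟩ := Nat.Prime.not_coprime_iff_dvd.1 hcon
  have hg := gq_pos hQ y
  have hgc : gq Q y ∣ ct y := Nat.gcd_dvd_right _ _
  have h1 : gq Q y * p ∣ ct y := by
    have := Nat.mul_div_cancel' hgc
    rw [← this]
    exact Nat.mul_dvd_mul_left _ hpc
  have h2 : gq Q y * p ∣ Q := (Nat.mul_dvd_mul_left _ hpq).trans hgood
  have h3 : gq Q y * p ∣ gq Q y := Nat.dvd_gcd h2 h1
  have h4 := Nat.le_of_dvd hg h3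
  have h5 := hp.two_le
  nlinarith

/-- the upper bound -/
theorem YA_upper {c0 : ℝ} (hM : IsLocalNorm ℝ M) (hc0 : 0 < c0)
    (hb : ∀ x y, x ≠ 0 → y ≠ 0 → Inc x y → c0 * (‖x‖ * ‖y‖ ^ 2) ≤ M x y)
    {S : ℕ} {f0 f1 : ℝ} (hf : Tame f S f0 f1) (h01 : f0 ≤ f1) {q k : ℕ} (hq : 0 < q)
    (hSq : S ∣ q) (hk : 1 ≤ k) {T ε : ℝ} (hT : 0 < T) (hε : 0 < ε)
    {g : (Fin 3 → ℤ) → (Fin 4 → ℤ) → ℝ} (hg : ClassApprox f q g f0 f1 ε)
    {R : ℝ} (hR : 1 ≤ R)
    (hfinT : ∀ c ∈ CS q R, (TA M T g q (q ^ k) c ((1 + ε) * R ^ 3)).Finite) :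
    ((YA M f (R ^ 3) R).ncard : ℝ) ≤
      coneC (√(1 / (c0 * f0))) * (1 / (c0 * f0)) *
        (R ^ 3 * (1 + Real.log (max 1 (2 * (1 / (c0 * f0)))))) +
      coneC (√(1 / (c0 * f0))) * (1 / (c0 * f0)) * q.primeFactors.card * (1 / 2 ^ (k - 1)) *
        (R ^ 3 * (1 + Real.log R)) +
      coneC (√(1 / (c0 * f0))) * (1 / (c0 * f0)) ^ 2 * f1 / T ^ 4 * (R ^ 3 * (1 + Real.log R)) +
      ∑ c ∈ CS q R, ((TA M T g q (q ^ k) c ((1 + ε) * R ^ 3)).ncard : ℝ) := by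
  classical
  have hf0 := hf.pos
  have hf1 : 0 < f1 := lt_of_lt_of_le hf0 h01
  have hR0 : 0 < R := by linarith
  have hC := coneC_pos (Real.sqrt_nonneg (1 / (c0 * f0)))
  set Z1 := 1 / (c0 * f0) with hZ1
  have hZ1p : 0 < Z1 := by positivity
  set Q := q ^ k with hQdef
  have hQ : 0 < Q := pow_pos hq k
  have hqQ : q ∣ Q := dvd_pow_self q (by omega)
  have hfin := YA_finite hc0 hb hf hR
  rw [Set.ncard_eq_toFinset_card _ hfin]
  set F := hfin.toFinset with hFdef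
  have hFm : ∀ y ∈ F, y ∈ YA M f (R ^ 3) R := fun y hy => hfin.mem_toFinset.1 hy
  have hlogR : 0 ≤ Real.log R := Real.log_nonneg hR
  -- large content
  set Fa := F.filter (fun y => ¬ (ct y : ℝ) ≤ R) with hFa
  set F1 := F.filter (fun y => (ct y : ℝ) ≤ R) with hF1
  have s1 : (F1.card : ℝ) + Fa.card = F.card := by
    exact_mod_cast card_filter_add_card_filter_not (s := F) (fun y => (ct y : ℝ) ≤ R)
  have ba : (Fa.card : ℝ) ≤ coneC (√Z1) * Z1 * (R ^ 3 * (1 + Real.log (max 1 (2 * Z1)))) := by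
    refine (YA_sum hc0 hb hf hR Fa fun y hy => hFm y (mem_filter.1 hy).1).trans ?_
    have h1 := sum_inv_le (u := R) (v := max 1 (2 * Z1) * R) hR
      (by nlinarith [le_max_left 1 (2 * Z1)]) (Fa.image ct) (by
        intro c hc
        obtain ⟨y, hy, rfl⟩ := mem_image.1 hc
        obtain ⟨hy1, hy2⟩ := mem_filter.1 hy
        push Not at hy2
        have h2 := (YA_bdd hc0 hb hf hR (hFm y hy1)).2
        refine ⟨hy2.le, h2.trans ?_⟩
        have := le_max_right 1 (2 * Z1)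
        gcongr)
    rw [mul_div_cancel_right₀ _ hR0.ne'] at h1
    gcongr
  -- bad classes
  set Fb := F1.filter (fun y => ∃ p : ℕ, p.Prime ∧ p ∣ q ∧ p ^ (k - 1) ∣ ct y) with hFb
  set F2 := F1.filter (fun y => ¬ ∃ p : ℕ, p.Prime ∧ p ∣ q ∧ p ^ (k - 1) ∣ ct y) with hF2
  have s2 : (Fb.card : ℝ) + F2.card = F1.card := by
    exact_mod_cast card_filter_add_card_filter_not (s := F1)
      (fun y => ∃ p : ℕ, p.Prime ∧ p ∣ q ∧ p ^ (k - 1) ∣ ct y)
  have bb : (Fb.card : ℝ) ≤ coneC (√Z1) * Z1 * q.primeFactors.card * (1 / 2 ^ (k - 1)) *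
        (R ^ 3 * (1 + Real.log R)) := by
    have h0 : Fb ⊆ q.primeFactors.biUnion (fun p => F1.filter (fun y => p ^ (k - 1) ∣ ct y)) := by
      intro y hy
      obtain ⟨hy1, p, hp, hpq, hpc⟩ := mem_filter.1 hy
      exact mem_biUnion.2 ⟨p, Nat.mem_primeFactors.2 ⟨hp, hpq, hq.ne'⟩, mem_filter.2 ⟨hy1, hpc⟩⟩
    have h1 : (Fb.card : ℝ) ≤ ∑ p ∈ q.primeFactors,
        ((F1.filter (fun y => p ^ (k - 1) ∣ ct y)).card : ℝ) := by
      exact_mod_cast (card_le_card h0).trans card_biUnion_le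
    have h2 : ∀ p ∈ q.primeFactors, ((F1.filter (fun y => p ^ (k - 1) ∣ ct y)).card : ℝ) ≤
        coneC (√Z1) * Z1 * (1 / 2 ^ (k - 1)) * (R ^ 3 * (1 + Real.log R)) := by
      intro p hp
      have hp' := Nat.prime_of_mem_primeFactors hp
      refine (YA_sum hc0 hb hf hR _ fun y hy => hFm y (mem_filter.1 (mem_filter.1 hy).1).1).trans ?_
      have h3 := sum_inv_dvd_le hR (pow_pos hp'.pos (k - 1))
        ((F1.filter (fun y => p ^ (k - 1) ∣ ct y)).image ct) (by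
          intro c hc
          obtain ⟨y, hy, rfl⟩ := mem_image.1 hc
          obtain ⟨hy1, hy2⟩ := mem_filter.1 hy
          obtain ⟨hy3, hy4⟩ := mem_filter.1 hy1
          exact ⟨ct_pos (hFm y hy3).2.1, hy4, hy2⟩)
      have h4 : 1 / ((p ^ (k - 1) : ℕ) : ℝ) ≤ 1 / 2 ^ (k - 1) := by
        apply one_div_le_one_div_of_le (by positivity)
        push_cast
        have : (2:ℝ) ≤ p := by exact_mod_cast hp'.two_le
        gcongr
      have h5 : 0 ≤ 1 + Real.log R := by linarith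
      have h6 : ∑ n ∈ (F1.filter (fun y => p ^ (k - 1) ∣ ct y)).image ct, 1 / (n:ℝ) ≤
          1 / 2 ^ (k - 1) * (1 + Real.log R) := h3.trans (by gcongr)
      calc _ ≤ coneC (√Z1) * Z1 * (R ^ 3 * (1 / 2 ^ (k - 1) * (1 + Real.log R))) := by gcongr
        _ = _ := by ring
    refine h1.trans ((sum_le_sum h2).trans ?_)
    rw [sum_const, nsmul_eq_mul]
    apply le_of_eq; ring
  -- the tail
  set b := (1 + ε) * R ^ 3 with hbdef
  have hgood : ∀ y ∈ F2, gq Q y * q ∣ Q := by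
    intro y hy
    obtain ⟨_, hy2⟩ := mem_filter.1 hy
    push Not at hy2
    exact good_of hq hk hy2
  set Fc := F2.filter (fun y => ¬ FT M T (castv y) ≤ ct y * b / hA g q Q (rsd Q y)) with hFc
  set F3 := F2.filter (fun y => FT M T (castv y) ≤ ct y * b / hA g q Q (rsd Q y)) with hF3
  have s3 : (F3.card : ℝ) + Fc.card = F2.card := by
    exact_mod_cast card_filter_add_card_filter_not (s := F2)
      (fun y => FT M T (castv y) ≤ ct y * b / hA g q Q (rsd Q y))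
  have hfacts : ∀ y ∈ F2, y ∈ YA M f (R ^ 3) R ∧ (ct y : ℝ) ≤ R ∧
      FF M (castv y) ≤ ct y * b / hA g q Q (rsd Q y) ∧ 0 < hA g q Q (rsd Q y) ∧
      hA g q Q (rsd Q y) ≤ f1 ∧ 0 < ct y := by
    intro y hy
    have hy1 := (mem_filter.1 hy).1
    obtain ⟨hy2, hy3⟩ := mem_filter.1 hy1
    have hy4 := hFm y hy2
    obtain ⟨h1, h2, h3, h4⟩ := hy4
    have hA0 : 0 < hA g q Q (rsd Q y) := lt_of_lt_of_le hf0 (hg.1 _ _).1
    have hcp := ct_pos h2
    have hcp' : (0:ℝ) < ct y := by exact_mod_cast hcp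
    refine ⟨hFm y hy2, hy3, ?_, hA0, (hg.1 _ _).2, hcp⟩
    have happ := hA_approx hf hq hSq hqQ hQ hg ((prim_xv h2).pm q) (h1.pm q) (hgood y hy)
      (inc_xv h2) (c2_cop hqQ hQ (hgood y hy)) (by
        rw [gq_mul_div]
        exact qf_eq_smul y)
    rw [FF_castv hM h1.ne_zero h2, le_div_iff₀ hA0]
    have hMp := hM.pos _ _ (castv_ne_zero (prim_xv h2).ne_zero) (castv_ne_zero h1.ne_zero)
      (inc_castv (inc_xv h2))
    calc (ct y : ℝ) * M (castv (xv y)) (castv y) * hA g q Q (rsd Q y)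
        ≤ (ct y : ℝ) * M (castv (xv y)) (castv y) * ((1 + ε) * f (xv y) y) := by
          gcongr; exact happ.2
      _ = ct y * ((1 + ε) * (M (castv (xv y)) (castv y) * f (xv y) y)) := by ring
      _ ≤ ct y * ((1 + ε) * R ^ 3) := by gcongr
  have bc : (Fc.card : ℝ) ≤ coneC (√Z1) * Z1 ^ 2 * f1 / T ^ 4 * (R ^ 3 * (1 + Real.log R)) := by
    have h1 := card_le_fib Fc ct (Fc.image ct) (fun y hy => mem_image.2 ⟨y, hy, rfl⟩)
      (fun c => coneC (√Z1) * Z1 ^ 2 * f1 / T ^ 4 * R ^ 3 * (1 / c)) (by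
        intro c hc
        obtain ⟨y0, hy0, rfl⟩ := mem_image.1 hc
        have hc0' : 0 < ct y0 := (hfacts y0 (mem_filter.1 hy0).1).2.2.2.2.2
        have hc1 : (0:ℝ) < ct y0 := by exact_mod_cast hc0'
        set Y1 := T * √(√(ct y0 * R ^ 3 / f1)) with hY1
        have hY1p : 0 < Y1 := by positivity
        have hY14 : Y1 ^ 4 = T ^ 4 * (ct y0 * R ^ 3 / f1) := by
          rw [hY1, mul_pow]
          congr 1
          rw [show (4:ℕ) = 2 * 2 from rfl, pow_mul, Real.sq_sqrt (Real.sqrt_nonneg _),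
            Real.sq_sqrt (by positivity)]
        have h2 := (YA_cone hc0 hb hf hR hc0' (Fc.filter (fun a => ct a = ct y0)) (by
          intro y hy
          obtain ⟨hy1, hy2⟩ := mem_filter.1 hy
          exact ⟨(hfacts y (mem_filter.1 hy1).1).1, hy2⟩)).2.1 Y1 hY1p (by
          intro y hy
          obtain ⟨hy1, hy2⟩ := mem_filter.1 hy
          obtain ⟨hy3, hy4⟩ := mem_filter.1 hy1
          obtain ⟨g1, g2, g3, g4, g5, g6⟩ := hfacts y hy3
          push Not at hy4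
          unfold FT at hy4
          rcases lt_max_iff.1 hy4 with h | h
          · exact absurd g3 (not_le.2 h)
          · have e1 : ct y0 * R ^ 3 / f1 ≤ (nrm y / T) ^ 4 := by
              rw [norm_castv] at h
              refine le_trans ?_ h.le
              rw [hy2]
              have : R ^ 3 ≤ b := by rw [hbdef]; nlinarith [pow_pos hR0 3]
              gcongr
            have e2 : Y1 ^ 4 ≤ nrm y ^ 4 := by
              rw [hY14]
              calc T ^ 4 * (ct y0 * R ^ 3 / f1) ≤ T ^ 4 * (nrm y / T) ^ 4 := by gcongr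
                _ = _ := by field_simp
            exact le_of_pow_le_pow_left₀ (by norm_num) (nrm_nonneg y) e2)
        rw [← hZ1] at h2
        refine h2.trans (le_of_eq ?_)
        rw [hY14]
        field_simp)
    refine h1.trans ?_
    rw [← mul_sum]
    have h3 := sum_inv_le (u := 1) (v := R) le_rfl hR (Fc.image ct) (by
      intro c hc
      obtain ⟨y, hy, rfl⟩ := mem_image.1 hc
      obtain ⟨g1, g2, g3, g4, g5, g6⟩ := hfacts y (mem_filter.1 hy).1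
      exact ⟨by exact_mod_cast g6, g2⟩)
    rw [div_one] at h3
    calc _ ≤ coneC (√Z1) * Z1 ^ 2 * f1 / T ^ 4 * R ^ 3 * (1 + Real.log R) := by gcongr
      _ = _ := by ring
  -- the main part
  have bd : (F3.card : ℝ) ≤ ∑ c ∈ CS q R, ((TA M T g q Q c b).ncard : ℝ) := by
    refine card_le_fib F3 (fun y => ct y / gq Q y) (CS q R) ?_ _ ?_
    · intro y hy
      obtain ⟨hy1, hy2⟩ := mem_filter.1 hy
      obtain ⟨g1, g2, g3, g4, g5, g6⟩ := hfacts y hy1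
      rw [mem_CS hR0.le]
      refine ⟨Nat.div_pos (Nat.le_of_dvd g6 (Nat.gcd_dvd_right _ _)) (gq_pos hQ y), ?_,
        c2_cop hqQ hQ (hgood y hy1)⟩
      refine le_trans ?_ g2
      exact_mod_cast Nat.div_le_self _ _
    · intro c hc
      rw [Set.ncard_eq_toFinset_card _ (hfinT c hc)]
      have : (F3.filter (fun y => ct y / gq Q y = c)) ⊆ (hfinT c hc).toFinset := by
        intro y hy
        obtain ⟨hy0, rfl⟩ := mem_filter.1 hy
        obtain ⟨hy1, hy2⟩ := mem_filter.1 hy0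
        obtain ⟨g1, g2, g3, g4, g5, g6⟩ := hfacts y hy1
        rw [Set.Finite.mem_toFinset]
        have hpos : 0 < ct y / gq Q y :=
          Nat.div_pos (Nat.le_of_dvd g6 (Nat.gcd_dvd_right _ _)) (gq_pos hQ y)
        refine ⟨g1.1.ne_zero, (rsd_mem_EQ hqQ hQ).2 ⟨g1.1.pm q, hgood y hy1⟩,
          (rsd_mem_J hpos).2 ⟨?_, g1.1.primMod _⟩, ?_⟩
        · rw [← dvd_ct]
          exact Nat.div_dvd_of_dvd (Nat.gcd_dvd_right _ _)
        · rw [← gq_congr (cg_rsd (q := Q) y)]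
          have e : ((gq Q y : ℕ) : ℝ) * ((ct y / gq Q y : ℕ) : ℝ) = ct y := by
            exact_mod_cast gq_mul_div Q y
          rw [e]
          exact hy2
      exact_mod_cast card_le_card this
  linarith

end Pool.Agent.Lib.MP_1acd66_nt.Tw
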