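import Pool.Agent.Lib.MP_1acd66_nt.Tw.SumA

/-!
The pairs with large first vector.
-/

namespace Pool.Agent.Lib.MP_1acd66_nt.Tw

open Finset

/-- the content of the quadrics -/
def ct (y : Fin 4 → ℤ) : ℕ := ctn (qf y)

/-- the primitive vector -/
def xv (y : Fin 4 → ℤ) : Fin 3 → ℤ := fun j => qf y j / (ct y : ℕ)

theorem dvd_ct {y : Fin 4 → ℤ} {n : ℕ} : n ∣ ct y ↔ ∀ j, (n:ℤ) ∣ qf y j := dvd_ctn

theorem gq_eq (Q : ℕ) (y : Fin 4 → ℤ) : gq Q y = Nat.gcd Q (ct y) := rfl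

theorem ct_pos {y : Fin 4 → ℤ} (h : qf y ≠ 0) : 0 < ct y := by
  rcases Nat.eq_zero_or_pos (ct y) with h0 | h0
  · exfalso
    apply h
    funext j
    have := (dvd_ct (y := y) (n := ct y)).1 dvd_rfl j
    rw [h0] at this
    simpa using this
  · exact h0

theorem qf_eq_smul (y : Fin 4 → ℤ) : qf y = ((ct y : ℕ):ℤ) • xv y := by
  funext j
  simp only [xv, Pi.smul_apply, smul_eq_mul]
  exact (Int.mul_ediv_cancel' ((dvd_ct (y := y) (n := ct y)).1 dvd_rfl j)).symm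

theorem prim_xv {y : Fin 4 → ℤ} (h : qf y ≠ 0) : Prim (xv y) := by
  rw [prim_iff_prime]
  intro p hp
  by_contra hcon
  push Not at hcon
  have h1 : p * ct y ∣ ct y := by
    rw [dvd_ct]
    intro j
    rw [congrFun (qf_eq_smul y) j]
    simp only [Pi.smul_apply, smul_eq_mul]
    push_cast
    rw [mul_comm]
    exact mul_dvd_mul_left _ (hcon j)
  have h2 := Nat.le_of_dvd (ct_pos h) h1
  have h3 := hp.two_le
  have h4 := ct_pos h
  nlinarith

theorem inc_xv {y : Fin 4 → ℤ} (h : qf y ≠ 0) : Inc (xv y) y := by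
  have hi := inc_qf y
  have hc : ((ct y : ℕ):ℤ) ≠ 0 := by exact_mod_cast (ct_pos h).ne'
  rw [qf_eq_smul y] at hi
  obtain ⟨i1, i2⟩ := hi
  simp only [Pi.smul_apply, smul_eq_mul] at i1 i2
  constructor
  · have : ((ct y : ℕ):ℤ) * (xv y 0 * y 0 + xv y 1 * y 1 + xv y 2 * y 2) = 0 := by
      linear_combination i1
    exact (mul_eq_zero.1 this).resolve_left hc
  · have : ((ct y : ℕ):ℤ) * (xv y 0 * y 1 + xv y 1 * y 2 + xv y 2 * y 3) = 0 := by
      linear_combination i2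
    exact (mul_eq_zero.1 this).resolve_left hc

theorem xv_unique {y : Fin 4 → ℤ} {x : Fin 3 → ℤ} (hx : Prim x) (h : Inc x y) (hq : qf y ≠ 0) :
    x = xv y ∨ x = -xv y := by
  obtain ⟨c, hc⟩ := h.exists_mul hx
  have hc0 : c ≠ 0 := by
    rintro rfl
    exact hq (by rw [hc, zero_smul])
  have h1 : (c.natAbs : ℕ) ∣ ct y := by
    rw [dvd_ct]
    intro j
    rw [hc, Int.natAbs_dvd]
    exact Dvd.intro _ rfl
  have h2 : ((ct y : ℕ):ℤ) ∣ c := by
    obtain ⟨b, hb⟩ := hx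
    have : c = ∑ i, b i * qf y i := by
      rw [hc]
      simp only [Pi.smul_apply, smul_eq_mul]
      calc c = c * ∑ i, b i * x i := by rw [hb, mul_one]
        _ = _ := by rw [mul_sum]; refine sum_congr rfl fun i _ => ?_; ring
    rw [this]
    exact Finset.dvd_sum fun i _ => ((dvd_ct (y := y) (n := ct y)).1 dvd_rfl i).mul_left _
  have h3 : ct y = c.natAbs := by
    apply Nat.dvd_antisymm _ h1
    rw [← Int.natCast_dvd_natCast, Int.dvd_natAbs]
    exact h2
  have h4 := qf_eq_smul y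
  rw [hc, h3] at h4
  rcases Int.natAbs_eq c with h5 | h5
  · left
    funext j
    have h6 := congrFun h4 j
    simp only [Pi.smul_apply, smul_eq_mul] at h6
    rw [← h5] at h6
    exact mul_left_cancel₀ hc0 h6
  · right
    funext j
    have h6 := congrFun h4 j
    simp only [Pi.smul_apply, smul_eq_mul] at h6
    have h7 : c * x j = c * (-xv y j) := by
      rw [h6]
      have : ((c.natAbs : ℕ) : ℤ) = -c := by omega
      rw [this]; ring
    exact mul_left_cancel₀ hc0 h7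

/-- the pairs with a large first vector -/
def regA (M : (Fin 3 → ℝ) → (Fin 4 → ℝ) → ℝ) (f : (Fin 3 → ℤ) → (Fin 4 → ℤ) → ℝ) (B R : ℝ) :
    Set XY := {q | q ∈ pairSet M f B ∧ R < nrm q.1}

/-- the second vectors -/
def YA (M : (Fin 3 → ℝ) → (Fin 4 → ℝ) → ℝ) (f : (Fin 3 → ℤ) → (Fin 4 → ℤ) → ℝ) (B R : ℝ) :
    Set (Fin 4 → ℤ) := {y | Prim y ∧ qf y ≠ 0 ∧ M (castv (xv y)) (castv y) * f (xv y) y ≤ B ∧
      R < nrm (xv y)}

theorem nrm_neg {n : ℕ} (x : Fin n → ℤ) : nrm (-x) = nrm x := by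
  have := nrm_smul_int (-1) x
  rw [neg_one_smul] at this
  rw [this]
  push_cast
  rw [abs_neg, abs_one, one_mul]

variable {M : (Fin 3 → ℝ) → (Fin 4 → ℝ) → ℝ} {f : (Fin 3 → ℤ) → (Fin 4 → ℤ) → ℝ}

theorem neg_M (hM : IsLocalNorm ℝ M) {x : Fin 3 → ℤ} {y : Fin 4 → ℤ} (hx : x ≠ 0) (hy : y ≠ 0)
    (h : Inc x y) : M (castv (-x)) (castv y) = M (castv x) (castv y) := by
  have h1 := hM.scale (castv x) (castv y) (castv_ne_zero hx) (castv_ne_zero hy) (inc_castv h)
    (-1) 1 (by norm_num) (by norm_num)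
  have h2 : castv (-x) = (-1 : ℝ) • castv x := by
    funext i
    simp [castv]
  rw [h2]
  rw [one_smul] at h1
  rw [h1]
  simp

theorem neg_f {S : ℕ} {f0 f1 : ℝ} (hf : Tame f S f0 f1) {x : Fin 3 → ℤ} {y : Fin 4 → ℤ}
    (hx : Prim x) (hy : Prim y) (h : Inc x y) : f (-x) y = f x y := by
  have := hf.unit x y (hx.pm S) (hy.pm S) h (-1) 1 (isCoprime_one_left.neg_left) isCoprime_one_left
  rwa [neg_one_smul, one_smul] at this

theorem regA_eq (hM : IsLocalNorm ℝ M) {S : ℕ} {f0 f1 : ℝ} (hf : Tame f S f0 f1) (B R : ℝ) :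
    regA M f B R = (fun y => (xv y, y)) '' YA M f B R ∪ (fun y => (-xv y, y)) '' YA M f B R := by
  ext ⟨x, y⟩
  constructor
  · rintro ⟨⟨a1, a2, a3, a4, a5⟩, a6⟩
    simp only at a1 a2 a3 a4 a5 a6
    rcases xv_unique a1 a3 a4 with h | h
    · left
      exact ⟨y, ⟨a2, a4, by rw [← h]; exact a5, by rw [← h]; exact a6⟩, by simp only [h]⟩
    · right
      have h' : xv y = -x := by rw [h, neg_neg]
      refine ⟨y, ⟨a2, a4, ?_, ?_⟩, by simp only [h]⟩
      · rw [h', neg_M hM a1.ne_zero a2.ne_zero a3, neg_f hf a1 a2 a3]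
        exact a5
      · rw [h', nrm_neg]; exact a6
  · rintro (⟨z, ⟨b1, b2, b3, b4⟩, hz⟩ | ⟨z, ⟨b1, b2, b3, b4⟩, hz⟩)
    · obtain ⟨rfl, rfl⟩ := Prod.mk.inj hz
      exact ⟨⟨prim_xv b2, b1, inc_xv b2, b2, b3⟩, b4⟩
    · obtain ⟨rfl, rfl⟩ := Prod.mk.inj hz
      refine ⟨⟨(prim_xv b2).neg, b1, ?_, b2, ?_⟩, ?_⟩
      · have := (inc_xv b2).smul (-1) 1
        rwa [neg_one_smul, one_smul] at this
      · simp only
        rw [neg_M hM (prim_xv b2).ne_zero b1.ne_zero (inc_xv b2), neg_f hf (prim_xv b2) b1 (inc_xv b2)]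
        exact b3
      · simp only
        rw [nrm_neg]; exact b4

theorem ncard_regA (hM : IsLocalNorm ℝ M) {S : ℕ} {f0 f1 : ℝ} (hf : Tame f S f0 f1) (B R : ℝ)
    (hfin : (YA M f B R).Finite) :
    (regA M f B R).Finite ∧ (regA M f B R).ncard = 2 * (YA M f B R).ncard := by
  rw [regA_eq hM hf]
  refine ⟨(hfin.image _).union (hfin.image _), ?_⟩
  rw [Set.ncard_union_eq _ (hfin.image _) (hfin.image _), Set.ncard_image_of_injective,
    Set.ncard_image_of_injective]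
  · ring
  · intro a b h; exact congrArg Prod.snd h
  · intro a b h; exact congrArg Prod.snd h
  · rw [Set.disjoint_left]
    rintro _ ⟨y, hy, rfl⟩ ⟨z, hz, hyz⟩
    obtain ⟨h1, h2⟩ := Prod.mk.inj hyz
    rw [h2] at h1
    have h3 : xv y = 0 := by
      funext i
      have := congrFun h1 i
      simp only [Pi.neg_apply] at this
      simp only [Pi.zero_apply]
      omega
    exact (prim_xv hy.2.1).ne_zero h3

/-- the height in terms of the second vector -/
theorem FF_castv (hM : IsLocalNorm ℝ M) {y : Fin 4 → ℤ} (hy : y ≠ 0) (h : qf y ≠ 0) :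
    FF M (castv y) = ct y * M (castv (xv y)) (castv y) := by
  have h1 : qf (castv y) ≠ 0 := by rw [qf_castv]; exact castv_ne_zero h
  rw [FF_eq h1, qf_castv]
  have h2 : castv (qf y) = ((ct y : ℕ) : ℝ) • castv (xv y) := by
    funext i
    have := congrFun (qf_eq_smul y) i
    simp only [Pi.smul_apply, smul_eq_mul] at this
    simp only [castv, Pi.smul_apply, smul_eq_mul]
    exact_mod_cast congrArg (Int.cast : ℤ → ℝ) this
  have h3 := hM.scale (castv (xv y)) (castv y) (castv_ne_zero (prim_xv h).ne_zero)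
    (castv_ne_zero hy) (inc_castv (inc_xv h)) ((ct y : ℕ) : ℝ) 1
    (by exact_mod_cast (ct_pos h).ne') one_ne_zero
  rw [one_smul] at h3
  rw [h2, h3]
  simp

theorem nrm_qf_eq (y : Fin 4 → ℤ) : nrm (qf y) = ct y * nrm (xv y) := by
  conv_lhs => rw [qf_eq_smul y]
  rw [nrm_smul_int]
  simp

end Pool.Agent.Lib.MP_1acd66_nt.Tw
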